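import Pool.Agent.W_448w4_h70.WH
import Pool.Agent.W_448cl_h67.ClK

/-!
# The exact orders of the components at window `4` (MP_448cb3_co, S7, `12 ≤ j ≤ 16`)
-/

namespace Pool.Agent.GaussPoset.W4

set_option linter.unusedSectionVars false

open Polynomial Finset Sm Wd

universe u

variable {P : Type u} [Fintype P] [PartialOrder P] [DecidableEq P] {r j : ℕ}

lemma lateW4_word : ∀ v ∈ lateW 4, 7 ≤ v.length → v.length ≤ 12 → v = Cl.w7.take v.length := by
  decide +kernel

/-- a late component with two elements on the level `4` is `E7` -/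
theorem late_e7 {lo hi : ℕ → ℕ} (h : LateC j lo hi 4) (h11 : 11 ≤ j) (h16 : j ≤ 16) :
    Cl.WordD j 4 Cl.w7 lo hi := by
  have h1 := h.word
  unfold wds at h1
  rw [if_neg (by omega), if_neg (by omega), List.append_nil] at h1
  have h2 : (word lo hi 4 (j - 4)).length = j - 4 := word_length
  have h3 := lateW4_word _ h1 (by omega) (by omega)
  rw [h2] at h3
  exact ⟨h.low, h.at_a, h3⟩

/-- the types of the components at the windows `3` and `4`, with the letters -/
inductive TypeF (j : ℕ) (t : Tops P) (lo hi : ℕ → ℕ) (N : Finset P) (θ3 θ4 : P → ℕ) : Prop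
  | light (h1 : N = onlyB t) (h2 : θ3 = fun x => lev x - 3) (h2' : θ4 = fun x => lev x - 4)
      (h5 : ∀ x, x ≤ (t : P) → lev x ≤ j → x ∈ onlyB t) (e3 : lo 3 = hi 3) (e4 : lo 4 = hi 4)
  | e7 (h1 : N = onlyB t) (h2 : θ3 = fun x => lev x - 3) (h2' : θ4 = fun x => lev x - 4)
      (h5 : ∀ x, x ≤ (t : P) → lev x ≤ j → x ∈ onlyB t) (e3 : lo 3 = hi 3) (e4 : lo 4 = 0 ∧ hi 4 = 1)
      (D : Cl.WordD j 4 Cl.w7 lo hi)
  | rect (c : ℕ) (Nc : Finset P) (co : P → ℕ × ℕ) (h0 : RectNat j 4 t c Nc co)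
      (h0' : RectNat j 3 t (min c 4) Nc co) (h1 : N = natR Nc co)
      (h2 : θ3 = thR 3 (min c 4) Nc co) (h2' : θ4 = thR 4 c Nc co)
      (pen : ∀ x z, x ≤ (t : P) → lev x = j → (Win.uc x).card = 2 → z ⋖ x →
        ¬ ∀ y, z ⋖ y → y = x) (e3 : lo 3 < hi 3) (e4 : c = hi 4 - lo 4 + 1)
  | stair (Nc : Finset P) (co : P → ℕ × ℕ) (h0 : StairNat j 4 t Nc co)
      (h0' : StairNat j 3 t Nc co) (h1 : N = natS Nc co)
      (h2 : θ3 = thS 3 Nc co) (h2' : θ4 = thSg 2 4 Nc co)
      (pen : ∀ x z, x ≤ (t : P) → lev x = j → (Win.uc x).card = 2 → z ⋖ x →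
        (∀ y, z ⋖ y → y = x) → (co x).2 = (co x).1 + 1 ∨ (co x).2 = (co x).1 + 3)
      (e3 : lo 3 < hi 3) (e4 : hi 4 - lo 4 + 1 = 3)

lemma TypeF.typeY {t : Tops P} {lo hi : ℕ → ℕ} {N : Finset P} {θ3 θ4 : P → ℕ}
    (T : TypeF j t lo hi N θ3 θ4) : TypeY j t N θ3 θ4 := by
  rcases T with ⟨h1, h2, h2', h5, -, -⟩ | ⟨h1, h2, h2', h5, -, -, -⟩ |
    ⟨c, Nc, co, h0, h0', h1, h2, h2', pen, -, -⟩ | ⟨Nc, co, h0, h0', h1, h2, h2', pen, -, -⟩
  · exact TypeY.light h1 h2 h2' h5
  · exact TypeY.light h1 h2 h2' h5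
  · exact TypeY.rect c Nc co h0 h0' h1 h2 h2' pen
  · exact TypeY.stair Nc co h0 h0' h1 h2 h2' pen

open Cp

/-- every component has a type with its letters -/
theorem exists_typeF (h : Win.GoodTo P r j) (hj : 12 ≤ j) (h16 : j ≤ 16) {t : Tops P}
    {lo hi : ℕ → ℕ} {e : ℕ → ℕ → P} (C : Comp j (t : P) lo hi e) (S : Shape j lo hi) :
    ∃ N θ3 θ4, TypeF j t lo hi N θ3 θ4 ∧ TypeX j 3 t (hi 3 - lo 3 + 1) N θ3 ∧
      TopType j 3 t (hi 3 - lo 3 + 1) N θ3 := by
  have H := h.H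
  have hg := h.good
  have hlo := C.lo_le 3 (by omega)
  have hlo4 := C.lo_le 4 (by omega)
  have hlo5 := C.lo_le 5 (by omega)
  have hls : lo 4 = lo 3 ∨ lo 4 = lo 3 + 1 := C.lo_step 3 (by omega)
  have hhs : hi 4 = hi 3 ∨ hi 4 = hi 3 + 1 := C.hi_step 3 (by omega)
  have hls5 : lo 5 = lo 4 ∨ lo 5 = lo 4 + 1 := C.lo_step 4 (by omega)
  have hii : hi 3 ≤ 3 := C.hi_le (by omega)
  have hii4 : hi 4 ≤ 4 := C.hi_le (by omega)
  by_cases hl : lo 3 = hi 3
  · have h5 : ∀ x, x ≤ (t : P) → lev x ≤ j → x ∈ onlyB t := by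
      intro x hx hxi
      rw [mem_onlyB]
      intro s hs hxs
      exact top_eq H hg hxi hs t.2 hxs hx
    have hX : TypeX j 3 t (hi 3 - lo 3 + 1) (onlyB t) (fun x => lev x - 3) := by
      rw [hl, Nat.sub_self]
      exact TypeX.light rfl rfl rfl h5
    have hT : TopType j 3 t (hi 3 - lo 3 + 1) (onlyB t) (fun x => lev x - 3) := by
      rw [hl, Nat.sub_self]
      exact type_light H hg C (by omega)
    rcases shape_cases C (by omega) S with g | g | ⟨a, g, g3⟩
    · exact ⟨_, _, _, TypeF.light rfl rfl rfl h5 hl (g 4 (by omega)), hX, hT⟩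
    · refine ⟨_, _, _, TypeF.light rfl rfl rfl h5 hl ?_, hX, hT⟩
      rcases g with g | g
      · have f1 : lo 4 = 0 ∨ lo 4 = lo 3 + 1 := g.lo 3 (by omega)
        have f2 : hi 4 = 4 ∨ hi 4 = hi 3 := g.hi 3 (by omega)
        omega
      · have f1 : lo 4 = 0 ∨ lo 4 = lo 3 + 1 := g.lo 3 (by omega)
        have f2 : hi 3 = 3 / 2 := g.hi 3 (by omega)
        have f3 : hi 4 = 4 / 2 := g.hi 4 (by omega)
        omega
    · have h4 := g.four (by omega)
      rcases Nat.lt_or_ge 4 a with ha | ha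
      · have := g.low 4 ha
        exact ⟨_, _, _, TypeF.light rfl rfl rfl h5 hl (by omega), hX, hT⟩
      · obtain rfl : a = 4 := by omega
        exact ⟨_, _, _, TypeF.e7 rfl rfl rfl h5 hl g.at_a (late_e7 g (by omega) h16), hX, hT⟩
  · have hlt : lo 3 < hi 3 := by omega
    obtain ⟨j', rfl⟩ : ∃ j', j = j' + 1 := ⟨j - 1, by omega⟩
    have hT : RectShape (j' + 1) lo hi ∨ StairShape (j' + 1) lo hi := by
      rcases shape_cases C (by omega) S with g | g | ⟨a, g, g3⟩
      · exact absurd (g 3 (by omega)) hl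
      · exact g
      · have h4 := g.four (by omega)
        have := g.low 3 (by omega)
        omega
    rcases hT with hT | hT
    · have f1 : lo 4 = 0 ∨ lo 4 = lo 3 + 1 := hT.lo 3 (by omega)
      have f2 : hi 4 = 4 ∨ hi 4 = hi 3 := hT.hi 3 (by omega)
      have f3 : lo 4 = 0 ∨ hi 4 = 4 := by
        by_contra hcon
        have e1 := shape_lo C hT.lo (l := 4) (by omega) 4 (by omega)
        have e2 := shape_hi C hT.hi (l := 4) (by omega) 4 (by omega)
        have e3 := C.lo_le (4 + 4) (by omega)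
        omega
      have hb : min (hi 4 - lo 4 + 1) 4 = hi 3 - lo 3 + 1 := by omega
      obtain ⟨N, co, h1, -⟩ := exists_rect C H hg H.gradedBelow hT (i := 4) (by omega) (by omega)
      have h3 := rectNat_three h1
      have pen : ∀ x z, x ≤ (t : P) → lev x = j' + 1 → (Win.uc x).card = 2 → z ⋖ x →
          ¬ ∀ y, z ⋖ y → y = x := fun x z hxt hlx hx2 hzx honly =>
        rectShape_no_pendant h (by omega) t.2 C hT hlx hxt hx2 hzx honly
      refine ⟨_, _, _, TypeF.rect _ N co h1 h3 rfl rfl rfl pen hlt rfl, ?_, ?_⟩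
      · rw [← hb]
        exact TypeX.rect N co h3 rfl rfl pen
      · rw [← hb]
        exact TopType.rect N co h3 rfl rfl (by omega)
    · have h2 : hi 3 = 3 / 2 := hT.hi 3 (by omega)
      have h2' : hi 4 = 4 / 2 := hT.hi 4 (by omega)
      have h0 : lo 4 = 0 := by
        by_contra hcon
        have e1 := shape_lo C hT.lo (l := 4) (by omega) 4 (by omega)
        have e2 := hT.hi (4 + 4) (by omega)
        have e3 := C.lo_le (4 + 4) (by omega)
        omega
      obtain ⟨N, co, h1, h1'⟩ := exists_stair C H hg H.gradedBelow hT (i := 4) (by omega)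
      have h3 := stairNat_three h1
      have hb : hi 3 - lo 3 + 1 = 3 / 2 + 1 := by omega
      have pen : ∀ x z, x ≤ (t : P) → lev x = j' + 1 → (Win.uc x).card = 2 → z ⋖ x →
          (∀ y, z ⋖ y → y = x) → (co x).2 = (co x).1 + 1 ∨ (co x).2 = (co x).1 + 3 := by
        intro x z hxt hlx hx2 hzx honly
        rw [h1' x (mem_lowPart.mpr ⟨hxt, by omega⟩)]
        exact stairShape_pendant h (by omega) t.2 C hT hlx hxt hx2 hzx honly
      exact ⟨_, _, _, TypeF.stair N co h1 h3 rfl rfl rfl pen hlt (by omega),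
        TypeX.stair N co h3 rfl rfl hb (by omega) pen,
        TopType.stair N co h3 rfl rfl hb (by omega) (by omega)⟩
section Context

variable {lo hi : Tops P → ℕ → ℕ} {e : Tops P → ℕ → ℕ → P}

/-- a system of natural sets for the windows `3` and `4`, with the letters and the exact orders -/
structure SyF (P : Type u) [Fintype P] [PartialOrder P] [DecidableEq P] (j : ℕ)
    (lo hi : Tops P → ℕ → ℕ) (N : Tops P → Finset P) (θ3 θ4 : Tops P → P → ℕ) : Prop where
  sy : Sy P j lo hi N θ3 θ4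
  typF : ∀ t, TypeF j t (lo t) (hi t) (N t) (θ3 t) (θ4 t)
  sum4 : ∑ t, (hi t 4 - lo t 4 + 1) = (lv P 4).card

/-- **the strips at the windows `3` and `4`, exact orders** -/
theorem exists_syF (K : Ctx P r j lo hi e) (h12 : 12 ≤ j) : ∃ N θ3 θ4, SyF P j lo hi N θ3 θ4 := by
  have H := K.gt.H
  choose N θ3 θ4 h1 h2 h3 using fun t =>
    exists_typeF K.gt h12 K.h16 (K.comp t) (K.shape t)
  refine ⟨N, θ3, θ4, ⟨fun t => (h1 t).typeY, h2, h3,
    (card_level H K.gt.good K.comp (by omega)).symm, ?_⟩, h1,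
    (card_level H K.gt.good K.comp (by omega)).symm⟩
  intro t ht x y hx hy hlx hly
  have e1 := (K.comp t).lo_le 3 (by omega)
  obtain ⟨s, a1, a2, a3⟩ := (K.comp t).surj x hx (by omega)
  obtain ⟨s', b1, b2, b3⟩ := (K.comp t).surj y hy (by omega)
  rw [hlx] at a1 a2 a3
  rw [hly] at b1 b2 b3
  simp only at ht
  rw [← a3, ← b3, show s = s' by omega]

end Context

end Pool.Agent.GaussPoset.W4
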