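import Pool.Agent.W_448w4_h70.WI

/-!
# The numbers of the windows `3`, `4`, second list (MP_448cb3_co, S7, `j = 12, 14, 15, 16`)
-/

namespace Pool.Agent.GaussPoset.W4

set_option linter.unusedSectionVars false

open Polynomial Finset Sm

/-- smaller caps at window `4`, larger least costs at window `3` -/
theorem Nm.mono {j K V3 K' V3' : ℕ} (n : Nm j K V3) (hK : K' ≤ K) (hV : V3 ≤ V3') :
    Nm j K' V3' where
  hj := n.hj
  k3 := by have := n.k3; omega
  kk := by have := n.kk; omega
  st1 := fun L hL a ha => by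
    have h := n.st1 L hL a ha
    unfold SB at h ⊢
    omega
  st3 := fun a ha => by have h := n.st3 a ha; omega
  re1 := fun L hL a ha => by
    have h := n.re1 L hL a ha
    unfold RB at h ⊢
    omega
  re3 := fun a ha => by have h := n.re3 a ha; omega
  fl := fun h => by have h := n.fl h; omega
  fo1 := fun h => by have h := n.fo1 h; omega
  fo2 := fun h => by have h := n.fo2 h; omega
  own := fun t ht m hm h1 h2 => by
    have h := n.own t ht m hm h1 (h2.trans hK)
    split_ifs at h ⊢ <;> omega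
  row := fun t ht h1 => by
    have h := n.row t ht (h1.trans (by omega))
    refine ⟨h.1.trans hV, fun h2 => (h.2 (h2.trans hK)).trans_le hV⟩

theorem nm_12_31 : Nm 12 (9 ^ 2 + 31) (10 ^ 2 + 37) := by
  constructor <;> decide +kernel

theorem nm_12_45 : Nm 12 (9 ^ 2 + 45) (10 ^ 2 + 49) := by
  constructor <;> decide +kernel

theorem nm_12_46 : Nm 12 (9 ^ 2 + 46) (10 ^ 2 + 58) := by
  constructor <;> decide +kernel

theorem nm_14_43 : Nm 14 (11 ^ 2 + 43) (12 ^ 2 + 39) := by
  constructor <;> decide +kernel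

theorem nm_14_66 : Nm 14 (11 ^ 2 + 66) (12 ^ 2 + 72) := by
  constructor <;> decide +kernel

theorem nm_14_67 : Nm 14 (11 ^ 2 + 67) (12 ^ 2 + 73) := by
  constructor <;> decide +kernel

theorem nm_15_71 : Nm 15 (12 ^ 2 + 71) (13 ^ 2 + 78) := by
  constructor <;> decide +kernel

theorem nm_15_75 : Nm 15 (12 ^ 2 + 75) (13 ^ 2 + 81) := by
  constructor <;> decide +kernel

theorem nm_16_64 : Nm 16 (13 ^ 2 + 64) (14 ^ 2 + 61) := by
  constructor <;> decide +kernel

theorem nm_16_75 : Nm 16 (13 ^ 2 + 75) (14 ^ 2 + 81) := by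
  constructor <;> decide +kernel

theorem nm_16_80 : Nm 16 (13 ^ 2 + 80) (14 ^ 2 + 91) := by
  constructor <;> decide +kernel

/-- the energies for `j = 16` -/
theorem de_16 : ∀ a ∈ Finset.Icc 1 (16 / 2), 144 ≤ deC 16 a := by decide +kernel

end Pool.Agent.GaussPoset.W4
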