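import Pool.Agent.W_448pg_h74.PgB
import Pool.Agent.W_448bf_h61.BC
import Pool.Agent.W_448s7_h5.SevF

/-!
Two peaks; parts with a large bound at two elements; the product over the parts for frozen labels;
larger labels in the far window theorem (MP_448cb3_co, S7, windows 2, 3).
-/

namespace Pool.Agent.GaussPoset

set_option linter.unusedSectionVars false

open Polynomial Finset

universe u

namespace F4

section Two

variable {Q : Type u} [Fintype Q] [PartialOrder Q] [DecidableEq Q]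

/-- a peak above `u` -/
lemma exists_pk_above {i : ℕ} {u v : Q} (hu : i ≤ lev u) (hc : ∀ z, u ≤ z ∨ v ≤ z) (e : Q → ℕ)
    (hneg : ∀ z, u ≤ z → v ≤ z → rho i e z < 0) : ∃ w ∈ Pk i e, u ≤ w ∧ 0 ≤ rho i e w := by
  classical
  obtain ⟨a, ha1, ha⟩ := Finset.exists_max_image (univ.filter (fun y : Q => u ≤ y))
    (fun y => rho i e y) ⟨u, by simp⟩
  have hau : u ≤ a := by simpa using ha1
  have hmax : ∀ y, u ≤ y → rho i e y ≤ rho i e a := fun y hy => ha y (by simpa using hy)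
  let S : Finset Q := univ.filter (fun y => u ≤ y ∧ rho i e y = rho i e a)
  obtain ⟨w, hw⟩ := S.exists_maximal ⟨a, by simp [S, hau]⟩
  have hw1 : u ≤ w ∧ rho i e w = rho i e a := by simpa [S] using hw.1
  have h0 : 0 ≤ rho i e a := by
    have h1 := hmax u le_rfl
    have h2 : 0 ≤ rho i e u := by unfold rho; omega
    exact h2.trans h1
  refine ⟨w, ?_, hw1.1, by rw [hw1.2]; exact h0⟩
  simp only [Pk, mem_filter, mem_univ, true_and]
  constructor
  · rintro (h1 | ⟨z, hz, h1⟩)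
    · rw [hw1.2] at h1; omega
    · rcases hc z with h2 | h2
      · rw [hw1.2] at h1
        exact absurd (hmax z h2) (not_le.mpr h1)
      · have h3 := hneg w hw1.1 (h2.trans hz.le)
        rw [hw1.2] at h3
        omega
  · rintro ⟨y, hy, h1⟩
    have h2 : rho i e y = rho i e a :=
      le_antisymm (hmax y (hw1.1.trans hy.le)) (by rw [← hw1.2]; exact h1)
    have h3 : y ∈ S := by simp [S, h2, hw1.1.trans hy.le]
    exact absurd (hw.2 h3 hy.le) (not_le_of_gt hy)

/-- two elements far apart give two peaks -/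
lemma two_le_pk {i c : ℕ} {x1 x2 : Q} (h1 : i ≤ lev x1) (h2 : i ≤ lev x2)
    (hc : ∀ z, x1 ≤ z ∨ x2 ≤ z) (hb : ∀ z, x1 ≤ z → x2 ≤ z → lev z + c < i) (e : Q → ℕ)
    (he : ∑ x, e x ≤ c) : 2 ≤ (Pk i e).card := by
  classical
  have hneg : ∀ z, x1 ≤ z → x2 ≤ z → rho i e z < 0 := by
    intro z g1 g2
    have g3 := hb z g1 g2
    have g4 : e z ≤ ∑ x, e x := Finset.single_le_sum (fun _ _ => Nat.zero_le _) (mem_univ z)
    unfold rho
    omega
  obtain ⟨w1, a1, b1, c1⟩ := exists_pk_above h1 hc e hneg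
  obtain ⟨w2, a2, b2, c2⟩ := exists_pk_above h2 (fun z => (hc z).symm) e
    (fun z g1 g2 => hneg z g2 g1)
  have hne : w1 ≠ w2 := by
    rintro rfl
    have := hneg _ b1 b2
    omega
  have h3 : ({w1, w2} : Finset Q) ⊆ Pk i e := by
    intro x hx
    rw [mem_insert, mem_singleton] at hx
    rcases hx with rfl | rfl
    · exact a1
    · exact a2
  have h4 := Finset.card_le_card h3
  rwa [Finset.card_pair hne] at h4

/-- order two for small energies -/
theorem dvd_Z_two {i c : ℕ} {x1 x2 : Q} (h1 : i ≤ lev x1) (h2 : i ≤ lev x2)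
    (hc : ∀ z, x1 ≤ z ∨ x2 ≤ z) (hb : ∀ z, x1 ≤ z → x2 ≤ z → lev z + c < i) :
    (1 + X : ℤ[X]) ^ 2 ∣ Z Q i c := by
  classical
  unfold Z
  refine Finset.dvd_sum fun e he => ?_
  rw [mem_piAntidiag] at he
  split_ifs with h
  · exact dvd_mul_of_dvd_right (pow_dvd_pow _ (two_le_pk h1 h2 hc hb e he.1.le)) _
  · exact dvd_zero _

end Two

section Part

variable {P : Type u} [Fintype P] [PartialOrder P] [DecidableEq P]
variable {p : P → Prop} [DecidablePred p]

/-- the energy forced by the label `k` at `f` and `s` -/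
noncomputable def Efs (i k : ℕ) (f s : P) : ℕ := by
  classical exact ∑ y ∈ univ.filter (fun y => f ≤ y ∨ s ≤ y), min k (lev y - i)

/-- the energy of a configuration with large labels at `f` and `s` -/
lemma Efs_le (hp : ∀ x y, x ≤ y → p x → p y) {i k : ℕ} {f s : P} (hf : p f) (hs : p s)
    {B : {x // p x} → ℕ} (hBf : k ≤ B ⟨f, hf⟩) (hBs : k ≤ B ⟨s, hs⟩)
    {e : {x // p x} → ℕ} {F : Finset {x // p x}} (h : Cst i ∅ 0 B e F) :
    Efs i k f s ≤ ∑ x, e x := by
  classical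
  rw [cst_empty_iff] at h
  obtain ⟨hV, hB⟩ := h
  have hl : ∀ x : {x // p x}, lev x = lev (x : P) := lev_subtype hp
  have hmem : ∀ x : {x // p x}, k ≤ B x → x ∈ upL i k e F := by
    intro x hx
    rw [mem_upL]
    by_cases hxF : x ∈ F
    · exact Or.inl hxF
    · right
      have h1 : (k : ℤ) ≤ B x := by exact_mod_cast hx
      exact h1.trans (hB x hxF)
  have hup : ∀ x : {x // p x}, (f ≤ x ∨ s ≤ x) → x ∈ upL i k e F := by
    intro x hx
    rcases hx with hx | hx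
    · exact upL_up hV (x := ⟨f, hf⟩) hx (hmem _ hBf)
    · exact upL_up hV (x := ⟨s, hs⟩) hx (hmem _ hBs)
  have hge : ∀ x ∈ upL i k e F, min k (lev (x : P) - i) ≤ e x := by
    intro x hx
    rw [mem_upL] at hx
    rcases hx with hx | hx
    · have := sub_le_of_mem hV hx
      rw [hl] at this
      exact (Nat.min_le_right _ _).trans this
    · unfold rho at hx
      have : k ≤ e x := by omega
      exact (Nat.min_le_left _ _).trans this
  have h1 : Efs i k f s ≤ ∑ x ∈ upL i k e F, min k (lev (x : P) - i) := by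
    have h2 : ∑ x ∈ upL i k e F, min k (lev (x : P) - i) =
        ∑ y ∈ (upL i k e F).map (Function.Embedding.subtype p), min k (lev y - i) := by
      rw [Finset.sum_map]
      rfl
    rw [h2]
    unfold Efs
    refine Finset.sum_le_sum_of_subset ?_
    intro y hy
    rw [mem_filter] at hy
    rw [mem_map]
    have hpy : p y := by
      rcases hy.2 with h3 | h3
      · exact hp _ _ h3 hf
      · exact hp _ _ h3 hs
    exact ⟨⟨y, hpy⟩, hup _ hy.2, rfl⟩
  refine h1.trans ((Finset.sum_le_sum hge).trans ?_)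
  exact Finset.sum_le_sum_of_subset (Finset.subset_univ _)

/-- no configuration of smaller energy -/
theorem part_zero (hp : ∀ x y, x ≤ y → p x → p y) {i k : ℕ} {f s : P} (hf : p f) (hs : p s)
    {B : {x // p x} → ℕ} (hBf : k ≤ B ⟨f, hf⟩) (hBs : k ≤ B ⟨s, hs⟩) {n : ℕ}
    (hn : n < Efs i k f s) : ZB (P := {x // p x}) i ∅ 0 B n = 0 := by
  rw [ZB_eq_SC]
  refine SC_eq_zero fun e F h1 h2 => ?_
  have := Efs_le hp hf hs hBf hBs h1
  omega

/-- **order two of a part with large bounds at two far elements, for small own energies** -/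
theorem part_two (hp : ∀ x y, x ≤ y → p x → p y) {i k M c0 : ℕ} {f s : P} (hf : p f) (hs : p s)
    (h1 : i + k ≤ lev f) (h2 : i + k ≤ lev s)
    (hlow : ∀ y, p y → lev y ≤ M → f ≤ y ∨ s ≤ y) (hM : i + c0 ≤ M) (hk : c0 < k)
    (hb : ∀ y, f ≤ y → s ≤ y → lev y + c0 < i + k)
    {B : {x // p x} → ℕ} (hB : ∀ x, B x ≤ k) (hBf : B ⟨f, hf⟩ = k) (hBs : B ⟨s, hs⟩ = k) {n : ℕ}
    (hn : n ≤ Efs i k f s + c0) : (1 + X : ℤ[X]) ^ 2 ∣ ZB (P := {x // p x}) i ∅ 0 B n := by
  classical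
  refine ZB_dvd_upL (m := Efs i k f s + c0) hB (fun L hL hBL c hc => ?_) hn
  have hl : ∀ x : {x // p x}, lev x = lev (x : P) := lev_subtype hp
  have hfL : (⟨f, hf⟩ : {x // p x}) ∈ L := hBL _ hBf
  have hsL : (⟨s, hs⟩ : {x // p x}) ∈ L := hBL _ hBs
  have hsum : ∑ x ∈ L, min k (lev x - i) =
      ∑ y ∈ L.map (Function.Embedding.subtype p), min k (lev y - i) := by
    rw [Finset.sum_map]
    refine Finset.sum_congr rfl fun x _ => ?_
    rw [hl]
    rfl
  rw [hsum] at hc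
  have hsub : univ.filter (fun y : P => f ≤ y ∨ s ≤ y) ⊆
      L.map (Function.Embedding.subtype p) := by
    intro y hy
    rw [mem_filter] at hy
    rw [mem_map]
    rcases hy.2 with h3 | h3
    · exact ⟨⟨y, hp _ _ h3 hf⟩, hL ⟨f, hf⟩ _ h3 hfL, rfl⟩
    · exact ⟨⟨y, hp _ _ h3 hs⟩, hL ⟨s, hs⟩ _ h3 hsL, rfl⟩
  have hE : Efs i k f s ≤ ∑ y ∈ L.map (Function.Embedding.subtype p), min k (lev y - i) := by
    unfold Efs
    exact Finset.sum_le_sum_of_subset hsub
  have hall : ∀ x ∈ L, f ≤ (x : P) ∨ s ≤ (x : P) := by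
    intro x hx
    by_contra hcon
    have h3 : M < lev (x : P) := by
      by_contra h4
      exact hcon (hlow x x.2 (not_lt.mp h4))
    have h5 : insert (x : P) (univ.filter (fun y : P => f ≤ y ∨ s ≤ y)) ⊆
        L.map (Function.Embedding.subtype p) := by
      intro y hy
      rw [mem_insert] at hy
      rcases hy with rfl | hy
      · rw [mem_map]; exact ⟨x, hx, rfl⟩
      · exact hsub hy
    have h6 := Finset.sum_le_sum_of_subset (f := fun y : P => min k (lev y - i)) h5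
    rw [Finset.sum_insert (by
      rw [mem_filter]
      exact fun h => hcon h.2)] at h6
    have h7 : Efs i k f s = ∑ y ∈ univ.filter (fun y : P => f ≤ y ∨ s ≤ y), min k (lev y - i) := by
      unfold Efs
      rfl
    have h8 : c0 < min k (lev (x : P) - i) := by
      rw [lt_min_iff]
      omega
    omega
  have hlL : ∀ x : {x // x ∈ L}, lev x = lev ((x : {x // p x}) : P) := by
    intro x
    rw [lev_subtype (p := fun x => x ∈ L) hL x, hl]
  refine dvd_Z_two (x1 := ⟨⟨f, hf⟩, hfL⟩) (x2 := ⟨⟨s, hs⟩, hsL⟩) ?_ ?_ ?_ ?_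
  · rw [hlL]; exact h1
  · rw [hlL]; exact h2
  · intro z
    exact hall z.1 z.2
  · intro z g1 g2
    rw [hlL]
    have := hb (z : {x // p x}) g1 g2
    omega

end Part

section Fixed

variable {P : Type u} [Fintype P] [PartialOrder P] [DecidableEq P]
variable {ι : Type*} [Fintype ι] [DecidableEq ι]

open Classical in
/-- **The product over the parts for frozen labels.** -/
theorem zb_parts {i n : ℕ} {R : Finset P}
    (hR : ∀ x y, x ≤ y → y ∈ R → x ∈ R) (hRlev : ∀ x ∈ R, i < lev x) (cp : P → ι)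
    (hcp : ∀ x y, x ≤ y → x ∉ R → cp x = cp y) (b : ι → ℕ) (g : P → ℕ)
    (hfac : ∀ k m, m + ∑ x ∈ R, g x ≤ n → (1 + X : ℤ[X]) ^ (b k) ∣
      ZB (P := {x : P // x ∉ R ∧ cp x = k}) i ∅ 0
        (fun x => (R.filter (fun z => z ⋖ (x : P))).sup g) m) :
    (1 + X : ℤ[X]) ^ (∑ k, b k) ∣ ZB i R g 0 n := by
  set Q : (P → ℕ) → Finset P → Prop := fun e F => Vd i e F ∧ ∀ x ∈ R, x ∉ F ∧ e x = g x with hQ
  have h0 : ZB i R g 0 n = SC Q n := by
    rw [ZB_eq_SC]
    refine SC_congr (fun e F => ?_) n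
    constructor
    · rintro ⟨h1, h2, -⟩
      exact ⟨h1, h2⟩
    · rintro ⟨h1, h2⟩
      exact ⟨h1, h2, fun x _ hx => by simpa using h1.2.1 x hx⟩
  rw [h0, SC_eq_cfg]
  let φ : Finset P × (P → ℕ) → (ι → ℕ) := fun x k =>
    ∑ y ∈ univ.filter (fun y => y ∉ R ∧ cp y = k), x.2 y
  let s : Finset (ι → ℕ) := (cfg Q n).image φ
  have h1 : ∑ x ∈ cfg Q n, (X : ℤ[X]) ^ x.1.card =
      ∑ y ∈ s, ∑ x ∈ (cfg Q n).filter (fun x => φ x = y), (X : ℤ[X]) ^ x.1.card :=
    (Finset.sum_fiberwise_of_maps_to (fun x hx => mem_image_of_mem φ hx) _).symm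
  rw [h1]
  refine Finset.dvd_sum fun M hM => ?_
  obtain ⟨⟨F0, e0⟩, hx0, hφ0⟩ := mem_image.mp hM
  rw [mem_cfg] at hx0
  obtain ⟨hs0, hV0, hF0⟩ := hx0
  simp only at hs0 hV0 hF0
  have hM0 : ∀ k, ∑ y ∈ univ.filter (fun y => y ∉ R ∧ cp y = k), e0 y = M k :=
    fun k => congrFun hφ0 k
  have hmono : ∀ x ∈ R, ∀ y ∈ R, x ≤ y → g x ≤ g y := by
    intro x hx y hy hxy
    have h2 := hV0.2.2.1 x y hxy (hF0 x hx).1 (hF0 y hy).1
    rw [rho_of_lt (hRlev x hx), rho_of_lt (hRlev y hy), (hF0 x hx).2, (hF0 y hy).2] at h2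
    exact_mod_cast h2
  have hn : n = ∑ x ∈ R, g x + ∑ k, M k := by
    rw [← hs0, sum_parts R cp e0, Finset.sum_congr rfl (fun x hx => (hF0 x hx).2),
      Finset.sum_congr rfl (fun k _ => hM0 k)]
  have h2 : ∑ x ∈ (cfg Q n).filter (fun x => φ x = M), (X : ℤ[X]) ^ x.1.card =
      SC (fun e F => (Vd i e F ∧ ∀ x ∈ R, x ∉ F ∧ e x = g x) ∧
        ∀ k, ∑ x ∈ univ.filter (fun x => x ∉ R ∧ cp x = k), e x = M k) n := by
    rw [SC_eq_cfg]
    refine Finset.sum_congr ?_ (fun _ _ => rfl)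
    ext ⟨F, e⟩
    rw [mem_filter, mem_cfg, mem_cfg]
    simp only [φ, hQ]
    constructor
    · rintro ⟨⟨a1, a2, a3⟩, a5⟩
      exact ⟨a1, ⟨a2, a3⟩, fun k => congrFun a5 k⟩
    · rintro ⟨a1, ⟨a2, a3⟩, a4⟩
      exact ⟨⟨a1, a2, a3⟩, funext fun k => a4 k⟩
  rw [h2, SC_parts R cp g (fun e F => Vd i e F ∧ ∀ x ∈ R, x ∉ F ∧ e x = g x)
    (fun k => Cst (P := {x : P // InPart R cp k x}) i ∅ 0
        (fun x => (R.filter (fun z => z ⋖ (x : P))).sup g))
    (fun e F => vd_parts_iff hR hRlev cp hcp g hmono e F) M n hn]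
  rw [← Finset.prod_pow_eq_pow_sum]
  refine Finset.prod_dvd_prod_of_dvd _ _ fun k _ => ?_
  have hMn : M k + ∑ x ∈ R, g x ≤ n := by
    rw [hn, Nat.add_comm]
    exact Nat.add_le_add_left (Finset.single_le_sum (fun _ _ => Nat.zero_le _) (mem_univ k)) _
  have h3 := hfac k (M k) hMn
  have h4 : ZB (P := {x : P // x ∉ R ∧ cp x = k}) i ∅ 0
      (fun x => (R.filter (fun z => z ⋖ (x : P))).sup g) (M k) =
      SC (Cst (P := {x : P // InPart R cp k x}) i ∅ 0
        (fun x => (R.filter (fun z => z ⋖ (x : P))).sup g)) (M k) := by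
    rw [ZB_eq_SC]
    rfl
  rw [← h4]
  exact h3

end Fixed

end F4

section Raise

variable {P : Type u} [Fintype P] [PartialOrder P] [DecidableEq P]

/-- larger labels in the far window theorem -/
theorem FarX.raise {i : ℕ} {R : Finset P} {b : ℕ} {h h' θ : P → ℕ} {Tw : Finset (P × P)} {n0 : ℕ}
    (H : FarX P i R b h θ Tw n0) (hle : ∀ z ∈ bdR R, h z ≤ h' z)
    (hlev : ∀ z ∈ bdR R, h' z ≤ lev z - i)
    (hnew : ∀ g : P → ℕ, (∀ x, x ∉ R → g x = 0) → (∀ z ∈ bdR R, g z < h' z) →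
      (∃ z ∈ bdR R, h z ≤ g z) → (1 + X : ℤ[X]) ^ b ∣ ZB i R g 0 n0) :
    FarX P i R b h' θ Tw n0 where
  graded := H.graded
  hlev := H.hlev
  clean := by
    intro g g0 hg hne
    by_cases h1 : ∀ z ∈ bdR R, g z < h z
    · exact H.clean g g0 h1 hne
    · push Not at h1
      exact hnew g g0 hg h1
  zero := H.zero
  one_le := fun z hz => (H.one_le z hz).trans (hle z hz)
  le_lev := hlev

end Raise

end Pool.Agent.GaussPoset
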