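import Pool.Agent.W_448f4_h70.FC
import Pool.Agent.W_448s7s_h5.SlB

/-!
# The element below both ends of a stair with a fold (MP_448cb3_co, S7, windows `2`, `3`)

The far window theorem with the full label at this element.
-/

namespace Pool.Agent.GaussPoset

set_option linter.unusedSectionVars false

open Polynomial Finset

universe u

section Big

variable {P : Type u} [Fintype P] [PartialOrder P] [DecidableEq P]

/-- larger labels, part by part: only the parts in which a bound is larger than the threshold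
have to be treated -/
theorem farX_big {i : ℕ} {N : Tops P → Finset P} {b : Tops P → ℕ} {θ : Tops P → P → ℕ}
    {B : Tops P → P → Prop} {Y : Finset P} {τ : P → P}
    (hgr : GradedBelow P) (H : ∀ t, NatTop i t (b t) (N t) (θ t) (B t))
    (T : TwSys (unnat N) Y topOf τ) (n0 : ℕ)
    (htw : ∀ x ∈ Y, Twn i (thX Y τ (fun x => θ (topOf x) x)) (τ x, x))
    (hcost : ∀ x ∈ Y, n0 ≤ tcst i (thX Y τ (fun x => θ (topOf x) x)) (τ x, x))
    (h' : P → ℕ)
    (hle : ∀ z ∈ bdR (unnat N \ Y),
      hcan (unnat N \ Y) (thX Y τ (fun x => θ (topOf x) x)) z ≤ h' z)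
    (hlev : ∀ z ∈ bdR (unnat N \ Y), h' z ≤ lev z - i)
    (hbig : ∀ g : P → ℕ, (∀ x, x ∉ unnat N \ Y → g x = 0) →
      (∀ z ∈ bdR (unnat N \ Y), g z < h' z) → ∀ (x z : P), x ∉ unnat N \ Y → z ∈ unnat N \ Y →
      z ⋖ x → thX Y τ (fun x => θ (topOf x) x) x < g z → ∀ m,
      m + ∑ x ∈ unnat N \ Y, g x ≤ n0 → (1 + X : ℤ[X]) ^ (b (topOf x)) ∣
      ZB (P := {y : P // y ∉ unnat N \ Y ∧ topOf y = topOf x}) i ∅ 0
        (fun y => by classical exact ((unnat N \ Y).filter (fun z => z ⋖ (y : P))).sup g) m) :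
    FarX P i (unnat N \ Y) (∑ t, b t) h' (thX Y τ (fun x => θ (topOf x) x)) (pairsX Y τ) n0 := by
  classical
  have F := farX_of_tops hgr H T n0 htw hcost
  have HN := natSys_of_tops H
  have hRlev : ∀ x ∈ unnat N, i < lev x := by
    intro x hx
    by_contra hcon
    exact low_natural H (not_lt.mp hcon) hx
  refine F.raise hle hlev ?_
  rintro g g0 hg ⟨z0, hz0, hgz0⟩
  have hR := T.lower HN.lower
  have hpos : 1 ≤ ∑ x ∈ unnat N \ Y, g x := by
    have h1 := F.one_le z0 hz0
    exact (h1.trans hgz0).trans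
      (Finset.single_le_sum (f := g) (fun _ _ => Nat.zero_le _) (mem_filter.mp hz0).1)
  refine F4.zb_parts hR F.hlev topOf (T.cp' HN.cp) b g fun t m hm => ?_
  by_cases hall : ∀ x, x ∉ unnat N \ Y → topOf x = t →
      ((unnat N \ Y).filter (fun z => z ⋖ x)).sup g ≤ thX Y τ (fun x => θ (topOf x) x) x
  · refine factor hR F.hlev topOf (T.cp' HN.cp) b _ (fun x => x ∉ unnat N ∧ B (topOf x) x)
      (fun x hx h => h.1 (mem_sdiff.mp hx).1) (pairsX Y τ) n0 ?_ ?_ ?_ ?_ t _
      (fun x hx hxt => hall x hx hxt) m (by omega)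
    · intro t
      refine CompData.toTwins ((H t).data N HN rfl _ _ ?_ ?_) T HN.lower hRlev
        (fun x hx h => h.1 hx)
      · intro x hx
        simp only [HN.topOf_eq hx]
      · intro x hx
        simp only [HN.topOf_eq hx, (HN.mem_iff.mp hx).1, not_false_eq_true, true_and]
    · intro t ht
      rw [mem_pairsX] at ht
      have h1 := htw t.2 ht.1
      have h2 := hcost t.2 ht.1
      rw [← ht.2] at h1 h2
      exact h1.pair h2
    · intro t ht y hy
      rw [mem_pairsX] at ht
      rw [mem_sdiff]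
      exact ⟨HN.lower y _ hy.le (T.sub ht.1), fun h => T.anti _ ht.1 y h hy⟩
    · intro t ht
      rw [mem_pairsX] at ht
      rw [mem_sdiff, mem_sdiff, ht.2]
      exact ⟨fun h => T.nat _ ht.1 h.1, fun h => h.2 ht.1⟩
  · push Not at hall
    obtain ⟨x, hx, hxt, hlt⟩ := hall
    rw [Finset.lt_sup_iff] at hlt
    obtain ⟨z, hz, hlt⟩ := hlt
    rw [mem_filter] at hz
    subst hxt
    exact hbig g g0 hg x z hx hz.1 hz.2 hlt m hm

end Big

end Pool.Agent.GaussPoset

namespace Pool.Agent.GaussPoset.Sm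

set_option linter.unusedSectionVars false

open Polynomial Finset

universe u

variable {P : Type u} [Fintype P] [PartialOrder P] [DecidableEq P] {r j w K : ℕ}
  {N : Tops P → Finset P} {b : Tops P → ℕ} {θ : Tops P → P → ℕ} {XE XO : ℕ → Prop}

/-- the fold end of a stair -/
structure FoldC (j w : ℕ) (N : Tops P → Finset P) (b : Tops P → ℕ) (θ : Tops P → P → ℕ)
    (f : P) (Nc : Finset P) (co : P → ℕ × ℕ) : Prop where
  nat : StairNat j w (topOf f) Nc co
  hN : N (topOf f) = natS Nc co
  hb : b (topOf f) = 2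
  mem : f ∈ Nc
  co1 : (co f).1 = j / 2
  co2 : (co f).2 = j / 2
  ev : j % 2 = 0
  th : θ (topOf f) f + 2 + w = j

/-- a deep element of level `j` with a sibling is a fold end -/
theorem Wk.fold_cell (W : Wk r j w K N b θ) (hw2 : 2 ≤ w) {z f s : P}
    (hz : z ∈ rA N) (hlz : lev z = j + 1) (hzf : z ⋖ f) (hzs : z ⋖ s) (hne : f ≠ s)
    (hth : θ (topOf f) f + 1 + w ≤ lev f) : ∃ Nc co, FoldC j w N b θ f Nc co := by
  have H := W.gt.H
  have HN := W.natSys
  have hj := W.hj
  have hw := W.hw
  have e1 := (H.covBy_iff.mp hzf).2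
  have hlx : lev f = j := by omega
  have hx : f ∉ unnat N := W.low (by omega)
  have hn1 := (W.near hz hlz hzf hzs hne).1
  have hxt : f ∈ N (topOf f) := HN.mem_iff.mpr ⟨hx, rfl⟩
  generalize htt : topOf f = t at hxt hth
  have key : ∀ Nc co, StairNat j w t Nc co → N t = natS Nc co → θ t = thS w Nc co →
      b t = w / 2 + 1 → FoldC j w N b θ f Nc co := by
    intro Nc co h0 g1 g2 g3
    rw [g1] at hxt
    rw [g2] at hth
    have hJ : f ∉ junk (fun c => c.1 ≤ c.2) Nc co := by
      intro h
      unfold thS at hth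
      rw [if_pos h] at hth
      omega
    have hxN : f ∈ Nc := by
      rw [mem_natS] at hxt
      exact hxt.resolve_right hJ
    have hl := h0.chart.lev f hxN
    have hm : (co f).1 ≤ (co f).2 := h0.chart.mem f hxN
    have h2 := stair_th7 h0 hw hw2 hxN hJ (by omega)
    rcases Nat.lt_or_ge (co f).1 (co f).2 with hlt | hge
    · have h3 := stair_inner_uc h0.chart H hxN (by omega) hlt
      omega
    · subst htt
      refine ⟨h0, g1, by rw [g3]; omega, hxN, by omega, by omega, by omega, ?_⟩
      rw [g2]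
      omega
  rcases W.typ t with ⟨g1, g2, g3, g5⟩ | ⟨Nc, co, h0, g1, g2, g4⟩ |
    ⟨Nc, co, h0, g1, g2, g3, g4, g5'⟩
  · exfalso
    rw [g2] at hth
    simp only at hth
    omega
  · exfalso
    rw [g1] at hxt
    rw [g2] at hth
    have hJ : ¬ (f ∈ junk (fun _ => True) Nc co ∨ f ∈ junk (fun _ => True) Nc (swp co)) := by
      intro h
      unfold thR at hth
      rw [if_pos h] at hth
      omega
    have hxN : f ∈ Nc := by
      rw [mem_natR] at hxt
      rcases hxt with h | h | h
      · exact h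
      · exact absurd (Or.inl h) hJ
      · exact absurd (Or.inr h) hJ
    have h2 := rect_th7 h0 hw hxN hJ (by omega)
    have h3 := chart_inner_uc h0.chart H hxN (by omega) (by omega)
    omega
  · exact ⟨Nc, co, key Nc co h0 g1 g2 g3⟩

/-- the levels above the fold end -/
lemma FoldC.nab {f : P} {Nc : Finset P} {co : P → ℕ × ℕ} (C : FoldC j w N b θ f Nc co) {k : ℕ}
    (hk : k ≤ j) : nab k f + (k - j / 2) = min (k / 2) (j / 2) + 1 := by
  have h1 := C.nat.chart.lev f C.mem
  have h2 := C.ev
  have := stair_nab C.nat.chart C.mem (k := k) (by rw [h1, C.co1, C.co2]; omega)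
  rw [C.co1, C.co2] at this
  exact this

lemma FoldC.lev {f : P} {Nc : Finset P} {co : P → ℕ × ℕ} (C : FoldC j w N b θ f Nc co) :
    lev f = j := by
  have h1 := C.nat.chart.lev f C.mem
  have h2 := C.ev
  rw [h1, C.co1, C.co2]
  omega

/-- the second end of the stair -/
theorem Wk.fold_end (W : Wk r j w K N b θ) {z f s : P} {Nc : Finset P} {co : P → ℕ × ℕ}
    (C : FoldC j w N b θ f Nc co)
    (hz : z ∈ rA N) (hlz : lev z = j + 1) (hzf : z ⋖ f) (hzs : z ⋖ s) (hne : f ≠ s)
    (htt : topOf f = topOf s) : s ∈ Nc ∧ (co s).1 = 0 ∧ (co s).2 = j := by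
  have H := W.gt.H
  have hj := W.hj
  have e1 := (H.covBy_iff.mp hzs).2
  have hls : Pool.Agent.GaussPoset.lev s = j := by omega
  have hn1 := (W.near hz hlz hzf hzs hne).2
  have hsN : s ∈ Nc := by
    refine C.nat.strip (mem_lowPart.mpr ⟨?_, by omega⟩)
    rw [htt]
    exact le_topOf s
  have hl' := C.nat.chart.lev s hsN
  have hm' : (co s).1 ≤ (co s).2 := C.nat.chart.mem s hsN
  have h10 : (co s).1 = 0 := by
    by_contra h11
    rcases Nat.lt_or_ge (co s).1 (co s).2 with h12 | h12
    · have := stair_inner_uc C.nat.chart H hsN (by omega) h12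
      omega
    · refine hne (C.nat.chart.inj f C.mem s hsN (Prod.ext ?_ ?_))
      · rw [C.co1]; omega
      · rw [C.co2]; have := C.ev; omega
  exact ⟨hsN, h10, by omega⟩

/-- the covers of an element with two known covers -/
lemma cov_two (H : Gr P r) {z f s : P} (hzf : z ⋖ f) (hzs : z ⋖ s) (hne : f ≠ s) {y : P}
    (hy : z ⋖ y) : y = f ∨ y = s := by
  classical
  by_contra hcon
  push Not at hcon
  have h1 := Win.uc_card_le H z
  have h2 : ({f, s, y} : Finset P) ⊆ Win.uc z := by
    intro x hx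
    simp only [mem_insert, mem_singleton] at hx
    rw [Win.mem_uc]
    rcases hx with rfl | rfl | rfl
    · exact hzf
    · exact hzs
    · exact hy
  have h3 := Finset.card_le_card h2
  rw [Finset.card_eq_three.mpr ⟨f, s, y, hne, fun h => hcon.1 h.symm, fun h => hcon.2 h.symm,
    rfl⟩] at h3
  omega

/-- the elements below both ends of a stair with a fold -/
def CEl (j w : ℕ) (N : Tops P → Finset P) (θ : Tops P → P → ℕ) (z : P) : Prop :=
  z ∈ rA N ∧ lev z = j + 1 ∧ ∃ f s, z ⋖ f ∧ z ⋖ s ∧ f ≠ s ∧ topOf f = topOf s ∧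
    θ (topOf f) f + 1 + w ≤ lev f

open Classical in
/-- the labels, with the full label at the elements below both ends of a stair with a fold -/
noncomputable def hC (j w : ℕ) (N : Tops P → Finset P) (θ : Tops P → P → ℕ) (z : P) : ℕ :=
  if CEl j w N θ z then lev z - w else hA N θ z

lemma hC_of {z : P} (h : CEl j w N θ z) : hC j w N θ z = lev z - w := if_pos h

lemma hC_not {z : P} (h : ¬ CEl j w N θ z) : hC j w N θ z = hA N θ z := if_neg h

lemma CEl.bd (W : Wk r j w K N b θ) {z : P} (h : CEl j w N θ z) : z ∈ bdR (rA N) := by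
  obtain ⟨h1, h2, f, s, h3, -⟩ := h
  have e1 := (W.gt.H.covBy_iff.mp h3).2
  exact mem_bdR.mpr ⟨h1, f, not_mem_rA.mpr (Or.inl (W.low (by omega))), h3⟩

/-- the canonical label below a fold end -/
theorem Wk.hA_fold (W : Wk r j w K N b θ) {z f s : P} {Nc : Finset P} {co : P → ℕ × ℕ}
    (C : FoldC j w N b θ f Nc co)
    (hz : z ∈ rA N) (hlz : lev z = j + 1) (hzf : z ⋖ f) (hzs : z ⋖ s) (hne : f ≠ s) :
    hA N θ z = j - w - 1 := by
  have H := W.gt.H
  have hj := W.hj
  have e1 := (H.covBy_iff.mp hzf).2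
  have hf : f ∉ unnat N := W.low (by omega)
  have hbd : z ∈ bdR (rA N) := mem_bdR.mpr ⟨hz, f, not_mem_rA.mpr (Or.inl hf), hzf⟩
  have hbs : ∀ y : P, y ∉ unnat N → GaussPoset.bs N y = y := by
    intro y hy
    unfold GaussPoset.bs
    rw [if_neg (W.not_tw hy)]
  have hle := W.hA_le (not_mem_rA.mpr (Or.inl hf)) hzf
  rw [hbs f hf] at hle
  have hth := C.th
  obtain ⟨x0, f1, f2, f3⟩ := W.hA_spec hbd
  rcases cov_two H hzf hzs hne f2 with rfl | rfl
  · rw [hbs _ hf] at f3
    omega
  · have f4 := W.near hz hlz hzf hzs hne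
    have f5 := (H.covBy_iff.mp hzs).2
    have hx0 : x0 ∉ unnat N := W.low (by omega)
    rw [hbs _ hx0] at f3
    have f6 := W.single_th hx0 (by omega) f4.2
    omega

/-- the cost with the full label -/
lemma cst_full_le (H : Gr P r) {z f s : P} (hzf : z ⋖ f) (hzs : z ⋖ s) (hne : f ≠ s)
    {k : ℕ} (hk : lev z ≤ w + k + 2) :
    cst w (fun _ => lev z - w) z ≤ F4.Efs w k f s + k + 4 := by
  classical
  have e1 := (H.covBy_iff.mp hzf).2
  have e2 := (H.covBy_iff.mp hzs).2
  have hA : univ.filter (fun y : P => z ≤ y) =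
      insert z (univ.filter (fun y : P => f ≤ y ∨ s ≤ y)) := by
    ext y
    rw [mem_filter, mem_insert, mem_filter]
    constructor
    · rintro ⟨-, h⟩
      rcases eq_or_lt_of_le h with h | h
      · exact Or.inl h.symm
      · right
        obtain ⟨x, hx, hxy⟩ := Hul.exists_cov h
        rcases cov_two H hzf hzs hne hx with rfl | rfl
        · exact ⟨mem_univ _, Or.inl hxy⟩
        · exact ⟨mem_univ _, Or.inr hxy⟩
    · rintro (h | ⟨-, h | h⟩)
      · exact ⟨mem_univ _, h.ge⟩
      · exact ⟨mem_univ _, hzf.1.le.trans h⟩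
      · exact ⟨mem_univ _, hzs.1.le.trans h⟩
  have hc : cst w (fun _ => lev z - w) z = ∑ y ∈ univ.filter (fun y : P => z ≤ y),
      min (lev z - w) (lev y - w) := by
    unfold cst ez
    rw [Finset.sum_filter]
  have hzn : z ∉ univ.filter (fun y : P => f ≤ y ∨ s ≤ y) := by
    rw [mem_filter]
    rintro ⟨-, h | h⟩
    · exact absurd hzf.1 (not_lt_of_ge h)
    · exact absurd hzs.1 (not_lt_of_ge h)
  rw [hc, hA, Finset.sum_insert hzn]
  have h1 : ∑ y ∈ univ.filter (fun y : P => f ≤ y ∨ s ≤ y), min (lev z - w) (lev y - w) ≤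
      ∑ y ∈ univ.filter (fun y : P => f ≤ y ∨ s ≤ y), (min k (lev y - w) +
        (if y = f then 1 else 0) + if y = s then 1 else 0) := by
    refine Finset.sum_le_sum fun y hy => ?_
    rw [mem_filter] at hy
    rcases hy.2 with h | h
    · rcases eq_or_lt_of_le h with h | h
      · rw [if_pos h.symm, ← h]
        omega
      · have := lev_strictAnti h
        omega
    · rcases eq_or_lt_of_le h with h | h
      · rw [if_pos h.symm, ← h]
        omega
      · have := lev_strictAnti h
        omega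
  rw [Finset.sum_add_distrib, Finset.sum_add_distrib, Finset.sum_ite_eq', Finset.sum_ite_eq',
    if_pos (by rw [mem_filter]; exact ⟨mem_univ _, Or.inl le_rfl⟩),
    if_pos (by rw [mem_filter]; exact ⟨mem_univ _, Or.inr le_rfl⟩)] at h1
  have h2 : F4.Efs w k f s = ∑ y ∈ univ.filter (fun y : P => f ≤ y ∨ s ≤ y),
      min k (lev y - w) := by
    unfold F4.Efs
    rfl
  rw [h2, Nat.min_self]
  omega

/-- **The far window theorem with the full label at the elements below both ends of a stair.** -/
theorem Wk.farC (W : Wk r j w K N b θ) (h12 : 12 ≤ j) (hw2 : 2 ≤ w) (n0 : ℕ)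
    (hcost : ∀ x ∈ twA N, n0 ≤ tcst w (thA N θ) (twT N x, x))
    (hCc : ∀ z, CEl j w N θ z → n0 ≤ cst w (hC j w N θ) z) :
    FarX P w (rA N) (lv P w).card (hC j w N θ) (thA N θ) (pairsX (twA N) (twT N)) n0 := by
  classical
  have H := W.gt.H
  have HN := W.natSys
  have hj := W.hj
  have hw := W.hw
  choose B hB using fun t => (W.top t).natTop H.gradedBelow
  have hF := W.farX n0 hcost
  have hspec : ∀ z, CEl j w N θ z → hA N θ z = j - w - 1 ∧ hC j w N θ z = j + 1 - w := by
    intro z hz
    have hz' := hz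
    obtain ⟨h1, h2, f, s, h3, h4, h5, h6, h7⟩ := hz'
    obtain ⟨Nc, co, C⟩ := W.fold_cell hw2 h1 h2 h3 h4 h5 h7
    refine ⟨W.hA_fold C h1 h2 h3 h4 h5, ?_⟩
    rw [hC_of hz, h2]
  have key := farX_big (B := B) H.gradedBelow hB W.twSys n0 (fun x hx => W.twn hx) hcost
    (hC j w N θ) ?_ ?_ ?_
  · rw [W.sum_b] at key
    exact key
  · intro z _
    show hA N θ z ≤ hC j w N θ z
    by_cases hz : CEl j w N θ z
    · have := hspec z hz
      omega
    · rw [hC_not hz]
  · intro z hz
    by_cases hzC : CEl j w N θ z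
    · rw [hC_of hzC]
    · rw [hC_not hzC]
      exact hF.le_lev z hz
  · intro g g0 hg x z hx hz hzx hlt m hm
    have hzb : z ∈ bdR (unnat N \ twA N) := mem_bdR.mpr ⟨hz, x, hx, hzx⟩
    have hlt' : thA N θ x < g z := hlt
    have hle : hA N θ z ≤ thA N θ x + 1 := hcan_le hx hzx
    have hgz := hg z hzb
    have hzC : CEl j w N θ z := by
      by_contra h
      rw [hC_not h] at hgz
      omega
    obtain ⟨e1, e2⟩ := hspec z hzC
    have hz' := hzC
    obtain ⟨h1, h2, f, s, h3, h4, h5, h6, h7⟩ := hz'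
    obtain ⟨Nc, co, C⟩ := W.fold_cell hw2 h1 h2 h3 h4 h5 h7
    obtain ⟨s1, s2, s3⟩ := W.fold_end C h1 h2 h3 h4 h5 h6
    have hlf := C.lev
    have hls : lev s = j := by
      have := C.nat.chart.lev s s1
      omega
    have htx : topOf x = topOf f := by
      rcases cov_two H h3 h4 h5 hzx with rfl | rfl
      · rfl
      · exact h6.symm
    have hbt : b (topOf x) = 2 := by rw [htx, C.hb]
    rw [hbt]
    set k := g z with hk
    have hk1 : j - w - 1 ≤ k := by omega
    have hk2 : k ≤ j - w := by omega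
    have hn0 : n0 ≤ F4.Efs w k f s + k + 4 := by
      refine (hCc z hzC).trans ?_
      have : cst w (hC j w N θ) z = cst w (fun _ => lev z - w) z := by
        rw [cst_const w (hC j w N θ) z, hC_of hzC]
      rw [this]
      exact cst_full_le H h3 h4 h5 (by omega)
    have hsz : k ≤ ∑ x ∈ unnat N \ twA N, g x :=
      Finset.single_le_sum (f := g) (fun _ _ => Nat.zero_le _) hz
    have hp : ∀ x' y : P, x' ≤ y → (x' ∉ unnat N \ twA N ∧ topOf x' = topOf x) →
        (y ∉ unnat N \ twA N ∧ topOf y = topOf x) :=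
      pg_part_up (W.twSys.lower HN.lower) (W.twSys.cp' HN.cp)
    have hfR : f ∉ unnat N \ twA N := not_mem_rA.mpr (Or.inl (W.low (by omega)))
    have hsR : s ∉ unnat N \ twA N := not_mem_rA.mpr (Or.inl (W.low (by omega)))
    have hBf : k ≤ ((unnat N \ twA N).filter (fun z => z ⋖ f)).sup g :=
      Finset.le_sup (f := g) (mem_filter.mpr ⟨hz, h3⟩)
    have hBs : k ≤ ((unnat N \ twA N).filter (fun z => z ⋖ s)).sup g :=
      Finset.le_sup (f := g) (mem_filter.mpr ⟨hz, h4⟩)
    by_cases hbigz : ∃ z' ∈ unnat N \ twA N, k < g z'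
    · obtain ⟨z', hz', hk'⟩ := hbigz
      have hne' : z' ≠ z := by
        rintro rfl
        omega
      have h8 : g z + g z' ≤ ∑ x ∈ unnat N \ twA N, g x := by
        rw [← Finset.sum_pair (f := g) hne'.symm]
        refine Finset.sum_le_sum_of_subset ?_
        intro y hy
        rw [mem_insert, mem_singleton] at hy
        rcases hy with rfl | rfl
        · exact hz
        · exact hz'
      rw [F4.part_zero hp (i := w) (k := k) (f := f) (s := s) ⟨hfR, htx.symm⟩
        ⟨hsR, h6.symm.trans htx.symm⟩ hBf hBs (by omega)]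
      exact dvd_zero _
    · push Not at hbigz
      have hBle : ∀ y : P, ((unnat N \ twA N).filter (fun z => z ⋖ y)).sup g ≤ k := by
        intro y
        refine Finset.sup_le fun z' hz' => ?_
        exact hbigz z' (mem_filter.mp hz').1
      refine F4.part_two hp (i := w) (k := k) (M := j / 2 + 1) (c0 := 4) (f := f) (s := s)
        ⟨hfR, htx.symm⟩ ⟨hsR, h6.symm.trans htx.symm⟩ (by omega) (by omega) ?_ (by omega)
        (by omega) ?_ (fun y => hBle y) (le_antisymm (hBle f) hBf) (le_antisymm (hBle s) hBs)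
        (by omega)
      · rintro y ⟨-, hy2⟩ hy3
        have hyN : y ∈ Nc := by
          refine C.nat.strip (mem_lowPart.mpr ⟨?_, by omega⟩)
          rw [← htx, ← hy2]
          exact le_topOf y
        have hly := C.nat.chart.lev y hyN
        have hmy : (co y).1 ≤ (co y).2 := C.nat.chart.mem y hyN
        rcases Nat.lt_or_ge (j / 2) (co y).2 with h9 | h9
        · right
          rw [C.nat.chart.le_iff s s1 y hyN, Prod.le_def, s2, s3]
          constructor
          · omega
          · omega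
        · left
          rw [C.nat.chart.le_iff f C.mem y hyN, Prod.le_def, C.co1, C.co2]
          constructor
          · omega
          · exact h9
      · intro y hy1 hy2
        have hyN := C.nat.chart.up f C.mem y hy1
        have a1 := (C.nat.chart.le_iff f C.mem y hyN).mp hy1
        have a2 := (C.nat.chart.le_iff s s1 y hyN).mp hy2
        rw [Prod.le_def, C.co1, C.co2] at a1
        rw [Prod.le_def, s2, s3] at a2
        have hly := C.nat.chart.lev y hyN
        have := C.ev
        omega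

end Pool.Agent.GaussPoset.Sm
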