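import Pool.Agent.W_448s7_h5.SevF
import Pool.Agent.W_448bf_h61.BC
import Pool.Agent.W_448pg_h74.PgB

/-!
Twins with prescribed sums of two high labels, energies `< n0` (MP_448cb3_co, S7, windows 2, 3).
-/

namespace Pool.Agent.GaussPoset

set_option linter.unusedSectionVars false

open Polynomial Finset

universe u

variable {P : Type u} [Fintype P] [PartialOrder P] [DecidableEq P]

/-- a pair of twins with the same threshold -/
structure TwP (θ : P → ℕ) (x x' : P) : Prop where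
  ne : x ≠ x'
  up : ∀ y, x < y ↔ x' < y
  one_le : 1 ≤ θ x
  eq : θ x' = θ x

lemma Twn.toP {i : ℕ} {θ : P → ℕ} {t : P × P} (H : Twn i θ t) : TwP θ t.1 t.2 :=
  ⟨H.ne, H.up, H.one_le, H.eq⟩

section StepH

variable {i : ℕ} {p : ℤ[X]} {n0 : ℕ} {θ : P → ℕ} {x x' : P} {D : Finset P}

/-- the twin step, with the sum of two high labels as a hypothesis -/
theorem dvd_ZB_twin_stepH (H : TwP θ x x')
    (hT : ∀ n < n0, p ∣ ZB i D 0 (st2 x x' (θ x) (θ x + 1)) n) (hlx : i < lev x) (hx : x ∉ D) (hx' : x' ∉ D)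
    (hmin : ∀ y < x', y ∈ D)
    (hlow : ∀ E : Finset P, E = D ∪ dnf x ∨ E = D ∪ dnf x' → ∀ a c, a ≤ c → c ∈ E → a ∈ E)
    (hlev : ∀ E : Finset P, E = D ∪ dnf x ∨ E = D ∪ dnf x' → ∀ a ∈ E, i < lev a)
    (hc2 : ∀ y ≤ x, y ∉ D → ∀ w, y ⋖ w → ¬ w ≤ x → θ x ≤ θ w + 1)
    (hBC : ∀ E : Finset P, E = D ∪ dnf x ∨ E = D ∪ dnf x' →
      ∀ β : P → ℕ, (∀ y, y ∉ E → β y ≤ θ y) → ∀ n < n0, p ∣ ZB i E 0 β n)
    (n : ℕ) (hn : n < n0) : p ∣ ZB i D 0 0 n := by
  classical
  have hlx' : i < lev x' := by rw [← lev_eq_of_up H.up]; exact hlx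
  have hs1 : ∀ a b, st2 x x' a b x = a := fun a b => by unfold st2; rw [if_pos rfl]
  have hs2 : ∀ a b, st2 x x' a b x' = b := fun a b => by
    unfold st2; rw [if_neg H.ne.symm, if_pos rfl]
  have hs3 : ∀ a b y, y ≠ x → y ≠ x' → st2 x x' a b y = 0 := fun a b y h1 h2 => by
    unfold st2; rw [if_neg h1, if_neg h2]
  have hxx' : ¬ x ≤ x' := fun h => hx (hmin x (lt_of_le_of_ne h H.ne))
  have hx'x : ¬ x' ≤ x := fun h => by
    have h1 : x' < x := lt_of_le_of_ne h H.ne.symm
    exact lt_irrefl x ((H.up x).mpr h1)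
  have stepA : ∀ k ≤ θ x, p ∣ ZB i D 0 (st2 x x' k (k + 1)) n → p ∣ ZB i D 0 (st2 x x' k k) n := by
    intro k hk h
    refine dvd_ZB_step_down (st2 x x' k k) x' hx' hlx' p n ?_ ?_
    · rw [hs2, st2_update_right H.ne]
      exact h
    · intro g' hG
      obtain ⟨g1, g2, g3, g4, g5⟩ := hG
      rw [hs2] at g2 g3
      have hE : D ∪ dnf x' = D ∪ dnf x ∨ D ∪ dnf x' = D ∪ dnf x' := Or.inr rfl
      refine dvd_ZB_shift_lt _ (hlow _ hE) (hlev _ hE) g5 p n0 (fun n hn => ?_) n hn
      rw [ZB_redundant (β := st2 x x' k 0)]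
      · refine hBC _ hE _ ?_ n hn
        intro y hy
        rw [mem_union, mem_dnf, not_or] at hy
        by_cases hyx : y = x
        · subst hyx; rw [hs1]; exact hk
        · rw [hs3 k 0 y hyx (fun h => hy.2 h.le)]
          exact Nat.zero_le _
      · intro y hy
        rw [mem_union, mem_dnf, not_or] at hy
        refine le_trans ?_ (le_bg _ _ _ y)
        by_cases hyx : y = x
        · subst hyx; rw [hs1, hs1]
        · rw [hs3 k 0 y hyx (fun h => hy.2 h.le)]
          exact Nat.zero_le _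
      · intro y hy
        rw [mem_union, mem_dnf, not_or] at hy
        have hdall : ∀ d ∈ D ∪ dnf x', d ∈ D ∨ d = x' := by
          intro d hd
          rw [mem_union, mem_dnf] at hd
          rcases hd with hd | hd
          · exact Or.inl hd
          · rcases eq_or_lt_of_le hd with h1 | h1
            · exact Or.inr h1
            · exact Or.inl (hmin d h1)
        by_cases hxy : x < y
        · right
          refine ⟨x, hxy.le, ?_, ?_⟩
          · rw [mem_union, mem_dnf]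
            rintro (h1 | h1)
            · exact hx h1
            · exact hxx' h1
          · rw [hs1]
            refine bg_le ?_ ?_
            · rw [hs3 k k y hxy.ne' (fun h => hy.2 h.le)]
              exact Nat.zero_le _
            · intro d hd _
              rcases hdall d hd with h1 | h1
              · rw [g1 d h1]; exact Nat.zero_le _
              · rw [h1, g2]
        · left
          refine bg_le ?_ ?_
          · by_cases hyx : y = x
            · subst hyx; rw [hs1, hs1]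
            · rw [hs3 k k y hyx (fun h => hy.2 h.le)]
              exact Nat.zero_le _
          · intro d hd hdy
            rcases hdall d hd with h1 | h1
            · rw [g1 d h1]; exact Nat.zero_le _
            · exfalso
              rw [h1] at hdy
              exact hxy ((H.up y).mpr hdy.1)
  have stepB : ∀ k, k + 1 ≤ θ x → p ∣ ZB i D 0 (st2 x x' (k + 1) (k + 1)) n →
      p ∣ ZB i D 0 (st2 x x' k (k + 1)) n := by
    intro k hk h
    refine dvd_ZB_step_down (st2 x x' k (k + 1)) x hx hlx p n ?_ ?_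
    · rw [hs1, st2_update_left]
      exact h
    · intro g' hG
      obtain ⟨g1, g2, g3, g4, g5⟩ := hG
      rw [hs1] at g2 g3
      have hE : D ∪ dnf x = D ∪ dnf x ∨ D ∪ dnf x = D ∪ dnf x' := Or.inl rfl
      refine dvd_ZB_shift_lt _ (hlow _ hE) (hlev _ hE) g5 p n0 (fun n hn => ?_) n hn
      refine hBC _ hE _ ?_ n hn
      intro y hy
      rw [mem_union, mem_dnf, not_or] at hy
      have hyx : y ≠ x := fun h => hy.2 h.le
      by_cases hyx' : y = x'
      · subst hyx'
        refine bg_le ?_ ?_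
        · rw [hs2, H.eq]; exact hk
        · intro d hd hdy
          have hdD := hmin d hdy.1
          rw [g1 d hdD]; exact Nat.zero_le _
      · refine bg_le ?_ ?_
        · rw [hs3 _ _ y hyx hyx']; exact Nat.zero_le _
        · intro d hd hdy
          by_cases hdD : d ∈ D
          · rw [g1 d hdD]; exact Nat.zero_le _
          · have hdx : d ≤ x := by
              rcases mem_union.mp hd with h1 | h1
              · exact absurd h1 hdD
              · exact mem_dnf.mp h1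
            have h1 := g3 d hdx
            have h2 := hc2 d hdx hdD y hdy hy.2
            omega
  have main : ∀ s k, k + s = θ x → p ∣ ZB i D 0 (st2 x x' k k) n := by
    intro s
    induction s with
    | zero =>
      intro k hk
      refine stepA k (by omega) ?_
      have hk' : k = θ x := by omega
      rw [hk']
      exact hT n hn
    | succ s ih =>
      intro k hk
      exact stepA k (by omega) (stepB k (by omega) (ih (k + 1) (by omega)))
  have h0 := main (θ x) 0 (by omega)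
  have h1 : ZB i D 0 (st2 x x' 0 0) n = ZB i D 0 0 n := by
    refine ZB_congr (fun _ _ => rfl) (fun y _ => ?_) n
    unfold st2
    split_ifs <;> rfl
  rwa [h1] at h0

end StepH

/-- the twin lemma, with the sums of two high labels as hypotheses -/
theorem dvd_ZB_bounds_twinsH (i : ℕ) (p : ℤ[X]) (n0 : ℕ) (DD : Set (Finset P)) (θ : P → ℕ)
    (Tw : Finset (P × P))
    (hlow : ∀ D ∈ DD, ∀ x y, x ≤ y → y ∈ D → x ∈ D) (hlev : ∀ D ∈ DD, ∀ x ∈ D, i < lev x)
    (hθ : ∀ x, 1 ≤ θ x → i < lev x)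
    (c0 : ∀ D ∈ DD, (∀ t ∈ Tw, t.1 ∈ D ∨ t.2 ∈ D) → ∀ n < n0, p ∣ ZB i D 0 0 n)
    (c1 : ∀ D ∈ DD, ∀ x, x ∉ D → 1 ≤ θ x → D ∪ dnf x ∈ DD)
    (c2 : ∀ D ∈ DD, ∀ x, x ∉ D → 1 ≤ θ x → ∀ y ≤ x, y ∉ D → ∀ x', y ⋖ x' → ¬ x' ≤ x →
      θ x ≤ θ x' + 1)
    (htw : ∀ t ∈ Tw, TwP θ t.1 t.2)
    (hHT : ∀ t ∈ Tw, ∀ D ∈ DD, t.1 ∉ D → t.2 ∉ D → ∀ n < n0,
      p ∣ ZB i D 0 (st2 t.1 t.2 (θ t.1) (θ t.1 + 1)) n)
    (hmin : ∀ t ∈ Tw, ∀ D ∈ DD, ∀ y < t.2, y ∈ D) :
    ∀ D ∈ DD, ∀ β : P → ℕ, (∀ x, x ∉ D → β x ≤ θ x) → ∀ n < n0, p ∣ ZB i D 0 β n := by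
  classical
  have hBC : ∀ s : ℕ, (∀ D ∈ DD, ubr Tw D ≤ s → ∀ n < n0, p ∣ ZB i D 0 0 n) →
      ∀ D ∈ DD, ubr Tw D ≤ s → ∀ β : P → ℕ, (∀ x, x ∉ D → β x ≤ θ x) → ∀ n < n0,
        p ∣ ZB i D 0 β n := by
    intro s hs D hD hu
    refine dvd_ZB_bounds_lt i p n0 {D | D ∈ DD ∧ ubr Tw D ≤ s} θ (fun D hD => hlow D hD.1)
      (fun D hD => hlev D hD.1) hθ (fun D hD => hs D hD.1 hD.2) ?_
      (fun D hD => c2 D hD.1) D ⟨hD, hu⟩
    intro D hD x hx hθx
    exact ⟨c1 D hD.1 x hx hθx, (ubr_mono Tw subset_union_left).trans hD.2⟩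
  have main : ∀ s : ℕ, ∀ D ∈ DD, ubr Tw D ≤ s → ∀ n < n0, p ∣ ZB i D 0 0 n := by
    intro s
    induction s with
    | zero =>
      intro D hD hu n hn
      refine c0 D hD ?_ n hn
      intro t ht
      by_contra hcon
      push Not at hcon
      have h1 : t ∈ Tw.filter (fun t => t.1 ∉ D ∧ t.2 ∉ D) := mem_filter.mpr ⟨ht, hcon⟩
      have h2 : 0 < ubr Tw D := Finset.card_pos.mpr ⟨t, h1⟩
      omega
    | succ s ih =>
      intro D hD hu n hn
      by_cases hall : ∀ t ∈ Tw, t.1 ∈ D ∨ t.2 ∈ D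
      · exact c0 D hD hall n hn
      · push Not at hall
        obtain ⟨t, ht, hx, hx'⟩ := hall
        have H := htw t ht
        have h1 : 1 ≤ θ t.2 := by rw [H.eq]; exact H.one_le
        have hDx := c1 D hD t.1 hx H.one_le
        have hDx' := c1 D hD t.2 hx' h1
        have hin : ∀ E : Finset P, E = D ∪ dnf t.1 ∨ E = D ∪ dnf t.2 → E ∈ DD ∧ ubr Tw E ≤ s := by
          rintro E (rfl | rfl)
          · refine ⟨hDx, ?_⟩
            have := ubr_lt (E := D ∪ dnf t.1) subset_union_left ht ⟨hx, hx'⟩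
              (Or.inl (mem_union_right _ (mem_dnf.mpr le_rfl)))
            omega
          · refine ⟨hDx', ?_⟩
            have := ubr_lt (E := D ∪ dnf t.2) subset_union_left ht ⟨hx, hx'⟩
              (Or.inr (mem_union_right _ (mem_dnf.mpr le_rfl)))
            omega
        exact dvd_ZB_twin_stepH H (hHT t ht D hD hx hx') (hθ _ H.one_le) hx hx' (hmin t ht D hD)
          (fun E hE => hlow E (hin E hE).1) (fun E hE => hlev E (hin E hE).1)
          (c2 D hD t.1 hx H.one_le) (fun E hE => hBC s ih E (hin E hE).1 (hin E hE).2) n hn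
  intro D hD β hβ n hn
  exact hBC _ (main (ubr Tw D)) D hD le_rfl β hβ n hn

end Pool.Agent.GaussPoset
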