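import Pool.Agent.W_448f4_h70.GA

/-!
The twin lemma with exact leading term, with prescribed sums of two high labels
(MP_448cb3_co, S7, windows 2, 3).
-/

namespace Pool.Agent.GaussPoset

set_option linter.unusedSectionVars false

open Polynomial Finset

universe u

variable {P : Type u} [Fintype P] [PartialOrder P] [DecidableEq P]

section SumV

variable (i : ℕ) (θ : P → ℕ) (ld : P × P → Prop) (V : P × P → ℤ[X]) (Tw : Finset (P × P))

open Classical in
/-- the pairs which contribute -/
noncomputable def twsV (D : Finset P) (β : P → ℕ) : Finset (P × P) :=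
  Tw.filter (fun t => (t.1 ∉ D ∧ t.2 ∉ D) ∧ ld t ∧ ∀ y, y ∉ D → β y ≤ tez i θ t y)

/-- the sum of the leading terms of the pairs which contribute -/
noncomputable def tsumV (D : Finset P) (β : P → ℕ) : ℤ[X] := ∑ t ∈ twsV i θ ld Tw D β, V t

variable {i θ ld V Tw}

lemma mem_twsV {D : Finset P} {β : P → ℕ} {t : P × P} : t ∈ twsV i θ ld Tw D β ↔
    t ∈ Tw ∧ (t.1 ∉ D ∧ t.2 ∉ D) ∧ ld t ∧ ∀ y, y ∉ D → β y ≤ tez i θ t y := by
  classical
  unfold twsV; rw [mem_filter]

lemma twsV_congr {D : Finset P} {β β' : P → ℕ} (h : ∀ y, y ∉ D → β y = β' y) :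
    twsV i θ ld Tw D β = twsV i θ ld Tw D β' := by
  ext t
  rw [mem_twsV, mem_twsV]
  refine and_congr_right fun _ => and_congr_right fun _ => and_congr_right fun _ =>
    forall_congr' fun y => ⟨fun h1 hy => ?_, fun h1 hy => ?_⟩
  · rw [← h y hy]; exact h1 hy
  · rw [h y hy]; exact h1 hy

open Classical in
/-- the recursion of the sum of the leading terms -/
lemma tsumV_step (hT : ∀ t ∈ Tw, Twn i θ t) {D : Finset P} {β : P → ℕ} {x0 : P} (hx0 : x0 ∉ D)
    (hlx : i < lev x0) (hle : θ x0 ≤ lev x0 - i)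
    (hb : β x0 + 1 ≤ θ x0) : tsumV i θ ld V Tw D β =
      tsumV i θ ld V Tw D (Function.update β x0 (β x0 + 1)) +
      (if β x0 = 0 ∧ ∀ y ≤ x0, y ∉ D → β y = 0 then tsumV i θ ld V Tw (D ∪ dnf x0) β else 0) := by
  have h1 : (twsV i θ ld Tw D β).filter (fun t => β x0 + 1 ≤ tez i θ t x0) =
      twsV i θ ld Tw D (Function.update β x0 (β x0 + 1)) := by
    ext t
    rw [mem_filter, mem_twsV, mem_twsV]
    constructor
    · rintro ⟨⟨h1, h2, h3, h4⟩, h5⟩
      refine ⟨h1, h2, h3, fun y hy => ?_⟩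
      by_cases hyx : y = x0
      · subst hyx; rw [Function.update_self]; exact h5
      · rw [Function.update_of_ne hyx]; exact h4 y hy
    · rintro ⟨h1, h2, h3, h4⟩
      have h5 := h4 x0 hx0
      rw [Function.update_self] at h5
      refine ⟨⟨h1, h2, h3, fun y hy => ?_⟩, h5⟩
      by_cases hyx : y = x0
      · subst hyx; omega
      · have := h4 y hy
        rwa [Function.update_of_ne hyx] at this
  have h2 : ∑ t ∈ (twsV i θ ld Tw D β).filter (fun t => ¬ β x0 + 1 ≤ tez i θ t x0), V t =
      (if β x0 = 0 ∧ ∀ y ≤ x0, y ∉ D → β y = 0 then tsumV i θ ld V Tw (D ∪ dnf x0) β else 0) := by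
    have hz : ∀ t ∈ (twsV i θ ld Tw D β).filter (fun t => ¬ β x0 + 1 ≤ tez i θ t x0),
        t ∈ Tw ∧ (t.1 ∉ D ∧ t.2 ∉ D) ∧ ld t ∧ (∀ y, y ∉ D → β y ≤ tez i θ t y) ∧
        tez i θ t x0 = 0 := by
      intro t ht
      rw [mem_filter, mem_twsV] at ht
      obtain ⟨⟨h1, h2, h3, h4⟩, h5⟩ := ht
      refine ⟨h1, h2, h3, h4, ?_⟩
      by_contra hne
      have := tez_ge (hT t h1) hle hne
      omega
    have hdn : ∀ t ∈ Tw, tez i θ t x0 = 0 → ∀ y ≤ x0, tez i θ t y = 0 := by
      intro t ht h y hy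
      obtain ⟨h3, h4⟩ := tez_eq_zero (hT t ht) hlx h
      exact tez_zero_of (fun h5 => h3 (h5.trans hy)) (fun h5 => h4 (h5.trans hy))
    split_ifs with hc
    · unfold tsumV
      refine Finset.sum_congr ?_ (fun _ _ => rfl)
      ext t
      constructor
      · intro ht
        obtain ⟨h1, h2, h3, h4, h5⟩ := hz t ht
        obtain ⟨h6, h7⟩ := tez_eq_zero (hT t h1) hlx h5
        rw [mem_twsV]
        refine ⟨h1, ⟨?_, ?_⟩, h3, fun y hy => ?_⟩
        · rw [mem_union, mem_dnf, not_or]; exact ⟨h2.1, h6⟩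
        · rw [mem_union, mem_dnf, not_or]; exact ⟨h2.2, h7⟩
        · exact h4 y (fun h => hy (mem_union_left _ h))
      · intro ht
        rw [mem_twsV] at ht
        obtain ⟨h1, ⟨h2, h2'⟩, h3, h4⟩ := ht
        rw [mem_union, mem_dnf, not_or] at h2 h2'
        have h5 : tez i θ t x0 = 0 := tez_zero_of h2.2 h2'.2
        rw [mem_filter, mem_twsV]
        refine ⟨⟨h1, ⟨h2.1, h2'.1⟩, h3, fun y hy => ?_⟩, by omega⟩
        by_cases hyx : y ≤ x0
        · rw [hc.2 y hyx hy]; exact Nat.zero_le _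
        · refine h4 y ?_
          rw [mem_union, mem_dnf, not_or]
          exact ⟨hy, hyx⟩
    · rw [Finset.sum_eq_zero]
      intro t ht
      exfalso
      obtain ⟨h1, h2, h3, h4, h5⟩ := hz t ht
      refine hc ⟨?_, fun y hy hyD => ?_⟩
      · have := h4 x0 hx0
        omega
      · have := h4 y hyD
        rw [hdn t h1 h5 y hy] at this
        omega
  rw [← h2]
  unfold tsumV
  rw [← h1]
  exact (Finset.sum_filter_add_sum_filter_not _ _ _).symm

end SumV

section StepV

variable {i : ℕ} {p : ℤ[X]} {n0 : ℕ} {θ : P → ℕ} {x x' : P} {D : Finset P}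

open Classical in
/-- the twin step, exact -/
theorem twin_step_exactH {T0 : ℤ[X]} (H : Twn i θ (x, x')) (hlx : i < lev x) (hDl : ∀ d ∈ D, i < lev d)
    (hDlow : ∀ a c, a ≤ c → c ∈ D → a ∈ D) (hx : x ∉ D) (hx' : x' ∉ D)
    (hmin : ∀ y < x', y ∈ D)
    (hlow : ∀ E : Finset P, E = D ∪ dnf x ∨ E = D ∪ dnf x' → ∀ a c, a ≤ c → c ∈ E → a ∈ E)
    (hlev : ∀ E : Finset P, E = D ∪ dnf x ∨ E = D ∪ dnf x' → ∀ a ∈ E, i < lev a)
    (hc2 : ∀ y ≤ x, y ∉ D → ∀ w, y ⋖ w → ¬ w ≤ x → θ x ≤ θ w + 1)
    (hBC : ∀ E : Finset P, E = D ∪ dnf x ∨ E = D ∪ dnf x' →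
      ∀ β : P → ℕ, (∀ y, y ∉ E → β y ≤ θ y) → ∀ n < n0, p ∣ ZB i E 0 β n)
    (hV : p ∣ ZB i D 0 (st2 x x' (θ x) (θ x + 1)) n0 - T0) :
    p ∣ ZB i D 0 0 n0 - (T0 +
      ZB i (D ∪ dnf x) 0 (st2 x x' 0 1) n0 + ZB i (D ∪ dnf x') 0 0 n0) := by
  have hll : lev x = lev x' := lev_eq_of_up H.up
  have hlx' : i < lev x' := by omega
  have hne := H.ne
  have hθ := H.one_le
  have heq := H.eq
  simp only at hne hθ heq
  have hs1 : ∀ a b, st2 x x' a b x = a := fun a b => by unfold st2; rw [if_pos rfl]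
  have hs2 : ∀ a b, st2 x x' a b x' = b := fun a b => by
    unfold st2; rw [if_neg hne.symm, if_pos rfl]
  have hs3 : ∀ a b y, y ≠ x → y ≠ x' → st2 x x' a b y = 0 := fun a b y h1 h2 => by
    unfold st2; rw [if_neg h1, if_neg h2]
  have hxx' : ¬ x ≤ x' := fun h => hx (hmin x (lt_of_le_of_ne h hne))
  have hx'x : ¬ x' ≤ x := fun h => by
    have h1 : x' < x := lt_of_le_of_ne h hne.symm
    exact lt_irrefl x ((H.up x).mpr h1)
  have stepA : ∀ k ≤ θ x, p ∣ ZB i D 0 (st2 x x' k k) n0 - ZB i D 0 (st2 x x' k (k + 1)) n0 -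
      (if k = 0 then ZB i (D ∪ dnf x') 0 0 n0 else 0) := by
    intro k hk
    have h1 := step_mod (i := i) (p := p) (n0 := n0) (β := st2 x x' k k) hx' hlx' (by
      intro g' hG hg0
      obtain ⟨g1, g2, g3, g4, g5⟩ := hG
      rw [hs2] at g2 g3
      have hE : D ∪ dnf x' = D ∪ dnf x ∨ D ∪ dnf x' = D ∪ dnf x' := Or.inr rfl
      refine dvd_ZB_shift_pos _ (hlow _ hE) (hlev _ hE) g5 p n0 (fun n hn => ?_) hg0
      rw [ZB_redundant (β := st2 x x' k 0)]
      · refine hBC _ hE _ ?_ n hn
        intro y hy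
        rw [mem_union, mem_dnf, not_or] at hy
        by_cases hyx : y = x
        · subst hyx; rw [hs1]; exact hk
        · rw [hs3 k 0 y hyx (fun h => hy.2 h.le)]
          exact Nat.zero_le _
      · intro y hy
        rw [mem_union, mem_dnf, not_or] at hy
        refine le_trans ?_ (le_bg _ _ _ y)
        by_cases hyx : y = x
        · subst hyx; rw [hs1, hs1]
        · rw [hs3 k 0 y hyx (fun h => hy.2 h.le)]
          exact Nat.zero_le _
      · intro y hy
        rw [mem_union, mem_dnf, not_or] at hy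
        have hdall : ∀ d ∈ D ∪ dnf x', d ∈ D ∨ d = x' := by
          intro d hd
          rw [mem_union, mem_dnf] at hd
          rcases hd with hd | hd
          · exact Or.inl hd
          · rcases eq_or_lt_of_le hd with h1 | h1
            · exact Or.inr h1
            · exact Or.inl (hmin d h1)
        by_cases hxy : x < y
        · right
          refine ⟨x, hxy.le, ?_, ?_⟩
          · rw [mem_union, mem_dnf]
            rintro (h1 | h1)
            · exact hx h1
            · exact hxx' h1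
          · rw [hs1]
            refine bg_le ?_ ?_
            · rw [hs3 k k y hxy.ne' (fun h => hy.2 h.le)]
              exact Nat.zero_le _
            · intro d hd _
              rcases hdall d hd with h1 | h1
              · rw [g1 d h1]; exact Nat.zero_le _
              · rw [h1, g2]
        · left
          refine bg_le ?_ ?_
          · by_cases hyx : y = x
            · subst hyx; rw [hs1, hs1]
            · rw [hs3 k k y hyx (fun h => hy.2 h.le)]
              exact Nat.zero_le _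
          · intro d hd hdy
            rcases hdall d hd with h1 | h1
            · rw [g1 d h1]; exact Nat.zero_le _
            · exfalso
              rw [h1] at hdy
              exact hxy ((H.up y).mpr hdy.1))
    rw [hs2, st2_update_right hne] at h1
    by_cases hk0 : k = 0
    · subst hk0
      rw [if_pos rfl]
      have hcond : (0 : ℕ) = 0 ∧ ∀ y ≤ x', y ∉ D → st2 x x' 0 0 y = 0 :=
        ⟨rfl, fun y _ _ => by unfold st2; split_ifs <;> rfl⟩
      rw [if_pos hcond] at h1
      have h2 : ZB i (D ∪ dnf x') 0 (st2 x x' 0 0) n0 = ZB i (D ∪ dnf x') 0 0 n0 := by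
        refine ZB_congr (fun _ _ => rfl) (fun y _ => ?_) n0
        unfold st2
        split_ifs <;> rfl
      rw [h2] at h1
      exact h1
    · rw [if_neg hk0]
      rw [if_neg (fun h => hk0 h.1)] at h1
      exact h1
  have stepB : ∀ k, k + 1 ≤ θ x → p ∣ ZB i D 0 (st2 x x' k (k + 1)) n0 -
      ZB i D 0 (st2 x x' (k + 1) (k + 1)) n0 -
      (if k = 0 then ZB i (D ∪ dnf x) 0 (st2 x x' 0 1) n0 else 0) := by
    intro k hk
    have h1 := step_mod (i := i) (p := p) (n0 := n0) (β := st2 x x' k (k + 1)) hx hlx (by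
      intro g' hG hg0
      obtain ⟨g1, g2, g3, g4, g5⟩ := hG
      rw [hs1] at g2 g3
      have hE : D ∪ dnf x = D ∪ dnf x ∨ D ∪ dnf x = D ∪ dnf x' := Or.inl rfl
      refine dvd_ZB_shift_pos _ (hlow _ hE) (hlev _ hE) g5 p n0 (fun n hn => ?_) hg0
      refine hBC _ hE _ ?_ n hn
      intro y hy
      rw [mem_union, mem_dnf, not_or] at hy
      have hyx : y ≠ x := fun h => hy.2 h.le
      by_cases hyx' : y = x'
      · subst hyx'
        refine bg_le ?_ ?_
        · rw [hs2, heq]; exact hk
        · intro d hd hdy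
          have hdD := hmin d hdy.1
          rw [g1 d hdD]; exact Nat.zero_le _
      · refine bg_le ?_ ?_
        · rw [hs3 _ _ y hyx hyx']; exact Nat.zero_le _
        · intro d hd hdy
          by_cases hdD : d ∈ D
          · rw [g1 d hdD]; exact Nat.zero_le _
          · have hdx : d ≤ x := by
              rcases mem_union.mp hd with h1 | h1
              · exact absurd h1 hdD
              · exact mem_dnf.mp h1
            have h1 := g3 d hdx
            have h2 := hc2 d hdx hdD y hdy hy.2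
            omega)
    rw [hs1, st2_update_left] at h1
    by_cases hk0 : k = 0
    · subst hk0
      rw [if_pos rfl]
      have hcond : (0 : ℕ) = 0 ∧ ∀ y ≤ x, y ∉ D → st2 x x' 0 (0 + 1) y = 0 := by
        refine ⟨rfl, fun y hy _ => ?_⟩
        by_cases hyx : y = x
        · rw [hyx, hs1]
        · exact hs3 _ _ y hyx (fun h => hx'x (h ▸ hy))
      rw [if_pos hcond] at h1
      exact h1
    · rw [if_neg hk0]
      rw [if_neg (fun h => hk0 h.1)] at h1
      exact h1
  have hup : ∀ y, x < y → y ∉ D := fun y hy hyD => hx (hDlow x y hy.le hyD)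
  have main : ∀ s k, 1 ≤ k → k + s = θ x → p ∣ ZB i D 0 (st2 x x' k k) n0 -
      T0 := by
    intro s
    induction s with
    | zero =>
      intro k hk hks
      have h1 := stepA k (by omega)
      have hk' : k = θ x := by omega
      rw [if_neg (by omega), sub_zero, hk'] at h1
      rw [hk']
      have h2 := dvd_add h1 hV
      refine h2.trans (dvd_of_eq ?_)
      ring
    | succ s ih =>
      intro k hk hks
      have h1 := stepA k (by omega)
      have h2 := stepB k (by omega)
      rw [if_neg (by omega), sub_zero] at h1 h2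
      have h3 := ih (k + 1) (by omega) (by omega)
      have h4 := dvd_add (dvd_add h1 h2) h3
      refine h4.trans (dvd_of_eq ?_)
      ring
  have h1 := stepA 0 (Nat.zero_le _)
  have h2 := stepB 0 (by omega)
  have h3 := main (θ x - 1) 1 le_rfl (by omega)
  rw [if_pos rfl] at h1 h2
  have h0 : ZB i D 0 (st2 x x' 0 0) n0 = ZB i D 0 0 n0 := by
    refine ZB_congr (fun _ _ => rfl) (fun y _ => ?_) n0
    unfold st2
    split_ifs <;> rfl
  rw [h0, zero_add] at h1
  rw [zero_add] at h2
  have h4 := dvd_add (dvd_add h1 h2) h3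
  refine h4.trans (dvd_of_eq ?_)
  ring

end StepV

open Classical in
/-- the sum over the pairs, at an unbroken pair -/
lemma tsumV_twin {i : ℕ} {θ : P → ℕ} {ld : P × P → Prop} {V : P × P → ℤ[X]} {Tw : Finset (P × P)} {D : Finset P} {x x' : P}
    (hT : ∀ t ∈ Tw, Twn i θ t) (ht : (x, x') ∈ Tw) (hanti : (x', x) ∉ Tw)
    (hx : x ∉ D) (hx' : x' ∉ D) (hmin : ∀ y < x', y ∈ D) :
    tsumV i θ ld V Tw D 0 = (if ld (x, x') then V (x, x') else 0) +
      tsumV i θ ld V Tw (D ∪ dnf x) (st2 x x' 0 1) + tsumV i θ ld V Tw (D ∪ dnf x') 0 := by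
  have H := hT _ ht
  have hne := H.ne
  simp only at hne
  have hll : lev x = lev x' := lev_eq_of_up H.up
  have hxx' : ¬ x ≤ x' := fun h => hx (hmin x (lt_of_le_of_ne h hne))
  have hx'x : ¬ x' ≤ x := fun h => by
    have h1 : x' < x := lt_of_le_of_ne h hne.symm
    exact lt_irrefl x ((H.up x).mpr h1)
  have hsame : ∀ y, lev y = lev x → y ≤ x → y = x := by
    intro y hy hyx
    by_contra h
    have := lev_strictAnti (lt_of_le_of_ne hyx h)
    omega
  have h1 : (twsV i θ ld Tw D 0).filter (fun t => ¬ (t.1 = x' ∨ t.2 = x')) =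
      twsV i θ ld Tw (D ∪ dnf x') 0 := by
    ext t
    rw [mem_filter, mem_twsV, mem_twsV]
    constructor
    · rintro ⟨⟨h1, h2, h3, -⟩, h5⟩
      push Not at h5
      refine ⟨h1, ⟨?_, ?_⟩, h3, fun _ _ => Nat.zero_le _⟩
      · rw [mem_union, mem_dnf, not_or]
        exact ⟨h2.1, fun h => h2.1 (hmin _ (lt_of_le_of_ne h h5.1))⟩
      · rw [mem_union, mem_dnf, not_or]
        exact ⟨h2.2, fun h => h2.2 (hmin _ (lt_of_le_of_ne h h5.2))⟩
    · rintro ⟨h1, ⟨h2, h2'⟩, h3, -⟩
      rw [mem_union, mem_dnf, not_or] at h2 h2'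
      refine ⟨⟨h1, ⟨h2.1, h2'.1⟩, h3, fun _ _ => Nat.zero_le _⟩, ?_⟩
      rintro (h | h)
      · exact h2.2 h.le
      · exact h2'.2 h.le
  have hnot : (x, x') ∉ twsV i θ ld Tw (D ∪ dnf x) (st2 x x' 0 1) := by
    rw [mem_twsV]
    rintro ⟨-, ⟨h, -⟩, -⟩
    exact h (mem_union_right _ (mem_dnf.mpr le_rfl))
  have h2 : (twsV i θ ld Tw D 0).filter (fun t => t.1 = x' ∨ t.2 = x') =
      (if ld (x, x') then {(x, x')} else ∅) ∪
        twsV i θ ld Tw (D ∪ dnf x) (st2 x x' 0 1) := by
    ext t
    rw [mem_filter, mem_twsV, mem_union, mem_twsV]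
    constructor
    · rintro ⟨⟨h1, h2, h3, -⟩, h5⟩
      by_cases h6 : t = (x, x')
      · left
        rw [if_pos (by rw [← h6]; exact h3), mem_singleton]
        exact h6
      · right
        have Ht := hT t h1
        have hl : lev t.1 = lev t.2 := lev_eq_of_up Ht.up
        have hn1 : ¬ t.1 ≤ x := by
          intro h
          rcases h5 with h5 | h5
          · rw [h5] at h; exact hx'x h
          · have := hsame t.1 (by rw [hl, h5]; exact hll.symm) h
            exact h6 (Prod.ext this h5)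
        have hn2 : ¬ t.2 ≤ x := by
          intro h
          rcases h5 with h5 | h5
          · have h7 := hsame t.2 (by rw [← hl, h5]; exact hll.symm) h
            apply hanti
            have : t = (x', x) := Prod.ext h5 h7
            rw [← this]; exact h1
          · rw [h5] at h; exact hx'x h
        refine ⟨h1, ⟨?_, ?_⟩, h3, fun y _ => ?_⟩
        · rw [mem_union, mem_dnf, not_or]; exact ⟨h2.1, hn1⟩
        · rw [mem_union, mem_dnf, not_or]; exact ⟨h2.2, hn2⟩
        · unfold st2
          split_ifs with h8 h9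
          · exact Nat.zero_le _
          · have h10 := Ht.one_le
            rcases h5 with h5 | h5
            · rw [h9, ← h5, tez_fst]; exact h10
            · rw [h9, ← h5, tez_snd Ht.ne]; omega
          · exact Nat.zero_le _
    · intro h
      rcases h with h | ⟨h1, ⟨h2, h2'⟩, h3, h4⟩
      · split_ifs at h with hc
        · rw [mem_singleton] at h
          rw [h]
          exact ⟨⟨ht, ⟨hx, hx'⟩, hc, fun _ _ => Nat.zero_le _⟩, Or.inr rfl⟩
        · exact absurd h (Finset.notMem_empty _)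
      · rw [mem_union, mem_dnf, not_or] at h2 h2'
        refine ⟨⟨h1, ⟨h2.1, h2'.1⟩, h3, fun _ _ => Nat.zero_le _⟩, ?_⟩
        by_contra hcon
        push Not at hcon
        have h5 := h4 x' (by
          rw [mem_union, mem_dnf, not_or]
          exact ⟨hx', hx'x⟩)
        unfold st2 at h5
        rw [if_neg hne.symm, if_pos rfl] at h5
        rw [tez_off hcon.1.symm hcon.2.symm (fun h => h2.1 (hmin _ h))] at h5
        omega
  have h3 : ∑ t ∈ (twsV i θ ld Tw D 0).filter (fun t => t.1 = x' ∨ t.2 = x'), V t =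
      (if ld (x, x') then V (x, x') else 0) +
      ∑ t ∈ twsV i θ ld Tw (D ∪ dnf x) (st2 x x' 0 1), V t := by
    rw [h2, Finset.sum_union]
    · congr 1
      split_ifs with hc
      · rw [Finset.sum_singleton]
      · rw [Finset.sum_empty]
    · split_ifs with hc
      · rw [Finset.disjoint_singleton_left]; exact hnot
      · exact Finset.disjoint_empty_left _
  unfold tsumV
  rw [← h3, ← h1]
  exact (Finset.sum_filter_add_sum_filter_not _ _ _).symm

open Classical in
/-- the twin lemma, exact form, with prescribed sums -/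
theorem dvd_ZB_exactH (i : ℕ) (p : ℤ[X]) (n0 : ℕ) (ld : P × P → Prop) (V : P × P → ℤ[X]) (DD : Set (Finset P)) (θ : P → ℕ)
    (Tw : Finset (P × P))
    (hlow : ∀ D ∈ DD, ∀ x y, x ≤ y → y ∈ D → x ∈ D) (hlev : ∀ D ∈ DD, ∀ x ∈ D, i < lev x)
    (hθ : ∀ x, 1 ≤ θ x → i < lev x) (hle : ∀ x, θ x ≤ lev x - i)
    (c0 : ∀ D ∈ DD, (∀ t ∈ Tw, t.1 ∈ D ∨ t.2 ∈ D) → ∀ n, p ∣ ZB i D 0 0 n)
    (c1 : ∀ D ∈ DD, ∀ x, x ∉ D → 1 ≤ θ x → D ∪ dnf x ∈ DD)
    (c2 : ∀ D ∈ DD, ∀ x, x ∉ D → 1 ≤ θ x → ∀ y ≤ x, y ∉ D → ∀ x', y ⋖ x' → ¬ x' ≤ x →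
      θ x ≤ θ x' + 1)
    (hT : ∀ t ∈ Tw, Twn i θ t) (hanti : ∀ x x', (x, x') ∈ Tw → (x', x) ∉ Tw)
    (hHT : ∀ t ∈ Tw, ∀ D ∈ DD, t.1 ∉ D → t.2 ∉ D → ∀ n < n0,
      p ∣ ZB i D 0 (st2 t.1 t.2 (θ t.1) (θ t.1 + 1)) n)
    (hV : ∀ t ∈ Tw, ∀ D ∈ DD, t.1 ∉ D → t.2 ∉ D →
      p ∣ ZB i D 0 (st2 t.1 t.2 (θ t.1) (θ t.1 + 1)) n0 - (if ld t then V t else 0))
    (hmin : ∀ t ∈ Tw, ∀ D ∈ DD, ∀ y < t.2, y ∈ D) :
    ∀ D ∈ DD, ∀ β : P → ℕ, (∀ x, x ∉ D → β x ≤ θ x) →
      p ∣ ZB i D 0 β n0 - tsumV i θ ld V Tw D β := by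
  classical
  have hlt := dvd_ZB_bounds_twinsH i p n0 DD θ Tw hlow hlev hθ (fun D hD hb n _ => c0 D hD hb n)
    c1 c2 (fun t ht => (hT t ht).toP) hHT hmin
  have outer : ∀ N : ℕ, ∀ D ∈ DD, (Dᶜ).card = N → ∀ β : P → ℕ, (∀ x, x ∉ D → β x ≤ θ x) →
      p ∣ ZB i D 0 β n0 - tsumV i θ ld V Tw D β := by
    intro N
    induction N using Nat.strong_induction_on with
    | _ N ihN =>
    intro D hDD hN
    have hsmall : ∀ x, x ∉ D → 1 ≤ θ x → ∀ β : P → ℕ, (∀ y, y ∉ D ∪ dnf x → β y ≤ θ y) →
        p ∣ ZB i (D ∪ dnf x) 0 β n0 - tsumV i θ ld V Tw (D ∪ dnf x) β := by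
      intro x hx hθx β hβ
      refine ihN _ ?_ _ (c1 D hDD x hx hθx) rfl β hβ
      rw [← hN]
      apply Finset.card_lt_card
      rw [Finset.compl_ssubset_compl]
      rw [Finset.ssubset_iff_of_subset subset_union_left]
      exact ⟨x, mem_union_right _ (mem_dnf.mpr le_rfl), hx⟩
    have base : p ∣ ZB i D 0 0 n0 - tsumV i θ ld V Tw D 0 := by
      by_cases hall : ∀ t ∈ Tw, t.1 ∈ D ∨ t.2 ∈ D
      · have h1 : tsumV i θ ld V Tw D 0 = 0 := by
          unfold tsumV
          rw [Finset.sum_eq_zero]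
          intro t ht
          exfalso
          rw [mem_twsV] at ht
          rcases hall t ht.1 with h | h
          · exact ht.2.1.1 h
          · exact ht.2.1.2 h
        rw [h1, sub_zero]
        exact c0 D hDD hall n0
      · push Not at hall
        obtain ⟨⟨x, x'⟩, ht, hx, hx'⟩ := hall
        have H := hT _ ht
        have hθx := H.one_le
        have heq := H.eq
        simp only at hθx heq hx hx'
        have hθx' : 1 ≤ θ x' := by omega
        have hDx := c1 D hDD x hx hθx
        have hDx' := c1 D hDD x' hx' hθx'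
        have hin : ∀ E : Finset P, E = D ∪ dnf x ∨ E = D ∪ dnf x' → E ∈ DD := by
          rintro E (rfl | rfl)
          · exact hDx
          · exact hDx'
        have hm : ∀ y < x', y ∈ D := hmin _ ht D hDD
        have h1 := twin_step_exactH (p := p) (n0 := n0) H (hθ x hθx) (hlev D hDD) (hlow D hDD) hx hx'
          hm (fun E hE => hlow E (hin E hE)) (fun E hE => hlev E (hin E hE))
          (c2 D hDD x hx hθx) (fun E hE => hlt E (hin E hE))
          (hV _ ht D hDD hx hx')
        have hx'x : ¬ x' ≤ x := fun h => by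
          have h1 : x' < x := lt_of_le_of_ne h (fun h => H.ne h.symm)
          exact lt_irrefl x ((H.up x).mpr h1)
        have h2 := hsmall x hx hθx (st2 x x' 0 1) (by
          intro y hy
          unfold st2
          split_ifs with h8 h9
          · exact Nat.zero_le _
          · rw [h9]; exact hθx'
          · exact Nat.zero_le _)
        have h3 := hsmall x' hx' hθx' 0 (fun _ _ => Nat.zero_le _)
        rw [tsumV_twin hT ht (hanti _ _ ht) hx hx' hm]
        have h4 := dvd_add (dvd_add h1 h2) h3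
        refine h4.trans (dvd_of_eq ?_)
        ring
    have inner : ∀ s : ℕ, ∀ β : P → ℕ, (∑ x ∈ Dᶜ, β x = s) → (∀ x, x ∉ D → β x ≤ θ x) →
        p ∣ ZB i D 0 β n0 - tsumV i θ ld V Tw D β := by
      intro s
      induction s with
      | zero =>
        intro β hβ _
        have h0 : ∀ x, x ∉ D → β x = 0 := by
          intro x hx
          rw [Finset.sum_eq_zero_iff] at hβ
          exact hβ x (by simpa using hx)
        rw [ZB_congr (g' := 0) (β' := 0) (fun _ _ => rfl) (fun x hx => by simpa using h0 x hx)]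
        have h1 : tsumV i θ ld V Tw D β = tsumV i θ ld V Tw D 0 := by
          unfold tsumV
          rw [twsV_congr (β' := 0) (fun x hx => by simpa using h0 x hx)]
        rw [h1]
        exact base
      | succ s ihs =>
        intro β hβ hbd
        obtain ⟨x0, hx0, hx0b⟩ : ∃ x0, x0 ∉ D ∧ 1 ≤ β x0 := by
          by_contra hcon
          push Not at hcon
          have : ∑ x ∈ Dᶜ, β x = 0 := Finset.sum_eq_zero fun x hx => by
            have := hcon x (by simpa using hx)
            omega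
          omega
        let β' : P → ℕ := Function.update β x0 (β x0 - 1)
        have hβ'x : β' x0 = β x0 - 1 := Function.update_self _ _ _
        have hβ'n : ∀ x, x ≠ x0 → β' x = β x := fun x hx => Function.update_of_ne hx _ _
        have hββ : β = Function.update β' x0 (β' x0 + 1) := by
          funext x
          by_cases hx : x = x0
          · subst hx
            rw [Function.update_self, hβ'x]; omega
          · rw [Function.update_of_ne hx, hβ'n x hx]
        have hle' : ∀ x, β' x ≤ β x := by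
          intro x
          by_cases hx : x = x0
          · subst hx; rw [hβ'x]; omega
          · rw [hβ'n x hx]
        have hθx0 : 1 ≤ θ x0 := hx0b.trans (hbd x0 hx0)
        have hsum : ∑ x ∈ Dᶜ, β' x = s := by
          have h1 : ∑ x ∈ Dᶜ, β x = ∑ x ∈ Dᶜ, β' x + 1 := by
            rw [← Finset.add_sum_erase Dᶜ β (by simpa using hx0 : x0 ∈ Dᶜ),
              ← Finset.add_sum_erase Dᶜ β' (by simpa using hx0 : x0 ∈ Dᶜ), hβ'x]
            have h2 : ∑ x ∈ Dᶜ.erase x0, β x = ∑ x ∈ Dᶜ.erase x0, β' x :=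
              Finset.sum_congr rfl fun x hx => (hβ'n x (ne_of_mem_erase hx)).symm
            omega
          omega
        have hD' := c1 D hDD x0 hx0 hθx0
        have hbx := hbd x0 hx0
        have h1 := step_mod (p := p) (n0 := n0) (β := β') hx0 (hθ x0 hθx0) (by
          intro g' hG hg0
          obtain ⟨g1, g2, g3, g4, g5⟩ := hG
          refine dvd_ZB_shift_pos β' (hlow _ hD') (hlev _ hD') g5 p n0 (fun n hn => ?_) hg0
          refine hlt _ hD' _ ?_ n hn
          intro x hx
          rw [mem_union, mem_dnf, not_or] at hx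
          refine bg_le ((hle' x).trans (hbd x hx.1)) ?_
          intro y hy hyx
          by_cases hyD : y ∈ D
          · rw [g1 y hyD]; exact Nat.zero_le _
          · have hyx0 : y ≤ x0 := by
              rcases mem_union.mp hy with h | h
              · exact absurd h hyD
              · exact mem_dnf.mp h
            have h1 := g3 y hyx0
            rw [hβ'x] at h1
            have h2 := c2 D hDD x0 hx0 hθx0 y hyx0 hyD x hyx hx.2
            omega)
        have h2 := tsumV_step (ld := ld) (V := V) hT (D := D) (β := β') hx0 (hθ x0 hθx0) (hle x0)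
          (by omega)
        have h3 := ihs β' hsum (fun x hx => (hle' x).trans (hbd x hx))
        rw [← hββ] at h1 h2
        rw [h2] at h3
        by_cases hc : β' x0 = 0 ∧ ∀ y ≤ x0, y ∉ D → β' y = 0
        · rw [if_pos hc] at h1 h3
          have h4 := hsmall x0 hx0 hθx0 β' (fun y hy => by
            rw [mem_union, not_or] at hy
            exact (hle' y).trans (hbd y hy.1))
          have h5 := dvd_sub (dvd_sub h3 h1) h4
          refine h5.trans (dvd_of_eq ?_)
          ring
        · rw [if_neg hc, sub_zero] at h1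
          rw [if_neg hc, add_zero] at h3
          have h5 := dvd_sub h3 h1
          refine h5.trans (dvd_of_eq ?_)
          ring
    intro β hbd
    exact inner _ β rfl hbd
  intro D hDD β hbd
  exact outer _ D hDD rfl β hbd

end Pool.Agent.GaussPoset
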