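import Pool.Agent.W_448f4_h70.GB

/-!
The far window theorem with twins with prescribed sums (MP_448cb3_co, S7, windows 2, 3).
-/

namespace Pool.Agent.GaussPoset

set_option linter.unusedSectionVars false

open Polynomial Finset

universe u

variable {P : Type u} [Fintype P] [PartialOrder P] [DecidableEq P]
variable {ι : Type*}

/-- far data at the energy `n0`, with the contribution `S` of the twins -/
structure FarV (P : Type u) [Fintype P] [PartialOrder P] [DecidableEq P] (i : ℕ)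
    (R : Finset P) (b : ℕ) (h : P → ℕ) (S : ℤ[X]) (n0 : ℕ) : Prop where
  graded : GradedBelow P
  hlev : ∀ x ∈ R, i < lev x
  clean : ∀ g : P → ℕ, (∀ x, x ∉ R → g x = 0) → (∀ z ∈ bdR R, g z < h z) → g ≠ 0 →
    (1 + X : ℤ[X]) ^ b ∣ ZB i R g 0 n0
  zero : (1 + X : ℤ[X]) ^ b ∣ ZB i R 0 0 n0 - S
  one_le : ∀ z ∈ bdR R, 1 ≤ h z
  le_lev : ∀ z ∈ bdR R, h z ≤ lev z - i

open Classical in
/-- far data with twins from component data, with prescribed sums -/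
theorem farV_of_compT [Fintype ι] [DecidableEq ι] {i : ℕ} {R : Finset P}
    (hgr : GradedBelow P) (hR : ∀ x y, x ≤ y → y ∈ R → x ∈ R) (hRlev : ∀ x ∈ R, i < lev x)
    (cp : P → ι) (hcp : ∀ x y, x ≤ y → x ∉ R → cp x = cp y) (b : ι → ℕ) (θ : P → ℕ)
    (B : P → Prop) (hBR : ∀ x ∈ R, ¬ B x) (Tw : Finset (P × P)) (n0 : ℕ)
    (H : ∀ k, CompDataT R cp k i (b k) θ B Tw)
    (ld : P × P → Prop) (V : P × P → ℤ[X])
    (htw : ∀ t ∈ Tw, Twn i θ t) (hanti : ∀ x x', (x, x') ∈ Tw → (x', x) ∉ Tw)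
    (hHT : ∀ t ∈ Tw, ∀ D, Good i R B D → t.1 ∉ D → t.2 ∉ D → ∀ n < n0,
      (1 + X : ℤ[X]) ^ (∑ k, b k) ∣ ZB i D 0 (st2 t.1 t.2 (θ t.1) (θ t.1 + 1)) n)
    (hV : ∀ t ∈ Tw, ∀ D, Good i R B D → t.1 ∉ D → t.2 ∉ D → (1 + X : ℤ[X]) ^ (∑ k, b k) ∣
      ZB i D 0 (st2 t.1 t.2 (θ t.1) (θ t.1 + 1)) n0 - (if ld t then V t else 0)) (hmin : ∀ t ∈ Tw, ∀ y < t.2, y ∈ R)
    (htR : ∀ t ∈ Tw, t.1 ∉ R ∧ t.2 ∉ R) : 
    FarV P i R (∑ k, b k) (hcan R θ) (∑ t ∈ Tw.filter ld, V t) n0 := by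
  classical
  let θ' : P → ℕ := fun x => if x ∈ R then 0 else θ x
  have hθ' : ∀ x, x ∉ R → θ' x = θ x := fun x hx => if_neg hx
  have hθ0 : ∀ x, 1 ≤ θ' x → x ∉ R := by
    intro x hx hxR
    have : θ' x = 0 := if_pos hxR
    omega
  have hlow : ∀ D ∈ {D | Good i R B D}, ∀ x y, x ≤ y → y ∈ D → x ∈ D := fun D hD => hD.1
  have hlev : ∀ D ∈ {D | Good i R B D}, ∀ x ∈ D, i < lev x := fun D hD => hD.2.2.1
  have hRR : R ∈ {D | Good i R B D} := ⟨hR, Subset.refl R, hRlev, hBR⟩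
  have hθ : ∀ x, 1 ≤ θ' x → i < lev x := by
    intro x hx
    have hxR := hθ0 x hx
    rw [hθ' x hxR] at hx
    exact (H (cp x)).lev x hxR rfl hx
  have hle : ∀ x, θ' x ≤ lev x - i := by
    intro x
    by_cases hxR : x ∈ R
    · have : θ' x = 0 := if_pos hxR
      omega
    · rw [hθ' x hxR]
      exact (H (cp x)).le x hxR rfl
  have c0 : ∀ D ∈ {D | Good i R B D}, (∀ t ∈ Tw, t.1 ∈ D ∨ t.2 ∈ D) → ∀ n,
      (1 + X : ℤ[X]) ^ (∑ k, b k) ∣ ZB i D 0 0 n := by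
    intro D hD hbr n
    rw [ZB_off hD.1 hD.2.2.1]
    refine dvd_Z_of_dvd_W ?_ n
    refine dvd_W_prod (fun x : {x : P // x ∉ D} => cp (x : P)) ?_ i b fun k => ?_
    · intro x y hxy
      exact hcp x y hxy fun h => x.2 (hD.2.1 h)
    · exact (H k).clean D hD hbr inferInstance
  have c1 : ∀ D ∈ {D | Good i R B D}, ∀ x, x ∉ D → 1 ≤ θ' x →
      D ∪ dnf x ∈ {D | Good i R B D} := by
    intro D hD x hx hθx
    have hxR := hθ0 x hθx
    rw [hθ' x hxR] at hθx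
    have hlx := (H (cp x)).lev x hxR rfl hθx
    refine ⟨?_, hD.2.1.trans subset_union_left, ?_, ?_⟩
    · intro a c hac hc
      rw [mem_union, mem_dnf] at hc ⊢
      rcases hc with hc | hc
      · exact Or.inl (hD.1 a c hac hc)
      · exact Or.inr (hac.trans hc)
    · intro a ha
      rw [mem_union, mem_dnf] at ha
      rcases ha with ha | ha
      · exact hD.2.2.1 a ha
      · rcases eq_or_lt_of_le ha with h | h
        · rw [h]; exact hlx
        · have := lev_strictAnti h; omega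
    · intro a ha
      rw [mem_union, mem_dnf] at ha
      rcases ha with ha | ha
      · exact hD.2.2.2 a ha
      · by_cases haR : a ∈ R
        · exact hBR a haR
        · exact (H (cp x)).base x hxR rfl hθx a ha haR
  have c2 : ∀ D ∈ {D | Good i R B D}, ∀ x, x ∉ D → 1 ≤ θ' x → ∀ y ≤ x, y ∉ D → ∀ x', y ⋖ x' →
      ¬ x' ≤ x → θ' x ≤ θ' x' + 1 := by
    intro D hD x hx hθx y hyx hyD x' hyx' hx'x
    have hxR := hθ0 x hθx
    have hyR : y ∉ R := fun h => hyD (hD.2.1 h)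
    have hx'R : x' ∉ R := fun h => hyR (hR y x' hyx'.1.le h)
    rw [hθ' x hxR] at hθx ⊢
    rw [hθ' x' hx'R]
    exact (H (cp x)).step x hxR rfl hθx y hyx hyR x' hx'R hyx' hx'x
  have hT : ∀ t ∈ Tw, Twn i θ' t := by
    intro t ht
    have h1 := htR t ht
    have h2 := htw t ht
    refine ⟨h2.ne, h2.up, ?_, ?_, ?_, ?_⟩
    · rw [hθ' _ h1.1]; exact h2.one_le
    · rw [hθ' _ h1.1, hθ' _ h1.2]; exact h2.eq
    · rw [hθ' _ h1.1]; exact h2.lt
    · intro y hy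
      rw [hθ' _ h1.1, hθ' y (fun h => h1.1 (hR _ _ hy.le h))]
      exact h2.mono y hy
  have hst : ∀ t ∈ Tw, st2 t.1 t.2 (θ' t.1) (θ' t.1 + 1) = st2 t.1 t.2 (θ t.1) (θ t.1 + 1) := by
    intro t ht
    rw [hθ' _ (htR t ht).1]
  have hHT' : ∀ t ∈ Tw, ∀ D ∈ {D | Good i R B D}, t.1 ∉ D → t.2 ∉ D → ∀ n < n0,
      (1 + X : ℤ[X]) ^ (∑ k, b k) ∣ ZB i D 0 (st2 t.1 t.2 (θ' t.1) (θ' t.1 + 1)) n := by
    intro t ht D hD h1 h2 n hn
    rw [hst t ht]
    exact hHT t ht D hD h1 h2 n hn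
  have hV' : ∀ t ∈ Tw, ∀ D ∈ {D | Good i R B D}, t.1 ∉ D → t.2 ∉ D →
      (1 + X : ℤ[X]) ^ (∑ k, b k) ∣
      ZB i D 0 (st2 t.1 t.2 (θ' t.1) (θ' t.1 + 1)) n0 - (if ld t then V t else 0) := by
    intro t ht D hD h1 h2
    rw [hst t ht]
    exact hV t ht D hD h1 h2
  have hmin' : ∀ t ∈ Tw, ∀ D ∈ {D | Good i R B D}, ∀ y < t.2, y ∈ D :=
    fun t ht D hD y hy => hD.2.1 (hmin t ht y hy)
  have hlt := dvd_ZB_bounds_twinsH i _ n0 {D | Good i R B D} θ' Tw hlow hlev hθ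
    (fun D hD hb n _ => c0 D hD hb n) c1 c2 (fun t ht => (hT t ht).toP) hHT' hmin'
  have hex := dvd_ZB_exactH i _ n0 ld V {D | Good i R B D} θ' Tw hlow hlev hθ hle c0 c1 c2 hT hanti
    hHT' hV' hmin' R hRR 0 (fun _ _ => Nat.zero_le _)
  refine ⟨hgr, hRlev, ?_, ?_, ?_, ?_⟩
  · intro g hg0 hg hpos
    refine dvd_ZB_shift_pos 0 hR hRlev hg0 _ n0 (fun n hn => ?_) hpos
    refine hlt R hRR _ ?_ n hn
    intro x hx
    refine bg_le (Nat.zero_le _) fun y hy hyx => ?_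
    rw [hθ' x hx]
    have h1 : y ∈ bdR R := mem_filter.mpr ⟨hy, x, hx, hyx⟩
    have h2 := hg y h1
    have h3 := hcan_le (θ := θ) hx hyx
    omega
  · have h1 : tsumV i θ' ld V Tw R 0 = ∑ t ∈ Tw.filter ld, V t := by
      unfold tsumV
      refine Finset.sum_congr ?_ (fun _ _ => rfl)
      ext t
      rw [mem_twsV, mem_filter]
      exact ⟨fun h => ⟨h.1, h.2.2.1⟩, fun h => ⟨h.1, htR t h.1, h.2, fun _ _ => Nat.zero_le _⟩⟩
    rw [h1] at hex
    exact hex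
  · intro z hz
    obtain ⟨x, -, -, hx⟩ := hcan_spec (θ := θ) hz
    omega
  · intro z hz
    obtain ⟨x, hxR, hzx, hx⟩ := hcan_spec (θ := θ) hz
    have h1 := hgr.lev_covBy hzx
    have h2 := (H (cp x)).le x hxR rfl
    have h3 := hRlev z (mem_filter.mp hz).1
    omega

section AssemblyV


variable {i : ℕ} {N : Tops P → Finset P} {b : Tops P → ℕ} {θ : Tops P → P → ℕ}
  {B : Tops P → P → Prop} {Y : Finset P} {τ : P → P}

open Classical in
/-- assembly: natural sets of all tops and twins of natural elements, with prescribed sums -/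
theorem farV_of_tops (hgr : GradedBelow P) (H : ∀ t, NatTop i t (b t) (N t) (θ t) (B t))
    (T : TwSys (unnat N) Y topOf τ) (n0 : ℕ)
    (htw : ∀ x ∈ Y, Twn i (thX Y τ (fun x => θ (topOf x) x)) (τ x, x))
    (ld : P → Prop) (V : P → ℤ[X])
    (hHT : ∀ x ∈ Y, ∀ D, Good i (unnat N \ Y) (fun x => x ∉ unnat N ∧ B (topOf x) x) D →
      τ x ∉ D → x ∉ D → ∀ n < n0, (1 + X : ℤ[X]) ^ (∑ t, b t) ∣ ZB i D 0
        (st2 (τ x) x (thX Y τ (fun x => θ (topOf x) x) (τ x))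
          (thX Y τ (fun x => θ (topOf x) x) (τ x) + 1)) n)
    (hV : ∀ x ∈ Y, ∀ D, Good i (unnat N \ Y) (fun x => x ∉ unnat N ∧ B (topOf x) x) D →
      τ x ∉ D → x ∉ D → (1 + X : ℤ[X]) ^ (∑ t, b t) ∣ ZB i D 0
        (st2 (τ x) x (thX Y τ (fun x => θ (topOf x) x) (τ x))
          (thX Y τ (fun x => θ (topOf x) x) (τ x) + 1)) n0 - (if ld x then V x else 0)) :
    FarV P i (unnat N \ Y) (∑ t, b t)
      (hcan (unnat N \ Y) (thX Y τ (fun x => θ (topOf x) x)))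
      (∑ x ∈ Y.filter ld, V x) n0 := by
  have HN := natSys_of_tops H
  have hRlev : ∀ x ∈ unnat N, i < lev x := by
    intro x hx
    by_contra hcon
    exact low_natural H (not_lt.mp hcon) hx
  have hsum : ∑ t ∈ (pairsX Y τ).filter (fun t => ld t.2), V t.2 = ∑ x ∈ Y.filter ld, V x := by
    have h1 : (pairsX Y τ).filter (fun t => ld t.2) = (Y.filter ld).image (fun x => (τ x, x)) := by
      unfold pairsX
      rw [Finset.filter_image]
    rw [h1, Finset.sum_image (by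
      intro x _ y _ h
      exact (Prod.mk.inj h).2)]
  have key := farV_of_compT hgr (T.lower HN.lower) (fun x hx => hRlev x (mem_sdiff.mp hx).1) topOf
    (T.cp' HN.cp) b (thX Y τ (fun x => θ (topOf x) x)) (fun x => x ∉ unnat N ∧ B (topOf x) x)
    (fun x hx h => h.1 (mem_sdiff.mp hx).1) (pairsX Y τ) n0 ?_ (fun t => ld t.2) (fun t => V t.2)
    ?_ ?_ ?_ ?_ ?_ ?_
  · rw [hsum] at key
    exact key
  · intro t
    refine CompData.toTwins ((H t).data N HN rfl _ _ ?_ ?_) T HN.lower hRlev (fun x hx h => h.1 hx)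
    · intro x hx
      simp only [HN.topOf_eq hx]
    · intro x hx
      simp only [HN.topOf_eq hx, (HN.mem_iff.mp hx).1, not_false_eq_true, true_and]
  · intro t ht
    rw [mem_pairsX] at ht
    have h1 := htw t.2 ht.1
    rw [← ht.2] at h1
    exact h1
  · intro x x' h1 h2
    rw [mem_pairsX] at h1 h2
    simp only at h1 h2
    exact T.nat x' h1.1 (h1.2 ▸ T.sub h2.1)
  · intro t ht D hD h1 h2 n hn
    rw [mem_pairsX] at ht
    have h3 := hHT t.2 ht.1 D hD (by rw [← ht.2]; exact h1) h2 n hn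
    rw [← ht.2] at h3
    exact h3
  · intro t ht D hD h1 h2
    rw [mem_pairsX] at ht
    have h3 := hV t.2 ht.1 D hD (by rw [← ht.2]; exact h1) h2
    rw [← ht.2] at h3
    exact h3
  · intro t ht y hy
    rw [mem_pairsX] at ht
    rw [mem_sdiff]
    exact ⟨HN.lower y _ hy.le (T.sub ht.1), fun h => T.anti _ ht.1 y h hy⟩
  · intro t ht
    rw [mem_pairsX] at ht
    rw [mem_sdiff, mem_sdiff, ht.2]
    exact ⟨fun h => T.nat _ ht.1 h.1, fun h => h.2 ht.1⟩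

end AssemblyV

end Pool.Agent.GaussPoset
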