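import Pool.Agent.W_448f4_h70.GC

/-!
Leading term and larger labels for `FarV`; raising the threshold of a twin pair
(MP_448cb3_co, S7, windows 2, 3).
-/

namespace Pool.Agent.GaussPoset

set_option linter.unusedSectionVars false

open Polynomial Finset

universe u

variable {P : Type u} [Fintype P] [PartialOrder P] [DecidableEq P]

section LeadV

/-- the far window theorem with twins: exact leading term -/
theorem FarV.lead {i : ℕ} {R : Finset P} {b : ℕ} {h : P → ℕ} {S : ℤ[X]} {n0 : ℕ}
    (H : FarV P i R b h S n0) (hn : ∀ z ∈ bdR R, n0 ≤ cst i h z) :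
    (1 + X : ℤ[X]) ^ b ∣ Z P i n0 -
      (∑ z ∈ (bdR R).filter (fun z => cst i h z = n0), Lt i h z + S) := by
  classical
  have hb : ¬ (fun g : P → ℕ => ∃ z ∈ bdR R, h z ≤ g z) 0 := by
    rintro ⟨z, hz, h1⟩
    have := H.one_le z hz
    have h2 : h z ≤ 0 := h1
    omega
  have h1 := dvd_Z_sub_RB (i := i) (R := R)
    (fun g => (fun g : P → ℕ => ∃ z ∈ bdR R, h z ≤ g z) g ∨ g = 0) ((1 + X : ℤ[X]) ^ b) n0 (by
      intro g hg0 hg
      simp only [not_or] at hg
      refine H.clean g hg0 (fun z hz => ?_) hg.2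
      by_contra hcon
      exact hg.1 ⟨z, hz, not_lt.mp hcon⟩)
  rw [RB_or_zero hb] at h1
  have hev := RB_eval (i := i) (R := R) (bad := fun g => ∃ z ∈ bdR R, h z ≤ g z) (n := n0) h ∅
    (bdR R) (fun z hz => absurd hz (Finset.notMem_empty z))
    (fun z hz => ⟨H.one_le z hz, H.le_lev z hz⟩)
    (fun z hz => absurd hz (Finset.notMem_empty z))
    (fun z hz _ => ⟨z, hz, by rw [lbl_of (mem_filter.mp hz).1, ez_self (H.le_lev z hz)]⟩) (by
      intro e F hV hs hb
      have hd : ∃ z ∈ bdR R, Dgz h e F z := by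
        by_contra hcon
        push Not at hcon
        have h2 := not_mem_of_not_dg H.hlev hV hcon
        rcases hb with ⟨x, hx, hxF⟩ | ⟨z, hz, hz2⟩
        · exact h2 x hx hxF
        · refine hcon z hz (Or.inr ?_)
          rwa [lbl_of (mem_filter.mp hz).1] at hz2
      obtain ⟨z, hz, hd⟩ := hd
      right
      refine ⟨z, hz, ?_⟩
      have h4 : ∀ x, ez i h z x ≤ e x := ez_le hV (H.hlev z (mem_filter.mp hz).1) hd
      have h6 : cst i h z ≤ n0 := by
        rw [← hs]; exact Finset.sum_le_sum fun x _ => h4 x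
      have h7 : cst i h z = n0 := le_antisymm h6 (hn z hz)
      funext x
      have h9 : ∑ x, ez i h z x = ∑ x, e x := by
        rw [hs]; exact h7
      exact ((Finset.sum_eq_sum_iff_of_le (fun x _ => h4 x)).mp h9 x (mem_univ x)).symm)
    (fun z hz => absurd hz (Finset.notMem_empty z)) (fun z hz => absurd hz (Finset.notMem_empty z))
  have h6 : ∑ z ∈ (bdR R).filter (fun z => cst i h z = n0), Lt i h z =
      ∑ z ∈ (bdR R).filter (fun z => cst i h z = n0),
      (if Adm i (ez i h z) then
      (X : ℤ[X]) ^ (nf i (ez i h z)) * (1 + X) ^ (Pk i (ez i h z)).card else 0) := by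
    refine Finset.sum_congr rfl fun z hz => ?_
    rw [mem_filter] at hz
    exact (lead_eq H.graded (H.one_le z hz.1) (H.le_lev z hz.1)).symm
  rw [hev, Finset.sum_empty, zero_add] at h1
  rw [h6]
  have h7 := dvd_add h1 H.zero
  refine h7.trans (dvd_of_eq ?_)
  ring


/-- larger labels in the far window theorem -/
theorem FarV.raise {i : ℕ} {R : Finset P} {b : ℕ} {h h' : P → ℕ} {S : ℤ[X]} {n0 : ℕ}
    (H : FarV P i R b h S n0) (hle : ∀ z ∈ bdR R, h z ≤ h' z)
    (hlev : ∀ z ∈ bdR R, h' z ≤ lev z - i)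
    (hnew : ∀ g : P → ℕ, (∀ x, x ∉ R → g x = 0) → (∀ z ∈ bdR R, g z < h' z) →
      (∃ z ∈ bdR R, h z ≤ g z) → (1 + X : ℤ[X]) ^ b ∣ ZB i R g 0 n0) :
    FarV P i R b h' S n0 where
  graded := H.graded
  hlev := H.hlev
  clean := by
    intro g g0 hg hne
    by_cases h1 : ∀ z ∈ bdR R, g z < h z
    · exact H.clean g g0 h1 hne
    · push Not at h1
      exact hnew g g0 hg h1
  zero := H.zero
  one_le := fun z hz => (H.one_le z hz).trans (hle z hz)
  le_lev := hlev

end LeadV

section TStep

variable {i : ℕ} {p : ℤ[X]} {x x' : P} {D : Finset P}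

/-- Lemma A at one energy -/
lemma dvd_ZB_shift_at {i : ℕ} {D : Finset P} {g : P → ℕ} (β : P → ℕ)
    (hD : ∀ x y, x ≤ y → y ∈ D → x ∈ D) (hlev : ∀ x ∈ D, i < lev x)
    (hg : ∀ x, x ∉ D → g x = 0) (p : ℤ[X]) (n : ℕ)
    (h : ∀ m, m + ∑ x, g x = n → p ∣ ZB i D 0 (bg D g β) m) : p ∣ ZB i D g β n := by
  by_cases hc : ∀ x ∈ D, ∀ y ∈ D, x ≤ y → g x ≤ g y
  · by_cases hn : n < ∑ x ∈ D, g x
    · rw [ZB_zero_of_lt β n hn]; exact dvd_zero p
    · have hs : ∑ x ∈ D, g x = ∑ x, g x :=
        Finset.sum_subset (subset_univ D) fun x _ hx => hg x hx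
      obtain ⟨m, rfl⟩ : ∃ m, n = m + ∑ x, g x := ⟨n - ∑ x, g x, by omega⟩
      rw [ZB_shift β hD hlev hg hc]
      exact h m rfl
  · rw [ZB_zero_of_not_compat β hlev hc]; exact dvd_zero p

/-- the two thresholds of a pair of minimal twins can be raised by one, if the sums with one
bound are clean -/
theorem T_step (hne : x ≠ x') (hup : ∀ y, x < y ↔ x' < y) (hlx : i < lev x) (hx : x ∉ D)
    (hx' : x' ∉ D) (hm : ∀ y < x, y ∈ D) (hm' : ∀ y < x', y ∈ D)
    (hlow : ∀ E : Finset P, E = D ∪ dnf x ∨ E = D ∪ dnf x' → ∀ a c, a ≤ c → c ∈ E → a ∈ E)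
    (hlev : ∀ E : Finset P, E = D ∪ dnf x ∨ E = D ∪ dnf x' → ∀ a ∈ E, i < lev a)
    {k n : ℕ} (hk : 1 ≤ k)
    (hA : ∀ E : Finset P, E = D ∪ dnf x ∨ E = D ∪ dnf x' → ∀ y, y = x ∨ y = x' → y ∉ E →
      ∀ m, m + k ≤ n → p ∣ ZB i E 0 (sgz y (k + 1)) m) :
    p ∣ ZB i D 0 (st2 x x' k (k + 1)) n - ZB i D 0 (st2 x x' (k + 1) (k + 2)) n := by
  classical
  have hll : lev x = lev x' := lev_eq_of_up hup
  have hlx' : i < lev x' := by omega
  have hs1 : ∀ a b, st2 x x' a b x = a := fun a b => by unfold st2; rw [if_pos rfl]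
  have hs2 : ∀ a b, st2 x x' a b x' = b := fun a b => by
    unfold st2; rw [if_neg hne.symm, if_pos rfl]
  have hs3 : ∀ a b y, y ≠ x → y ≠ x' → st2 x x' a b y = 0 := fun a b y h1 h2 => by
    unfold st2; rw [if_neg h1, if_neg h2]
  have hnl : ∀ a b : P, lev a = lev b → a ≤ b → a = b := by
    intro a b hab h
    by_contra hcon
    have := lev_strictAnti (lt_of_le_of_ne h hcon)
    omega
  have hxx' : ¬ x ≤ x' := fun h => hne (hnl _ _ hll h)
  have hx'x : ¬ x' ≤ x := fun h => hne (hnl _ _ hll.symm h).symm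
  have hE1 : ∀ y, y ∈ D ∪ dnf x ↔ y ∈ D ∨ y = x := by
    intro y
    rw [mem_union, mem_dnf]
    constructor
    · rintro (h | h)
      · exact Or.inl h
      · rcases eq_or_lt_of_le h with h | h
        · exact Or.inr h
        · exact Or.inl (hm y h)
    · rintro (h | h)
      · exact Or.inl h
      · exact Or.inr h.le
  have hE2 : ∀ y, y ∈ D ∪ dnf x' ↔ y ∈ D ∨ y = x' := by
    intro y
    rw [mem_union, mem_dnf]
    constructor
    · rintro (h | h)
      · exact Or.inl h
      · rcases eq_or_lt_of_le h with h | h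
        · exact Or.inr h
        · exact Or.inl (hm' y h)
    · rintro (h | h)
      · exact Or.inl h
      · exact Or.inr h.le
  have h1 := step_mod (i := i) (p := p) (n0 := n) (β := st2 x x' k (k + 1)) hx hlx (by
    intro g' hG _
    obtain ⟨g1, g2, g3, g4, g5⟩ := hG
    rw [hs1] at g2 g3
    refine dvd_ZB_shift_at _ (hlow _ (Or.inl rfl)) (hlev _ (Or.inl rfl)) g5 p n
      (fun m hmn => ?_)
    rw [ZB_redundant (β := sgz x' (k + 1))]
    · refine hA _ (Or.inl rfl) x' (Or.inr rfl) ?_ m ?_
      · rw [hE1]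
        rintro (h | h)
        · exact hx' h
        · exact hne h.symm
      · have h2 : g' x ≤ ∑ y, g' y := Finset.single_le_sum (fun y _ => Nat.zero_le _) (mem_univ x)
        omega
    · intro y hy
      by_cases hyx : y = x'
      · subst hyx
        rw [sgz_self]
        refine le_trans ?_ (le_bg _ _ _ y)
        rw [hs2]
      · rw [sgz_ne _ hyx]
        exact Nat.zero_le _
    · intro y hy
      rw [hE1] at hy
      push Not at hy
      have hd : ∀ d ∈ D ∪ dnf x, d ≠ x → g' d = 0 := by
        intro d hd hdx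
        exact g1 d (((hE1 d).mp hd).resolve_right hdx)
      by_cases hyx : y = x'
      · left
        subst hyx
        rw [sgz_self]
        refine bg_le (by rw [hs2]) fun d hd' hdy => ?_
        rw [g1 d (hm' d hdy.1)]
        exact Nat.zero_le _
      · by_cases hxy : x' < y
        · right
          refine ⟨x', hxy.le, ?_, ?_⟩
          · rw [hE1]
            rintro (h | h)
            · exact hx' h
            · exact hne h.symm
          · rw [sgz_self]
            refine bg_le (by rw [hs3 _ _ y hy.2 hyx]; exact Nat.zero_le _) fun d hd' hdy => ?_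
            by_cases hdx : d = x
            · rw [hdx, g2]; omega
            · rw [hd d hd' hdx]; exact Nat.zero_le _
        · left
          rw [sgz_ne _ hyx]
          refine bg_le (by rw [hs3 _ _ y hy.2 hyx]) fun d hd' hdy => ?_
          by_cases hdx : d = x
          · exfalso
            rw [hdx] at hdy
            exact hxy ((hup y).mp hdy.1)
          · rw [hd d hd' hdx])
  rw [hs1, st2_update_left, if_neg (by omega), sub_zero] at h1
  have h2 := step_mod (i := i) (p := p) (n0 := n) (β := st2 x x' (k + 1) (k + 1)) hx' hlx' (by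
    intro g' hG _
    obtain ⟨g1, g2, g3, g4, g5⟩ := hG
    rw [hs2] at g2 g3
    refine dvd_ZB_shift_at _ (hlow _ (Or.inr rfl)) (hlev _ (Or.inr rfl)) g5 p n
      (fun m hmn => ?_)
    rw [ZB_redundant (β := sgz x (k + 1))]
    · refine hA _ (Or.inr rfl) x (Or.inl rfl) ?_ m ?_
      · rw [hE2]
        rintro (h | h)
        · exact hx h
        · exact hne h
      · have h2 : g' x' ≤ ∑ y, g' y :=
          Finset.single_le_sum (fun y _ => Nat.zero_le _) (mem_univ x')
        omega
    · intro y hy
      by_cases hyx : y = x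
      · subst hyx
        rw [sgz_self]
        refine le_trans ?_ (le_bg _ _ _ y)
        rw [hs1]
      · rw [sgz_ne _ hyx]
        exact Nat.zero_le _
    · intro y hy
      rw [hE2] at hy
      push Not at hy
      have hd : ∀ d ∈ D ∪ dnf x', d ≠ x' → g' d = 0 := by
        intro d hd hdx
        exact g1 d (((hE2 d).mp hd).resolve_right hdx)
      by_cases hyx : y = x
      · left
        subst hyx
        rw [sgz_self]
        refine bg_le (by rw [hs1]) fun d hd' hdy => ?_
        rw [g1 d (hm d hdy.1)]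
        exact Nat.zero_le _
      · by_cases hxy : x < y
        · right
          refine ⟨x, hxy.le, ?_, ?_⟩
          · rw [hE2]
            rintro (h | h)
            · exact hx h
            · exact hne h
          · rw [sgz_self]
            refine bg_le (by rw [hs3 _ _ y hyx hy.2]; exact Nat.zero_le _) fun d hd' hdy => ?_
            by_cases hdx : d = x'
            · rw [hdx, g2]
            · rw [hd d hd' hdx]; exact Nat.zero_le _
        · left
          rw [sgz_ne _ hyx]
          refine bg_le (by rw [hs3 _ _ y hyx hy.2]) fun d hd' hdy => ?_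
          by_cases hdx : d = x'
          · exfalso
            rw [hdx] at hdy
            exact hxy ((hup y).mpr hdy.1)
          · rw [hd d hd' hdx])
  rw [hs2, st2_update_right hne, if_neg (by omega), sub_zero] at h2
  have h3 := dvd_add h1 h2
  refine h3.trans (dvd_of_eq ?_)
  ring

end TStep

end Pool.Agent.GaussPoset
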