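import Pool.Agent.W_448ec_h63.EC

/-!
The cone of the cell `(2, q)` of a stair at the window `q + 1`: order two at small energies
(MP_448cb3_co, S7, windows 2, 3).
-/

namespace Pool.Agent.GaussPoset

set_option linter.unusedSectionVars false

open Polynomial Finset OrderDual

universe u

section Cone

variable {Q : Type u} [Fintype Q] [PartialOrder Q] [DecidableEq Q]

/-- the cone of the cell `(2, q)` of a stair -/
structure Cone2 (Q : Type u) [Fintype Q] [PartialOrder Q] (co : Q → ℕ × ℕ) (q : ℕ) : Prop where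
  inj : Function.Injective co
  le_iff : ∀ x y : Q, x ≤ y ↔ co y ≤ co x
  mem : ∀ x, (co x).1 ≤ 2 ∧ (co x).1 ≤ (co x).2 ∧ (co x).2 ≤ q
  surj : ∀ a b, a ≤ 2 → a ≤ b → b ≤ q → ∃ x, co x = (a, b)

variable {co : Q → ℕ × ℕ} {q : ℕ}

lemma Cone2.lev (H : Cone2 Q co q) (x : Q) : lev x = (co x).1 + (co x).2 := by
  refine lev_co co H.le_iff (fun x hx => ?_) x
  have hdx := H.mem x
  rcases Nat.eq_zero_or_pos (co x).1 with h | h
  · have h2 : 0 < (co x).2 := by
      rcases Nat.eq_zero_or_pos (co x).2 with h3 | h3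
      · exact absurd (Prod.ext h h3) hx
      · exact h3
    obtain ⟨z, hz⟩ := H.surj (co x).1 ((co x).2 - 1) (by omega) (by omega) (by omega)
    refine ⟨z, by rw [hz]; exact ⟨le_rfl, Nat.sub_le _ _⟩, ?_⟩
    rw [hz]
    simp only
    omega
  · obtain ⟨z, hz⟩ := H.surj ((co x).1 - 1) (co x).2 (by omega) (by omega) (by omega)
    refine ⟨z, by rw [hz]; exact ⟨Nat.sub_le _ _, le_rfl⟩, ?_⟩
    rw [hz]
    simp only
    omega

/-- the dual coordinates -/
def Cone2.dc (co : Q → ℕ × ℕ) (q : ℕ) (x : Qᵒᵈ) : ℕ × ℕ :=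
  (2 - (co (ofDual x)).1, q - (co (ofDual x)).2)

lemma Cone2.dc_le (H : Cone2 Q co q) (x y : Qᵒᵈ) :
    x ≤ y ↔ Cone2.dc co q y ≤ Cone2.dc co q x := by
  have h1 : x ≤ y ↔ ofDual y ≤ ofDual x := Iff.rfl
  rw [h1, H.le_iff]
  have hx := H.mem (ofDual x)
  have hy := H.mem (ofDual y)
  unfold Cone2.dc
  rw [Prod.le_def, Prod.le_def]
  simp only
  omega

lemma Cone2.dc_inj (H : Cone2 Q co q) : Function.Injective (Cone2.dc co q) := by
  intro x y h
  have h1 := (H.dc_le x y).2 h.symm.le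
  have h2 := (H.dc_le y x).2 h.le
  exact le_antisymm h1 h2

lemma Cone2.dc_surj (H : Cone2 Q co q) {a b : ℕ} (ha : a ≤ 2) (hb : b ≤ q)
    (hab : 2 + b ≤ q + a) : ∃ x, Cone2.dc co q x = (a, b) := by
  obtain ⟨x, hx⟩ := H.surj (2 - a) (q - b) (by omega) (by omega) (by omega)
  refine ⟨toDual x, ?_⟩
  unfold Cone2.dc
  rw [ofDual_toDual, hx]
  simp only
  exact Prod.ext (by simp only; omega) (by simp only; omega)

lemma Cone2.lev_dual (H : Cone2 Q co q) (hq : 2 ≤ q) (x : Qᵒᵈ) :
    Pool.Agent.GaussPoset.lev x = (Cone2.dc co q x).1 + (Cone2.dc co q x).2 := by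
  refine lev_co (Cone2.dc co q) H.dc_le (fun x hx => ?_) x
  have hm := H.mem (ofDual x)
  have e1 : (Cone2.dc co q x).1 = 2 - (co (ofDual x)).1 := rfl
  have e2 : (Cone2.dc co q x).2 = q - (co (ofDual x)).2 := rfl
  by_cases h : 0 < (Cone2.dc co q x).2
  · obtain ⟨z, hz⟩ := H.dc_surj (a := (Cone2.dc co q x).1) (b := (Cone2.dc co q x).2 - 1)
      (by omega) (by omega) (by omega)
    refine ⟨z, by rw [hz]; exact ⟨le_rfl, Nat.sub_le _ _⟩, ?_⟩
    rw [hz]
    simp only
    omega
  · have h2 : 0 < (Cone2.dc co q x).1 := by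
      rcases Nat.eq_zero_or_pos (Cone2.dc co q x).1 with h3 | h3
      · exact absurd (Prod.ext h3 (by simp only; omega)) hx
      · exact h3
    obtain ⟨z, hz⟩ := H.dc_surj (a := (Cone2.dc co q x).1 - 1) (b := (Cone2.dc co q x).2)
      (by omega) (by omega) (by omega)
    refine ⟨z, by rw [hz]; exact ⟨Nat.sub_le _ _, le_rfl⟩, ?_⟩
    rw [hz]
    simp only
    omega

lemma Cone2.pure (H : Cone2 Q co q) (hq : 2 ≤ q) : Pure' Q (q + 2) where
  cov := by
    intro x y hxy
    have h1 := (H.le_iff x y).1 hxy.1.le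
    have hx := H.mem x
    have hy := H.mem y
    have h2 : ¬ co x ≤ co y := fun h => not_le_of_gt hxy.1 ((H.le_iff y x).2 h)
    rw [Prod.le_def] at h1 h2
    rw [H.lev, H.lev]
    have key : ∀ a b, a ≤ 2 → a ≤ b → b ≤ q → co y ≤ (a, b) → (a, b) ≤ co x →
        a + b + 1 = (co x).1 + (co x).2 → (co x).1 + (co x).2 = (co y).1 + (co y).2 + 1 := by
      intro a b g1 g2 g3 g4 g5 g6
      obtain ⟨z, hz⟩ := H.surj a b g1 g2 g3
      have h3 : x ≤ z := (H.le_iff x z).2 (by rw [hz]; exact g5)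
      have h4 : z ≤ y := (H.le_iff z y).2 (by rw [hz]; exact g4)
      have h5 : x < z := by
        refine lt_of_le_of_ne h3 ?_
        rintro rfl
        rw [hz] at g6
        simp only at g6
        omega
      have h6 : z = y := by
        by_contra h7
        exact hxy.2 h5 (lt_of_le_of_ne h4 h7)
      rw [← h6, hz]
      simp only
      omega
    by_cases h3 : (co y).1 < (co x).1
    · exact key ((co x).1 - 1) (co x).2 (by omega) (by omega) (by omega)
        ⟨by simp only; omega, h1.2⟩ ⟨Nat.sub_le _ _, le_rfl⟩ (by omega)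
    · exact key (co x).1 ((co x).2 - 1) (by omega) (by omega) (by omega)
        ⟨h1.1, by simp only; omega⟩ ⟨le_rfl, Nat.sub_le _ _⟩ (by omega)
  le := by
    intro x
    have := H.mem x
    rw [H.lev]
    omega
  dual := by
    intro x
    have := H.mem x
    rw [H.lev_dual hq, H.lev]
    unfold Cone2.dc
    simp only [ofDual_toDual]
    omega

/-- **The cone of the cell `(2, q)` of a stair has order two at the window `q + 1`.** -/
theorem Cone2.dvd (H : Cone2 Q co q) {n : ℕ} (hn : n + 4 ≤ q) :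
    (1 + X : ℤ[X]) ^ 2 ∣ Z Q (q + 1) n := by
  classical
  refine dvd_Z_dual (H.pure (by omega)) (by omega) ?_
  have e0 : q + 2 - (q + 1) = 1 := by omega
  rw [e0]
  set D : Finset Qᵒᵈ := univ.filter (fun x : Qᵒᵈ => (co (ofDual x)).2 ≤ 1) with hDdef
  have hmD : ∀ x : Qᵒᵈ, x ∈ D ↔ (co (ofDual x)).2 ≤ 1 := by
    intro x
    rw [hDdef, mem_filter]
    exact ⟨fun h => h.2, fun h => ⟨mem_univ _, h⟩⟩
  have hDl : ∀ x y : Qᵒᵈ, x ≤ y → y ∈ D → x ∈ D := by
    intro x y hxy hy
    rw [hmD] at hy ⊢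
    have h1 : ofDual y ≤ ofDual x := hxy
    rw [H.le_iff, Prod.le_def] at h1
    omega
  have hlev : ∀ x ∈ D, 1 < Pool.Agent.GaussPoset.lev x := by
    intro x hx
    rw [hmD] at hx
    rw [H.lev_dual (by omega)]
    unfold Cone2.dc
    simp only
    omega
  rw [Z_cut hDl hlev ?_]
  · refine young_trunc (fun x : {x : Qᵒᵈ // x ∉ D} => Cone2.dc co q x) ?_ ?_ ?_ (i := 1) (k := 2)
      (J := n + 1) (by omega) (by omega) ?_ (by omega)
    · intro x y h
      exact Subtype.ext (H.dc_inj h)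
    · intro x y
      exact H.dc_le x y
    · intro x c hc
      have h1 := x.2
      rw [hmD] at h1
      rw [Prod.le_def] at hc
      have e1 : (Cone2.dc co q (x : Qᵒᵈ)).1 = 2 - (co (ofDual (x : Qᵒᵈ))).1 := rfl
      have e2 : (Cone2.dc co q (x : Qᵒᵈ)).2 = q - (co (ofDual (x : Qᵒᵈ))).2 := rfl
      obtain ⟨y, hy⟩ := H.dc_surj (a := c.1) (b := c.2) (by omega) (by omega) (by omega)
      have e3 : (Cone2.dc co q y).2 = q - (co (ofDual y)).2 := rfl
      refine ⟨⟨y, ?_⟩, by rw [hy]⟩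
      rw [hmD]
      rw [hy] at e3
      omega
    · intro s c hs hc _
      obtain ⟨y, hy⟩ := H.dc_surj (a := s) (b := c) (by omega) (by omega) (by omega)
      have e3 : (Cone2.dc co q y).2 = q - (co (ofDual y)).2 := rfl
      refine ⟨⟨y, ?_⟩, by rw [hy]⟩
      rw [hmD]
      rw [hy] at e3
      simp only at e3
      omega
  · intro z hz
    rw [hmD] at hz
    have hmz := H.mem (ofDual z)
    rw [ncone_eq]
    have h1 : ((Finset.range (n + 1)).image (fun t => (0, t + 2))) ⊆
        (univ.filter (fun x : Qᵒᵈ => z ≤ x ∧ 1 < Pool.Agent.GaussPoset.lev x)).image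
          (Cone2.dc co q) := by
      intro c hc
      rw [mem_image] at hc
      obtain ⟨t, ht, rfl⟩ := hc
      rw [mem_range] at ht
      obtain ⟨y, hy⟩ := H.dc_surj (a := 0) (b := t + 2) (by omega) (by omega) (by omega)
      rw [mem_image]
      refine ⟨y, ?_, hy⟩
      rw [mem_filter]
      refine ⟨mem_univ _, ?_, ?_⟩
      · rw [H.dc_le, hy, Prod.le_def]
        unfold Cone2.dc
        simp only
        omega
      · rw [H.lev_dual (by omega), hy]
        simp only
        omega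
    have h2 := card_le_card h1
    rw [card_image_of_injOn, card_range] at h2
    · exact lt_of_lt_of_le (by omega) (h2.trans card_image_le)
    · intro a _ b _ hab
      simp only [Prod.mk.injEq, true_and] at hab
      omega

end Cone

end Pool.Agent.GaussPoset
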