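import Pool.Agent.W_448f4_h70.GD
import Pool.Agent.W_448f4_h70.GE
import Pool.Agent.W_448f4_h70.FC

/-!
The part of a cone of a stair; the product over the parts with bounds; the sums with one full
bound (MP_448cb3_co, S7, windows 2, 3).
-/

namespace Pool.Agent.GaussPoset

set_option linter.unusedSectionVars false

open Polynomial Finset

universe u

namespace F4

variable {P : Type u} [Fintype P] [PartialOrder P] [DecidableEq P]

section Cone

/-- the cone of `x` is the cone of the cell `(2, q)` of a stair -/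
structure ConeAt (x : P) (co : P → ℕ × ℕ) (q : ℕ) : Prop where
  le_iff : ∀ y z, x ≤ y → x ≤ z → (y ≤ z ↔ co z ≤ co y)
  mem : ∀ y, x ≤ y → (co y).1 ≤ 2 ∧ (co y).1 ≤ (co y).2 ∧ (co y).2 ≤ q
  surj : ∀ a b, a ≤ 2 → a ≤ b → b ≤ q → ∃ y, x ≤ y ∧ co y = (a, b)

variable {p : P → Prop} [DecidablePred p]

/-- **order two of a part with the full bound at the cell `(2, q)`, for own energies at most 2** -/
theorem part_cone (hp : ∀ x y, x ≤ y → p x → p y) {i h q : ℕ} {x : P} (hx : p x)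
    {co : P → ℕ × ℕ} (C : ConeAt x co q) (hih : i + h = q + 1) (hq : 6 ≤ q) (hh : 3 ≤ h)
    (hlow : ∀ y, p y → lev y ≤ i + 2 → x ≤ y)
    {B : {x // p x} → ℕ} (hB : ∀ y, B y ≤ h) (hBx : B ⟨x, hx⟩ = h) {n : ℕ}
    (hn : n ≤ Efs i h x x + 2) : (1 + X : ℤ[X]) ^ 2 ∣ ZB (P := {x // p x}) i ∅ 0 B n := by
  classical
  refine ZB_dvd_upL (m := Efs i h x x + 2) hB (fun L hL hBL c hc => ?_) hn
  have hl : ∀ x : {x // p x}, lev x = lev (x : P) := lev_subtype hp
  have hxL : (⟨x, hx⟩ : {x // p x}) ∈ L := hBL _ hBx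
  have hsum : ∑ x ∈ L, min h (lev x - i) =
      ∑ y ∈ L.map (Function.Embedding.subtype p), min h (lev y - i) := by
    rw [Finset.sum_map]
    refine Finset.sum_congr rfl fun x _ => ?_
    rw [hl]
    rfl
  rw [hsum] at hc
  have hsub : univ.filter (fun y : P => x ≤ y ∨ x ≤ y) ⊆
      L.map (Function.Embedding.subtype p) := by
    intro y hy
    rw [mem_filter, or_self] at hy
    rw [mem_map]
    exact ⟨⟨y, hp _ _ hy.2 hx⟩, hL ⟨x, hx⟩ _ hy.2 hxL, rfl⟩
  have hE : Efs i h x x ≤ ∑ y ∈ L.map (Function.Embedding.subtype p), min h (lev y - i) := by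
    unfold Efs
    exact Finset.sum_le_sum_of_subset hsub
  have hall : ∀ y ∈ L, x ≤ (y : P) := by
    intro y hy
    by_contra hcon
    have h3 : i + 2 < lev (y : P) := by
      by_contra h4
      exact hcon (hlow y y.2 (not_lt.mp h4))
    have h5 : insert (y : P) (univ.filter (fun y : P => x ≤ y ∨ x ≤ y)) ⊆
        L.map (Function.Embedding.subtype p) := by
      intro z hz
      rw [mem_insert] at hz
      rcases hz with rfl | hz
      · rw [mem_map]; exact ⟨y, hy, rfl⟩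
      · exact hsub hz
    have h6 := Finset.sum_le_sum_of_subset (f := fun y : P => min h (lev y - i)) h5
    rw [Finset.sum_insert (by
      rw [mem_filter, or_self]
      exact fun h => hcon h.2)] at h6
    have h7 : Efs i h x x = ∑ y ∈ univ.filter (fun y : P => x ≤ y ∨ x ≤ y), min h (lev y - i) := by
      unfold Efs
      rfl
    have h8 : 2 < min h (lev (y : P) - i) := by
      rw [lt_min_iff]
      omega
    omega
  have hc2 : c ≤ 2 := by omega
  have hmemL : ∀ y (hy : x ≤ y), (⟨y, hp _ _ hy hx⟩ : {x // p x}) ∈ L := fun y hy =>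
    hL ⟨x, hx⟩ _ hy hxL
  have H : Cone2 {y // y ∈ L} (fun y => co (y : {x // p x})) q := by
    refine ⟨?_, ?_, ?_, ?_⟩
    · intro y z hyz
      simp only at hyz
      have h1 := (C.le_iff _ _ (hall _ y.2) (hall _ z.2)).2 hyz.ge
      have h2 := (C.le_iff _ _ (hall _ z.2) (hall _ y.2)).2 hyz.le
      exact Subtype.ext (Subtype.ext (le_antisymm h1 h2))
    · intro y z
      exact C.le_iff _ _ (hall _ y.2) (hall _ z.2)
    · intro y
      exact C.mem _ (hall _ y.2)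
    · intro a b h1 h2 h3
      obtain ⟨y, hy, hco⟩ := C.surj a b h1 h2 h3
      exact ⟨⟨⟨y, hp _ _ hy hx⟩, hmemL y hy⟩, hco⟩
  rw [hih]
  exact H.dvd (by omega)

end Cone

section Prod

variable {ι : Type*} [Fintype ι] [DecidableEq ι]

open Classical in
/-- **The product over the parts, with bounds.** -/
theorem zb_prod {i n : ℕ} {R : Finset P}
    (hR : ∀ x y, x ≤ y → y ∈ R → x ∈ R) (hRlev : ∀ x ∈ R, i < lev x) (cp : P → ι)
    (hcp : ∀ x y, x ≤ y → x ∉ R → cp x = cp y) (b : ι → ℕ) (β : P → ℕ)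
    (hfac : ∀ M : ι → ℕ, ∑ k, M k = n →
      (∃ k, ZB (P := {x : P // x ∉ R ∧ cp x = k}) i ∅ 0 (fun x => β x) (M k) = 0) ∨
      ∀ k, (1 + X : ℤ[X]) ^ (b k) ∣
        ZB (P := {x : P // x ∉ R ∧ cp x = k}) i ∅ 0 (fun x => β x) (M k)) :
    (1 + X : ℤ[X]) ^ (∑ k, b k) ∣ ZB i R 0 β n := by
  have hup : ∀ k, ∀ x y : P, x ≤ y → InPart R cp k x → InPart R cp k y := by
    rintro k x y hxy ⟨h1, h2⟩
    exact ⟨fun h => h1 (hR x y hxy h), (hcp x y hxy h1).symm.trans h2⟩
  have hl : ∀ k, ∀ x : {x : P // InPart R cp k x}, lev x = lev (x : P) :=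
    fun k => lev_subtype (p := InPart R cp k) (hup k)
  have hr : ∀ k, ∀ (e : P → ℕ) (x : {x : P // InPart R cp k x}),
      rho i (fun y : {x : P // InPart R cp k x} => e y) x = rho i e (x : P) := by
    intro k e x
    unfold rho
    rw [hl k]
  have hsup : ∀ x : P, (R.filter (fun z => z ⋖ x)).sup (0 : P → ℕ) = 0 := fun x =>
    le_antisymm (Finset.sup_le fun _ _ => le_rfl) (Nat.zero_le _)
  set Q : (P → ℕ) → Finset P → Prop := fun e F => Cst i R 0 β e F with hQ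
  have hT : ∀ e F, Q e F ↔ (∀ x ∈ R, x ∉ F ∧ e x = (0 : P → ℕ) x) ∧
      ∀ k, Cst (P := {x : P // InPart R cp k x}) i ∅ 0 (fun x => β x) (fun x => e x)
        (F.subtype (InPart R cp k)) := by
    intro e F
    have h0 := vd_parts_iff hR hRlev cp hcp (0 : P → ℕ) (fun _ _ _ _ _ => le_rfl) e F
    constructor
    · rintro ⟨h1, h2, h3⟩
      have h4 := h0.mp ⟨h1, h2⟩
      refine ⟨h2, fun k => ?_⟩
      have h5 := (cst_empty_iff.mp (h4.2 k)).1
      rw [cst_empty_iff]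
      refine ⟨h5, fun x hx => ?_⟩
      rw [mem_subtype] at hx
      rw [hr]
      exact h3 x x.2.1 hx
    · rintro ⟨h1, h2⟩
      have h4 := h0.mpr ⟨h1, fun k => by
        rw [cst_empty_iff]
        have h5 := cst_empty_iff.mp (h2 k)
        refine ⟨h5.1, fun x hx => ?_⟩
        rw [hsup]
        exact_mod_cast h5.1.2.1 x hx⟩
      refine ⟨h4.1, h1, fun x hxR hxF => ?_⟩
      have h5 := (cst_empty_iff.mp (h2 (cp x))).2 ⟨x, hxR, rfl⟩ (by
        rw [mem_subtype]; exact hxF)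
      rw [hr] at h5
      exact h5
  have h0 : ZB i R 0 β n = SC Q n := ZB_eq_SC _ _ _ _ _
  rw [h0, SC_eq_cfg]
  let φ : Finset P × (P → ℕ) → (ι → ℕ) := fun x k =>
    ∑ y ∈ univ.filter (fun y => y ∉ R ∧ cp y = k), x.2 y
  let s : Finset (ι → ℕ) := (cfg Q n).image φ
  have h1 : ∑ x ∈ cfg Q n, (X : ℤ[X]) ^ x.1.card =
      ∑ y ∈ s, ∑ x ∈ (cfg Q n).filter (fun x => φ x = y), (X : ℤ[X]) ^ x.1.card :=
    (Finset.sum_fiberwise_of_maps_to (fun x hx => mem_image_of_mem φ hx) _).symm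
  rw [h1]
  refine Finset.dvd_sum fun M hM => ?_
  obtain ⟨⟨F0, e0⟩, hx0, hφ0⟩ := mem_image.mp hM
  rw [mem_cfg] at hx0
  obtain ⟨hs0, hV0, hF0, -⟩ := hx0
  simp only at hs0 hV0 hF0
  have hM0 : ∀ k, ∑ y ∈ univ.filter (fun y => y ∉ R ∧ cp y = k), e0 y = M k :=
    fun k => congrFun hφ0 k
  have hn : n = ∑ x ∈ R, (0 : P → ℕ) x + ∑ k, M k := by
    rw [← hs0, sum_parts R cp e0, Finset.sum_congr rfl (fun x hx => (hF0 x hx).2),
      Finset.sum_congr rfl (fun k _ => hM0 k)]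
  have h2 : ∑ x ∈ (cfg Q n).filter (fun x => φ x = M), (X : ℤ[X]) ^ x.1.card =
      SC (fun e F => Q e F ∧
        ∀ k, ∑ x ∈ univ.filter (fun x => x ∉ R ∧ cp x = k), e x = M k) n := by
    rw [SC_eq_cfg]
    refine Finset.sum_congr ?_ (fun _ _ => rfl)
    ext ⟨F, e⟩
    rw [mem_filter, mem_cfg, mem_cfg]
    simp only [φ]
    constructor
    · rintro ⟨⟨a1, a2⟩, a5⟩
      exact ⟨a1, a2, fun k => congrFun a5 k⟩
    · rintro ⟨a1, a2, a4⟩
      exact ⟨⟨a1, a2⟩, funext fun k => a4 k⟩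
  rw [h2, SC_parts R cp (0 : P → ℕ) Q
    (fun k => Cst (P := {x : P // InPart R cp k x}) i ∅ 0 (fun x => β x)) hT M n hn]
  have hz : ∑ x ∈ R, (0 : P → ℕ) x = 0 := Finset.sum_eq_zero fun _ _ => rfl
  rw [hz, zero_add] at hn
  have hk : ∀ k, ZB (P := {x : P // x ∉ R ∧ cp x = k}) i ∅ 0 (fun x => β x) (M k) =
      SC (Cst (P := {x : P // InPart R cp k x}) i ∅ 0 (fun x => β x)) (M k) := by
    intro k
    rw [ZB_eq_SC]
    rfl
  rcases hfac M hn.symm with ⟨k, hk0⟩ | hall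
  · have h5 : SC (Cst (P := {x : P // InPart R cp k x}) i ∅ 0 (fun x => β x)) (M k) = 0 := by
      rw [← hk k]
      exact hk0
    have h6 := Finset.prod_eq_zero (f := fun k =>
      SC (Cst (P := {x : P // InPart R cp k x}) i ∅ 0 (fun x => β x)) (M k)) (mem_univ k) h5
    rw [h6]
    exact dvd_zero _
  · rw [← Finset.prod_pow_eq_pow_sum]
    refine Finset.prod_dvd_prod_of_dvd _ _ fun k _ => ?_
    have h3 := hall k
    rw [hk k] at h3
    exact h3

end Prod

end F4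

end Pool.Agent.GaussPoset
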