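import Pool.Agent.W_448f4_h70.GF

/-!
The sums with one full bound at a special cell of a stair; twins of special cells
(MP_448cb3_co, S7, windows 2, 3).
-/

namespace Pool.Agent.GaussPoset

set_option linter.unusedSectionVars false

open Polynomial Finset

universe u

namespace F4

variable {P : Type u} [Fintype P] [PartialOrder P] [DecidableEq P]
variable {ι : Type*}

/-- component data for a larger set -/
lemma compT_mono {R : Finset P} {cp : P → ι} {k : ι} {i b : ℕ} {θ : P → ℕ} {B : P → Prop}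
    {Tw : Finset (P × P)} (H : CompDataT R cp k i b θ B Tw) {E : Finset P} (hE : Good i R B E)
    {Tw' : Finset (P × P)} (hTw : ∀ t ∈ Tw, t ∈ Tw' ∨ t.1 ∈ E ∨ t.2 ∈ E) :
    CompDataT E cp k i b θ B Tw' where
  clean := by
    intro D hD hbr hde
    refine H.clean D ⟨hD.1, hE.2.1.trans hD.2.1, hD.2.2.1, hD.2.2.2⟩ (fun t ht => ?_) hde
    rcases hTw t ht with h | h | h
    · exact hbr t h
    · exact Or.inl (hD.2.1 h)
    · exact Or.inr (hD.2.1 h)
  lev := fun x hx hk h => H.lev x (fun h' => hx (hE.2.1 h')) hk h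
  base := fun x hx hk h y hy hyE => H.base x (fun h' => hx (hE.2.1 h')) hk h y hy
    (fun h' => hyE (hE.2.1 h'))
  step := fun x hx hk h y hy hyE x' hx' => H.step x (fun h' => hx (hE.2.1 h')) hk h y hy
    (fun h' => hyE (hE.2.1 h')) x' (fun h' => hx' (hE.2.1 h'))
  le := fun x hx hk => H.le x (fun h' => hx (hE.2.1 h')) hk

section TStepG

variable {i : ℕ} {p : ℤ[X]} {x x' : P} {D : Finset P}

/-- the two thresholds of a pair of twins (the second one minimal) can be raised by one, if the
sums with one bound are clean -/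
theorem T_stepG (hne : x ≠ x') (hup : ∀ y, x < y ↔ x' < y) (hlx : i < lev x) (hx : x ∉ D)
    (hx' : x' ∉ D) (hm' : ∀ y < x', y ∈ D)
    (hlow : ∀ E : Finset P, E = D ∪ dnf x ∨ E = D ∪ dnf x' → ∀ a c, a ≤ c → c ∈ E → a ∈ E)
    (hlev : ∀ E : Finset P, E = D ∪ dnf x ∨ E = D ∪ dnf x' → ∀ a ∈ E, i < lev a)
    (S : P → Prop) (hS : ∀ d, (d ≤ x ∨ d ≤ x') → d ∉ D → ∀ w, d ≤ w → S w)
    {k n : ℕ} (hk : 1 ≤ k)
    (hA : ∀ E : Finset P, E = D ∪ dnf x ∨ E = D ∪ dnf x' → ∀ y, y = x ∨ y = x' → y ∉ E →
      ∀ β : P → ℕ, β y = k + 1 → (∀ w, w ∉ E → β w ≤ k + 1) → (∀ w, w ∉ E → ¬ S w → β w = 0) →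
      ∀ m, m + k ≤ n → p ∣ ZB i E 0 β m) :
    p ∣ ZB i D 0 (st2 x x' k (k + 1)) n - ZB i D 0 (st2 x x' (k + 1) (k + 2)) n := by
  classical
  have hll : lev x = lev x' := lev_eq_of_up hup
  have hlx' : i < lev x' := by omega
  have hs1 : ∀ a b, st2 x x' a b x = a := fun a b => by unfold st2; rw [if_pos rfl]
  have hs2 : ∀ a b, st2 x x' a b x' = b := fun a b => by
    unfold st2; rw [if_neg hne.symm, if_pos rfl]
  have hs3 : ∀ a b y, y ≠ x → y ≠ x' → st2 x x' a b y = 0 := fun a b y h1 h2 => by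
    unfold st2; rw [if_neg h1, if_neg h2]
  have hnl : ∀ a b : P, lev a = lev b → a ≤ b → a = b := by
    intro a b hab h
    by_contra hcon
    have := lev_strictAnti (lt_of_le_of_ne h hcon)
    omega
  have hxx' : ¬ x ≤ x' := fun h => hne (hnl _ _ hll h)
  have hx'x : ¬ x' ≤ x := fun h => hne (hnl _ _ hll.symm h).symm
  have h1 := step_mod (i := i) (p := p) (n0 := n) (β := st2 x x' k (k + 1)) hx hlx (by
    intro g' hG _
    obtain ⟨g1, g2, g3, g4, g5⟩ := hG
    rw [hs1] at g2 g3
    refine dvd_ZB_shift_at _ (hlow _ (Or.inl rfl)) (hlev _ (Or.inl rfl)) g5 p n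
      (fun m hmn => ?_)
    refine hA _ (Or.inl rfl) x' (Or.inr rfl) ?_ _ ?_ ?_ ?_ m ?_
    · rw [mem_union, mem_dnf, not_or]
      exact ⟨hx', hx'x⟩
    · refine le_antisymm (bg_le (by rw [hs2]) fun d hd hdx => ?_) ?_
      · rw [g1 d (hm' d hdx.1)]
        exact Nat.zero_le _
      · refine le_trans ?_ (le_bg _ _ _ x')
        rw [hs2]
    · intro w hw
      rw [mem_union, mem_dnf, not_or] at hw
      refine bg_le ?_ fun d hd hdw => ?_
      · by_cases hwx : w = x'
        · rw [hwx, hs2]
        · rw [hs3 _ _ w (fun h => hw.2 h.le) hwx]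
          exact Nat.zero_le _
      · by_cases hdD : d ∈ D
        · rw [g1 d hdD]; exact Nat.zero_le _
        · have h3 := g3 d ((mem_union.mp hd).resolve_left hdD |> mem_dnf.mp)
          omega
    · intro w hw hSw
      rw [mem_union, mem_dnf, not_or] at hw
      refine Nat.le_zero.mp (bg_le ?_ fun d hd hdw => ?_)
      · have hwx : w ≠ x' := by
          rintro rfl
          exact hSw (hS w (Or.inr le_rfl) hx' w le_rfl)
        rw [hs3 _ _ w (fun h => hw.2 h.le) hwx]
      · by_cases hdD : d ∈ D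
        · rw [g1 d hdD]; exact Nat.zero_le _
        · exact absurd (hS d (Or.inl ((mem_union.mp hd).resolve_left hdD |> mem_dnf.mp)) hdD w
            hdw.1.le) hSw
    · have h2 : g' x ≤ ∑ y, g' y := Finset.single_le_sum (fun y _ => Nat.zero_le _) (mem_univ x)
      omega)
  rw [hs1, st2_update_left, if_neg (by omega), sub_zero] at h1
  have h2 := step_mod (i := i) (p := p) (n0 := n) (β := st2 x x' (k + 1) (k + 1)) hx' hlx' (by
    intro g' hG _
    obtain ⟨g1, g2, g3, g4, g5⟩ := hG
    rw [hs2] at g2 g3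
    refine dvd_ZB_shift_at _ (hlow _ (Or.inr rfl)) (hlev _ (Or.inr rfl)) g5 p n
      (fun m hmn => ?_)
    refine hA _ (Or.inr rfl) x (Or.inl rfl) ?_ _ ?_ ?_ ?_ m ?_
    · rw [mem_union, mem_dnf, not_or]
      exact ⟨hx, hxx'⟩
    · refine le_antisymm (bg_le (by rw [hs1]) fun d hd hdx => ?_) ?_
      · by_cases hdD : d ∈ D
        · rw [g1 d hdD]; exact Nat.zero_le _
        · have h3 := g3 d ((mem_union.mp hd).resolve_left hdD |> mem_dnf.mp)
          omega
      · refine le_trans ?_ (le_bg _ _ _ x)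
        rw [hs1]
    · intro w hw
      rw [mem_union, mem_dnf, not_or] at hw
      refine bg_le ?_ fun d hd hdw => ?_
      · by_cases hwx : w = x
        · rw [hwx, hs1]
        · rw [hs3 _ _ w hwx (fun h => hw.2 h.le)]
          exact Nat.zero_le _
      · by_cases hdD : d ∈ D
        · rw [g1 d hdD]; exact Nat.zero_le _
        · have h3 := g3 d ((mem_union.mp hd).resolve_left hdD |> mem_dnf.mp)
          omega
    · intro w hw hSw
      rw [mem_union, mem_dnf, not_or] at hw
      refine Nat.le_zero.mp (bg_le ?_ fun d hd hdw => ?_)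
      · have hwx : w ≠ x := by
          rintro rfl
          exact hSw (hS w (Or.inl le_rfl) hx w le_rfl)
        rw [hs3 _ _ w hwx (fun h => hw.2 h.le)]
      · by_cases hdD : d ∈ D
        · rw [g1 d hdD]; exact Nat.zero_le _
        · exact absurd (hS d (Or.inr ((mem_union.mp hd).resolve_left hdD |> mem_dnf.mp)) hdD w
            hdw.1.le) hSw
    · have h2 : g' x' ≤ ∑ y, g' y :=
        Finset.single_le_sum (fun y _ => Nat.zero_le _) (mem_univ x')
      omega)
  rw [hs2, st2_update_right hne, if_neg (by omega), sub_zero] at h2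
  have h3 := dvd_add h1 h2
  refine h3.trans (dvd_of_eq ?_)
  ring

end TStepG

section Spec

variable [Fintype ι] [DecidableEq ι] {i : ℕ} {R : Finset P} {cp : P → ι} {b : ι → ℕ}
  {θ : P → ℕ} {B : P → Prop} {Tw : Finset (P × P)}

open Classical in
/-- **One full bound at a special cell**: order `∑ b` for energies at most `2` above the least -/
theorem spec_one
    (hcp : ∀ x y, x ≤ y → x ∉ R → cp x = cp y)
    (H : ∀ k, CompDataT R cp k i (b k) θ B Tw)
    (htw : ∀ t ∈ Tw, TwinPair i θ 3 t.1 t.2) (hmin : ∀ t ∈ Tw, ∀ y < t.2, y ∈ R)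
    {E : Finset P} (hE : Good i R B E) {h q : ℕ} {y : P} (hy : y ∉ E)
    {co : P → ℕ × ℕ} (C : ConeAt y co q) (hih : i + h = q + 1) (hq : 6 ≤ q) (hh : 3 ≤ h)
    (hlow : ∀ z, z ∉ E → cp z = cp y → lev z ≤ i + 2 → y ≤ z) (hb : b (cp y) = 2)
    {β : P → ℕ} (hβy : β y = h) (hβ : ∀ w, w ∉ E → β w ≤ h)
    (hβ0 : ∀ w, w ∉ E → cp w ≠ cp y → β w = 0)
    {m : ℕ} (hm : m ≤ Efs i h y y + 2) :
    (1 + X : ℤ[X]) ^ (∑ k, b k) ∣ ZB i E 0 β m := by
  have hElow := hE.1
  have hElev := hE.2.2.1
  have hcpE : ∀ x y, x ≤ y → x ∉ E → cp x = cp y := fun x y hxy hx =>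
    hcp x y hxy (fun h' => hx (hE.2.1 h'))
  have hp : ∀ x' z : P, x' ≤ z → (x' ∉ E ∧ cp x' = cp y) → (z ∉ E ∧ cp z = cp y) :=
    pg_part_up hElow hcpE
  refine zb_prod hElow hElev cp hcpE b β fun M hM => ?_
  by_cases hMy : M (cp y) < Efs i h y y
  · left
    refine ⟨cp y, ?_⟩
    exact part_zero hp (i := i) (k := h) (f := y) (s := y) ⟨hy, rfl⟩ ⟨hy, rfl⟩
      (by simp only [hβy]; exact le_rfl) (by simp only [hβy]; exact le_rfl) hMy
  · right
    intro k
    by_cases hk : k = cp y
    · subst hk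
      rw [hb]
      have h1 : M (cp y) ≤ m := by
        rw [← hM]
        exact Finset.single_le_sum (fun _ _ => Nat.zero_le _) (mem_univ _)
      exact part_cone hp (x := y) ⟨hy, rfl⟩ C hih hq hh (fun z hz hlz => hlow z hz.1 hz.2 hlz)
        (fun z => hβ z z.2.1) (by simp only [hβy]) (h1.trans hm)
    · have h1 : M (cp y) + M k ≤ m := by
        rw [← hM, ← Finset.sum_pair (f := M) (Ne.symm hk)]
        exact Finset.sum_le_sum_of_subset (Finset.subset_univ _)
      set Tw' := Tw.filter (fun t => t.1 ∉ E ∧ t.2 ∉ E) with hTw'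
      have hsub : ∀ t ∈ Tw', t ∈ Tw := fun t ht => (mem_filter.mp ht).1
      refine factor hElow hElev cp hcpE b θ B (fun x hx => hE.2.2.2 x hx) Tw' 3
        (fun k => compT_mono (H k) hE (fun t ht => ?_)) (fun t ht => htw t (hsub t ht))
        (fun t ht y hy => hE.2.1 (hmin t (hsub t ht) y hy))
        (fun t ht => (mem_filter.mp ht).2) k _ (fun x hx hxk => ?_) (M k) (by omega)
      · by_cases h2 : t.1 ∈ E
        · exact Or.inr (Or.inl h2)
        · by_cases h3 : t.2 ∈ E
          · exact Or.inr (Or.inr h3)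
          · exact Or.inl (mem_filter.mpr ⟨ht, h2, h3⟩)
      · rw [hβ0 x hx (by rw [hxk]; exact hk)]
        exact Nat.zero_le _

open Classical in
/-- **The twins of a special cell**: the sums with the thresholds are the sums with the thresholds
one larger, for energies at most the cost of the latter. -/
theorem spec_twin
    (hcp : ∀ x y, x ≤ y → x ∉ R → cp x = cp y)
    (H : ∀ k, CompDataT R cp k i (b k) θ B Tw)
    (htw : ∀ t ∈ Tw, TwinPair i θ 3 t.1 t.2) (hmin : ∀ t ∈ Tw, ∀ y < t.2, y ∈ R)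
    {D : Finset P} (hD : Good i R B D) {x x' : P} (T : Twn i θ (x, x')) (hx : x ∉ D)
    (hx' : x' ∉ D) (hm' : ∀ y < x', y ∈ D) (hcx : cp x' = cp x)
    {h q : ℕ} (hθ : θ x + 1 = h) (hlx : lev x = i + h + 1) (hih : i + h = q + 1) (hq : 6 ≤ q)
    (hh : 3 ≤ h)
    {co co' : P → ℕ × ℕ} (C : ConeAt x co q) (C' : ConeAt x' co' q)
    (hlow : ∀ z, z ∉ D → cp z = cp x → lev z ≤ i + 2 → x < z)
    (hb : b (cp x) = 2)
    {n : ℕ} (hn : n ≤ Efs i h x x + h + 1) :
    (1 + X : ℤ[X]) ^ (∑ k, b k) ∣
      ZB i D 0 (st2 x x' (θ x) (θ x + 1)) n - ZB i D 0 (st2 x x' h (h + 1)) n := by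
  have hup : ∀ y, x < y ↔ x' < y := T.up
  have hll : lev x = lev x' := lev_eq_of_up hup
  have hne : x ≠ x' := T.ne
  have hθx : 1 ≤ θ x := T.one_le
  have hθ' : θ x' = θ x := T.eq
  have hgood : ∀ E : Finset P, E = D ∪ dnf x ∨ E = D ∪ dnf x' → Good i R B E := by
    have key : ∀ y : P, y ∉ D → 1 ≤ θ y → Good i R B (D ∪ dnf y) := by
      intro y hyD hθy
      have hyR : y ∉ R := fun h => hyD (hD.2.1 h)
      have hly := (H (cp y)).lev y hyR rfl hθy
      refine ⟨?_, hD.2.1.trans subset_union_left, ?_, ?_⟩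
      · intro a c hac hc
        rw [mem_union, mem_dnf] at hc ⊢
        rcases hc with hc | hc
        · exact Or.inl (hD.1 a c hac hc)
        · exact Or.inr (hac.trans hc)
      · intro a ha
        rw [mem_union, mem_dnf] at ha
        rcases ha with ha | ha
        · exact hD.2.2.1 a ha
        · rcases eq_or_lt_of_le ha with h | h
          · rw [h]; exact hly
          · have := lev_strictAnti h; omega
      · intro a ha
        rw [mem_union, mem_dnf] at ha
        rcases ha with ha | ha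
        · exact hD.2.2.2 a ha
        · by_cases haR : a ∈ R
          · exact hD.2.2.2 a (hD.2.1 haR)
          · exact (H (cp y)).base y hyR rfl hθy a ha haR
    rintro E (rfl | rfl)
    · exact key x hx hθx
    · exact key x' hx' (by omega)
  have hEeq : Efs i h x x = Efs i h x' x' := by
    unfold Efs
    have e1 : univ.filter (fun y : P => x ≤ y ∨ x ≤ y) =
        insert x (univ.filter (fun y : P => x < y)) := by
      ext y
      rw [mem_filter, mem_insert, mem_filter, or_self]
      constructor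
      · rintro ⟨-, h⟩
        rcases eq_or_lt_of_le h with h | h
        · exact Or.inl h.symm
        · exact Or.inr ⟨mem_univ _, h⟩
      · rintro (h | ⟨-, h⟩)
        · exact ⟨mem_univ _, h.ge⟩
        · exact ⟨mem_univ _, h.le⟩
    have e2 : univ.filter (fun y : P => x' ≤ y ∨ x' ≤ y) =
        insert x' (univ.filter (fun y : P => x < y)) := by
      ext y
      rw [mem_filter, mem_insert, mem_filter, or_self, hup]
      constructor
      · rintro ⟨-, h⟩
        rcases eq_or_lt_of_le h with h | h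
        · exact Or.inl h.symm
        · exact Or.inr ⟨mem_univ _, h⟩
      · rintro (h | ⟨-, h⟩)
        · exact ⟨mem_univ _, h.ge⟩
        · exact ⟨mem_univ _, h.le⟩
    rw [e1, e2, Finset.sum_insert (by simp), Finset.sum_insert (by simp [hup]), hll]
  have key := T_stepG (p := (1 + X : ℤ[X]) ^ (∑ k, b k)) (i := i) (D := D) (n := n) (k := θ x)
    hne hup (by omega) hx hx' hm' (fun E hE => (hgood E hE).1)
    (fun E hE => (hgood E hE).2.2.1) (fun w => cp w = cp x) (fun d hd hdD w hdw => by
      have hdR : d ∉ R := fun h' => hdD (hD.2.1 h')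
      have e1 : cp d = cp x := by
        rcases hd with hd | hd
        · exact hcp d x hd hdR
        · exact (hcp d x' hd hdR).trans hcx
      exact (hcp d w hdw hdR).symm.trans e1) hθx ?_
  · rw [hθ] at key
    rw [show θ x + 2 = h + 1 by omega] at key
    rw [hθ]
    exact key
  · intro E hE y hy hyE β hβy hβ hβ0 m hmk
    rw [hθ] at hβy hβ
    have hDE : D ⊆ E := by
      rcases hE with rfl | rfl <;> exact subset_union_left
    have hEG := hgood E hE
    rcases hy with rfl | rfl
    · exact spec_one hcp H htw hmin hEG hyE C hih hq hh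
        (fun z hz hcz hlz => (hlow z (fun h' => hz (hDE h')) hcz hlz).le) hb hβy hβ hβ0 (by omega)
    · exact spec_one hcp H htw hmin hEG hyE C' hih hq hh
        (fun z hz hcz hlz => ((hup z).mp (hlow z (fun h' => hz (hDE h')) (hcz.trans hcx) hlz)).le)
        (by rw [hcx]; exact hb) hβy hβ
        (fun w hw hcw => hβ0 w hw (fun h' => hcw (h'.trans hcx.symm))) (by omega)

end Spec

/-- the cost of a twin pair with the constant threshold `lev - i - 1` -/
lemma tcst_const {i h : ℕ} {x x' : P} (T : Twn i (fun _ => h) (x, x'))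
    (hlx : lev x = i + h + 1) : tcst i (fun _ => h) (x, x') = Efs i h x x + h + 1 := by
  classical
  rw [tcst_eq T]
  have e1 : univ.filter (fun y : P => x ≤ y ∨ x ≤ y) =
      insert x (univ.filter (fun y : P => x < y)) := by
    ext y
    rw [mem_filter, mem_insert, mem_filter, or_self]
    constructor
    · rintro ⟨-, h⟩
      rcases eq_or_lt_of_le h with h | h
      · exact Or.inl h.symm
      · exact Or.inr ⟨mem_univ _, h⟩
    · rintro (h | ⟨-, h⟩)
      · exact ⟨mem_univ _, h.ge⟩
      · exact ⟨mem_univ _, h.le⟩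
  have e2 : Efs i h x x = h + ∑ y ∈ univ.filter (fun y : P => x < y), (lev y - i) := by
    unfold Efs
    rw [e1, Finset.sum_insert (by simp)]
    have h1 : min h (lev x - i) = h := by omega
    rw [h1]
    congr 1
    refine Finset.sum_congr rfl fun y hy => ?_
    have := lev_strictAnti (mem_filter.mp hy).2
    omega
  have e3 : ∑ y, (if x < y then min (h + 1) (lev y - i) else 0) =
      ∑ y ∈ univ.filter (fun y : P => x < y), (lev y - i) := by
    rw [Finset.sum_filter]
    refine Finset.sum_congr rfl fun y _ => ?_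
    split_ifs with hy
    · have := lev_strictAnti hy
      omega
    · rfl
  have e4 : ∑ y, (if (x, x').1 < y then min ((fun _ => h) (x, x').1 + 1) (lev y - i) else 0) =
      ∑ y, (if x < y then min (h + 1) (lev y - i) else 0) := rfl
  rw [e4, e3, e2]
  omega

end F4

end Pool.Agent.GaussPoset
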