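import Pool.Agent.W_448f4_h70.GG
import Pool.Agent.W_448f4_h70.FD

/-!
Far data with special twins and larger labels at the windows `2`, `3` (MP_448cb3_co, S7).
-/

namespace Pool.Agent.GaussPoset

set_option linter.unusedSectionVars false

open Polynomial Finset

universe u

section Big

variable {P : Type u} [Fintype P] [PartialOrder P] [DecidableEq P]

/-- larger labels, part by part, for `FarV`: the thresholds of the twins only have to cost more
than the remaining energy -/
theorem farV_big {i : ℕ} {N : Tops P → Finset P} {b : Tops P → ℕ} {θ : Tops P → P → ℕ}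
    {B : Tops P → P → Prop} {Y : Finset P} {τ : P → P}
    (H : ∀ t, NatTop i t (b t) (N t) (θ t) (B t))
    (T : TwSys (unnat N) Y topOf τ) (n0 k0 : ℕ) {S : ℤ[X]}
    (F : FarV P i (unnat N \ Y) (∑ t, b t)
      (hcan (unnat N \ Y) (thX Y τ (fun x => θ (topOf x) x))) S n0)
    (htw : ∀ x ∈ Y, Twn i (thX Y τ (fun x => θ (topOf x) x)) (τ x, x))
    (hcost : ∀ x ∈ Y, n0 < tcst i (thX Y τ (fun x => θ (topOf x) x)) (τ x, x) + k0)
    (h' : P → ℕ)
    (hle : ∀ z ∈ bdR (unnat N \ Y),
      hcan (unnat N \ Y) (thX Y τ (fun x => θ (topOf x) x)) z ≤ h' z)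
    (hk0 : ∀ z ∈ bdR (unnat N \ Y),
      hcan (unnat N \ Y) (thX Y τ (fun x => θ (topOf x) x)) z < h' z →
      k0 ≤ hcan (unnat N \ Y) (thX Y τ (fun x => θ (topOf x) x)) z)
    (hlev : ∀ z ∈ bdR (unnat N \ Y), h' z ≤ lev z - i)
    (hbig : ∀ g : P → ℕ, (∀ x, x ∉ unnat N \ Y → g x = 0) →
      (∀ z ∈ bdR (unnat N \ Y), g z < h' z) → ∀ (x z : P), x ∉ unnat N \ Y → z ∈ unnat N \ Y →
      z ⋖ x → thX Y τ (fun x => θ (topOf x) x) x < g z → ∀ m,
      m + ∑ x ∈ unnat N \ Y, g x ≤ n0 → (1 + X : ℤ[X]) ^ (b (topOf x)) ∣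
      ZB (P := {y : P // y ∉ unnat N \ Y ∧ topOf y = topOf x}) i ∅ 0
        (fun y => by classical exact ((unnat N \ Y).filter (fun z => z ⋖ (y : P))).sup g) m) :
    FarV P i (unnat N \ Y) (∑ t, b t) h' S n0 := by
  classical
  have HN := natSys_of_tops H
  have hRlev : ∀ x ∈ unnat N, i < lev x := by
    intro x hx
    by_contra hcon
    exact low_natural H (not_lt.mp hcon) hx
  refine F.raise hle hlev ?_
  rintro g g0 hg ⟨z0, hz0, hgz0⟩
  have hR := T.lower HN.lower
  have hk : k0 ≤ ∑ x ∈ unnat N \ Y, g x := by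
    have h1 := hk0 z0 hz0 (lt_of_le_of_lt hgz0 (hg z0 hz0))
    exact (h1.trans hgz0).trans
      (Finset.single_le_sum (f := g) (fun _ _ => Nat.zero_le _) (mem_filter.mp hz0).1)
  refine F4.zb_parts hR F.hlev topOf (T.cp' HN.cp) b g fun t m hm => ?_
  by_cases hall : ∀ x, x ∉ unnat N \ Y → topOf x = t →
      ((unnat N \ Y).filter (fun z => z ⋖ x)).sup g ≤ thX Y τ (fun x => θ (topOf x) x) x
  · refine factor hR F.hlev topOf (T.cp' HN.cp) b _ (fun x => x ∉ unnat N ∧ B (topOf x) x)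
      (fun x hx h => h.1 (mem_sdiff.mp hx).1) (pairsX Y τ) (m + 1) ?_ ?_ ?_ ?_ t _
      (fun x hx hxt => hall x hx hxt) m (by omega)
    · intro t
      refine CompData.toTwins ((H t).data N HN rfl _ _ ?_ ?_) T HN.lower hRlev
        (fun x hx h => h.1 hx)
      · intro x hx
        simp only [HN.topOf_eq hx]
      · intro x hx
        simp only [HN.topOf_eq hx, (HN.mem_iff.mp hx).1, not_false_eq_true, true_and]
    · intro t ht
      rw [mem_pairsX] at ht
      have h1 := htw t.2 ht.1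
      have h2 := hcost t.2 ht.1
      rw [← ht.2] at h1 h2
      exact h1.pair (by omega)
    · intro t ht y hy
      rw [mem_pairsX] at ht
      rw [mem_sdiff]
      exact ⟨HN.lower y _ hy.le (T.sub ht.1), fun h => T.anti _ ht.1 y h hy⟩
    · intro t ht
      rw [mem_pairsX] at ht
      rw [mem_sdiff, mem_sdiff, ht.2]
      exact ⟨fun h => T.nat _ ht.1 h.1, fun h => h.2 ht.1⟩
  · push Not at hall
    obtain ⟨x, hx, hxt, hlt⟩ := hall
    rw [Finset.lt_sup_iff] at hlt
    obtain ⟨z, hz, hlt⟩ := hlt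
    rw [mem_filter] at hz
    subst hxt
    exact hbig g g0 hg x z hx hz.1 hz.2 hlt m hm

end Big

end Pool.Agent.GaussPoset

namespace Pool.Agent.GaussPoset.Sm

set_option linter.unusedSectionVars false

open Polynomial Finset

universe u

variable {P : Type u} [Fintype P] [PartialOrder P] [DecidableEq P] {r j w K : ℕ}
  {N : Tops P → Finset P} {b : Tops P → ℕ} {θ : Tops P → P → ℕ}

/-- the cell `(2, j - 1)` of a stair -/
structure SpcC (j w : ℕ) (N : Tops P → Finset P) (b : Tops P → ℕ) (θ : Tops P → P → ℕ)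
    (x : P) (Nc : Finset P) (co : P → ℕ × ℕ) : Prop where
  nat : StairNat j w (topOf x) Nc co
  hN : N (topOf x) = natS Nc co
  hb : b (topOf x) = 2
  mem : x ∈ Nc
  co_eq : co x = (2, j - 1)
  th : θ (topOf x) x + 1 + w = j

/-- special cells -/
def Spc (j w : ℕ) (N : Tops P → Finset P) (b : Tops P → ℕ) (θ : Tops P → P → ℕ) (x : P) : Prop :=
  ∃ Nc co, SpcC j w N b θ x Nc co

lemma SpcC.lev {x : P} {Nc : Finset P} {co : P → ℕ × ℕ} (C : SpcC j w N b θ x Nc co)
    (hj : 1 ≤ j) : lev x = j + 1 := by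
  have := C.nat.chart.lev x C.mem
  rw [C.co_eq] at this
  simp only at this
  omega

/-- the cone of a special cell -/
lemma SpcC.cone {x : P} {Nc : Finset P} {co : P → ℕ × ℕ} (C : SpcC j w N b θ x Nc co) :
    F4.ConeAt x co (j - 1) := by
  have hC := C.nat.chart
  have hin : ∀ y, x ≤ y → y ∈ Nc := fun y hy => hC.up x C.mem y hy
  refine ⟨fun y z hy hz => hC.le_iff y (hin y hy) z (hin z hz), fun y hy => ?_,
    fun a b h1 h2 h3 => ?_⟩
  · have h1 := (hC.le_iff x C.mem y (hin y hy)).mp hy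
    rw [C.co_eq, Prod.le_def] at h1
    have h2 : (co y).1 ≤ (co y).2 := hC.mem y (hin y hy)
    exact ⟨h1.1, h2, h1.2⟩
  · obtain ⟨y, hy, hcy⟩ := hC.low x C.mem (a, b) (by
      rw [C.co_eq]
      exact ⟨h1, h3⟩) h2
    refine ⟨y, ?_, hcy⟩
    rw [hC.le_iff x C.mem y hy, hcy, C.co_eq]
    exact ⟨h1, h3⟩

/-- the cone of a twin -/
lemma _root_.Pool.Agent.GaussPoset.F4.ConeAt.twin {x x' : P} {co : P → ℕ × ℕ} {q : ℕ}
    (C : F4.ConeAt x co q) (hne : x ≠ x')
    (hup : ∀ y, x < y ↔ x' < y) : F4.ConeAt x' (fun y => if y = x' then co x else co y) q := by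
  have hnx : ∀ y, x < y → y ≠ x' := fun y hy h => by
    have h1 := (hup y).mp hy
    rw [h] at h1
    exact lt_irrefl _ h1
  have hgt : ∀ y, x' ≤ y → y ≠ x' → x < y := fun y hy h =>
    (hup y).mpr (lt_of_le_of_ne hy (Ne.symm h))
  refine ⟨fun y z hy hz => ?_, fun y hy => ?_, fun a b h1 h2 h3 => ?_⟩
  · by_cases h1 : y = x'
    · subst h1
      rw [if_pos rfl]
      by_cases h2 : z = y
      · subst h2
        rw [if_pos rfl]
        exact ⟨fun _ => le_rfl, fun _ => le_rfl⟩
      · rw [if_neg h2]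
        have h3 := hgt z hz h2
        exact ⟨fun _ => (C.le_iff x z le_rfl h3.le).mp h3.le, fun _ => hz⟩
    · have h2 := hgt y hy h1
      rw [if_neg h1]
      by_cases h3 : z = x'
      · subst h3
        rw [if_pos rfl]
        constructor
        · intro h4
          exact absurd (lt_of_le_of_lt h4 ((hup y).mp h2)) (lt_irrefl _)
        · intro h4
          exact absurd ((C.le_iff y x h2.le le_rfl).mpr h4) (not_le_of_gt h2)
      · rw [if_neg h3]
        exact C.le_iff y z h2.le (hgt z hz h3).le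
  · by_cases h1 : y = x'
    · rw [if_pos h1]
      exact C.mem x le_rfl
    · rw [if_neg h1]
      exact C.mem y (hgt y hy h1).le
  · obtain ⟨y, hy, hcy⟩ := C.surj a b h1 h2 h3
    rcases eq_or_lt_of_le hy with h4 | h4
    · refine ⟨x', le_rfl, ?_⟩
      simp only [if_true]
      rw [h4]
      exact hcy
    · refine ⟨y, ((hup y).mp h4).le, ?_⟩
      rw [if_neg (hnx y h4)]
      exact hcy

/-- the elements of small level in the part of a special cell are above it -/
lemma SpcC.above {x : P} {Nc : Finset P} {co : P → ℕ × ℕ} (C : SpcC j w N b θ x Nc co)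
    (hw : w ≤ 3) (hj : 6 ≤ j) {z : P} (hz : topOf z = topOf x)
    (hlz : Pool.Agent.GaussPoset.lev z ≤ w + 2) : x < z := by
  have hl := C.lev (by omega)
  have hzN : z ∈ Nc := by
    refine C.nat.strip (mem_lowPart.mpr ⟨?_, by omega⟩)
    rw [← hz]
    exact le_topOf z
  have h1 := C.nat.chart.lev z hzN
  have h2 : (co z).1 ≤ (co z).2 := C.nat.chart.mem z hzN
  refine lt_of_le_of_ne ?_ (by rintro rfl; omega)
  rw [C.nat.chart.le_iff x C.mem z hzN, C.co_eq]
  exact ⟨by simp only; omega, by simp only; omega⟩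

end Pool.Agent.GaussPoset.Sm
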