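import Pool.Agent.W_448f4_h70.GH

/-!
Far data with special twins at the windows `2`, `3` (MP_448cb3_co, S7).
-/

namespace Pool.Agent.GaussPoset.Sm

set_option linter.unusedSectionVars false

open Polynomial Finset

universe u

variable {P : Type u} [Fintype P] [PartialOrder P] [DecidableEq P] {r j w K : ℕ}
  {N : Tops P → Finset P} {b : Tops P → ℕ} {θ : Tops P → P → ℕ}

open Classical in
/-- the cost of a twin -/
noncomputable def tcS (j w : ℕ) (N : Tops P → Finset P) (b : Tops P → ℕ) (θ : Tops P → P → ℕ)
    (x : P) : ℕ :=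
  if Spc j w N b θ (twT N x) then tcst w (fun _ => j - w) (twT N x, x) else
    tcst w (thA N θ) (twT N x, x)

open Classical in
/-- the leading term of a twin -/
noncomputable def TmS (j w : ℕ) (N : Tops P → Finset P) (b : Tops P → ℕ) (θ : Tops P → P → ℕ)
    (x : P) : ℤ[X] :=
  if Spc j w N b θ (twT N x) then Tm w (fun _ => j - w) (twT N x, x) else
    Tm w (thA N θ) (twT N x, x)

/-- a special pair with the larger thresholds -/
lemma Wk.twnS (W : Wk r j w K N b θ) {x : P} (hx : x ∈ twA N)
    (hs : Spc j w N b θ (twT N x)) : Twn w (fun _ => j - w) (twT N x, x) := by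
  obtain ⟨Nc, co, C⟩ := hs
  have H := W.twn hx
  have hj := W.hj
  have hl := C.lev (by omega)
  refine ⟨H.ne, H.up, ?_, rfl, ?_, fun _ _ => Nat.le_succ _⟩
  · show 1 ≤ j - w
    omega
  · show j - w + 1 ≤ lev (twT N x) - w
    omega

/-- the cost of a special twin is larger by two -/
lemma Wk.tcS_spc (W : Wk r j w K N b θ) {x : P} (hx : x ∈ twA N)
    (hs : Spc j w N b θ (twT N x)) :
    tcS j w N b θ x = tcst w (thA N θ) (twT N x, x) + 2 := by
  classical
  have T' := W.twnS hx hs
  have T := W.twn hx
  have hj := W.hj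
  unfold tcS
  rw [if_pos hs, tcst_eq T', tcst_eq T]
  obtain ⟨Nc, co, C⟩ := hs
  have hl := C.lev (by omega)
  have hth := C.th
  have e1 : thA N θ (twT N x) = θ (topOf (twT N x)) (twT N x) :=
    W.thA_nat (W.twSys.nat x hx)
  have e2 : ∑ y, (if (twT N x, x).1 < y then
      min ((fun _ => j - w) (twT N x, x).1 + 1) (lev y - w) else 0) =
      ∑ y, (if (twT N x, x).1 < y then min (thA N θ (twT N x, x).1 + 1) (lev y - w) else 0) := by
    refine Finset.sum_congr rfl fun y _ => ?_
    split_ifs with hy
    · have h1 := lev_strictAnti hy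
      simp only at h1 ⊢
      rw [e1]
      omega
    · rfl
  rw [e2]
  simp only
  rw [e1]
  omega

/-- component data at a window -/
lemma Wk.compT (W : Wk r j w K N b θ) {B : Tops P → P → Prop}
    (hB : ∀ t, NatTop w t (b t) (N t) (θ t) (B t)) (t : Tops P) :
    CompDataT (rA N) topOf t w (b t) (thA N θ) (fun x => x ∉ unnat N ∧ B (topOf x) x)
      (pairsX (twA N) (twT N)) := by
  have HN := W.natSys
  have hRlev : ∀ x ∈ unnat N, w < lev x := fun x hx => by
    have := W.lt_lev hx
    have := W.hj
    omega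
  refine CompData.toTwins ((hB t).data N HN rfl _ _ ?_ ?_) W.twSys HN.lower hRlev
    (fun x hx h => h.1 hx)
  · intro x hx
    simp only [HN.topOf_eq hx]
  · intro x hx
    simp only [HN.topOf_eq hx, (HN.mem_iff.mp hx).1, not_false_eq_true, true_and]

/-- **The far window theorem with special twins.** -/
theorem Wk.farS0 (W : Wk r j w K N b θ) (h7 : 7 ≤ j) (n0 : ℕ)
    (hcost : ∀ x ∈ twA N, n0 ≤ tcS j w N b θ x) :
    FarV P w (rA N) (lv P w).card (hA N θ)
      (∑ x ∈ (twA N).filter (fun x => tcS j w N b θ x = n0), TmS j w N b θ x) n0 := by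
  classical
  have H := W.gt.H
  have HN := W.natSys
  have hj := W.hj
  have hw := W.hw
  have TS := W.twSys
  choose B hB using fun t => (W.top t).natTop H.gradedBelow
  have hRl : ∀ x ∈ rA N, w < lev x := fun x hx => by
    have := W.lt_lev (mem_rA.mp hx).1
    omega
  have hcp := TS.cp' HN.cp
  have hmin : ∀ x ∈ twA N, ∀ y < x, y ∈ rA N := fun x hx y hy =>
    mem_rA.mpr ⟨HN.lower y _ hy.le (TS.sub hx), fun h => TS.anti _ hx y h hy⟩
  have hmin' : ∀ t ∈ pairsX (twA N) (twT N), ∀ y < t.2, y ∈ rA N := fun t ht y hy => by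
    rw [mem_pairsX] at ht
    exact hmin _ ht.1 y hy
  have htw3 : ∀ t ∈ pairsX (twA N) (twT N), TwinPair w (thA N θ) 3 t.1 t.2 := by
    intro t ht
    rw [mem_pairsX] at ht
    have h1 := W.twn ht.1
    rw [← ht.2] at h1
    refine h1.pair ?_
    rw [tcst_eq h1]
    have := h1.one_le
    omega
  -- the sums with two high labels
  have key : ∀ x ∈ twA N, ∀ D, Good w (unnat N \ twA N)
      (fun x => x ∉ unnat N ∧ B (topOf x) x) D → twT N x ∉ D → x ∉ D → ∀ n ≤ n0,
      (1 + X : ℤ[X]) ^ (∑ t, b t) ∣ ZB w D 0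
        (st2 (twT N x) x (thA N θ (twT N x)) (thA N θ (twT N x) + 1)) n -
        (if tcS j w N b θ x = n then TmS j w N b θ x else 0) := by
    intro x hx D hD h1 h2 n hn
    have T := W.twn hx
    have hl := (W.tw_cases hx).1
    have hxn := TS.nat x hx
    have hup : ∀ y, twT N x < y ↔ x < y := TS.up x hx
    have hDl : ∀ d ∈ D, w < lev d := hD.2.2.1
    have hupD : ∀ y, twT N x < y → y ∉ D := fun y hy hyD => h1 (hD.1 _ _ hy.le hyD)
    by_cases hs : Spc j w N b θ (twT N x)
    · have T' := W.twnS hx hs
      have hs' := hs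
      obtain ⟨Nc, co, C⟩ := hs
      have hlC := C.lev (by omega)
      have e1 : thA N θ (twT N x) = θ (topOf (twT N x)) (twT N x) := W.thA_nat hxn
      have hth := C.th
      have hC := hcost x hx
      have e3 : tcS j w N b θ x = tcst w (fun _ => j - w) (twT N x, x) := by
        unfold tcS
        rw [if_pos hs']
      have e4 : TmS j w N b θ x = Tm w (fun _ => j - w) (twT N x, x) := by
        unfold TmS
        rw [if_pos hs']
      have hlC2 : lev (twT N x) = w + (j - w) + 1 := by omega
      have e5 := F4.tcst_const T' hlC2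
      have hne : twT N x ≠ x := T.ne
      have k1 := F4.spec_twin (R := rA N) (cp := topOf) (b := b) (θ := thA N θ)
        (B := fun x => x ∉ unnat N ∧ B (topOf x) x) (Tw := pairsX (twA N) (twT N)) hcp
        (W.compT hB) htw3 hmin' hD T h1 h2 (fun y hy => hD.2.1 (hmin x hx y hy)) (TS.cp x hx).symm
        (h := j - w) (q := j - 1) (by rw [e1]; omega) hlC2 (by omega) (by omega) (by omega)
        C.cone (C.cone.twin hne hup)
        (fun z _ hcz hlz => C.above hw (by omega) hcz hlz) C.hb (n := n) (by omega)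
      have k2 := ZB_st2_exact (D := D) T' (by omega) hDl h1 h2 hupD (n0 := n)
        (by rw [← e3]; omega)
      rw [e3, e4, ← k2]
      exact k1
    · have e3 : tcS j w N b θ x = tcst w (thA N θ) (twT N x, x) := by
        unfold tcS
        rw [if_neg hs]
      have e4 : TmS j w N b θ x = Tm w (thA N θ) (twT N x, x) := by
        unfold TmS
        rw [if_neg hs]
      have hC := hcost x hx
      have k2 := ZB_st2_exact (D := D) T (by omega) hDl h1 h2 hupD (n0 := n)
        (by rw [← e3]; omega)
      rw [e3, e4, k2, sub_self]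
      exact dvd_zero _
  have F := farV_of_tops H.gradedBelow hB TS n0 (fun x hx => W.twn hx)
    (fun x => tcS j w N b θ x = n0) (fun x => TmS j w N b θ x)
    (fun x hx D hD h1 h2 n hn => by
      have k := key x hx D hD h1 h2 n hn.le
      have hC := hcost x hx
      rw [if_neg (by omega), sub_zero] at k
      exact k)
    (fun x hx D hD h1 h2 => by
      have k := key x hx D hD h1 h2 n0 le_rfl
      convert k)
  rw [W.sum_b] at F
  convert F

end Pool.Agent.GaussPoset.Sm
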