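import Pool.Agent.W_448f4_h70.GI

/-!
The labels with the larger labels below special cells and the full labels below both ends of a
stair: the far window theorem (MP_448cb3_co, S7, windows 2, 3).
-/

namespace Pool.Agent.GaussPoset.Sm

set_option linter.unusedSectionVars false

open Polynomial Finset

universe u

variable {P : Type u} [Fintype P] [PartialOrder P] [DecidableEq P] {r j w K : ℕ}
  {N : Tops P → Finset P} {b : Tops P → ℕ} {θ : Tops P → P → ℕ}

/-- the part of the element below both ends of a stair -/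
theorem Wk.bigC (W : Wk r j w K N b θ) (h12 : 12 ≤ j) (hw2 : 2 ≤ w) {n0 : ℕ} {g : P → ℕ}
    {x z : P} (hz : z ∈ unnat N \ twA N) (hzx : z ⋖ x) (hzC : CEl j w N θ z)
    (hlt : hA N θ z ≤ g z) (hgz : g z < lev z - w)
    (hCc : n0 ≤ cst w (fun _ => lev z - w) z) {m : ℕ}
    (hm : m + ∑ x ∈ unnat N \ twA N, g x ≤ n0) :
    (1 + X : ℤ[X]) ^ (b (topOf x)) ∣
      ZB (P := {y : P // y ∉ unnat N \ twA N ∧ topOf y = topOf x}) w ∅ 0
        (fun y => by classical exact ((unnat N \ twA N).filter (fun z => z ⋖ (y : P))).sup g) m := by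
  classical
  have H := W.gt.H
  have HN := W.natSys
  have hj := W.hj
  have hw := W.hw
  have hz' := hzC
  obtain ⟨h1, h2, f, s, h3, h4, h5, h6, h7⟩ := hz'
  obtain ⟨Nc, co, C⟩ := W.fold_cell hw2 h1 h2 h3 h4 h5 h7
  have e1 := W.hA_fold C h1 h2 h3 h4 h5
  obtain ⟨s1, s2, s3⟩ := W.fold_end C h1 h2 h3 h4 h5 h6
  have hlf := C.lev
  have hls : lev s = j := by
    have := C.nat.chart.lev s s1
    omega
  have htx : topOf x = topOf f := by
    rcases cov_two H h3 h4 h5 hzx with rfl | rfl
    · rfl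
    · exact h6.symm
  have hbt : b (topOf x) = 2 := by rw [htx, C.hb]
  rw [hbt]
  set k := g z with hk
  have hk1 : j - w - 1 ≤ k := by omega
  have hk2 : k ≤ j - w := by omega
  have hn0 : n0 ≤ F4.Efs w k f s + k + 4 := hCc.trans (cst_full_le H h3 h4 h5 (by omega))
  have hsz : k ≤ ∑ x ∈ unnat N \ twA N, g x :=
    Finset.single_le_sum (f := g) (fun _ _ => Nat.zero_le _) hz
  have hp : ∀ x' y : P, x' ≤ y → (x' ∉ unnat N \ twA N ∧ topOf x' = topOf x) →
      (y ∉ unnat N \ twA N ∧ topOf y = topOf x) :=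
    pg_part_up (W.twSys.lower HN.lower) (W.twSys.cp' HN.cp)
  have hfR : f ∉ unnat N \ twA N := not_mem_rA.mpr (Or.inl (W.low (by omega)))
  have hsR : s ∉ unnat N \ twA N := not_mem_rA.mpr (Or.inl (W.low (by omega)))
  have hBf : k ≤ ((unnat N \ twA N).filter (fun z => z ⋖ f)).sup g :=
    Finset.le_sup (f := g) (mem_filter.mpr ⟨hz, h3⟩)
  have hBs : k ≤ ((unnat N \ twA N).filter (fun z => z ⋖ s)).sup g :=
    Finset.le_sup (f := g) (mem_filter.mpr ⟨hz, h4⟩)
  by_cases hbigz : ∃ z' ∈ unnat N \ twA N, k < g z'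
  · obtain ⟨z', hz', hk'⟩ := hbigz
    have hne' : z' ≠ z := by
      rintro rfl
      omega
    have h8 : g z + g z' ≤ ∑ x ∈ unnat N \ twA N, g x := by
      rw [← Finset.sum_pair (f := g) hne'.symm]
      refine Finset.sum_le_sum_of_subset ?_
      intro y hy
      rw [mem_insert, mem_singleton] at hy
      rcases hy with rfl | rfl
      · exact hz
      · exact hz'
    rw [F4.part_zero hp (i := w) (k := k) (f := f) (s := s) ⟨hfR, htx.symm⟩
      ⟨hsR, h6.symm.trans htx.symm⟩ hBf hBs (by omega)]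
    exact dvd_zero _
  · push Not at hbigz
    have hBle : ∀ y : P, ((unnat N \ twA N).filter (fun z => z ⋖ y)).sup g ≤ k := by
      intro y
      refine Finset.sup_le fun z' hz' => ?_
      exact hbigz z' (mem_filter.mp hz').1
    refine F4.part_two hp (i := w) (k := k) (M := j / 2 + 1) (c0 := 4) (f := f) (s := s)
      ⟨hfR, htx.symm⟩ ⟨hsR, h6.symm.trans htx.symm⟩ (by omega) (by omega) ?_ (by omega)
      (by omega) ?_ (fun y => hBle y) (le_antisymm (hBle f) hBf) (le_antisymm (hBle s) hBs)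
      (by omega)
    · rintro y ⟨-, hy2⟩ hy3
      have hyN : y ∈ Nc := by
        refine C.nat.strip (mem_lowPart.mpr ⟨?_, by omega⟩)
        rw [← htx, ← hy2]
        exact le_topOf y
      have hly := C.nat.chart.lev y hyN
      have hmy : (co y).1 ≤ (co y).2 := C.nat.chart.mem y hyN
      rcases Nat.lt_or_ge (j / 2) (co y).2 with h9 | h9
      · right
        rw [C.nat.chart.le_iff s s1 y hyN, Prod.le_def, s2, s3]
        constructor
        · omega
        · omega
      · left
        rw [C.nat.chart.le_iff f C.mem y hyN, Prod.le_def, C.co1, C.co2]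
        constructor
        · omega
        · exact h9
    · intro y hy1 hy2
      have hyN := C.nat.chart.up f C.mem y hy1
      have a1 := (C.nat.chart.le_iff f C.mem y hyN).mp hy1
      have a2 := (C.nat.chart.le_iff s s1 y hyN).mp hy2
      rw [Prod.le_def, C.co1, C.co2] at a1
      rw [Prod.le_def, s2, s3] at a2
      have hly := C.nat.chart.lev y hyN
      have := C.ev
      omega

/-- the pendants below a special cell or its twin -/
def PenS (j w : ℕ) (N : Tops P → Finset P) (b : Tops P → ℕ) (θ : Tops P → P → ℕ) (z : P) : Prop :=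
  z ∈ rA N ∧ ∃ x, x ∉ rA N ∧ z ⋖ x ∧ (∀ y, z ⋖ y → y = x) ∧
    Spc j w N b θ (GaussPoset.bs N x)

open Classical in
/-- the labels: one more below the special cells, full below both ends of a stair -/
noncomputable def hS (j w : ℕ) (N : Tops P → Finset P) (b : Tops P → ℕ) (θ : Tops P → P → ℕ)
    (z : P) : ℕ :=
  if PenS j w N b θ z then hA N θ z + 1 else hC j w N θ z

lemma hS_of {z : P} (h : PenS j w N b θ z) : hS j w N b θ z = hA N θ z + 1 := if_pos h

lemma hS_not {z : P} (h : ¬ PenS j w N b θ z) : hS j w N b θ z = hC j w N θ z := if_neg h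

/-- data of a pendant below a special cell -/
theorem Wk.penS (W : Wk r j w K N b θ) {z : P} (hz : PenS j w N b θ z) :
    hA N θ z = j - w ∧ lev z = j + 2 ∧ z ∈ bdR (rA N) := by
  obtain ⟨h1, x, h2, h3, h4, Nc, co, C⟩ := hz
  have H := W.gt.H
  have hj := W.hj
  have g6 := W.bs h2
  have e1 := (H.covBy_iff.mp h3).2
  have e2 := g6.lev
  have e3 := C.lev (by omega)
  have hbd : z ∈ bdR (rA N) := mem_bdR.mpr ⟨h1, x, h2, h3⟩
  obtain ⟨x0, f1, f2, f3⟩ := W.hA_spec hbd
  have e4 := h4 x0 f2
  subst e4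
  have := C.th
  exact ⟨by omega, by omega, hbd⟩

end Pool.Agent.GaussPoset.Sm
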