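import Pool.Agent.W_448f4_h70.GJ

/-!
The far window theorem with the larger labels (MP_448cb3_co, S7, windows 2, 3).
-/

namespace Pool.Agent.GaussPoset.Sm

set_option linter.unusedSectionVars false

open Polynomial Finset

universe u

variable {P : Type u} [Fintype P] [PartialOrder P] [DecidableEq P] {r j w K : ℕ}
  {N : Tops P → Finset P} {b : Tops P → ℕ} {θ : Tops P → P → ℕ}

/-- the cost of a pendant with the label `h + 1` -/
lemma cst_pen {x z : P} {h : ℕ} (hzx : z ⋖ x) (hpen : ∀ y, z ⋖ y → y = x)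
    (hlx : lev x = w + h + 1) (hlz : w + h + 1 ≤ lev z) :
    cst w (fun _ => h + 1) z = F4.Efs w h x x + h + 2 := by
  classical
  have e1 : univ.filter (fun y : P => z ≤ y) = insert z (insert x
      (univ.filter (fun y : P => x < y))) := by
    ext y
    rw [mem_filter, mem_insert, mem_insert, mem_filter]
    constructor
    · rintro ⟨-, h⟩
      rcases eq_or_lt_of_le h with h | h
      · exact Or.inl h.symm
      · obtain ⟨u, hu, huy⟩ := Hul.exists_cov h
        rw [hpen u hu] at huy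
        rcases eq_or_lt_of_le huy with h | h
        · exact Or.inr (Or.inl h.symm)
        · exact Or.inr (Or.inr ⟨mem_univ _, h⟩)
    · rintro (h | h | ⟨-, h⟩)
      · exact ⟨mem_univ _, h.ge⟩
      · exact ⟨mem_univ _, hzx.1.le.trans h.ge⟩
      · exact ⟨mem_univ _, (hzx.1.trans h).le⟩
  have e2 : univ.filter (fun y : P => x ≤ y ∨ x ≤ y) =
      insert x (univ.filter (fun y : P => x < y)) := by
    ext y
    rw [mem_filter, mem_insert, mem_filter, or_self]
    constructor
    · rintro ⟨-, h⟩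
      rcases eq_or_lt_of_le h with h | h
      · exact Or.inl h.symm
      · exact Or.inr ⟨mem_univ _, h⟩
    · rintro (h | ⟨-, h⟩)
      · exact ⟨mem_univ _, h.ge⟩
      · exact ⟨mem_univ _, h.le⟩
  have hc : cst w (fun _ => h + 1) z = ∑ y ∈ univ.filter (fun y : P => z ≤ y),
      min (h + 1) (lev y - w) := by
    unfold cst ez
    rw [Finset.sum_filter]
  have hz1 : z ∉ insert x (univ.filter (fun y : P => x < y)) := by
    rw [mem_insert, mem_filter]
    rintro (h | ⟨-, h⟩)
    · exact hzx.1.ne h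
    · exact lt_irrefl _ (hzx.1.trans h)
  have hx1 : x ∉ univ.filter (fun y : P => x < y) := by simp
  rw [hc, e1, Finset.sum_insert hz1, Finset.sum_insert hx1]
  unfold F4.Efs
  rw [e2, Finset.sum_insert hx1]
  have h3 : ∑ y ∈ univ.filter (fun y : P => x < y), min (h + 1) (lev y - w) =
      ∑ y ∈ univ.filter (fun y : P => x < y), min h (lev y - w) := by
    refine Finset.sum_congr rfl fun y hy => ?_
    have := lev_strictAnti (mem_filter.mp hy).2
    omega
  rw [h3]
  omega

/-- the special cell of a pendant -/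
theorem Wk.penS_cone (W : Wk r j w K N b θ) {x : P}
    (hs : Spc j w N b θ (GaussPoset.bs N x)) :
    b (topOf x) = 2 ∧ lev x = j + 1 ∧ (∃ co, F4.ConeAt x co (j - 1)) ∧
      ∀ y : P, topOf y = topOf x → lev y ≤ w + 2 → x ≤ y := by
  classical
  obtain ⟨Nc, co, C⟩ := hs
  have hj := W.hj
  have hw := W.hw
  have hw1 := W.hw1
  have hl := C.lev (by omega)
  by_cases ht : x ∈ twA N
  · have hbs : GaussPoset.bs N x = twT N x := by
      unfold GaussPoset.bs
      rw [if_pos ht]
    rw [hbs] at C hl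
    have h1 := W.twSys.cp x ht
    have hup := W.twSys.up x ht
    have T := W.twn ht
    have hne : twT N x ≠ x := T.ne
    have hll : lev (twT N x) = lev x := lev_eq_of_up hup
    refine ⟨by rw [← h1]; exact C.hb, by omega, ⟨_, C.cone.twin hne hup⟩, fun y hy hly => ?_⟩
    exact ((hup y).mp (C.above hw (by omega) (hy.trans h1.symm) hly)).le
  · have hbs : GaussPoset.bs N x = x := by
      unfold GaussPoset.bs
      rw [if_neg ht]
    rw [hbs] at C hl
    exact ⟨C.hb, hl, ⟨co, C.cone⟩, fun y hy hly => (C.above hw (by omega) hy hly).le⟩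

/-- the part of a pendant below a special cell -/
theorem Wk.bigS (W : Wk r j w K N b θ) (h7 : 7 ≤ j) {n0 : ℕ} {g : P → ℕ}
    {x z : P} (hz : z ∈ unnat N \ twA N) (hzx : z ⋖ x) (hzS : PenS j w N b θ z)
    (hgz : g z = j - w)
    (hCc : n0 ≤ cst w (fun _ => j - w + 1) z) {m : ℕ}
    (hm : m + ∑ x ∈ unnat N \ twA N, g x ≤ n0) :
    (1 + X : ℤ[X]) ^ (b (topOf x)) ∣
      ZB (P := {y : P // y ∉ unnat N \ twA N ∧ topOf y = topOf x}) w ∅ 0
        (fun y => by classical exact ((unnat N \ twA N).filter (fun z => z ⋖ (y : P))).sup g) m := by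
  classical
  have H := W.gt.H
  have HN := W.natSys
  have hj := W.hj
  have hw := W.hw
  obtain ⟨-, x1, h1, h2, h4, hs⟩ := hzS
  have hxx := h4 x hzx
  subst hxx
  obtain ⟨q1, q2, ⟨co, q3⟩, q4⟩ := W.penS_cone hs
  have e1 := (H.covBy_iff.mp hzx).2
  rw [q1]
  set k := j - w with hk
  have hn0 : n0 ≤ F4.Efs w k x x + k + 2 := by
    rw [← cst_pen hzx h4 (by omega) (by omega)]
    exact hCc
  have hsz : k ≤ ∑ x ∈ unnat N \ twA N, g x := by
    rw [← hgz]
    exact Finset.single_le_sum (f := g) (fun _ _ => Nat.zero_le _) hz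
  have hp : ∀ x' y : P, x' ≤ y → (x' ∉ unnat N \ twA N ∧ topOf x' = topOf x) →
      (y ∉ unnat N \ twA N ∧ topOf y = topOf x) :=
    pg_part_up (W.twSys.lower HN.lower) (W.twSys.cp' HN.cp)
  have hBx : k ≤ ((unnat N \ twA N).filter (fun z => z ⋖ x)).sup g := by
    rw [← hgz]
    exact Finset.le_sup (f := g) (mem_filter.mpr ⟨hz, hzx⟩)
  by_cases hbigz : ∃ z' ∈ unnat N \ twA N, k < g z'
  · obtain ⟨z', hz', hk'⟩ := hbigz
    have hne' : z' ≠ z := by
      rintro rfl
      omega
    have h8 : g z + g z' ≤ ∑ x ∈ unnat N \ twA N, g x := by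
      rw [← Finset.sum_pair (f := g) hne'.symm]
      refine Finset.sum_le_sum_of_subset ?_
      intro y hy
      rw [mem_insert, mem_singleton] at hy
      rcases hy with rfl | rfl
      · exact hz
      · exact hz'
    rw [F4.part_zero hp (i := w) (k := k) (f := x) (s := x) ⟨h1, rfl⟩ ⟨h1, rfl⟩ hBx hBx (by omega)]
    exact dvd_zero _
  · push Not at hbigz
    have hBle : ∀ y : P, ((unnat N \ twA N).filter (fun z => z ⋖ y)).sup g ≤ k := by
      intro y
      refine Finset.sup_le fun z' hz' => ?_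
      exact hbigz z' (mem_filter.mp hz').1
    exact F4.part_cone hp (i := w) (h := k) (x := x) ⟨h1, rfl⟩ q3 (by omega) (by omega) (by omega)
      (fun y hy hly => q4 y hy.2 hly) (fun y => hBle y) (le_antisymm (hBle x) hBx) (by omega)

/-- **The far window theorem with the larger labels.** -/
theorem Wk.farS (W : Wk r j w K N b θ) (h7 : 7 ≤ j) (h12 : j % 2 = 0 → 12 ≤ j) (hw2 : 2 ≤ w) (n0 : ℕ)
    (hcost : ∀ x ∈ twA N, n0 ≤ tcS j w N b θ x)
    (hbd : ∀ z ∈ bdR (rA N), n0 ≤ cst w (hS j w N b θ) z) :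
    FarV P w (rA N) (lv P w).card (hS j w N b θ)
      (∑ x ∈ (twA N).filter (fun x => tcS j w N b θ x = n0), TmS j w N b θ x) n0 := by
  classical
  have H := W.gt.H
  have HN := W.natSys
  have hj := W.hj
  have hw := W.hw
  have F := W.farS0 h7 n0 hcost
  choose B hB using fun t => (W.top t).natTop H.gradedBelow
  have hCl : ∀ z, CEl j w N θ z → hA N θ z = j - w - 1 ∧ lev z = j + 1 ∧ j % 2 = 0 := by
    intro z hz
    obtain ⟨h1, h2, f, s, h3, h4, h5, h6, h7⟩ := hz
    obtain ⟨Nc, co, C⟩ := W.fold_cell hw2 h1 h2 h3 h4 h5 h7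
    exact ⟨W.hA_fold C h1 h2 h3 h4 h5, h2, C.ev⟩
  have hspec : ∀ z, (PenS j w N b θ z ∧ hA N θ z = j - w ∧ lev z = j + 2 ∧
      hS j w N b θ z = j - w + 1) ∨
      (¬ PenS j w N b θ z ∧ (CEl j w N θ z ∧ j % 2 = 0) ∧ hA N θ z = j - w - 1 ∧
        lev z = j + 1 ∧ hS j w N b θ z = lev z - w) ∨ hS j w N b θ z = hA N θ z := by
    intro z
    by_cases h1 : PenS j w N b θ z
    · obtain ⟨a1, a2, a3⟩ := W.penS h1
      exact Or.inl ⟨h1, a1, a2, by rw [hS_of h1, a1]⟩
    · right
      by_cases h2 : CEl j w N θ z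
      · obtain ⟨a1, a2, a3⟩ := hCl z h2
        exact Or.inl ⟨h1, ⟨h2, a3⟩, a1, a2, by rw [hS_not h1, hC_of h2]⟩
      · exact Or.inr (by rw [hS_not h1, hC_not h2])
  have F' : FarV P w (unnat N \ twA N) (∑ t, b t)
      (hcan (unnat N \ twA N) (thX (twA N) (twT N) (fun x => θ (topOf x) x)))
      (∑ x ∈ (twA N).filter (fun x => tcS j w N b θ x = n0), TmS j w N b θ x) n0 := by
    rw [W.sum_b]
    exact F
  have key := farV_big (B := B) hB W.twSys n0 (j - w - 1) F' (fun x hx => W.twn hx) ?_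
    (hS j w N b θ) ?_ ?_ ?_ ?_
  · rw [W.sum_b] at key
    exact key
  · intro x hx
    have h1 := hcost x hx
    show n0 < tcst w (thA N θ) (twT N x, x) + (j - w - 1)
    by_cases hs : Spc j w N b θ (twT N x)
    · rw [W.tcS_spc hx hs] at h1
      omega
    · unfold tcS at h1
      rw [if_neg hs] at h1
      omega
  · intro z _
    show hA N θ z ≤ hS j w N b θ z
    rcases hspec z with ⟨-, h1, -, h2⟩ | ⟨-, -, h1, h3, h2⟩ | h1 <;> omega
  · intro z _ hlt
    have hlt' : hA N θ z < hS j w N b θ z := hlt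
    show j - w - 1 ≤ hA N θ z
    rcases hspec z with ⟨-, h1, -, h2⟩ | ⟨-, -, h1, h3, h2⟩ | h1 <;> omega
  · intro z hz
    have h0 : hA N θ z ≤ lev z - w := F.le_lev z hz
    rcases hspec z with ⟨-, h1, h3, h2⟩ | ⟨-, -, h1, h3, h2⟩ | h1 <;> omega
  · intro g g0 hg x z hx hz hzx hlt m hm
    have hzb : z ∈ bdR (unnat N \ twA N) := mem_bdR.mpr ⟨hz, x, hx, hzx⟩
    have hlt' : thA N θ x < g z := hlt
    have hle : hA N θ z ≤ thA N θ x + 1 := hcan_le hx hzx
    have hgz := hg z hzb
    have hcz := hbd z hzb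
    rw [cst_const w (hS j w N b θ) z] at hcz
    rcases hspec z with ⟨h0, h1, h3, h2⟩ | ⟨-, h0, h1, h3, h2⟩ | h1
    · rw [h2] at hcz hgz
      exact W.bigS (by omega) hz hzx h0 (by omega) hcz hm
    · rw [h2] at hcz hgz
      exact W.bigC (h12 h0.2) hw2 hz hzx h0.1 (by omega) hgz hcz hm
    · omega

end Pool.Agent.GaussPoset.Sm
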