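import Pool.Agent.W_448f4_h70.GN

/-!
# The windows `2`, `3` with the larger labels: the cheapest class has both signs
(MP_448cb3_co, S7)
-/

namespace Pool.Agent.GaussPoset.Sm

set_option linter.unusedSectionVars false

open Polynomial Finset

universe u

variable {P : Type u} [Fintype P] [PartialOrder P] [DecidableEq P] {r j w K0 K : ℕ}
  {N : Tops P → Finset P} {b : Tops P → ℕ} {θ : Tops P → P → ℕ} {XE XO : ℕ → Prop}

/-- existence of the minimal value -/
lemma exists_minS (hne : (bdR (rA N)).Nonempty) :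
    ∃ v, MnS j w N b θ v ∧ ((∃ z ∈ bdR (rA N), cst w (hS j w N b θ) z = v) ∨
      ∃ x ∈ twA N, tcS j w N b θ x = v) := by
  classical
  let A : Finset ℕ := (bdR (rA N)).image (cst w (hS j w N b θ)) ∪
    (twA N).image (fun x => tcS j w N b θ x)
  have hA : A.Nonempty := by
    obtain ⟨z, hz⟩ := hne
    exact ⟨_, mem_union_left _ (mem_image_of_mem _ hz)⟩
  refine ⟨A.min' hA, ⟨fun z hz => A.min'_le _ (mem_union_left _ (mem_image_of_mem _ hz)),
    fun x hx => A.min'_le _ (mem_union_right _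
      (mem_image_of_mem (fun x => tcS j w N b θ x) hx))⟩, ?_⟩
  have := A.min'_mem hA
  rcases mem_union.mp this with h | h
  · obtain ⟨z, hz, h⟩ := mem_image.mp h
    exact Or.inl ⟨z, hz, h⟩
  · obtain ⟨x, hx, h⟩ := mem_image.mp h
    exact Or.inr ⟨x, hx, h⟩

/-- **The cheapest class at window `w` has both signs.** -/
theorem Wk.bothS (W : Wk r j w K0 N b θ) (h7 : 7 ≤ j) (h12 : j % 2 = 0 → 12 ≤ j)
    (hw2 : 2 ≤ w)
    (L : LkS P j w K0 K N b θ XE XO) {v : ℕ}
    (hP : OnePen P j (fun t => 2 ≤ b t) ∨ v ≤ (j + 1 - w) ^ 2 + 5 * (j - w))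
    (M : MnS j w N b θ v) (hex : (∃ z ∈ bdR (rA N), cst w (hS j w N b θ) z = v) ∨
      ∃ x ∈ twA N, tcS j w N b θ x = v) (hcap : v ≤ K) :
    ((∃ z x x' : P, Cg z x x' ∧ Sok j x ∧ Sok j x' ∧ ful w z = v ∧
      Odd (nst w (fun z => lev z - w) z)) ∨ OdN j w v ∨ XO v) ∧
    ((∃ z x x' : P, Cg z x x' ∧ Sok j x ∧ Sok j x' ∧ ful w z = v ∧
      Even (nst w (fun z => lev z - w) z)) ∨ EvN j w v ∨ XE v) := by
  classical
  have H := W.gt.H
  have hj := W.hj
  have hw := W.hw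
  set T1 := (bdR (rA N)).filter (fun z => cst w (hS j w N b θ) z = v) with hT1
  set T2 := (twA N).filter (fun x => tcS j w N b θ x = v) with hT2
  have hout2' : ∀ x : P, ∃ l : ℕ, x ∈ T2 → TmS j w N b θ x = Lt w (fun _ => l) x ∧
      nab w x = nab (w + l) x + 1 ∧
      ((Even (nst w (fun _ => l) x) ∧ (EvN j w v ∨ XE v)) ∨
      (Odd (nst w (fun _ => l) x) ∧ (OdN j w v ∨ XO v))) := by
    intro x
    by_cases hx : x ∈ T2
    · have hx' := hx
      rw [hT2, mem_filter] at hx'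
      have h1 := (W.out_twS L hx'.1).resolve_left (by rw [hx'.2]; omega)
      rw [hx'.2] at h1
      obtain ⟨l, h2⟩ := h1
      exact ⟨l, fun _ => h2⟩
    · exact ⟨0, fun h => absurd h hx⟩
  choose lb hlb using hout2'
  -- labels on the whole class
  let hh : P → ℕ := fun z => if z ∈ twA N then lb z else hS j w N b θ z
  have hh1 : ∀ z ∈ twA N, hh z = lb z := fun z hz => if_pos hz
  have hh2 : ∀ z, z ∉ twA N → hh z = hS j w N b θ z := fun z hz => if_neg hz
  have hn1 : ∀ z ∈ T1, z ∉ twA N := by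
    intro z hz
    rw [hT1, mem_filter] at hz
    exact (mem_rA.mp (mem_bdR.mp hz.1).1).2
  have hm2 : ∀ z ∈ T2, z ∈ twA N := fun z hz => by
    rw [hT2, mem_filter] at hz
    exact hz.1
  have hdisj : Disjoint T1 T2 := by
    rw [Finset.disjoint_left]
    intro z hz hz'
    exact hn1 z hz (hm2 z hz')
  have hout1 : ∀ z ∈ T1, nab w z = nab (w + hh z) z + 1 ∧
      ((Even (nst w hh z) ∧ (EvN j w v ∨ XE v)) ∨ (Odd (nst w hh z) ∧ (OdN j w v ∨ XO v)) ∨
      (∃ x x', Cg z x x' ∧ Sok j x ∧ Sok j x') ∧ v = ful w z ∧ hh z = lev z - w) := by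
    intro z hz
    have hzt := hn1 z hz
    rw [hT1, mem_filter] at hz
    have h1 := W.outS hw2 L hP M hz.1 hz.2
    have h2 : nst w hh z = nst w (hS j w N b θ) z := by
      rw [nst_eq, nst_eq, hh2 z hzt]
    rw [h2, hh2 z hzt]
    exact h1.resolve_left (by omega)
  have hnst2 : ∀ x ∈ T2, nst w hh x = nst w (fun _ => lb x) x := fun x hx => by
    rw [nst_eq, nst_eq, hh1 x (hm2 x hx)]
  have hout2 : ∀ x ∈ T2, nab w x = nab (w + hh x) x + 1 ∧
      ((Even (nst w hh x) ∧ (EvN j w v ∨ XE v)) ∨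
      (Odd (nst w hh x) ∧ (OdN j w v ∨ XO v))) := by
    intro x hx
    have h1 := (hlb x hx).2
    rw [hnst2 x hx, hh1 x (hm2 x hx)]
    exact h1
  -- the exact far window theorem
  have F := W.farS h7 h12 hw2 v M.tw M.bd
  have hd := F.lead M.bd
  have hZ := dvd_Z H.gauss w v
  have hsum2 : ∑ x ∈ (twA N).filter (fun x => tcS j w N b θ x = v), TmS j w N b θ x =
      ∑ x ∈ T2, Lt w hh x := by
    refine Finset.sum_congr rfl fun x hx => ?_
    rw [(hlb x hx).1]
    unfold Lt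
    rw [hnst2 x hx, hh1 x (hm2 x hx)]
  have hsum1 : ∑ z ∈ (bdR (rA N)).filter (fun z => cst w (hS j w N b θ) z = v),
      Lt w (hS j w N b θ) z = ∑ z ∈ T1, Lt w hh z := by
    refine Finset.sum_congr rfl fun z hz => ?_
    unfold Lt
    rw [nst_eq, nst_eq, hh2 z (hn1 z hz)]
  rw [hsum2, hsum1, ← Finset.sum_union hdisj] at hd
  have hdrop : ∀ z ∈ T1 ∪ T2, nab w z = nab (w + hh z) z + 1 := by
    intro z hz
    rcases mem_union.mp hz with h | h
    · exact (hout1 z h).1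
    · exact (hout2 z h).1
  have hTne : (T1 ∪ T2).Nonempty := by
    rcases hex with ⟨z, hz, h⟩ | ⟨x, hx, h⟩
    · exact ⟨z, mem_union_left _ (mem_filter.mpr ⟨hz, h⟩)⟩
    · exact ⟨x, mem_union_right _ (mem_filter.mpr ⟨hx, h⟩)⟩
  have hcard : 1 ≤ (lv P w).card := by
    obtain ⟨z, hz⟩ := hTne
    have h1 := hdrop z hz
    have h2 := nab_le z w
    omega
  have hs := sign_sum_of_dvd (T1 ∪ T2) hZ hd (c0 := (lv P w).card - 1) (by omega) (by
    intro z hz
    have := hdrop z hz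
    omega)
  rw [Finset.filter_true_of_mem (fun z hz => by
    have := hdrop z hz
    omega)] at hs
  obtain ⟨⟨z1, hz1, he⟩, z2, hz2, ho⟩ := both_signs _ _ hs hTne
  have hcls : ∀ z ∈ T1 ∪ T2, (Even (nst w hh z) ∧ (EvN j w v ∨ XE v)) ∨
      (Odd (nst w hh z) ∧ (OdN j w v ∨ XO v)) ∨
      (∃ x x', Cg z x x' ∧ Sok j x ∧ Sok j x') ∧ v = ful w z ∧
        nst w hh z = nst w (fun z => lev z - w) z := by
    intro z hz
    rcases mem_union.mp hz with h | h
    · rcases (hout1 z h).2 with h1 | h1 | h1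
      · exact Or.inl h1
      · exact Or.inr (Or.inl h1)
      · refine Or.inr (Or.inr ⟨h1.1, h1.2.1, ?_⟩)
        rw [nst_eq, nst_eq, h1.2.2]
    · rcases (hout2 z h).2 with h1 | h1
      · exact Or.inl h1
      · exact Or.inr (Or.inl h1)
  constructor
  · rcases hcls z2 hz2 with h | h | ⟨⟨x, x', h, s1, s2⟩, h1, h2⟩
    · exact absurd h.1 (Nat.not_even_iff_odd.mpr ho)
    · exact Or.inr h.2
    · rw [h2] at ho
      exact Or.inl ⟨z2, x, x', h, s1, s2, h1.symm, ho⟩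
  · rcases hcls z1 hz1 with h | h | ⟨⟨x, x', h, s1, s2⟩, h1, h2⟩
    · exact Or.inr h.2
    · exact absurd h.1 (Nat.not_odd_iff_even.mpr he)
    · rw [h2] at he
      exact Or.inl ⟨z1, x, x', h, s1, s2, h1.symm, he⟩

end Pool.Agent.GaussPoset.Sm
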