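import Pool.Agent.W_448f4_h70.GP

/-!
# The windows `2`, `3` with the larger labels: outcomes with general noise (MP_448cb3_co, S7)
-/

namespace Pool.Agent.GaussPoset.Sm

set_option linter.unusedSectionVars false

open Polynomial Finset

universe u

variable {P : Type u} [Fintype P] [PartialOrder P] [DecidableEq P] {r j w K0 K : ℕ}
  {N : Tops P → Finset P} {b : Tops P → ℕ} {θ : Tops P → P → ℕ} {XE XO YE YO : ℕ → Prop}

/-- the outcomes for a cheapest element `z` with the label `h z` and the cost `v`, with general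
noise -/
def OutG (j w K : ℕ) (YE YO : ℕ → Prop) (h : P → ℕ) (z : P) (v : ℕ) : Prop :=
  K < v ∨ (nab w z = nab (w + h z) z + 1 ∧
    ((Even (nst w h z) ∧ YE v) ∨ (Odd (nst w h z) ∧ YO v) ∨
      (∃ x x', Cg z x x' ∧ Sok j x ∧ Sok j x') ∧ v = ful w z ∧ h z = lev z - w))

/-- the outcomes of a twin, with general noise -/
def OutTG (j w K : ℕ) (YE YO : ℕ → Prop) (N : Tops P → Finset P) (b : Tops P → ℕ)
    (θ : Tops P → P → ℕ) (x : P) : Prop :=
  K < tcS j w N b θ x ∨ ∃ L, TmS j w N b θ x = Lt w (fun _ => L) x ∧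
    nab w x = nab (w + L) x + 1 ∧
    ((Even (nst w (fun _ => L) x) ∧ YE (tcS j w N b θ x)) ∨
      (Odd (nst w (fun _ => L) x) ∧ YO (tcS j w N b θ x)))

lemma OutG.mono {h : P → ℕ} {z : P} {v : ℕ} (H : OutG j w K XE XO h z v) (h1 : XE v → YE v)
    (h2 : XO v → YO v) : OutG j w K YE YO h z v := by
  rcases H with H | ⟨h3, H | H | H⟩
  · exact Or.inl H
  · exact Or.inr ⟨h3, Or.inl ⟨H.1, h1 H.2⟩⟩
  · exact Or.inr ⟨h3, Or.inr (Or.inl ⟨H.1, h2 H.2⟩)⟩
  · exact Or.inr ⟨h3, Or.inr (Or.inr H)⟩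

lemma OutG.toK {h : P → ℕ} {z : P} {v : ℕ} (H : OutG j w K XE XO h z v) :
    OutK j w K XE XO h z v :=
  H.mono (YE := fun v => EvN j w v ∨ XE v) (YO := fun v => OdN j w v ∨ XO v) Or.inr Or.inr

lemma OutK.toG {h : P → ℕ} {z : P} {v : ℕ} (H : OutK j w K XE XO h z v) :
    OutG j w K (fun v => EvN j w v ∨ XE v) (fun v => OdN j w v ∨ XO v) h z v := H

lemma OutTG.toT {x : P} (H : OutTG j w K XE XO N b θ x) : OutT j w K XE XO N b θ x := by
  rcases H with H | ⟨L, h1, h2, H | H⟩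
  · exact Or.inl H
  · exact Or.inr ⟨L, h1, h2, Or.inl ⟨H.1, Or.inr H.2⟩⟩
  · exact Or.inr ⟨L, h1, h2, Or.inr ⟨H.1, Or.inr H.2⟩⟩

lemma OutTG.mono {x : P} (H : OutTG j w K XE XO N b θ x)
    (h1 : XE (tcS j w N b θ x) → YE (tcS j w N b θ x))
    (h2 : XO (tcS j w N b θ x) → YO (tcS j w N b θ x)) : OutTG j w K YE YO N b θ x := by
  rcases H with H | ⟨L, h3, h4, H | H⟩
  · exact Or.inl H
  · exact Or.inr ⟨L, h3, h4, Or.inl ⟨H.1, h1 H.2⟩⟩
  · exact Or.inr ⟨L, h3, h4, Or.inr ⟨H.1, h2 H.2⟩⟩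

lemma outG_congr {h h' : P → ℕ} {z : P} {v : ℕ} (e : h z = h' z)
    (H : OutG j w K XE XO h z v) : OutG j w K XE XO h' z v := by
  unfold OutG at H ⊢
  rw [nst_eq, e] at H
  rw [nst_eq]
  exact H

end Pool.Agent.GaussPoset.Sm
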