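import Pool.Agent.W_448f4_h70.GPa
import Pool.Agent.W_448pg_h74.WrA

/-!
# The windows `2`, `3` with the larger labels: cheap cells (MP_448cb3_co, S7)
-/

namespace Pool.Agent.GaussPoset.Sm

set_option linter.unusedSectionVars false

open Polynomial Finset

universe u

variable {P : Type u} [Fintype P] [PartialOrder P] [DecidableEq P] {r j w K0 K : ℕ}
  {N : Tops P → Finset P} {b : Tops P → ℕ} {θ : Tops P → P → ℕ} {XE XO : ℕ → Prop}

/-- an admissible value `u` of parity `n` -/
def Okv (K : ℕ) (XE XO : ℕ → Prop) (n u : ℕ) : Prop :=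
  K < u ∨ (Even n ∧ XE u) ∨ (Odd n ∧ XO u)

/-- the cost of a pendant below `x` -/
noncomputable def C1 (w : ℕ) (θ : Tops P → P → ℕ) (x : P) : ℕ :=
  cst w (fun _ => θ (topOf x) x + 1) x + (θ (topOf x) x + 1)

/-- cheap deep cells -/
structure Cheap (w K : ℕ) (XE XO : ℕ → Prop) (θ : Tops P → P → ℕ) (x : P) : Prop where
  th : θ (topOf x) x + 1 < lev x - w
  drop : nab w x = nab (w + (θ (topOf x) x + 1)) x + 1
  pen : Okv K XE XO (nst w (fun _ => θ (topOf x) x + 1) x) (C1 w θ x)
  twn : Okv K XE XO (nst w (fun _ => θ (topOf x) x + 1) x) (C1 w θ x - 1)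
  two : K < C1 w θ x + (θ (topOf x) x + 1)

/-- the numerical conditions at a special cell -/
structure SpOK (j w K : ℕ) (XE XO : ℕ → Prop) (θ : Tops P → P → ℕ) (x : P) : Prop where
  pen : Okv K XE XO (nst w (fun _ => j - w + 1) x) (cst w (fun _ => j - w + 1) x + (j - w + 1))
  twn : Okv K XE XO (nst w (fun _ => j - w + 1) x) (cst w (fun _ => j - w + 1) x + (j - w))
  two : K < C1 w θ x + (j - w)

/-- the classification of the deep cells -/
def CellsS (P : Type u) [Fintype P] [PartialOrder P] [DecidableEq P] (j w K0 K : ℕ)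
    (N : Tops P → Finset P) (b : Tops P → ℕ) (θ : Tops P → P → ℕ) (XE XO : ℕ → Prop) : Prop :=
  ∀ x : P, x ∉ unnat N → j + 1 ≤ lev x → Dk j w K0 N θ x →
    K + 1 < C1 w θ x ∨ Cheap w K XE XO θ x ∨ (Spc j w N b θ x ∧ SpOK j w K XE XO θ x)

/-- ancestors of a special cell -/
lemma SpcC.nab {x : P} {Nc : Finset P} {co : P → ℕ × ℕ} (C : SpcC j w N b θ x Nc co)
    (hj : 1 ≤ j) {k : ℕ} (hk : k ≤ j + 1) :
    Pool.Agent.GaussPoset.nab k x + (k - (j - 1)) = min (k / 2) 2 + 1 := by
  have hl := C.lev hj
  have := stair_nab C.nat.chart C.mem (k := k) (by omega)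
  rw [C.co_eq] at this
  exact this

/-- cheap cells are not special -/
lemma Cheap.not_spc {x : P} (h : Cheap w K XE XO θ x) (hw1 : 2 ≤ w) (hw3 : w ≤ 3) (hj : 6 ≤ j) :
    ¬ Spc j w N b θ x := by
  rintro ⟨Nc, co, C⟩
  have h1 := h.drop
  have h2 := C.th
  have h3 := C.nab (by omega) (k := w) (by omega)
  have h4 := C.nab (by omega) (k := w + (θ (topOf x) x + 1)) (by omega)
  have h5 : w + (θ (topOf x) x + 1) = j := by omega
  rw [h5] at h1 h4
  omega

/-- the cost of an element with two covers -/
lemma cst_two {h : ℕ} {z x y : P} (H : GradedBelow P) (hzx : z ⋖ x) (hzy : z ⋖ y) (hne : x ≠ y)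
    (hh : h ≤ lev x - w) (hw : w ≤ lev x) :
    cst w (fun _ => h) x + h + h ≤ cst w (fun _ => h) z := by
  classical
  have e1 := H.lev_covBy hzx
  have e2 := H.lev_covBy hzy
  obtain ⟨a, ha⟩ : ∃ a, lev x = w + a := ⟨lev x - w, by omega⟩
  rw [cst_shift (i := w) (h := fun _ => h) ha, cst_shift (i := w) (h := fun _ => h) (a := a + 1)
    (by omega), Finset.sum_range_succ, Finset.sum_range_succ _ (a + 1),
    Finset.sum_range_succ _ a]
  have h2 : 2 ≤ nab (w + a) z := by
    unfold nab
    have : ({x, y} : Finset P) ⊆ (lv P (w + a)).filter (fun u => z ≤ u) := by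
      intro u hu
      rw [mem_insert, mem_singleton] at hu
      rw [mem_filter, mem_lv]
      rcases hu with rfl | rfl
      · exact ⟨ha, hzx.1.le⟩
      · exact ⟨by omega, hzy.1.le⟩
    have h3 := Finset.card_le_card this
    rw [Finset.card_pair hne] at h3
    convert h3
  have h3 : nab (w + a) x = 1 := by
    rw [← ha]; exact nab_self
  have h4 : nab (w + (a + 1)) z = 1 := by
    rw [show w + (a + 1) = lev z by omega]; exact nab_self
  have h5 : ∑ n ∈ range a, min h n * nab (w + n) x ≤ ∑ n ∈ range a, min h n * nab (w + n) z :=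
    Finset.sum_le_sum fun n _ => Nat.mul_le_mul_left _ (nab_mono hzx.1.le)
  have h6 : h ≤ a := by omega
  rw [h3, h4, Nat.min_eq_left h6, Nat.min_eq_left (by omega : h ≤ a + 1)]
  have h7 : h * 2 ≤ h * nab (w + a) z := Nat.mul_le_mul_left _ h2
  omega

/-- values of `nst` below a natural element -/
lemma nst_bs {L : ℕ} {g : P → ℕ} {z x y : P} (hg : g z = L)
    (hn : ∀ k, nab k y = nab k x ∨ lev x ≤ k) (hL : w + L ≤ lev x)
    (hz : ∀ k, k < lev x → nab k z = nab k x) :
    nst w g z = nst w (fun _ => L) y := by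
  rw [nst_eq, nst_eq, hg]
  refine Finset.sum_congr rfl fun k hk => ?_
  rw [mem_range] at hk
  rw [hz _ (by omega)]
  rcases hn (w + k) with h1 | h1
  · exact h1.symm
  · omega

/-- the outcome of an admissible value -/
lemma Okv.out {n u : ℕ} (h : Okv K XE XO n u) {g : P → ℕ} {z : P}
    (hn : nst w g z = n) (hd : nab w z = nab (w + g z) z + 1) : OutG j w K XE XO g z u := by
  rcases h with h | h | h
  · exact Or.inl h
  · exact Or.inr ⟨hd, Or.inl ⟨by rw [hn]; exact h.1, h.2⟩⟩
  · exact Or.inr ⟨hd, Or.inr (Or.inl ⟨by rw [hn]; exact h.1, h.2⟩)⟩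

/-- an element below a deep cell has a deep cover which defines its label -/
lemma Wk.deep_min (W : Wk r j w K0 N b θ) {z : P} (hz : z ∈ bdR (rA N)) {x : P}
    (hx : x ∉ rA N) (hzx : z ⋖ x) (hlx : j + 1 ≤ lev x)
    (hD : Dk j w K0 N θ (GaussPoset.bs N x)) :
    ∃ x1, x1 ∉ rA N ∧ z ⋖ x1 ∧ Dk j w K0 N θ (GaussPoset.bs N x1) ∧
      hA N θ z = θ (topOf (GaussPoset.bs N x1)) (GaussPoset.bs N x1) + 1 := by
  have H := W.gt.H.gradedBelow
  by_cases he : hA N θ z = θ (topOf (GaussPoset.bs N x)) (GaussPoset.bs N x) + 1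
  · exact ⟨x, hx, hzx, hD, he⟩
  · obtain ⟨x0, g1, g2, g3⟩ := W.hA_spec hz
    refine ⟨x0, g1, g2, ?_, g3⟩
    have g4 := W.hA_le hx hzx
    have g5 := hD.th
    have g6 := W.bs hx
    have g7 := W.bs g1
    have e1 := H.lev_covBy hzx
    have e2 := H.lev_covBy g2
    have e3 := g6.lev
    have e4 := g7.lev
    have hj := W.hj
    have hw := W.hw
    rcases W.cases g7.nat (by omega) with h | h | h
    · have := h.th
      omega
    · have := h.th
      omega
    · exact h

/-- **elements below a deep cell of level at least `j + 1`** -/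
theorem Wk.dp_cells (W : Wk r j w K0 N b θ) (hw2 : 2 ≤ w) (hj6 : 6 ≤ j)
    (hC : CellsS P j w K0 K N b θ XE XO) {v : ℕ} {z x : P} (hz : z ∈ bdR (rA N))
    (hc : cst w (hS j w N b θ) z = v) (hx : x ∉ rA N) (hzx : z ⋖ x) (hlx : j + 1 ≤ lev x)
    (hD : Dk j w K0 N θ (GaussPoset.bs N x)) : OutG j w K XE XO (hS j w N b θ) z v := by
  classical
  have H := W.gt.H.gradedBelow
  have hj := W.hj
  have hw := W.hw
  obtain ⟨x1, h1, h2, h3, h4⟩ := W.deep_min hz hx hzx hlx hD
  have g7 := W.bs h1
  have e1 := H.lev_covBy hzx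
  have e2 := H.lev_covBy h2
  have e4 := g7.lev
  have hth := h3.th
  have hcells := hC _ g7.nat (by omega) h3
  have hcg : ∀ L, cst w (fun _ => L) (GaussPoset.bs N x1) = cst w (fun _ => L) x1 := fun L =>
    cst_const_congr g7.lev g7.nab
  by_cases hp : PenS j w N b θ z
  · -- below a special cell
    obtain ⟨p1, p2, p3⟩ := W.penS hp
    obtain ⟨-, x2, q1, q2, q3, q4⟩ := hp
    have hpS : PenS j w N b θ z := ⟨(mem_bdR.mp hz).1, x2, q1, q2, q3, q4⟩
    have hx12 := q3 x1 h2
    subst hx12
    have hS1 := hS_of hpS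
    have hv : v = cst w (fun _ => j - w + 1) (GaussPoset.bs N x1) + (j - w + 1) := by
      rw [← hc, cst_const, hS1, p1, cst_only (h := fun _ => j - w + 1) H h2 q3, hcg,
        Nat.min_eq_left (by omega)]
    rcases hcells with h | h | ⟨-, h⟩
    · left
      rw [hv]
      unfold C1 at h
      have h5 : θ (topOf (GaussPoset.bs N x1)) (GaussPoset.bs N x1) + 1 = j - w := by omega
      rw [h5] at h
      have h6 : cst w (fun _ => j - w) (GaussPoset.bs N x1) ≤
          cst w (fun _ => j - w + 1) (GaussPoset.bs N x1) := by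
        unfold cst ez
        refine Finset.sum_le_sum fun y _ => ?_
        split_ifs
        · simp only
          omega
        · exact le_rfl
      omega
    · exact absurd q4 (h.not_spc hw2 hw hj6)
    · rw [hv]
      refine h.pen.out ?_ ?_
      · refine nst_bs (by rw [hS1, p1]) g7.nab (by omega) fun k hk => ?_
        exact nab_only q3 h2 (by omega)
      · obtain ⟨Nc, co, C⟩ := q4
        have a1 := C.nab (by omega) (k := w) (by omega)
        rw [hS1, p1, nab_only q3 h2 (by omega), nab_only q3 h2 (by omega),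
          show w + (j - w + 1) = lev x1 by omega, nab_self]
        rcases g7.nab w with h6 | h6
        · omega
        · omega
  · -- the canonical label
    have hnc : ¬ CEl j w N θ z := by
      rintro ⟨-, h, -⟩
      omega
    have hS1 : hS j w N b θ z = θ (topOf (GaussPoset.bs N x1)) (GaussPoset.bs N x1) + 1 := by
      rw [hS_not hp, hC_not hnc, h4]
    by_cases honly : ∀ y, z ⋖ y → y = x1
    · have hns : ¬ Spc j w N b θ (GaussPoset.bs N x1) := fun hs =>
        hp ⟨(mem_bdR.mp hz).1, x1, h1, h2, honly, hs⟩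
      have hv : v = C1 w θ (GaussPoset.bs N x1) := by
        unfold C1
        rw [← hc, cst_const, hS1, cst_only (h := fun _ =>
          θ (topOf (GaussPoset.bs N x1)) (GaussPoset.bs N x1) + 1) H h2 honly, hcg,
          Nat.min_eq_left (by omega)]
      rcases hcells with h | h | ⟨h, -⟩
      · left
        omega
      · rw [hv]
        refine h.pen.out ?_ ?_
        · refine nst_bs hS1 g7.nab (by omega) fun k hk => ?_
          exact nab_only honly h2 (by omega)
        · have a1 := h.drop
          have a2 := h.th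
          rw [hS1, nab_only honly h2 (by omega), nab_only honly h2 (by omega)]
          rcases g7.nab w with h6 | h6
          · rcases g7.nab (w + (θ (topOf (GaussPoset.bs N x1)) (GaussPoset.bs N x1) + 1)) with
              h7 | h7
            · omega
            · omega
          · omega
      · exact absurd h hns
    · push Not at honly
      obtain ⟨y, hy, hne⟩ := honly
      left
      have h5 := cst_two (w := w)
        (h := θ (topOf (GaussPoset.bs N x1)) (GaussPoset.bs N x1) + 1) H h2 hy (Ne.symm hne)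
        (by omega) (by omega)
      have h6 : C1 w θ (GaussPoset.bs N x1) +
          (θ (topOf (GaussPoset.bs N x1)) (GaussPoset.bs N x1) + 1) ≤ v := by
        rw [← hc, cst_const, hS1]
        unfold C1
        rw [hcg]
        exact h5
      rcases hcells with h | h | ⟨hs, h⟩
      · omega
      · have := h.two
        omega
      · have a1 := h.two
        obtain ⟨Nc, co, C⟩ := hs
        have a2 := C.th
        omega

/-- **the twins of deep cells** -/
theorem Wk.dt_cells (W : Wk r j w K0 N b θ) (hw2 : 2 ≤ w) (hj6 : 6 ≤ j)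
    (hC : CellsS P j w K0 K N b θ XE XO) {x : P} (hx : x ∈ twA N)
    (hD : Dk j w K0 N θ (twT N x)) : OutTG j w K XE XO N b θ x := by
  classical
  have H := W.gt.H.gradedBelow
  have hj := W.hj
  have hw := W.hw
  have hl := (W.tw_cases hx).1
  have T := W.twn hx
  have hup := W.twSys.up x hx
  have hll : lev (twT N x) = lev x := lev_eq_of_up hup
  have hnb : ∀ k, k < lev x → nab k (twT N x) = nab k x := fun k hk => nab_congr_up hup hk
  have hth := hD.th
  have hnat := W.twSys.nat x hx
  have e1 : thA N θ (twT N x) = θ (topOf (twT N x)) (twT N x) := W.thA_nat hnat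
  have hlv : j + 1 ≤ lev (twT N x) := by
    have := W.lt_lev (mem_twA.mp hx).1
    omega
  have e2 : tcst w (thA N θ) (twT N x, x) = C1 w θ (twT N x) - 1 := by
    rw [tcst_cst T]
    unfold C1
    simp only
    rw [e1]
    omega
  by_cases hs : Spc j w N b θ (twT N x)
  · have h1 : tcS j w N b θ x = tcst w (thA N θ) (twT N x, x) + 2 := W.tcS_spc hx hs
    have T' := W.twnS hx hs
    rcases hC _ hnat hlv hD with h | h | ⟨-, h⟩
    · left
      omega
    · exact absurd hs (h.not_spc hw2 hw hj6)
    · have h2 : tcS j w N b θ x = cst w (fun _ => j - w + 1) (twT N x) + (j - w) := by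
        unfold tcS
        rw [if_pos hs, tcst_cst T']
      have h3 : TmS j w N b θ x = Lt w (fun _ => j - w + 1) x := by
        unfold TmS
        rw [if_pos hs, Tm_gen H T']
      obtain ⟨Nc, co, C⟩ := hs
      have hlC := C.lev (by omega)
      have a1 := C.nab (by omega) (k := w) (by omega)
      have hn : nst w (fun _ => j - w + 1) x = nst w (fun _ => j - w + 1) (twT N x) := by
        rw [nst_eq, nst_eq]
        refine Finset.sum_congr rfl fun k hk => ?_
        rw [mem_range] at hk
        exact (hnb _ (by omega)).symm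
      rcases h.twn with h4 | h4 | h4
      · left
        omega
      · right
        refine ⟨j - w + 1, h3, ?_, Or.inl ⟨by rw [hn]; exact h4.1, by rw [h2]; exact h4.2⟩⟩
        rw [← hnb w (by omega), show w + (j - w + 1) = lev x by omega, nab_self]
        omega
      · right
        refine ⟨j - w + 1, h3, ?_, Or.inr ⟨by rw [hn]; exact h4.1, by rw [h2]; exact h4.2⟩⟩
        rw [← hnb w (by omega), show w + (j - w + 1) = lev x by omega, nab_self]
        omega
  · have h2 : tcS j w N b θ x = C1 w θ (twT N x) - 1 := by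
      unfold tcS
      rw [if_neg hs, e2]
    rcases hC _ hnat hlv hD with h | h | ⟨h, -⟩
    · left
      omega
    · have h3 : TmS j w N b θ x = Lt w (fun _ => θ (topOf (twT N x)) (twT N x) + 1) x := by
        unfold TmS
        rw [if_neg hs, Tm_gen H T]
        simp only
        rw [e1]
      have a1 := h.drop
      have a2 := h.th
      have hn : nst w (fun _ => θ (topOf (twT N x)) (twT N x) + 1) x =
          nst w (fun _ => θ (topOf (twT N x)) (twT N x) + 1) (twT N x) := by
        rw [nst_eq, nst_eq]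
        refine Finset.sum_congr rfl fun k hk => ?_
        rw [mem_range] at hk
        exact (hnb _ (by omega)).symm
      rcases h.twn with h4 | h4 | h4
      · left
        omega
      · right
        refine ⟨_, h3, ?_, Or.inl ⟨by rw [hn]; exact h4.1, by rw [h2]; exact h4.2⟩⟩
        rw [← hnb w (by omega), ← hnb (w + (θ (topOf (twT N x)) (twT N x) + 1)) (by omega)]
        exact a1
      · right
        refine ⟨_, h3, ?_, Or.inr ⟨by rw [hn]; exact h4.1, by rw [h2]; exact h4.2⟩⟩
        rw [← hnb w (by omega), ← hnb (w + (θ (topOf (twT N x)) (twT N x) + 1)) (by omega)]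
        exact a1
    · exact absurd h hs

end Pool.Agent.GaussPoset.Sm
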