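import Pool.Agent.W_448f4_h70.GU
import Pool.Agent.W_448s8f_h76.FkC

/-!
# The balances at the windows `2`, `3` with the larger labels (MP_448cb3_co, S7)
-/

namespace Pool.Agent.GaussPoset.Sm

set_option linter.unusedSectionVars false

open Polynomial Finset W4 Cp

universe u

variable {P : Type u} [Fintype P] [PartialOrder P] [DecidableEq P] {r j w : ℕ}
  {lo hi : Tops P → ℕ → ℕ} {e : Tops P → ℕ → ℕ → P}

/-- the inputs of the windows `2`, `3` with larger labels, at level `j + 1` -/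
structure InS (P : Type u) [Fintype P] [PartialOrder P] [DecidableEq P] (j w K : ℕ)
    (XE XO : ℕ → Prop) : Prop where
  hfl : j % 2 = 1 → K < flC w j ∨ NoFlip P j
  hcc : j % 2 = 0 → NoCC P j ∨ Okv K XE XO (ccN w j) (ccC w j)
  hFo : j % 2 = 0 → ∀ z x x' : P, FJn j z x x' → K < cst w (fun _ => j - w - 1) z
  hfv : j % 2 = 0 → Okv K XE XO (foN w j) (foC w j)

/-- the inputs at window `w` for the larger labels -/
theorem Wk.lkN {K0 K : ℕ} {N : Tops P → Finset P} {b : Tops P → ℕ} {θ : Tops P → P → ℕ}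
    {XE XO : ℕ → Prop} (W : Wk r j w K0 N b θ) (hw2 : 2 ≤ w) (h10 : 10 ≤ j)
    (hK : 2 * K < 3 * (j + 1 - w) ^ 2 + 3 * (j + 1 - w)) (hu : Unq P w b)
    (I : InS P j w K XE XO) (C : CellsN P j w K0 K N b θ XE XO) :
    LkS P j w K0 K N b θ XE XO where
  hK := hK
  unq := hu
  nsk := fun z x x' h hl hn hns => by
    have hw := W.hw
    exact (nsk23' h10 (by omega) hn hns).elim
  dj := fun v z x _ hz hc hl hzx hD =>
    (W.dj_S hw2 (by omega) I.hfl I.hcc I.hFo I.hfv hz hc hl hzx hD).toK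
  dp := fun v z x _ hz hc hx hzx hl hD hR => (W.dp_cellsN hw2 (by omega) C hz hc hx hzx hl hD hR).toK
  dt := fun x hx hD hR => (W.dt_cellsN hw2 (by omega) C hx hD hR).toT

/-- **the balance at the windows `2`, `3` with the larger labels** -/
theorem Ctx.winN (K : Ctx P r j lo hi e) (hF : NoFo P j) (h10 : 10 ≤ j)
    (h12 : j % 2 = 0 → 12 ≤ j)
    (hwj : w = 2 ∨ (w = 3 ∧ 11 ≤ j)) {c0 cT : ℕ}
    {LE LO : List ℤ} {lb : ℤ} {E : List (ℕ × ℕ × ℕ)} (hE : ChkE j E) (h0 : (0, 0, 0) ∈ E)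
    (hb : j % 2 = 1 → ∀ s ∈ E, (s.1 : ℤ) * ((j : ℤ) - w) - s.2.1 ≤ 5 * ((j : ℤ) - w))
    (c1 : ∀ a ∈ Finset.Icc 2 ((j + 1) / 2), (j + 1 - w) ^ 2 + c0 + 1 < stC w (j + 1) a)
    (c2 : ∀ a ∈ Finset.Icc 2 (j - 1), (j + 1 - w) ^ 2 + c0 + 1 < reC w (j + 1) a)
    (hc : c0 ≤ cT)
    (hcell : ∀ (N : Tops P → Finset P) (b : Tops P → ℕ) (θ : Tops P → P → ℕ),
      Wk r j w ((j + 1 - w) ^ 2 + c0) N b θ →
      CellsN P j w ((j + 1 - w) ^ 2 + c0) ((j + 1 - w) ^ 2 + cT) N b θ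
        (XL (j + 1 - w) LE) (XL (j + 1 - w) LO))
    (I : InS P j w ((j + 1 - w) ^ 2 + cT) (XL (j + 1 - w) LE) (XL (j + 1 - w) LO))
    (c6 : 2 * ((j + 1 - w) ^ 2 + cT) < 3 * (j + 1 - w) ^ 2 + 3 * (j + 1 - w))
    (c7 : cT < 7 * (j + 1 - w) + 10)
    (hl0 : lb ≤ 0) (hlE : ∀ x ∈ LE, lb ≤ x) (hlO : ∀ x ∈ LO, lb ≤ x)
    (hJ : ∃ z : P, Hul.Jn z) :
    ∃ V, WinB P j w cT (fun V => LO.elem V) (fun V => nz ((j + 1 - w : ℕ) : ℤ) V || LE.elem V)
      lb V := by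
  have H := K.gt.H
  have h16 := K.h16
  have hw : w = 2 ∨ w = 3 := by omega
  have hsh : ∀ t : Tops P, lo t w = hi t w ∨ RectShape j (lo t) (hi t) ∨
      StairShape j (lo t) (hi t) ∨ StairShape j (fun k => k - hi t k) (fun k => k - lo t k) := by
    intro t
    rcases shape_cases (K.comp t) (by omega) (K.shape t) with h | h | ⟨a, h, h3⟩
    · exact Or.inl (h w (by omega))
    · exact Or.inr (by tauto)
    · left
      have h4 := h.lt (h3 (by omega)) hwj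
      rw [(h.low w (by omega)).1, (h.low w (by omega)).2]
  obtain ⟨N, θ, t1, t2, hs, hu⟩ := K.types (w := w) (by omega) hsh
  have W : Wk r j w ((j + 1 - w) ^ 2 + c0) N (fun t => hi t w - lo t w + 1) θ :=
    { gt := K.gt, hj := by omega, hw1 := by omega, hw := by omega, typ := t1, top := t2
      sum_b := hs
      hK := by omega
      rdeep := fun C _ hx _ h1 h2 h3 h4 => rdeep_of (by omega) (by omega) c2 C hx h1 h2 h3 h4
      sdeep := fun _ _ _ _ C _ hx _ h1 h3 h4 => sdeep_of (by omega) (by omega) c1 C hx h1 h3 h4 }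
  have L := W.lkN (by omega) h10 c6 hu I (hcell _ _ _ W)
  have hlow : ∀ z x x' : P, Cg z x x' → Sok j x → Sok j x' → j + 1 ≤ lev z →
      ∀ k, k < w → nab k z = 2 := by
    intro z x x' h hs hs' hl k hk
    rw [h.sum H (by omega), K.low_one' hF h10 hwj h hs hk, K.low_one' hF h10 hwj h.symm hs' hk]
  have hpen : OnePen P j (fun t => 2 ≤ hi t w - lo t w + 1) ∨ ∃ z : P, Hul.Jn z ∧
      ful w z ≤ (j + 1 - w) ^ 2 + 5 * (j - w) := by
    rcases K.pen_or with h | ⟨hodd, z, x, x', h1, h2, h3, h4⟩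
    · left
      intro e e' p p' hB
      refine h e e' p p' ?_
      rcases shape_cases (K.comp (topOf e)) (by omega) (K.shape (topOf e)) with h | h | ⟨a, h, h3⟩
      · have := h w (by omega)
        omega
      · exact h
      · have h4 := h.lt (h3 (by omega)) hwj
        have e1 := h.low w (by omega)
        omega
    · right
      have hs : Sok j x := ⟨fun hf => by
        have := hf.1
        have := (h1.lev_eq H).1
        omega, fun _ hf => by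
        have := hf.2.1
        omega⟩
      have hs' : Sok j x' := ⟨fun hf => by
        have := hf.1
        have := (h1.lev_eq H).2
        omega, fun _ hf => by
        have := hf.2.1
        omega⟩
      exact ⟨z, h1.jn, K.cheap (by omega) hodd hE h0 (hb hodd) h1 h2 h3 h4
        (hlow z x x' h1 hs hs' h2.ge)⟩
  obtain ⟨v, -, h⟩ := W.winBS (by omega) h12 (by omega) L h16 (cT := (cT : ℤ)) (lb := lb)
    (by push_cast; ring) (by exact_mod_cast c7) hl0 hlE hlO hlow hpen hJ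
  exact ⟨_, h⟩

/-- **the balance at the windows `2`, `3` with the larger labels** -/
theorem Ctx.winS (K : Ctx P r j lo hi e) (hF : NoFo P j) (h10 : 10 ≤ j)
    (h12 : j % 2 = 0 → 12 ≤ j)
    (hwj : w = 2 ∨ (w = 3 ∧ 11 ≤ j)) {c0 cT : ℕ}
    {LE LO : List ℤ} {lb : ℤ} {E : List (ℕ × ℕ × ℕ)} (hE : ChkE j E) (h0 : (0, 0, 0) ∈ E)
    (hb : j % 2 = 1 → ∀ s ∈ E, (s.1 : ℤ) * ((j : ℤ) - w) - s.2.1 ≤ 5 * ((j : ℤ) - w))
    (c1 : ∀ a ∈ Finset.Icc 2 ((j + 1) / 2), (j + 1 - w) ^ 2 + c0 + 1 < stC w (j + 1) a)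
    (c2 : ∀ a ∈ Finset.Icc 2 (j - 1), (j + 1 - w) ^ 2 + c0 + 1 < reC w (j + 1) a)
    (hc : c0 ≤ cT)
    (hcell : ∀ (N : Tops P → Finset P) (b : Tops P → ℕ) (θ : Tops P → P → ℕ),
      Wk r j w ((j + 1 - w) ^ 2 + c0) N b θ →
      CellsS P j w ((j + 1 - w) ^ 2 + c0) ((j + 1 - w) ^ 2 + cT) N b θ
        (XL (j + 1 - w) LE) (XL (j + 1 - w) LO))
    (I : InS P j w ((j + 1 - w) ^ 2 + cT) (XL (j + 1 - w) LE) (XL (j + 1 - w) LO))
    (c6 : 2 * ((j + 1 - w) ^ 2 + cT) < 3 * (j + 1 - w) ^ 2 + 3 * (j + 1 - w))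
    (c7 : cT < 7 * (j + 1 - w) + 10)
    (hl0 : lb ≤ 0) (hlE : ∀ x ∈ LE, lb ≤ x) (hlO : ∀ x ∈ LO, lb ≤ x)
    (hJ : ∃ z : P, Hul.Jn z) :
    ∃ V, WinB P j w cT (fun V => LO.elem V) (fun V => nz ((j + 1 - w : ℕ) : ℤ) V || LE.elem V)
      lb V :=
  K.winN hF h10 h12 hwj hE h0 hb c1 c2 hc (fun N b θ W => (hcell N b θ W).toN) I c6 c7 hl0 hlE hlO hJ

end Pool.Agent.GaussPoset.Sm
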