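import Pool.Agent.W_448f4_h70.GS
import Pool.Agent.W_448s7_h27.PhL

/-!
# The least cost at window `3` with the larger labels (MP_448cb3_co, S7)
-/

namespace Pool.Agent.GaussPoset.Sm

set_option linter.unusedSectionVars false

open Polynomial Finset W4 Cp

universe u

section Cost

variable {P : Type u} [Fintype P] [PartialOrder P] [DecidableEq P] {r j w K0 : ℕ}
  {N : Tops P → Finset P} {b : Tops P → ℕ} {θ : Tops P → P → ℕ}

/-- the cost of a pendant below a special cell with the small label -/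
lemma SpcC.C1 {x : P} {Nc : Finset P} {co : P → ℕ × ℕ} (C : SpcC j w N b θ x Nc co)
    (hw : w + 1 ≤ j) : Sm.C1 w θ x = stC w (j + 1) 2 := by
  have hl := C.lev (by omega)
  have hth := C.th
  unfold Sm.C1
  rw [show θ (topOf x) x + 1 = j - w by omega,
    cst_stair (w := w) (L := j + 1) (h := j - w) C.nat.chart C.mem hl (by omega), C.co_eq]
  unfold stC
  rw [show j + 1 - w - 1 = j - w by omega]

/-- the costs of a pendant below a special cell -/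
lemma Wk.penS_cst (W : Wk r j w K0 N b θ) {z : P} (hz : PenS j w N b θ z) :
    cst w (hA N θ) z = stC w (j + 1) 2 ∧ cst w (hS j w N b θ) z = stC w (j + 1) 2 + 2 := by
  have hp := hz
  obtain ⟨p1, p2, p3⟩ := W.penS hz
  obtain ⟨h1, x, h2, h3, h4, h5⟩ := hz
  have H := W.gt.H.gradedBelow
  have hj := W.hj
  have hw := W.hw
  have e1 := H.lev_covBy h3
  have g7 := W.bs h2
  have hS1 := hS_of hp
  have hcg : ∀ L, cst w (fun _ => L) (GaussPoset.bs N x) = cst w (fun _ => L) x := fun L =>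
    cst_const_congr g7.lev g7.nab
  obtain ⟨Nc, co, C⟩ := h5
  have hC1 := C.C1 (by omega)
  unfold Sm.C1 at hC1
  have hth := C.th
  rw [show θ (topOf (GaussPoset.bs N x)) (GaussPoset.bs N x) + 1 = j - w by omega, hcg] at hC1
  have hx : lev x = w + (j - w + 1) := by omega
  have hrise : cst w (fun _ => j - w + 1) x = cst w (fun _ => j - w) x + 1 := by
    rw [cst_shift (i := w) (h := fun _ => j - w + 1) hx,
      cst_shift (i := w) (h := fun _ => j - w) hx, Finset.sum_range_succ,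
      Finset.sum_range_succ _ (j - w + 1), show w + (j - w + 1) = lev x by omega, nab_self,
      Finset.sum_congr rfl (g := fun n => min (j - w) n * nab (w + n) x) (fun n hn => by
        rw [mem_range] at hn
        rw [Nat.min_eq_right (by omega), Nat.min_eq_right (by omega)])]
    rw [Nat.min_self, Nat.min_eq_left (by omega)]
    omega
  constructor
  · rw [cst_const, p1, cst_only (h := fun _ => j - w) H h3 h4, Nat.min_eq_left (by omega)]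
    exact hC1
  · rw [cst_const, hS1, p1, cst_only (h := fun _ => j - w + 1) H h3 h4, hrise,
      Nat.min_eq_left (by omega)]
    omega

/-- the costs of a special twin -/
lemma Wk.twS_cst (W : Wk r j w K0 N b θ) {x : P} (hx : x ∈ twA N)
    (hs : Spc j w N b θ (twT N x)) : tcst w (thA N θ) (twT N x, x) + 1 = stC w (j + 1) 2 ∧
      tcS j w N b θ x = stC w (j + 1) 2 + 1 := by
  have hj := W.hj
  have hw := W.hw
  have h1 := W.tcS_spc hx hs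
  have T := W.twn hx
  have e1 : thA N θ (twT N x) = θ (topOf (twT N x)) (twT N x) :=
    W.thA_nat (W.twSys.nat x hx)
  obtain ⟨Nc, co, C⟩ := hs
  have hC1 := C.C1 (by omega)
  unfold Sm.C1 at hC1
  have h2 := tcst_cst T
  simp only at h2
  rw [e1] at h2
  omega

/-- **the least cost from the least raised cost** -/
theorem Wk.mn_of_mnS (W : Wk r j w K0 N b θ) (hcc : ∀ z, ¬ CEl j w N θ z) {v V : ℕ}
    (MS : MnS j w N b θ V)
    (hex : (∃ z ∈ bdR (rA N), cst w (hA N θ) z = v) ∨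
      ∃ x ∈ twA N, tcst w (thA N θ) (twT N x, x) = v) :
    min V (stC w (j + 1) 2 - 1) ≤ v ∧ (stC w (j + 1) 2 - 1 + 4 ≤ V → V ≤ v) := by
  rcases hex with ⟨z, hz, h⟩ | ⟨x, hx, h⟩
  · have h1 := MS.bd z hz
    by_cases hp : PenS j w N b θ z
    · obtain ⟨a1, a2⟩ := W.penS_cst hp
      omega
    · have hS1 : hS j w N b θ z = hA N θ z := by rw [hS_not hp, hC_not (hcc z)]
      rw [cst_const, hS1, ← cst_const, h] at h1
      omega
  · have h1 := MS.tw x hx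
    by_cases hs : Spc j w N b θ (twT N x)
    · obtain ⟨a1, a2⟩ := W.twS_cst hx hs
      omega
    · unfold tcS at h1
      rw [if_neg hs, h] at h1
      omega

/-- elements of the boundary cost more than a special twin -/
theorem Wk.bd_of_mnS (W : Wk r j w K0 N b θ) (hcc : ∀ z, ¬ CEl j w N θ z) {V : ℕ}
    (MS : MnS j w N b θ V) {z : P} (hz : z ∈ bdR (rA N)) :
    min V (stC w (j + 1) 2) ≤ cst w (hA N θ) z := by
  have h1 := MS.bd z hz
  by_cases hp : PenS j w N b θ z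
  · obtain ⟨a1, a2⟩ := W.penS_cst hp
    omega
  · have hS1 : hS j w N b θ z = hA N θ z := by rw [hS_not hp, hC_not (hcc z)]
    rw [cst_const, hS1, ← cst_const] at h1
    omega

end Cost

section

variable {P : Type u} [Fintype P] [PartialOrder P] [DecidableEq P] {r j : ℕ}
  {lo hi : Tops P → ℕ → ℕ} {e : Tops P → ℕ → ℕ → P}

/-- **the balance at the window `3` for the system, with the larger labels; the least raised cost
`V` and the least cost** -/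
theorem Ctx.winSyN (K : Ctx P r j lo hi e) (h12 : 12 ≤ j) {N : Tops P → Finset P}
    {θ3 θ4 : Tops P → P → ℕ} (S : Sy P j lo hi N θ3 θ4) {c0 cT : ℕ}
    {LE LO : List ℤ} {lb : ℤ} {E : List (ℕ × ℕ × ℕ)} (hE : ChkE j E) (h0 : (0, 0, 0) ∈ E)
    (hb : j % 2 = 1 → ∀ s ∈ E, (s.1 : ℤ) * ((j : ℤ) - 3) - s.2.1 ≤ 5 * ((j : ℤ) - 3))
    (c1 : ∀ a ∈ Finset.Icc 2 ((j + 1) / 2), (j + 1 - 3) ^ 2 + c0 + 1 < stC 3 (j + 1) a)
    (c2 : ∀ a ∈ Finset.Icc 2 (j - 1), (j + 1 - 3) ^ 2 + c0 + 1 < reC 3 (j + 1) a)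
    (hc : c0 ≤ cT)
    (hcell : ∀ (N : Tops P → Finset P) (b : Tops P → ℕ) (θ : Tops P → P → ℕ),
      Wk r j 3 ((j + 1 - 3) ^ 2 + c0) N b θ →
      CellsN P j 3 ((j + 1 - 3) ^ 2 + c0) ((j + 1 - 3) ^ 2 + cT) N b θ
        (XL (j + 1 - 3) LE) (XL (j + 1 - 3) LO))
    (I : InS P j 3 ((j + 1 - 3) ^ 2 + cT) (XL (j + 1 - 3) LE) (XL (j + 1 - 3) LO))
    (c6 : 2 * ((j + 1 - 3) ^ 2 + cT) < 3 * (j + 1 - 3) ^ 2 + 3 * (j + 1 - 3))
    (c7 : cT < 7 * (j + 1 - 3) + 10)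
    (hl0 : lb ≤ 0) (hlE : ∀ x ∈ LE, lb ≤ x) (hlO : ∀ x ∈ LO, lb ≤ x)
    (hJ : ∃ z : P, Hul.Jn z) :
    ∃ V : ℕ, MnS j 3 N (fun t => hi t 3 - lo t 3 + 1) θ3 V ∧
      Wk r j 3 ((j + 1 - 3) ^ 2 + c0) N (fun t => hi t 3 - lo t 3 + 1) θ3 ∧
      WinB P j 3 cT (fun V => LO.elem V) (fun V => nz ((j + 1 - 3 : ℕ) : ℤ) V || LE.elem V)
        lb ((V : ℤ) - ((j + 1 - 3 : ℕ) : ℤ) ^ 2) := by
  have H := K.gt.H
  have h16 := K.h16
  have W : Wk r j 3 ((j + 1 - 3) ^ 2 + c0) N (fun t => hi t 3 - lo t 3 + 1) θ3 :=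
    { gt := K.gt, hj := by omega, hw1 := by omega, hw := by omega, typ := S.typ3, top := S.top3
      sum_b := S.sum3
      hK := by omega
      rdeep := fun C _ hx _ h1 h2 h3 h4 => rdeep_of (by omega) (by omega) c2 C hx h1 h2 h3 h4
      sdeep := fun _ _ _ _ C _ hx _ h1 h3 h4 => sdeep_of (by omega) (by omega) c1 C hx h1 h3 h4 }
  have L := W.lkN (by omega) (by omega) c6 S.unq3 I (hcell _ _ _ W)
  have hlow : ∀ z x x' : P, Cg z x x' → Sok j x → Sok j x' → j + 1 ≤ lev z →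
      ∀ k, k < 3 → nab k z = 2 := by
    intro z x x' h hs hs' hl k hk
    obtain ⟨l1, l2⟩ := h.lev_eq H
    have hend : lev x = j → (Win.uc x).card = 1 := fun hh => (K.ends h (by omega)).1
    have hend' : lev x' = j → (Win.uc x').card = 1 := fun hh => (K.ends h (by omega)).2
    rw [h.sum H (by omega), K.low_one h12 h.only (by omega) hend hs (by omega),
      K.low_one h12 h.only' (by omega) hend' hs' (by omega)]
  have hpen : OnePen P j (fun t => 2 ≤ hi t 3 - lo t 3 + 1) ∨ ∃ z : P, Hul.Jn z ∧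
      ful 3 z ≤ (j + 1 - 3) ^ 2 + 5 * (j - 3) := by
    rcases K.pen_or with h | ⟨hodd, z, x, x', h1, h2, h3, h4⟩
    · left
      intro e e' p p' hB
      refine h e e' p p' ?_
      rcases shape_cases (K.comp (topOf e)) (by omega) (K.shape (topOf e)) with h | h | ⟨a, h, h3⟩
      · have := h 3 (by omega)
        omega
      · exact h
      · have h4 := h.four (by omega)
        have e1 := h.low 3 (by omega)
        omega
    · right
      have hs : Sok j x := ⟨fun hf => by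
        have := hf.1
        have := (h1.lev_eq H).1
        omega, fun _ hf => by
        have := hf.2.1
        omega⟩
      have hs' : Sok j x' := ⟨fun hf => by
        have := hf.1
        have := (h1.lev_eq H).2
        omega, fun _ hf => by
        have := hf.2.1
        omega⟩
      exact ⟨z, h1.jn, K.cheap (w := 3) (by omega) hodd hE h0 (hb hodd) h1 h2 h3 h4
        (hlow z x x' h1 hs hs' h2.ge)⟩
  obtain ⟨V, M, h⟩ := W.winBS (by omega) (fun _ => h12) (by omega) L h16 (cT := (cT : ℤ))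
    (lb := lb) (by push_cast; ring) (by exact_mod_cast c7) hl0 hlE hlO hlow hpen hJ
  exact ⟨V, M, W, h⟩

/-- **the balance at the window `3` for the system, with the larger labels; the least raised cost
`V` and the least cost** -/
theorem Ctx.winSy (K : Ctx P r j lo hi e) (h12 : 12 ≤ j) {N : Tops P → Finset P}
    {θ3 θ4 : Tops P → P → ℕ} (S : Sy P j lo hi N θ3 θ4) {c0 cT : ℕ}
    {LE LO : List ℤ} {lb : ℤ} {E : List (ℕ × ℕ × ℕ)} (hE : ChkE j E) (h0 : (0, 0, 0) ∈ E)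
    (hb : j % 2 = 1 → ∀ s ∈ E, (s.1 : ℤ) * ((j : ℤ) - 3) - s.2.1 ≤ 5 * ((j : ℤ) - 3))
    (c1 : ∀ a ∈ Finset.Icc 2 ((j + 1) / 2), (j + 1 - 3) ^ 2 + c0 + 1 < stC 3 (j + 1) a)
    (c2 : ∀ a ∈ Finset.Icc 2 (j - 1), (j + 1 - 3) ^ 2 + c0 + 1 < reC 3 (j + 1) a)
    (hc : c0 ≤ cT)
    (hcell : ∀ (N : Tops P → Finset P) (b : Tops P → ℕ) (θ : Tops P → P → ℕ),
      Wk r j 3 ((j + 1 - 3) ^ 2 + c0) N b θ →
      CellsS P j 3 ((j + 1 - 3) ^ 2 + c0) ((j + 1 - 3) ^ 2 + cT) N b θ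
        (XL (j + 1 - 3) LE) (XL (j + 1 - 3) LO))
    (I : InS P j 3 ((j + 1 - 3) ^ 2 + cT) (XL (j + 1 - 3) LE) (XL (j + 1 - 3) LO))
    (c6 : 2 * ((j + 1 - 3) ^ 2 + cT) < 3 * (j + 1 - 3) ^ 2 + 3 * (j + 1 - 3))
    (c7 : cT < 7 * (j + 1 - 3) + 10)
    (hl0 : lb ≤ 0) (hlE : ∀ x ∈ LE, lb ≤ x) (hlO : ∀ x ∈ LO, lb ≤ x)
    (hJ : ∃ z : P, Hul.Jn z) :
    ∃ V : ℕ, MnS j 3 N (fun t => hi t 3 - lo t 3 + 1) θ3 V ∧
      Wk r j 3 ((j + 1 - 3) ^ 2 + c0) N (fun t => hi t 3 - lo t 3 + 1) θ3 ∧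
      WinB P j 3 cT (fun V => LO.elem V) (fun V => nz ((j + 1 - 3 : ℕ) : ℤ) V || LE.elem V)
        lb ((V : ℤ) - ((j + 1 - 3 : ℕ) : ℤ) ^ 2) :=
  K.winSyN h12 S hE h0 hb c1 c2 hc (fun N b θ W => (hcell N b θ W).toN) I c6 c7 hl0 hlE hlO hJ

/-- **helper27's form of the window `3`** -/
theorem Ctx.w3RN (K : Ctx P r j lo hi e) (h12 : 12 ≤ j) {c0 cT : ℕ}
    {LE LO : List ℤ} {lb : ℤ} {E : List (ℕ × ℕ × ℕ)} (hE : ChkE j E) (h0 : (0, 0, 0) ∈ E)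
    (hb : j % 2 = 1 → ∀ s ∈ E, (s.1 : ℤ) * ((j : ℤ) - 3) - s.2.1 ≤ 5 * ((j : ℤ) - 3))
    (c1 : ∀ a ∈ Finset.Icc 2 ((j + 1) / 2), (j + 1 - 3) ^ 2 + c0 + 1 < stC 3 (j + 1) a)
    (c2 : ∀ a ∈ Finset.Icc 2 (j - 1), (j + 1 - 3) ^ 2 + c0 + 1 < reC 3 (j + 1) a)
    (hc : c0 ≤ cT)
    (hcell : ∀ (N : Tops P → Finset P) (b : Tops P → ℕ) (θ : Tops P → P → ℕ),
      Wk r j 3 ((j + 1 - 3) ^ 2 + c0) N b θ →
      CellsN P j 3 ((j + 1 - 3) ^ 2 + c0) ((j + 1 - 3) ^ 2 + cT) N b θ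
        (XL (j + 1 - 3) LE) (XL (j + 1 - 3) LO))
    (I : InS P j 3 ((j + 1 - 3) ^ 2 + cT) (XL (j + 1 - 3) LE) (XL (j + 1 - 3) LO))
    (hCC : j % 2 = 0 → NoCC P j)
    (c6 : 2 * ((j + 1 - 3) ^ 2 + cT) < 3 * (j + 1 - 3) ^ 2 + 3 * (j + 1 - 3))
    (c7 : cT < 7 * (j + 1 - 3) + 10)
    (hl0 : lb ≤ 0) (hlE : ∀ x ∈ LE, lb ≤ x) (hlO : ∀ x ∈ LO, lb ≤ x) :
    W3R P r j lo hi cT (fun V => LO.elem V)
      (fun V => nz ((j + 1 - 3 : ℕ) : ℤ) V || LE.elem V) lb (stC 3 (j + 1) 2 - 1) := by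
  intro N θ3 θ4 S hJ
  obtain ⟨V, M, W, h⟩ := K.winSyN h12 S hE h0 hb c1 c2 hc hcell I c6 c7 hl0 hlE hlO hJ
  have hcc : ∀ z, ¬ CEl j 3 N θ3 z := fun z hz =>
    (hCC (W.cel_nab (by omega) hz).2.1).not_cel W (by omega) hz
  obtain ⟨v, M', hex⟩ := exists_minK W (bdR_nonempty W hJ)
  obtain ⟨h1, h2⟩ := W.mn_of_mnS hcc M hex
  exact ⟨_, v, V, M', h1, h2, W, h⟩

/-- **helper27's form of the window `3`** -/
theorem Ctx.w3R (K : Ctx P r j lo hi e) (h12 : 12 ≤ j) {c0 cT : ℕ}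
    {LE LO : List ℤ} {lb : ℤ} {E : List (ℕ × ℕ × ℕ)} (hE : ChkE j E) (h0 : (0, 0, 0) ∈ E)
    (hb : j % 2 = 1 → ∀ s ∈ E, (s.1 : ℤ) * ((j : ℤ) - 3) - s.2.1 ≤ 5 * ((j : ℤ) - 3))
    (c1 : ∀ a ∈ Finset.Icc 2 ((j + 1) / 2), (j + 1 - 3) ^ 2 + c0 + 1 < stC 3 (j + 1) a)
    (c2 : ∀ a ∈ Finset.Icc 2 (j - 1), (j + 1 - 3) ^ 2 + c0 + 1 < reC 3 (j + 1) a)
    (hc : c0 ≤ cT)
    (hcell : ∀ (N : Tops P → Finset P) (b : Tops P → ℕ) (θ : Tops P → P → ℕ),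
      Wk r j 3 ((j + 1 - 3) ^ 2 + c0) N b θ →
      CellsS P j 3 ((j + 1 - 3) ^ 2 + c0) ((j + 1 - 3) ^ 2 + cT) N b θ
        (XL (j + 1 - 3) LE) (XL (j + 1 - 3) LO))
    (I : InS P j 3 ((j + 1 - 3) ^ 2 + cT) (XL (j + 1 - 3) LE) (XL (j + 1 - 3) LO))
    (hCC : j % 2 = 0 → NoCC P j)
    (c6 : 2 * ((j + 1 - 3) ^ 2 + cT) < 3 * (j + 1 - 3) ^ 2 + 3 * (j + 1 - 3))
    (c7 : cT < 7 * (j + 1 - 3) + 10)
    (hl0 : lb ≤ 0) (hlE : ∀ x ∈ LE, lb ≤ x) (hlO : ∀ x ∈ LO, lb ≤ x) :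
    W3R P r j lo hi cT (fun V => LO.elem V)
      (fun V => nz ((j + 1 - 3 : ℕ) : ℤ) V || LE.elem V) lb (stC 3 (j + 1) 2 - 1) :=
  K.w3RN h12 hE h0 hb c1 c2 hc (fun N b θ W => (hcell N b θ W).toN) I hCC c6 c7 hl0 hlE hlO

end

end Pool.Agent.GaussPoset.Sm
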