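import Pool.Agent.W_448f4_h70.GPa

/-!
# The windows `2`, `3` with the larger labels: excluded own elements (MP_448cb3_co, S7)
-/

namespace Pool.Agent.GaussPoset.Sm

set_option linter.unusedSectionVars false

open Polynomial Finset

universe u

variable {P : Type u} [Fintype P] [PartialOrder P] [DecidableEq P] {r j w K0 K : ℕ}
  {N : Tops P → Finset P} {b : Tops P → ℕ} {θ : Tops P → P → ℕ} {XE XO BE YE YO : ℕ → Prop}

/-- the noise: even own elements except at the values `BE` -/
def NoE (j w : ℕ) (XE BE : ℕ → Prop) (v : ℕ) : Prop := (EvN j w v ∧ ¬ BE v) ∨ XE v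

/-- the noise: odd own elements -/
def NoO (j w : ℕ) (XO : ℕ → Prop) (v : ℕ) : Prop := OdN j w v ∨ XO v

/-- no own elements of cost in `BE` -/
structure HkS (P : Type u) [Fintype P] [PartialOrder P] [DecidableEq P] (j w K : ℕ)
    (N : Tops P → Finset P) (b : Tops P → ℕ) (θ : Tops P → P → ℕ) (BE : ℕ → Prop) : Prop where
  br : ∀ (v a : ℕ) (z x : P), MnS j w N b θ v → z ∈ bdR (rA N) → cst w (hA N θ) z = v →
    BE v → v ≤ K → z ⋖ x → (∀ y, z ⋖ y → y = x) → Row1 j w N θ x → lev x = w + a →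
    v = a ^ 2 + a → False
  bo : ∀ (v : ℕ) (z : P), MnS j w N b θ v → z ∈ bdR (rA N) → cst w (hA N θ) z = v →
    BE v → v ≤ K → (∀ x, z ⋖ x → x ∉ unnat N ∧ Str w N θ x) →
    (∀ x x', z ⋖ x → z ⋖ x' → topOf x = topOf x') → hA N θ z = lev z - w → False
  bt : ∀ (v a : ℕ) (x : P), MnS j w N b θ v → x ∈ twA N → tcS j w N b θ x = v → BE v → v ≤ K →
    Row1 j w N θ (twT N x) → lev x = w + a → v + 1 = a ^ 2 + a → False

/-- the remaining inputs at window `w`, larger labels, without own elements at the values `BE` -/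
structure LkH (P : Type u) [Fintype P] [PartialOrder P] [DecidableEq P] (j w K0 K : ℕ)
    (N : Tops P → Finset P) (b : Tops P → ℕ) (θ : Tops P → P → ℕ) (XE XO BE : ℕ → Prop) :
    Prop where
  hK : 2 * K < 3 * (j + 1 - w) ^ 2 + 3 * (j + 1 - w)
  unq : Unq P w b
  nsk : ∀ z x x' : P, Cg z x x' → j + 1 ≤ lev z → nab w x = 1 → ¬ Sok j x → K < ful w z
  dj : ∀ (v : ℕ) (z x : P), MnS j w N b θ v → z ∈ bdR (rA N) → cst w (hS j w N b θ) z = v →
    lev z = j + 1 → z ⋖ x → Dk j w K0 N θ x → OutG j w K XE XO (hS j w N b θ) z v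
  dp : ∀ (v : ℕ) (z x : P), MnS j w N b θ v → z ∈ bdR (rA N) → cst w (hS j w N b θ) z = v →
    x ∉ rA N → z ⋖ x → j + 1 ≤ lev x → Dk j w K0 N θ (GaussPoset.bs N x) →
    ¬ Row1 j w N θ (GaussPoset.bs N x) → OutG j w K XE XO (hS j w N b θ) z v
  dt : ∀ x ∈ twA N, Dk j w K0 N θ (twT N x) → ¬ Row1 j w N θ (twT N x) →
    OutTG j w K XE XO N b θ x
  hk : HkS P j w K N b θ BE

/-- a cheapest flat element below a cell of row `1` is a pendant -/
theorem Wk.row1_only (W : Wk r j w K0 N b θ)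
    (hKK : 2 * K < 3 * (j + 1 - w) ^ 2 + 3 * (j + 1 - w)) {v : ℕ} {z : P} (hz : z ∈ bdR (rA N))
    (hc : cst w (hA N θ) z = v) (hF : Flat j w N θ z) (hge : lev z ≤ hA N θ z + 1 + w) {x : P}
    (hzx : z ⋖ x) (hR : Row1 j w N θ x) : K < v ∨ ((∀ y, z ⋖ y → y = x) ∧
      v = (lev x - w) ^ 2 + (lev x - w)) := by
  classical
  have H := W.gt.H
  have hj := W.hj
  have hw := W.hw
  have hzR := (mem_bdR.mp hz).1
  have hlz := W.bd_lev hz
  have e1 := (H.covBy_iff.mp hzx).2
  have hx := (hF x hzx).1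
  have hbs : GaussPoset.bs N x = x := by
    unfold GaussPoset.bs
    rw [if_neg (W.not_tw hx)]
  have hle := W.hA_le (not_mem_rA.mpr (Or.inl hx)) hzx
  rw [hbs] at hle
  have hRt := hR.th
  obtain ⟨a, ha⟩ : ∃ a, lev x = w + a := ⟨lev x - w, by omega⟩
  have hha : hA N θ z = a := by omega
  have h1w := hR.one_le
  by_cases honly : ∀ y, z ⋖ y → y = x
  · -- a pendant
    right
    refine ⟨honly, ?_⟩
    rw [← hc, cst_only H.gradedBelow hzx honly, hha, cst_eq_ful (by omega),
      ful_two ha (fun k hk1 hk2 => hR.nab k hk1.le hk2), show lev x - w = a by omega,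
      Nat.min_eq_left (by omega)]
  · -- a pair
    push Not at honly
    obtain ⟨x', hzx', hne'⟩ := honly
    have hne : x ≠ x' := Ne.symm hne'
    have e2 := (H.covBy_iff.mp hzx').2
    have hx' := (hF x' hzx').1
    have hlx : lev x ≠ j := by
      intro h
      have := (W.near hzR (by omega) hzx hzx' hne).1
      have := hR.dbl
      omega
    left
    have h3 : ∀ k, 2 ≤ k → w ≤ k → k < lev x → 3 ≤ nab k z := fun k hk1 hk2 hk3 =>
      W.row1_three hzR hx hx' hzx hzx' hne hR (hF x' hzx').2 hk1 hk2 hk3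
    have h4 : 2 ≤ nab (lev x) z := two_le_nab hzx.1.le hzx'.1.le rfl (by omega) hne
    have h5 : ∑ n ∈ range a, n * 3 + a * 2 + a ≤ v := by
      rw [← hc, cst_shift (a := a + 1) (by omega), Finset.sum_range_succ
        (fun n => min (hA N θ z) n * nab (w + n) z), Finset.sum_range_succ
        (fun n => min (hA N θ z) n * nab (w + n) z), hha]
      refine Nat.add_le_add (Nat.add_le_add ?_ ?_) ?_
      · refine Finset.sum_le_sum fun n hn => ?_
        rw [mem_range] at hn
        rw [Nat.min_eq_right hn.le]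
        rcases Nat.eq_zero_or_pos n with h0 | h0
        · subst h0; simp
        · exact Nat.mul_le_mul_left _ (h3 _ (by omega) (by omega) (by omega))
      · rw [Nat.min_self, ← ha]
        exact Nat.mul_le_mul_left _ h4
      · rw [show w + (a + 1) = lev z by omega, nab_self, mul_one]
        exact Nat.le_min.mpr ⟨le_rfl, by omega⟩
    have h6 := Finset.sum_range_id_mul_two a
    rw [← Finset.sum_mul] at h5
    have hK := hKK
    have h7 : (j + 1 - w) ^ 2 ≤ a ^ 2 := Nat.pow_le_pow_left (by omega) 2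
    have h8 : a * (a - 1) + a = a ^ 2 := by
      obtain ⟨c, rfl⟩ : ∃ c, a = c + 1 := ⟨a - 1, by omega⟩
      rw [Nat.add_sub_cancel]
      ring
    omega

/-- straight covers below two tops -/
theorem Wk.cross_outG (W : Wk r j w K0 N b θ) (L : Unq P w b)
    (F : ∀ z x x' : P, Cg z x x' → j + 1 ≤ lev z → nab w x = 1 → ¬ Sok j x → K < ful w z)
    {v : ℕ} {z : P}
    (hz : z ∈ bdR (rA N)) (hh : hA N θ z = lev z - w) (hc : cst w (hA N θ) z = v) {x x' : P}
    (hx : x ∉ unnat N) (hx' : x' ∉ unnat N) (hS : Str w N θ x) (hS' : Str w N θ x')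
    (hzx : z ⋖ x) (hzx' : z ⋖ x') (htt : topOf x ≠ topOf x') :
    OutG j w K YE YO (hA N θ) z v := by
  classical
  have H := W.gt.H
  have HN := W.natSys
  have hj := W.hj
  have hw := W.hw
  have hlz := W.bd_lev hz
  have e1 := (H.covBy_iff.mp hzx).2
  have e2 := (H.covBy_iff.mp hzx').2
  have hxt : x ∈ N (topOf x) := HN.mem_iff.mpr ⟨hx, rfl⟩
  have hxt' : x' ∈ N (topOf x') := HN.mem_iff.mpr ⟨hx', rfl⟩
  have n1 := W.str_nab L hx hS (by omega)
  have n2 := W.str_nab L hx' hS' (by omega)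
  have hv : v = ful w z := by
    rw [← hc]
    exact cst_eq_ful (by omega)
  have C : Cg z x x' := Cg.mk' hzx hzx' (mem_onlyB.mpr fun s hs hxs => HN.top_eq hxt hs hxs)
    (mem_onlyB.mpr fun s hs hxs => HN.top_eq hxt' hs hxs) htt
  by_cases s1 : Sok j x
  · by_cases s2 : Sok j x'
    · right
      refine ⟨?_, Or.inr (Or.inr ⟨⟨x, x', C, s1, s2⟩, hv, hh⟩)⟩
      rw [nab_join_eq HN H hxt hxt' htt hzx hzx' (by omega), n1, n2, hh,
        show w + (lev z - w) = lev z by omega, nab_self]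
    · left
      rw [hv]
      exact F z x' x C.symm (by omega) n2 s2
  · left
    rw [hv]
    exact F z x x' C (by omega) n1 s1

/-- the outcomes for a cheapest boundary element -/
theorem Wk.outH (W : Wk r j w K0 N b θ) (hw2 : 2 ≤ w)
    (L : LkH P j w K0 K N b θ XE XO BE) {v : ℕ}
    (hP : OnePen P j (fun t => 2 ≤ b t) ∨ v ≤ (j + 1 - w) ^ 2 + 5 * (j - w))
    (M : MnS j w N b θ v) {z : P} (hz : z ∈ bdR (rA N)) (hc : cst w (hS j w N b θ) z = v) :
    OutG j w K (NoE j w XE BE) (NoO j w XO) (hS j w N b θ) z v := by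
  classical
  have H := W.gt.H
  have hj := W.hj
  have hw := W.hw
  have hlz := W.bd_lev hz
  by_cases hd : ∃ x, x ∉ rA N ∧ z ⋖ x ∧ Dk j w K0 N θ (GaussPoset.bs N x) ∧
      ¬ Row1 j w N θ (GaussPoset.bs N x)
  · obtain ⟨x, hx, hzx, hD, hnR⟩ := hd
    have e1 := (H.covBy_iff.mp hzx).2
    by_cases hl : j + 1 ≤ lev x
    · exact (L.dp v z x M hz hc hx hzx hl hD hnR).mono Or.inr Or.inr
    · have hxu : x ∉ unnat N := W.low (by omega)
      have hbs : GaussPoset.bs N x = x := by
        unfold GaussPoset.bs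
        rw [if_neg (W.not_tw hxu)]
      rw [hbs] at hD
      exact (L.dj v z x M hz hc (by omega) hzx hD).mono Or.inr Or.inr
  · push Not at hd
    have hSA := W.hS_eq hw2 hd
    obtain ⟨hF, hge⟩ := W.flatS hw2 M hz hc hd
    have hc' : cst w (hA N θ) z = v := by
      rw [← hc, cst_const w (hA N θ) z, cst_const w (hS j w N b θ) z, hSA]
    refine outG_congr hSA.symm ?_
    by_cases hR : ∃ x, z ⋖ x ∧ Row1 j w N θ x
    · obtain ⟨x, hzx, hR⟩ := hR
      have h1 := (W.row1_outS (XE := fun _ => False) (XO := fun _ => False) L.hK hz hc' hF hge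
        hzx hR).toG
      rcases W.row1_only L.hK hz hc' hF hge hzx hR with h3 | ⟨h3, h4⟩
      · exact Or.inl h3
      · by_cases hvK : K < v
        · exact Or.inl hvK
        · have h2 : ¬ BE v := fun hB => L.hk.br v (lev x - w) z x M hz hc' hB (by omega) hzx h3 hR
            (by have := (H.covBy_iff.mp hzx).2; omega) h4
          exact h1.mono (fun h => Or.inl ⟨h.resolve_right id, h2⟩)
            (fun h => Or.inl (h.resolve_right id))
    · push Not at hR
      have hStr : ∀ x, z ⋖ x → x ∉ unnat N ∧ Str w N θ x := fun x hx =>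
        ⟨(hF x hx).1, (hF x hx).2.resolve_right (hR x hx)⟩
      have hh : hA N θ z = lev z - w := by
        obtain ⟨x0, f1, f2, f3⟩ := W.hA_spec hz
        obtain ⟨g1, g2⟩ := hStr x0 f2
        have hbs : GaussPoset.bs N x0 = x0 := by
          unfold GaussPoset.bs
          rw [if_neg (W.not_tw g1)]
        rw [hbs, g2.th] at f3
        have := (H.covBy_iff.mp f2).2
        omega
      by_cases hT : ∃ x x', z ⋖ x ∧ z ⋖ x' ∧ topOf x ≠ topOf x'
      · obtain ⟨x, x', h1, h2, h3⟩ := hT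
        exact W.cross_outG L.unq L.nsk hz hh hc' (hStr x h1).1 (hStr x' h2).1 (hStr x h1).2
          (hStr x' h2).2 h1 h2 h3
      · push Not at hT
        obtain ⟨x, hzx, -⟩ := Hul.exists_cov (w := z) (v := (topOf z : P))
          (lt_of_le_of_ne (le_topOf z) (by
            intro h
            have := (topOf z).2
            rw [← h] at this
            omega))
        have h1 := (W.own_outS (K := K) (XE := fun _ => False) (XO := fun _ => False) hP hz hh hc' hStr
          (t := topOf x) fun x' hx' => hT x' x hx' hzx).toG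
        by_cases hvK : K < v
        · exact Or.inl hvK
        · have h2 : ¬ BE v := fun hB => L.hk.bo v z M hz hc' hB (by omega) hStr hT hh
          exact h1.mono (fun h => Or.inl ⟨h.resolve_right id, h2⟩)
            (fun h => Or.inl (h.resolve_right id))

/-- the outcome for the twins -/
theorem Wk.out_twH (W : Wk r j w K0 N b θ) (L : LkH P j w K0 K N b θ XE XO BE) {v : ℕ}
    (M : MnS j w N b θ v) {x : P}
    (hx : x ∈ twA N) (hxv : tcS j w N b θ x = v) (hvK : v ≤ K) :
    OutTG j w K (NoE j w XE BE) (NoO j w XO) N b θ x := by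
  classical
  have hj := W.hj
  have hw := W.hw
  obtain ⟨hl, hk⟩ := W.tw_cases hx
  have hl2 := W.twSys.lev hx
  have hup := W.twSys.up x hx
  by_cases hnR : Row1 j w N θ (twT N x)
  swap
  · exact (L.dt x hx (hk.resolve_left hnR) hnR).mono Or.inr Or.inr
  · clear hk
    have hk := hnR
    right
    have hns : ¬ Spc j w N b θ (twT N x) := by
      rintro ⟨Nc, co, C⟩
      have := C.th
      have := C.lev (by omega)
      have := hk.th
      omega
    have e0 : tcS j w N b θ x = tcst w (thA N θ) (twT N x, x) := by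
      unfold tcS; rw [if_neg hns]
    have e0' : TmS j w N b θ x = Tm w (thA N θ) (twT N x, x) := by
      unfold TmS; rw [if_neg hns]
    obtain ⟨a, ha⟩ : ∃ a, lev x = w + a := ⟨lev x - w, by omega⟩
    have h1 := W.tcst_row1 hx hk ha
    have hn : ∀ k, w ≤ k → k < lev x → nab k x = 2 := fun k h1 h2 => by
      rw [← nab_congr_up hup h2]
      exact hk.nab k h1 (by omega)
    have e1 : thA N θ (twT N x) = θ (topOf (twT N x)) (twT N x) :=
      W.thA_nat (W.twSys.nat x hx)
    have hth := hk.th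
    refine ⟨lev x - w, ?_, ?_, Or.inl ⟨?_, Or.inl ⟨⟨hk.one_le, Or.inr (Or.inl
      ⟨a - (j + 1 - w), Or.inr ?_⟩)⟩, ?_⟩⟩⟩
    · rw [e0', Tm_eq W.gt.H.gradedBelow (W.twn hx) (by simp only; omega)]
    · rw [hn w le_rfl (by omega), show w + (lev x - w) = lev x by omega, nab_self]
    · rw [nst_eq, Finset.sum_congr rfl (g := fun _ => 2)]
      · rw [Finset.sum_const, card_range]
        exact ⟨lev x - w, by simp only [smul_eq_mul]; ring⟩
      · intro k hk'
        rw [mem_range] at hk'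
        exact hn _ (by omega) (by omega)
    · rw [e0, h1, show j + 1 - w + (a - (j + 1 - w)) = a by omega]
      ring
    · rw [hxv]
      exact fun hB => L.hk.bt v a x M hx hxv hB (by omega) hk ha (by rw [← hxv, e0, h1])

/-- **The cheapest class at window `w` has both signs.** -/
theorem Wk.bothH (W : Wk r j w K0 N b θ) (h7 : 7 ≤ j) (h12 : j % 2 = 0 → 12 ≤ j)
    (hw2 : 2 ≤ w)
    (L : LkH P j w K0 K N b θ XE XO BE) {v : ℕ}
    (hP : OnePen P j (fun t => 2 ≤ b t) ∨ v ≤ (j + 1 - w) ^ 2 + 5 * (j - w))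
    (M : MnS j w N b θ v) (hex : (∃ z ∈ bdR (rA N), cst w (hS j w N b θ) z = v) ∨
      ∃ x ∈ twA N, tcS j w N b θ x = v) (hcap : v ≤ K) :
    ((∃ z x x' : P, Cg z x x' ∧ Sok j x ∧ Sok j x' ∧ ful w z = v ∧
      Odd (nst w (fun z => lev z - w) z)) ∨ NoO j w XO v) ∧
    ((∃ z x x' : P, Cg z x x' ∧ Sok j x ∧ Sok j x' ∧ ful w z = v ∧
      Even (nst w (fun z => lev z - w) z)) ∨ NoE j w XE BE v) := by
  classical
  have H := W.gt.H
  have hj := W.hj
  have hw := W.hw
  set T1 := (bdR (rA N)).filter (fun z => cst w (hS j w N b θ) z = v) with hT1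
  set T2 := (twA N).filter (fun x => tcS j w N b θ x = v) with hT2
  have hout2' : ∀ x : P, ∃ l : ℕ, x ∈ T2 → TmS j w N b θ x = Lt w (fun _ => l) x ∧
      nab w x = nab (w + l) x + 1 ∧
      ((Even (nst w (fun _ => l) x) ∧ NoE j w XE BE v) ∨
      (Odd (nst w (fun _ => l) x) ∧ NoO j w XO v)) := by
    intro x
    by_cases hx : x ∈ T2
    · have hx' := hx
      rw [hT2, mem_filter] at hx'
      have h1 := (W.out_twH L M hx'.1 hx'.2 hcap).resolve_left (by rw [hx'.2]; omega)
      rw [hx'.2] at h1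
      obtain ⟨l, h2⟩ := h1
      exact ⟨l, fun _ => h2⟩
    · exact ⟨0, fun h => absurd h hx⟩
  choose lb hlb using hout2'
  -- labels on the whole class
  let hh : P → ℕ := fun z => if z ∈ twA N then lb z else hS j w N b θ z
  have hh1 : ∀ z ∈ twA N, hh z = lb z := fun z hz => if_pos hz
  have hh2 : ∀ z, z ∉ twA N → hh z = hS j w N b θ z := fun z hz => if_neg hz
  have hn1 : ∀ z ∈ T1, z ∉ twA N := by
    intro z hz
    rw [hT1, mem_filter] at hz
    exact (mem_rA.mp (mem_bdR.mp hz.1).1).2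
  have hm2 : ∀ z ∈ T2, z ∈ twA N := fun z hz => by
    rw [hT2, mem_filter] at hz
    exact hz.1
  have hdisj : Disjoint T1 T2 := by
    rw [Finset.disjoint_left]
    intro z hz hz'
    exact hn1 z hz (hm2 z hz')
  have hout1 : ∀ z ∈ T1, nab w z = nab (w + hh z) z + 1 ∧
      ((Even (nst w hh z) ∧ NoE j w XE BE v) ∨ (Odd (nst w hh z) ∧ NoO j w XO v) ∨
      (∃ x x', Cg z x x' ∧ Sok j x ∧ Sok j x') ∧ v = ful w z ∧ hh z = lev z - w) := by
    intro z hz
    have hzt := hn1 z hz
    rw [hT1, mem_filter] at hz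
    have h1 := W.outH hw2 L hP M hz.1 hz.2
    have h2 : nst w hh z = nst w (hS j w N b θ) z := by
      rw [nst_eq, nst_eq, hh2 z hzt]
    rw [h2, hh2 z hzt]
    exact h1.resolve_left (by omega)
  have hnst2 : ∀ x ∈ T2, nst w hh x = nst w (fun _ => lb x) x := fun x hx => by
    rw [nst_eq, nst_eq, hh1 x (hm2 x hx)]
  have hout2 : ∀ x ∈ T2, nab w x = nab (w + hh x) x + 1 ∧
      ((Even (nst w hh x) ∧ NoE j w XE BE v) ∨
      (Odd (nst w hh x) ∧ NoO j w XO v)) := by
    intro x hx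
    have h1 := (hlb x hx).2
    rw [hnst2 x hx, hh1 x (hm2 x hx)]
    exact h1
  -- the exact far window theorem
  have F := W.farS h7 h12 hw2 v M.tw M.bd
  have hd := F.lead M.bd
  have hZ := dvd_Z H.gauss w v
  have hsum2 : ∑ x ∈ (twA N).filter (fun x => tcS j w N b θ x = v), TmS j w N b θ x =
      ∑ x ∈ T2, Lt w hh x := by
    refine Finset.sum_congr rfl fun x hx => ?_
    rw [(hlb x hx).1]
    unfold Lt
    rw [hnst2 x hx, hh1 x (hm2 x hx)]
  have hsum1 : ∑ z ∈ (bdR (rA N)).filter (fun z => cst w (hS j w N b θ) z = v),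
      Lt w (hS j w N b θ) z = ∑ z ∈ T1, Lt w hh z := by
    refine Finset.sum_congr rfl fun z hz => ?_
    unfold Lt
    rw [nst_eq, nst_eq, hh2 z (hn1 z hz)]
  rw [hsum2, hsum1, ← Finset.sum_union hdisj] at hd
  have hdrop : ∀ z ∈ T1 ∪ T2, nab w z = nab (w + hh z) z + 1 := by
    intro z hz
    rcases mem_union.mp hz with h | h
    · exact (hout1 z h).1
    · exact (hout2 z h).1
  have hTne : (T1 ∪ T2).Nonempty := by
    rcases hex with ⟨z, hz, h⟩ | ⟨x, hx, h⟩
    · exact ⟨z, mem_union_left _ (mem_filter.mpr ⟨hz, h⟩)⟩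
    · exact ⟨x, mem_union_right _ (mem_filter.mpr ⟨hx, h⟩)⟩
  have hcard : 1 ≤ (lv P w).card := by
    obtain ⟨z, hz⟩ := hTne
    have h1 := hdrop z hz
    have h2 := nab_le z w
    omega
  have hs := sign_sum_of_dvd (T1 ∪ T2) hZ hd (c0 := (lv P w).card - 1) (by omega) (by
    intro z hz
    have := hdrop z hz
    omega)
  rw [Finset.filter_true_of_mem (fun z hz => by
    have := hdrop z hz
    omega)] at hs
  obtain ⟨⟨z1, hz1, he⟩, z2, hz2, ho⟩ := both_signs _ _ hs hTne
  have hcls : ∀ z ∈ T1 ∪ T2, (Even (nst w hh z) ∧ NoE j w XE BE v) ∨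
      (Odd (nst w hh z) ∧ NoO j w XO v) ∨
      (∃ x x', Cg z x x' ∧ Sok j x ∧ Sok j x') ∧ v = ful w z ∧
        nst w hh z = nst w (fun z => lev z - w) z := by
    intro z hz
    rcases mem_union.mp hz with h | h
    · rcases (hout1 z h).2 with h1 | h1 | h1
      · exact Or.inl h1
      · exact Or.inr (Or.inl h1)
      · refine Or.inr (Or.inr ⟨h1.1, h1.2.1, ?_⟩)
        rw [nst_eq, nst_eq, h1.2.2]
    · rcases (hout2 z h).2 with h1 | h1
      · exact Or.inl h1
      · exact Or.inr (Or.inl h1)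
  constructor
  · rcases hcls z2 hz2 with h | h | ⟨⟨x, x', h, s1, s2⟩, h1, h2⟩
    · exact absurd h.1 (Nat.not_even_iff_odd.mpr ho)
    · exact Or.inr h.2
    · rw [h2] at ho
      exact Or.inl ⟨z2, x, x', h, s1, s2, h1.symm, ho⟩
  · rcases hcls z1 hz1 with h | h | ⟨⟨x, x', h, s1, s2⟩, h1, h2⟩
    · exact Or.inr h.2
    · exact absurd h.1 (Nat.not_odd_iff_even.mpr he)
    · rw [h2] at he
      exact Or.inl ⟨z1, x, x', h, s1, s2, h1.symm, he⟩

end Pool.Agent.GaussPoset.Sm
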