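import Pool.Agent.W_448f4_h70.GV
import Pool.Agent.W_448s7s_h5.SkX

/-!
# The windows `2`, `3` with the larger labels: the balance without excluded own elements
(MP_448cb3_co, S7)
-/

namespace Pool.Agent.GaussPoset.Sm

set_option linter.unusedSectionVars false

open Polynomial Finset

universe u

variable {P : Type u} [Fintype P] [PartialOrder P] [DecidableEq P] {r j w K0 K : ℕ}
  {N : Tops P → Finset P} {b : Tops P → ℕ} {θ : Tops P → P → ℕ} {XE XO : ℕ → Prop}

/-- **The balance at window `w`.** -/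
theorem Wk.winBH (W : Wk r j w K0 N b θ) (h7 : 7 ≤ j) (h12 : j % 2 = 0 → 12 ≤ j)
    (hw2 : 2 ≤ w) {LE LO BL : List ℤ}
    (L : LkH P j w K0 K N b θ (XL (j + 1 - w) LE) (XL (j + 1 - w) LO) (XL (j + 1 - w) BL)) (h16 : j ≤ 16) {cT lb : ℤ}
    (hK : (K : ℤ) = ((j + 1 - w : ℕ) : ℤ) ^ 2 + cT) (hT : cT < 7 * ((j + 1 - w : ℕ) : ℤ) + 10)
    (hl0 : lb ≤ 0) (hlE : ∀ x ∈ LE, lb ≤ x) (hlO : ∀ x ∈ LO, lb ≤ x)
    (hlow : ∀ z x x' : P, Cg z x x' → Sok j x → Sok j x' → j + 1 ≤ lev z →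
      ∀ k, k < w → nab k z = 2)
    (hPen : OnePen P j (fun t => 2 ≤ b t) ∨ ∃ z : P, Hul.Jn z ∧
      ful w z ≤ (j + 1 - w) ^ 2 + 5 * (j - w))
    (hJ : ∃ z : P, Hul.Jn z) :
    ∃ v, MnS j w N b θ v ∧
      WinB P j w cT (fun V => LO.elem V) 
        (fun V => (nz ((j + 1 - w : ℕ) : ℤ) V && !(BL.elem V)) || LE.elem V)
      lb ((v : ℤ) - ((j + 1 - w : ℕ) : ℤ) ^ 2) := by
  classical
  have HN := W.natSys
  have hj := W.hj
  have hw := W.hw
  have H := W.gt.H
  -- joins are in the far set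
  have hjoin : ∀ z : P, Hul.Jn z → z ∈ rA N := by
    rintro z ⟨t1, t2, h1, h2, hne, hz1, hz2⟩
    have key : ∀ y, y ∉ unnat N → (y ≤ t1 → y ≤ t2 → False) := by
      intro y hy g1 g2
      have h3 : y ∈ N (topOf y) := HN.mem_iff.mpr ⟨hy, rfl⟩
      exact hne ((HN.top_eq h3 h1 g1).trans (HN.top_eq h3 h2 g2).symm)
    have hzu : z ∈ unnat N := by
      by_contra hcon
      exact key z hcon hz1 hz2
    refine mem_rA.mpr ⟨hzu, fun h => ?_⟩
    obtain ⟨-, y, hy, hup⟩ := mem_twA.mp h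
    have hl := W.lt_lev hzu
    refine key y hy ((hup t1).mpr ?_).le ((hup t2).mpr ?_).le
    · exact lt_of_le_of_ne hz1 (by rintro rfl; omega)
    · exact lt_of_le_of_ne hz2 (by rintro rfl; omega)
  have hpos : ∀ x ∈ rA N, 0 < lev x := fun x hx => by
    have := W.lt_lev (mem_rA.mp hx).1
    omega
  have hbd : (bdR (rA N)).Nonempty := by
    obtain ⟨z, hz⟩ := hJ
    obtain ⟨z', hz', -⟩ := exists_bd_above hpos (hjoin z hz)
    exact ⟨z', hz'⟩
  obtain ⟨v, M, hex⟩ := exists_minS (j := j) (w := w) (b := b) (θ := θ) hbd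
  have hmin : ∀ z, Hul.Jn z → v ≤ ful w z := fun z hz => min_le_ful hpos M.bd (hjoin z hz)
  have hPen' : OnePen P j (fun t => 2 ≤ b t) ∨ v ≤ (j + 1 - w) ^ 2 + 5 * (j - w) := by
    rcases hPen with h | ⟨z, hz, h⟩
    · exact Or.inl h
    · exact Or.inr ((hmin z hz).trans h)
  have hlev : ∀ z x x' : P, Cg z x x' → j + 1 ≤ lev z := by
    intro z x x' h
    by_contra hcon
    exact W.gt.no_join z (by omega) h.jn
  have hyc : ((j + 1 - w : ℕ) : ℤ) = (j : ℤ) + 1 - w := by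
    rw [Nat.cast_sub (by omega)]
    push_cast
    ring
  have hline : ∀ z x x' : P, Cg z x x' → Sok j x → Sok j x' →
      (ful w z : ℤ) = ((j + 1 - w : ℕ) : ℤ) ^ 2 + (kapZ j z * ((j : ℤ) - w) + gZ j z) := by
    intro z x x' h hs hs'
    have hl := hlev z x x' h
    rw [hyc]
    exact ful_line (by omega) (by omega) (hlow z x x' h hs hs' hl)
  have hpar : ∀ {z x x' : P}, Cg z x x' → Sok j x → Sok j x' →
      anc z = 2 * w + nst w (fun z => lev z - w) z := by
    intro z x x' h hs hs'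
    have hl := hlev z x x' h
    have h2 := hlow z x x' h hs hs' hl
    unfold anc
    obtain ⟨c, hc⟩ : ∃ c, lev z = w + c := ⟨lev z - w, by omega⟩
    rw [nst_eq, hc, Finset.sum_range_add, Nat.add_sub_cancel_left,
      Finset.sum_congr rfl (g := fun _ => 2) (fun k hk => h2 k (by
        rw [mem_range] at hk
        omega)), Finset.sum_const, card_range, smul_eq_mul, Nat.mul_comm]
  have hkp : ∀ {z : P}, (Odd (anc z) → Odd (kapZ j z)) ∧ (Even (anc z) → Even (kapZ j z)) :=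
    kap_parity
  refine ⟨v, M, ?_⟩
  have hmn : ∀ z x x' : P, Cg z x x' → Sok j x → Sok j x' →
      (v : ℤ) - ((j + 1 - w : ℕ) : ℤ) ^ 2 ≤ kapZ j z * (j - w) + gZ j z := by
    intro z x x' h hs hs'
    have h1 : (v : ℤ) ≤ ful w z := by exact_mod_cast hmin z h.jn
    rw [hline z x x' h hs hs'] at h1
    linarith
  by_cases hcap : K < v
  · have hcap' : (K : ℤ) < v := by exact_mod_cast hcap
    exact ⟨fun h => by linarith, hmn, fun h => by linarith, fun h => by linarith⟩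
  have hcv : (v : ℤ) ≤ ((j + 1 - w : ℕ) : ℤ) ^ 2 + cT := by
    rw [← hK]
    exact_mod_cast not_lt.mp hcap
  obtain ⟨ho, he⟩ := W.bothH h7 h12 hw2 L hPen' M hex (not_lt.mp hcap)
  have hsq : ∀ z x x' : P, Cg z x x' → ful w z = v → 0 ≤ (v : ℤ) - ((j + 1 - w : ℕ) : ℤ) ^ 2 := by
    intro z x x' h he
    have hl := hlev z x x' h
    obtain ⟨c, hc⟩ : ∃ c, lev z = w + c := ⟨lev z - w, by omega⟩
    have h4 := ful_ge (w := w) (z := z) (c := c) (fun _ => 0) hc
      (fun n hn1 hn2 => h.two_le H (k := w + n) (by omega))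
    simp only [mul_zero, Finset.sum_const_zero, add_zero] at h4
    have h5 : (j + 1 - w) ^ 2 ≤ c ^ 2 := Nat.pow_le_pow_left (by omega) 2
    have h6 : (j + 1 - w) ^ 2 ≤ v := by rw [← he]; exact h5.trans h4
    have h7 : (((j + 1 - w) ^ 2 : ℕ) : ℤ) ≤ v := by exact_mod_cast h6
    push_cast at h7
    linarith
  have hnzpos : ∀ {V : ℤ}, nz ((j + 1 - w : ℕ) : ℤ) V = true → 0 ≤ V := by
    intro V hV
    unfold nz at hV
    rw [List.any_eq_true] at hV
    obtain ⟨t, -, ht⟩ := hV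
    rw [decide_eq_true_eq] at ht
    have h1 : (0 : ℤ) ≤ t := Int.natCast_nonneg t
    have h2 : (1 : ℤ) ≤ ((j + 1 - w : ℕ) : ℤ) := by
      have : 1 ≤ j + 1 - w := by omega
      exact_mod_cast this
    rcases ht with ht | ht | ht <;> nlinarith
  refine ⟨fun _ => ?_, hmn, fun _ => ?_, fun _ => ?_⟩
  · rcases ho with ⟨z, x, x', h1, h2, h3, h4, h5⟩ | h | h
    · exact hl0.trans (hsq z x x' h1 h4)
    · exact (od_false h (by omega) h16 hcv hT).elim
    · exact hlO _ h
  · rcases ho with ⟨z, x, x', h1, h2, h3, h4, h5⟩ | h | h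
    · left
      refine ⟨z, x, x', h1, h2, h3, hkp.1 (by
        rw [hpar h1 h2 h3]
        exact (even_two_mul w).add_odd h5), ?_⟩
      have := hline z x x' h1 h2 h3
      rw [h4] at this
      linarith
    · exact (od_false h (by omega) h16 hcv hT).elim
    · right
      exact List.elem_iff.mpr h
  · rcases he with ⟨z, x, x', h1, h2, h3, h4, h5⟩ | h | h
    · left
      refine ⟨z, x, x', h1, h2, h3, hkp.2 (by
        rw [hpar h1 h2 h3]
        exact (even_two_mul w).add h5), ?_⟩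
      have := hline z x x' h1 h2 h3
      rw [h4] at this
      linarith
    · right
      rw [Bool.or_eq_true, Bool.and_eq_true]
      refine Or.inl ⟨ev_nz h.1 (by omega) hcv hT, ?_⟩
      rw [Bool.not_eq_true', ← Bool.not_eq_true]
      exact fun hB => h.2 (List.elem_iff.mp hB)
    · right
      rw [Bool.or_eq_true]
      exact Or.inr (List.elem_iff.mpr h)

end Pool.Agent.GaussPoset.Sm
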