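import Pool.Agent.W_448f4_h70.GT
import Pool.Agent.W_448f4_h70.GW

/-!
# The balances at the windows `2`, `3` with the larger labels and excluded own elements
(MP_448cb3_co, S7)
-/

namespace Pool.Agent.GaussPoset.Sm

set_option linter.unusedSectionVars false

open Polynomial Finset W4 Cp

universe u

variable {P : Type u} [Fintype P] [PartialOrder P] [DecidableEq P] {r j w : ℕ}
  {lo hi : Tops P → ℕ → ℕ} {e : Tops P → ℕ → ℕ → P}

/-- the inputs at window `w` for the larger labels, with excluded own elements -/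
theorem Wk.lkH {K0 K : ℕ} {N : Tops P → Finset P} {b : Tops P → ℕ} {θ : Tops P → P → ℕ}
    {XE XO BE : ℕ → Prop} (W : Wk r j w K0 N b θ) (hw2 : 2 ≤ w) (h10 : 10 ≤ j)
    (hK : 2 * K < 3 * (j + 1 - w) ^ 2 + 3 * (j + 1 - w)) (hu : Unq P w b)
    (I : InS P j w K XE XO) (C : CellsN P j w K0 K N b θ XE XO) (hk : HkS P j w K N b θ BE) :
    LkH P j w K0 K N b θ XE XO BE where
  hK := hK
  unq := hu
  nsk := fun z x x' h hl hn hns => by
    have hw := W.hw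
    exact (nsk23' h10 (by omega) hn hns).elim
  dj := fun v z x _ hz hc hl hzx hD =>
    W.dj_S hw2 (by omega) I.hfl I.hcc I.hFo I.hfv hz hc hl hzx hD
  dp := fun v z x _ hz hc hx hzx hl hD hR => W.dp_cellsN hw2 (by omega) C hz hc hx hzx hl hD hR
  dt := fun x hx hD hR => W.dt_cellsN hw2 (by omega) C hx hD hR
  hk := hk

/-- **the balance at the windows `2`, `3` with the larger labels, excluded own elements** -/
theorem Ctx.winH (K : Ctx P r j lo hi e) (hF : NoFo P j) (h10 : 10 ≤ j)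
    (h12 : j % 2 = 0 → 12 ≤ j)
    (hwj : w = 2 ∨ (w = 3 ∧ 11 ≤ j)) {c0 cT : ℕ}
    {LE LO BL : List ℤ} {lb : ℤ} {E : List (ℕ × ℕ × ℕ)} (hE : ChkE j E) (h0 : (0, 0, 0) ∈ E)
    (hb : j % 2 = 1 → ∀ s ∈ E, (s.1 : ℤ) * ((j : ℤ) - w) - s.2.1 ≤ 5 * ((j : ℤ) - w))
    (c1 : ∀ a ∈ Finset.Icc 2 ((j + 1) / 2), (j + 1 - w) ^ 2 + c0 + 1 < stC w (j + 1) a)
    (c2 : ∀ a ∈ Finset.Icc 2 (j - 1), (j + 1 - w) ^ 2 + c0 + 1 < reC w (j + 1) a)
    (hc : c0 ≤ cT)
    (hcell : ∀ (N : Tops P → Finset P) (b : Tops P → ℕ) (θ : Tops P → P → ℕ),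
      Wk r j w ((j + 1 - w) ^ 2 + c0) N b θ →
      CellsN P j w ((j + 1 - w) ^ 2 + c0) ((j + 1 - w) ^ 2 + cT) N b θ
        (XL (j + 1 - w) LE) (XL (j + 1 - w) LO))
    (hk : ∀ (N : Tops P → Finset P) (b : Tops P → ℕ) (θ : Tops P → P → ℕ),
      Wk r j w ((j + 1 - w) ^ 2 + c0) N b θ → Unq P w b →
      HkS P j w ((j + 1 - w) ^ 2 + cT) N b θ (XL (j + 1 - w) BL))
    (I : InS P j w ((j + 1 - w) ^ 2 + cT) (XL (j + 1 - w) LE) (XL (j + 1 - w) LO))
    (c6 : 2 * ((j + 1 - w) ^ 2 + cT) < 3 * (j + 1 - w) ^ 2 + 3 * (j + 1 - w))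
    (c7 : cT < 7 * (j + 1 - w) + 10)
    (hl0 : lb ≤ 0) (hlE : ∀ x ∈ LE, lb ≤ x) (hlO : ∀ x ∈ LO, lb ≤ x)
    (hJ : ∃ z : P, Hul.Jn z) :
    ∃ V, WinB P j w cT (fun V => LO.elem V) 
      (fun V => (nz ((j + 1 - w : ℕ) : ℤ) V && !(BL.elem V)) || LE.elem V)
      lb V := by
  have H := K.gt.H
  have h16 := K.h16
  have hw : w = 2 ∨ w = 3 := by omega
  have hsh : ∀ t : Tops P, lo t w = hi t w ∨ RectShape j (lo t) (hi t) ∨
      StairShape j (lo t) (hi t) ∨ StairShape j (fun k => k - hi t k) (fun k => k - lo t k) := by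
    intro t
    rcases shape_cases (K.comp t) (by omega) (K.shape t) with h | h | ⟨a, h, h3⟩
    · exact Or.inl (h w (by omega))
    · exact Or.inr (by tauto)
    · left
      have h4 := h.lt (h3 (by omega)) hwj
      rw [(h.low w (by omega)).1, (h.low w (by omega)).2]
  obtain ⟨N, θ, t1, t2, hs, hu⟩ := K.types (w := w) (by omega) hsh
  have W : Wk r j w ((j + 1 - w) ^ 2 + c0) N (fun t => hi t w - lo t w + 1) θ :=
    { gt := K.gt, hj := by omega, hw1 := by omega, hw := by omega, typ := t1, top := t2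
      sum_b := hs
      hK := by omega
      rdeep := fun C _ hx _ h1 h2 h3 h4 => rdeep_of (by omega) (by omega) c2 C hx h1 h2 h3 h4
      sdeep := fun _ _ _ _ C _ hx _ h1 h3 h4 => sdeep_of (by omega) (by omega) c1 C hx h1 h3 h4 }
  have L := W.lkH (by omega) h10 c6 hu I (hcell _ _ _ W) (hk _ _ _ W hu)
  have hlow : ∀ z x x' : P, Cg z x x' → Sok j x → Sok j x' → j + 1 ≤ lev z →
      ∀ k, k < w → nab k z = 2 := by
    intro z x x' h hs hs' hl k hk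
    rw [h.sum H (by omega), K.low_one' hF h10 hwj h hs hk, K.low_one' hF h10 hwj h.symm hs' hk]
  have hpen : OnePen P j (fun t => 2 ≤ hi t w - lo t w + 1) ∨ ∃ z : P, Hul.Jn z ∧
      ful w z ≤ (j + 1 - w) ^ 2 + 5 * (j - w) := by
    rcases K.pen_or with h | ⟨hodd, z, x, x', h1, h2, h3, h4⟩
    · left
      intro e e' p p' hB
      refine h e e' p p' ?_
      rcases shape_cases (K.comp (topOf e)) (by omega) (K.shape (topOf e)) with h | h | ⟨a, h, h3⟩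
      · have := h w (by omega)
        omega
      · exact h
      · have h4 := h.lt (h3 (by omega)) hwj
        have e1 := h.low w (by omega)
        omega
    · right
      have hs : Sok j x := ⟨fun hf => by
        have := hf.1
        have := (h1.lev_eq H).1
        omega, fun _ hf => by
        have := hf.2.1
        omega⟩
      have hs' : Sok j x' := ⟨fun hf => by
        have := hf.1
        have := (h1.lev_eq H).2
        omega, fun _ hf => by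
        have := hf.2.1
        omega⟩
      exact ⟨z, h1.jn, K.cheap (by omega) hodd hE h0 (hb hodd) h1 h2 h3 h4
        (hlow z x x' h1 hs hs' h2.ge)⟩
  obtain ⟨v, -, h⟩ := W.winBH (by omega) h12 (by omega) L h16 (cT := (cT : ℤ)) (lb := lb)
    (by push_cast; ring) (by exact_mod_cast c7) hl0 hlE hlO hlow hpen hJ
  exact ⟨_, h⟩

/-- **the balance at the window `3` for the system, with the larger labels; the least raised cost
`V` and the least cost** -/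
theorem Ctx.winSyH (K : Ctx P r j lo hi e) (h12 : 12 ≤ j) {N : Tops P → Finset P}
    {θ3 θ4 : Tops P → P → ℕ} (S : Sy P j lo hi N θ3 θ4) {c0 cT : ℕ}
    {LE LO BL : List ℤ} {lb : ℤ} {E : List (ℕ × ℕ × ℕ)} (hE : ChkE j E) (h0 : (0, 0, 0) ∈ E)
    (hb : j % 2 = 1 → ∀ s ∈ E, (s.1 : ℤ) * ((j : ℤ) - 3) - s.2.1 ≤ 5 * ((j : ℤ) - 3))
    (c1 : ∀ a ∈ Finset.Icc 2 ((j + 1) / 2), (j + 1 - 3) ^ 2 + c0 + 1 < stC 3 (j + 1) a)
    (c2 : ∀ a ∈ Finset.Icc 2 (j - 1), (j + 1 - 3) ^ 2 + c0 + 1 < reC 3 (j + 1) a)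
    (hc : c0 ≤ cT)
    (hcell : ∀ (N : Tops P → Finset P) (b : Tops P → ℕ) (θ : Tops P → P → ℕ),
      Wk r j 3 ((j + 1 - 3) ^ 2 + c0) N b θ →
      CellsN P j 3 ((j + 1 - 3) ^ 2 + c0) ((j + 1 - 3) ^ 2 + cT) N b θ
        (XL (j + 1 - 3) LE) (XL (j + 1 - 3) LO))
    (hk : ∀ (N : Tops P → Finset P) (b : Tops P → ℕ) (θ : Tops P → P → ℕ),
      Wk r j 3 ((j + 1 - 3) ^ 2 + c0) N b θ → Unq P 3 b →
      HkS P j 3 ((j + 1 - 3) ^ 2 + cT) N b θ (XL (j + 1 - 3) BL))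
    (I : InS P j 3 ((j + 1 - 3) ^ 2 + cT) (XL (j + 1 - 3) LE) (XL (j + 1 - 3) LO))
    (c6 : 2 * ((j + 1 - 3) ^ 2 + cT) < 3 * (j + 1 - 3) ^ 2 + 3 * (j + 1 - 3))
    (c7 : cT < 7 * (j + 1 - 3) + 10)
    (hl0 : lb ≤ 0) (hlE : ∀ x ∈ LE, lb ≤ x) (hlO : ∀ x ∈ LO, lb ≤ x)
    (hJ : ∃ z : P, Hul.Jn z) :
    ∃ V : ℕ, MnS j 3 N (fun t => hi t 3 - lo t 3 + 1) θ3 V ∧
      Wk r j 3 ((j + 1 - 3) ^ 2 + c0) N (fun t => hi t 3 - lo t 3 + 1) θ3 ∧
      WinB P j 3 cT (fun V => LO.elem V) 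
      (fun V => (nz ((j + 1 - 3 : ℕ) : ℤ) V && !(BL.elem V)) || LE.elem V)
        lb ((V : ℤ) - ((j + 1 - 3 : ℕ) : ℤ) ^ 2) := by
  have H := K.gt.H
  have h16 := K.h16
  have W : Wk r j 3 ((j + 1 - 3) ^ 2 + c0) N (fun t => hi t 3 - lo t 3 + 1) θ3 :=
    { gt := K.gt, hj := by omega, hw1 := by omega, hw := by omega, typ := S.typ3, top := S.top3
      sum_b := S.sum3
      hK := by omega
      rdeep := fun C _ hx _ h1 h2 h3 h4 => rdeep_of (by omega) (by omega) c2 C hx h1 h2 h3 h4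
      sdeep := fun _ _ _ _ C _ hx _ h1 h3 h4 => sdeep_of (by omega) (by omega) c1 C hx h1 h3 h4 }
  have L := W.lkH (by omega) (by omega) c6 S.unq3 I (hcell _ _ _ W) (hk _ _ _ W S.unq3)
  have hlow : ∀ z x x' : P, Cg z x x' → Sok j x → Sok j x' → j + 1 ≤ lev z →
      ∀ k, k < 3 → nab k z = 2 := by
    intro z x x' h hs hs' hl k hk
    obtain ⟨l1, l2⟩ := h.lev_eq H
    have hend : lev x = j → (Win.uc x).card = 1 := fun hh => (K.ends h (by omega)).1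
    have hend' : lev x' = j → (Win.uc x').card = 1 := fun hh => (K.ends h (by omega)).2
    rw [h.sum H (by omega), K.low_one h12 h.only (by omega) hend hs (by omega),
      K.low_one h12 h.only' (by omega) hend' hs' (by omega)]
  have hpen : OnePen P j (fun t => 2 ≤ hi t 3 - lo t 3 + 1) ∨ ∃ z : P, Hul.Jn z ∧
      ful 3 z ≤ (j + 1 - 3) ^ 2 + 5 * (j - 3) := by
    rcases K.pen_or with h | ⟨hodd, z, x, x', h1, h2, h3, h4⟩
    · left
      intro e e' p p' hB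
      refine h e e' p p' ?_
      rcases shape_cases (K.comp (topOf e)) (by omega) (K.shape (topOf e)) with h | h | ⟨a, h, h3⟩
      · have := h 3 (by omega)
        omega
      · exact h
      · have h4 := h.four (by omega)
        have e1 := h.low 3 (by omega)
        omega
    · right
      have hs : Sok j x := ⟨fun hf => by
        have := hf.1
        have := (h1.lev_eq H).1
        omega, fun _ hf => by
        have := hf.2.1
        omega⟩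
      have hs' : Sok j x' := ⟨fun hf => by
        have := hf.1
        have := (h1.lev_eq H).2
        omega, fun _ hf => by
        have := hf.2.1
        omega⟩
      exact ⟨z, h1.jn, K.cheap (w := 3) (by omega) hodd hE h0 (hb hodd) h1 h2 h3 h4
        (hlow z x x' h1 hs hs' h2.ge)⟩
  obtain ⟨V, M, h⟩ := W.winBH (by omega) (fun _ => h12) (by omega) L h16 (cT := (cT : ℤ))
    (lb := lb) (by push_cast; ring) (by exact_mod_cast c7) hl0 hlE hlO hlow hpen hJ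
  exact ⟨V, M, W, h⟩

/-- **helper27's form of the window `3`** -/
theorem Ctx.w3RH (K : Ctx P r j lo hi e) (h12 : 12 ≤ j) {c0 cT : ℕ}
    {LE LO BL : List ℤ} {lb : ℤ} {E : List (ℕ × ℕ × ℕ)} (hE : ChkE j E) (h0 : (0, 0, 0) ∈ E)
    (hb : j % 2 = 1 → ∀ s ∈ E, (s.1 : ℤ) * ((j : ℤ) - 3) - s.2.1 ≤ 5 * ((j : ℤ) - 3))
    (c1 : ∀ a ∈ Finset.Icc 2 ((j + 1) / 2), (j + 1 - 3) ^ 2 + c0 + 1 < stC 3 (j + 1) a)
    (c2 : ∀ a ∈ Finset.Icc 2 (j - 1), (j + 1 - 3) ^ 2 + c0 + 1 < reC 3 (j + 1) a)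
    (hc : c0 ≤ cT)
    (hcell : ∀ (N : Tops P → Finset P) (b : Tops P → ℕ) (θ : Tops P → P → ℕ),
      Wk r j 3 ((j + 1 - 3) ^ 2 + c0) N b θ →
      CellsN P j 3 ((j + 1 - 3) ^ 2 + c0) ((j + 1 - 3) ^ 2 + cT) N b θ
        (XL (j + 1 - 3) LE) (XL (j + 1 - 3) LO))
    (hk : ∀ (N : Tops P → Finset P) (b : Tops P → ℕ) (θ : Tops P → P → ℕ),
      Wk r j 3 ((j + 1 - 3) ^ 2 + c0) N b θ → Unq P 3 b →
      HkS P j 3 ((j + 1 - 3) ^ 2 + cT) N b θ (XL (j + 1 - 3) BL))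
    (I : InS P j 3 ((j + 1 - 3) ^ 2 + cT) (XL (j + 1 - 3) LE) (XL (j + 1 - 3) LO))
    (hCC : j % 2 = 0 → NoCC P j)
    (c6 : 2 * ((j + 1 - 3) ^ 2 + cT) < 3 * (j + 1 - 3) ^ 2 + 3 * (j + 1 - 3))
    (c7 : cT < 7 * (j + 1 - 3) + 10)
    (hl0 : lb ≤ 0) (hlE : ∀ x ∈ LE, lb ≤ x) (hlO : ∀ x ∈ LO, lb ≤ x) :
    W3R P r j lo hi cT (fun V => LO.elem V)
      (fun V => (nz ((j + 1 - 3 : ℕ) : ℤ) V && !(BL.elem V)) || LE.elem V) lb (stC 3 (j + 1) 2 - 1) := by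
  intro N θ3 θ4 S hJ
  obtain ⟨V, M, W, h⟩ := K.winSyH h12 S hE h0 hb c1 c2 hc hcell hk I c6 c7 hl0 hlE hlO hJ
  have hcc : ∀ z, ¬ CEl j 3 N θ3 z := fun z hz =>
    (hCC (W.cel_nab (by omega) hz).2.1).not_cel W (by omega) hz
  obtain ⟨v, M', hex⟩ := exists_minK W (bdR_nonempty W hJ)
  obtain ⟨h1, h2⟩ := W.mn_of_mnS hcc M hex
  exact ⟨_, v, V, M', h1, h2, W, h⟩

end Pool.Agent.GaussPoset.Sm
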