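import Pool.Agent.W_448f4_h70.HE
import Pool.Agent.W_448f4_h70.GT
import Pool.Agent.W_448pg_h74.WtB
import Pool.Agent.W_448s7_h27.PhK

/-!
# The own noise at window `4` from the least raised cost at window `3`; `j = 15`
(MP_448cb3_co, S7)
-/

namespace Pool.Agent.GaussPoset.Sm

set_option linter.unusedSectionVars false

open Polynomial Finset W4 Cp Ec

universe u

variable {P : Type u} [Fintype P] [PartialOrder P] [DecidableEq P] {r j w K0 : ℕ}
  {N : Tops P → Finset P} {b : Tops P → ℕ} {θ θ3 θ4 : Tops P → P → ℕ}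

/-- own noise from the windows `3`, `4`, with exceptional twins -/
theorem own_of5 {K3 K V3 : ℕ} (Y : Y5 r j K3 K V3 N b θ3 θ4) (hno : HnO P j K)
    {n : ℕ} (hn : n ≤ K) (hjn : ∀ z x x' : P, Cg z x x' → n ≤ ful 4 z) :
    OwnN j n N θ3 θ4 := by
  obtain ⟨h1, h2, h3⟩ := Y.own_noise hno hn hjn
  refine ⟨h1, fun x hx => ?_, fun x hx h => ?_, fun z hz hc => ?_⟩
  · rcases h2 x hx with h | h
    · exact h.le
    · exact h.1
  · rcases h2 x hx with h' | h'
    · omega
    · exact h'.2
  · exact Or.inl ⟨(h3 z hz hc).1, (h3 z hz hc).2.1, by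
      rw [hc]; exact (h3 z hz hc).2.2.1, (h3 z hz hc).2.2.2⟩

/-- **own noise at window `4`** from the least raised cost `V` at window `3`; the special twins,
if there are any, cost `stC 4 (j + 1) 2 - 1` at the window `4` -/
theorem own_mnS {lo hi : Tops P → ℕ → ℕ} {K3 K V3 V n : ℕ}
    (S : Sy P j lo hi N θ3 θ4) (W : Wk r j 3 K3 N (fun t => hi t 3 - lo t 3 + 1) θ3)
    (hcc : ∀ z, ¬ CEl j 3 N θ3 z) (hno : HnO P j K)
    (MS : MnS j 3 N (fun t => hi t 3 - lo t 3 + 1) θ3 V) (hV : V3 ≤ V)
    (hV3 : V3 ≤ stC 3 (j + 1) 2) (hs : K < stC 4 (j + 1) 2) (nm : Nm j K V3) (hn : n ≤ K)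
    (hjn : ∀ z x x' : P, Cg z x x' → n ≤ ful 4 z) : OwnN j n N θ3 θ4 := by
  have Y : Y5 r j K3 K V3 N (fun t => hi t 3 - lo t 3 + 1) θ3 θ4 :=
    { W := W
      typ := S.typ
      m3 := fun z hz => by
        have := W.bd_of_mnS hcc MS hz
        omega
      m3' := fun x hx => by
        by_cases hsp : Spc j 3 N (fun t => hi t 3 - lo t 3 + 1) θ3 (twT N x)
        · right
          obtain ⟨Nc, co, C⟩ := hsp
          have hj := nm.hj
          have hl := C.lev (by omega)
          have hth := C.th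
          refine ⟨fun h => ?_, fun _ => ⟨?_, ?_⟩⟩
          · have := h.th
            omega
          · rw [hl, cst_stair (w := 4) (L := j + 1) (h := j + 1 - 4 - 1) C.nat.chart C.mem hl
              (by omega), C.co_eq]
            unfold stC at hs
            exact hs
          · have h1 := C.nab (by omega) (k := 4) (by omega)
            have h2 := C.nab (by omega) (k := j) (by omega)
            rw [hl, Nat.add_sub_cancel]
            omega
        · left
          have h1 := MS.tw x hx
          unfold tcS at h1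
          rw [if_neg hsp] at h1
          omega
      n := nm }
  exact own_of5 Y hno hn hjn

variable {lo hi : Tops P → ℕ → ℕ} {e : Tops P → ℕ → ℕ → P}

/-- **the window `3` for `j = 15`** -/
theorem Ctx.w3q15 (K : Ctx P r 15 lo hi e) :
    W3Q P r 15 lo hi 84 (nof15 3) (nef15 3) 0 (13 ^ 2 + 76) (Q15 P) := by
  intro N θ3 θ4 S hJ
  obtain ⟨V, M, W, h⟩ := K.winSyN (by norm_num) S (c0 := 72) (cT := 84)
    (LE := [76, 77]) (LO := [73, 74, 78, 79]) (lb := 0)
    chkEr15 (by decide +kernel) (by decide +kernel) (by decide +kernel) (by decide +kernel)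
    (by norm_num) (fun N b θ W => W.cellsS (by norm_num) numS_15_3)
    { hfl := fun _ => Or.inl (by decide +kernel)
      hcc := fun h => absurd h (by norm_num)
      hFo := fun h => absurd h (by norm_num)
      hfv := fun h => absurd h (by norm_num) }
    (by norm_num) (by norm_num) le_rfl (by decide) (by decide) hJ
  have hcc : ∀ z, ¬ CEl 15 3 N θ3 z := fun z hz => by
    have := (W.cel_nab (by omega) hz).2.1
    omega
  obtain ⟨v, M', hex⟩ := exists_minK W (bdR_nonempty W hJ)
  obtain ⟨h1, h2⟩ := W.mn_of_mnS hcc M hex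
  have e1 : stC 3 (15 + 1) 2 = 13 ^ 2 + 77 := by decide +kernel
  rw [e1] at h1 h2
  refine ⟨_, v, V, M', h1, h2, W, ?_, ?_⟩
  · exact h.mono le_rfl (fun v _ h => h) (fun v _ h => h) le_rfl
  · intro hV hj
    exact own_mnS S W hcc (hnO_odd (by norm_num)) M hV (by rw [e1]) (by decide +kernel)
      nm_15_64 le_rfl hj

/-- **S7 for `j = 15`** -/
theorem Ctx.no_join15 (K : Ctx P r 15 lo hi e) {z : P} (hl : lev z = 16) : ¬ Hul.Jn z :=
  Sm.no_join15 K K.w3q15 hl

end Pool.Agent.GaussPoset.Sm
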