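import Pool.Agent.W_448f4_h70.HB

/-!
# The windows `3`, `4` with exceptional twins: flat elements, row `1` (MP_448cb3_co, S7)
-/

namespace Pool.Agent.GaussPoset.W4

set_option linter.unusedSectionVars false

open Polynomial Finset Sm

universe u

variable {P : Type u} [Fintype P] [PartialOrder P] [DecidableEq P] {r j K3 K V3 : ℕ}
  {N : Tops P → Finset P} {b : Tops P → ℕ} {θ3 θ4 : Tops P → P → ℕ}

/-- a cheapest boundary element without deep covers is flat -/
theorem Y5.flat (Y : Y5 r j K3 K V3 N b θ3 θ4) {v : ℕ} (M : Mn j 4 N θ4 v) {z : P}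
    (hz : z ∈ bdR (rA N)) (hc : cst 4 (hA N θ4) z = v)
    (hnd : ∀ x, x ∉ rA N → z ⋖ x → ¬ Dy j K V3 N θ3 θ4 (GaussPoset.bs N x)) :
    FlatY j N θ3 θ4 z ∧ lev z ≤ hA N θ4 z + 1 + 4 := by
  have H := Y.W.gt.H.gradedBelow
  have hj := Y.n.hj
  have hlz := Y.W.bd_lev hz
  have hkd : ∀ x, x ∉ rA N → z ⋖ x →
      (Str 3 N θ3 (GaussPoset.bs N x) ∧ Str 4 N θ4 (GaussPoset.bs N x)) ∨
      (Row1 j 3 N θ3 (GaussPoset.bs N x) ∧ Row1 j 4 N θ4 (GaussPoset.bs N x)) := by
    intro x hx hzx
    have g6 := Y.bs hx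
    have e1 := H.lev_covBy hzx
    have e3 := g6.lev
    rcases Y.cases g6.nat (by omega) with h | h | h
    · exact Or.inl h
    · exact Or.inr h
    · exact absurd h (hnd x hx hzx)
  have hge : lev z ≤ hA N θ4 z + 1 + 4 := by
    obtain ⟨x0, g1, g2, g3⟩ := Y.hA_spec hz
    have g7 := Y.bs g1
    have e2 := H.lev_covBy g2
    have e4 := g7.lev
    rcases hkd x0 g1 g2 with h | h
    · have := h.2.th
      omega
    · have := h.2.th
      omega
  refine ⟨?_, hge⟩
  intro x hzx
  have hxR : x ∉ rA N := by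
    refine no_cover_of_min H (fun x hx => ?_) M.bd (fun z hz => ?_) hz hc (by omega) hzx
    · have := Y.W.lt_lev (mem_rA.mp hx).1
      omega
    · obtain ⟨x0, g1, g2, g3⟩ := Y.hA_spec hz
      omega
  have hxt : x ∉ twA N := by
    intro hxt
    have e1 := H.lev_covBy hzx
    obtain ⟨g1, g2⟩ := Y.tw_cases hxt
    have hbs : GaussPoset.bs N x = twT N x := by
      unfold GaussPoset.bs
      rw [if_pos hxt]
    have g6 := Y.bs hxR
    rw [hbs] at g6
    have hR : Row1 j 4 N θ4 (twT N x) := by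
      rcases g2 with h | h
      · exact h.2
      · exact absurd (hbs ▸ h) (hnd x hxR hzx)
    obtain ⟨a, ha⟩ : ∃ a, lev x = 4 + a := ⟨lev x - 4, by have := g6.lev; omega⟩
    have g7 := Y.tcst_row1 hxt hR ha
    have g8 := M.tw x hxt
    have g9 := cst_step (i := 4) (h := hA N θ4) H hzx (by omega)
    have g10 : ful 4 x = a ^ 2 := ful_two ha (fun k hk1 hk2 => by
      have := hR.nab k hk1.le (by rw [g6.lev]; exact hk2)
      rcases g6.nab k with h | h
      · rw [← h]; exact this
      · omega)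
    rw [g10, hc] at g9
    have : a ≤ min (hA N θ4 z) (lev z - 4) := by
      rw [Nat.le_min]
      omega
    omega
  rcases not_mem_rA.mp hxR with h | h
  · have hbs : GaussPoset.bs N x = x := by
      unfold GaussPoset.bs
      rw [if_neg hxt]
    have := hkd x hxR hzx
    rw [hbs] at this
    exact ⟨h, this⟩
  · exact absurd h hxt

/-- a flat element below a cell of row `1` is expensive -/
theorem Y5.row1_out (Y : Y5 r j K3 K V3 N b θ3 θ4) {z : P} (hz : z ∈ bdR (rA N))
    (hF : FlatY j N θ3 θ4 z) (hge : lev z ≤ hA N θ4 z + 1 + 4) {x : P}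
    (hzx : z ⋖ x) (hR3 : Row1 j 3 N θ3 x) (hR : Row1 j 4 N θ4 x) :
    K < cst 4 (hA N θ4) z := by
  classical
  have H := Y.W.gt.H
  have hj := Y.n.hj
  have hzR := (mem_bdR.mp hz).1
  have hlz := Y.W.bd_lev hz
  have e1 := (H.covBy_iff.mp hzx).2
  have hx := (hF x hzx).1
  have hbs : GaussPoset.bs N x = x := by
    unfold GaussPoset.bs
    rw [if_neg (Y.W.not_tw hx)]
  have hle := Y.hA_le (not_mem_rA.mpr (Or.inl hx)) hzx
  rw [hbs] at hle
  have hRt := hR.th
  have hRt3 := hR3.th
  obtain ⟨a, ha⟩ : ∃ a, lev x = 4 + a := ⟨lev x - 4, by omega⟩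
  have hha : hA N θ4 z = a := by omega
  by_cases honly : ∀ y, z ⋖ y → y = x
  · -- a pendant
    have hlx : lev x ≠ j := fun h => hR.nopen h z hzx honly
    have h3 : hA N θ3 z = a + 1 := by
      obtain ⟨x0, g1, g2, g3⟩ := Y.W.hA_spec hz
      rw [honly x0 g2, hbs] at g3
      omega
    have c4 : cst 4 (hA N θ4) z = a ^ 2 + a := by
      rw [cst_only H.gradedBelow hzx honly, hha, cst_eq_ful (by omega),
        ful_two ha (fun k hk1 hk2 => hR.nab k hk1.le hk2), Nat.min_eq_left (by omega)]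
    have c3 : cst 3 (hA N θ3) z = (a + 1) ^ 2 + (a + 1) := by
      rw [cst_only H.gradedBelow hzx honly, h3, cst_eq_ful (by omega),
        ful_two (a := a + 1) (by omega) (fun k hk1 hk2 => hR3.nab k hk1.le hk2),
        Nat.min_eq_left (by omega)]
    have h7 := Y.m3 z hz
    rw [c3] at h7
    rw [c4]
    by_contra hcon
    obtain ⟨t, ht⟩ : ∃ t, a = j - 3 + t := ⟨a - (j - 3), by omega⟩
    have h8 : t < 3 := by
      by_contra h9
      have h10 : (j - 3 + 3) ^ 2 ≤ a ^ 2 := Nat.pow_le_pow_left (by omega) 2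
      have := Y.n.kk
      omega
    have h9 := Y.n.row t (Finset.mem_range.mpr h8) (by rw [← ht]; omega)
    rw [← ht] at h9
    have := h9.2 (by omega)
    omega
  · -- a pair
    push Not at honly
    obtain ⟨x', hzx', hne'⟩ := honly
    have hne : x ≠ x' := Ne.symm hne'
    have e2 := (H.covBy_iff.mp hzx').2
    have hx' := (hF x' hzx').1
    have hlx : lev x ≠ j := by
      intro h
      have := (Y.W.near hzR (by omega) hzx hzx' hne).1
      have := hR.dbl
      omega
    have hk' : Str 3 N θ3 x' ∨ Row1 j 3 N θ3 x' := (hF x' hzx').2.imp And.left And.left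
    have h3 : ∀ k, 3 ≤ k → k < lev x → 3 ≤ nab k z := fun k hk1 hk3 =>
      Y.W.row1_three hzR hx hx' hzx hzx' hne hR3 hk' (by omega) hk1 hk3
    have h4 : 2 ≤ nab (lev x) z := two_le_nab hzx.1.le hzx'.1.le rfl (by omega) hne
    have h5 : ∑ n ∈ range a, n * 3 + a * 2 + a ≤ cst 4 (hA N θ4) z := by
      rw [cst_shift (a := a + 1) (by omega), Finset.sum_range_succ
        (fun n => min (hA N θ4 z) n * nab (4 + n) z), Finset.sum_range_succ
        (fun n => min (hA N θ4 z) n * nab (4 + n) z), hha]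
      refine Nat.add_le_add (Nat.add_le_add ?_ ?_) ?_
      · refine Finset.sum_le_sum fun n hn => ?_
        rw [mem_range] at hn
        rw [Nat.min_eq_right hn.le]
        exact Nat.mul_le_mul_left _ (h3 _ (by omega) (by omega))
      · rw [Nat.min_self, ← ha]
        exact Nat.mul_le_mul_left _ h4
      · rw [show 4 + (a + 1) = lev z by omega, nab_self, mul_one]
        exact Nat.le_min.mpr ⟨le_rfl, by omega⟩
    have h6 := Finset.sum_range_id_mul_two a
    rw [← Finset.sum_mul] at h5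
    have hK := Y.n.k3
    have h7 : (j - 3) ^ 2 ≤ a ^ 2 := Nat.pow_le_pow_left (by omega) 2
    have h8 : a * (a - 1) + a = a ^ 2 := by
      obtain ⟨c, rfl⟩ : ∃ c, a = c + 1 := ⟨a - 1, by omega⟩
      rw [Nat.add_sub_cancel]
      ring
    omega

end Pool.Agent.GaussPoset.W4
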