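import Pool.Agent.W_448f4_h70.GF

/-!
The cone of the cell `(A, A + 3)` of a stair at the window `2 A + 2`: order two at the energies
`≤ 2` (MP_448cb3_co, S7, windows 2, 3).
-/

namespace Pool.Agent.GaussPoset

set_option linter.unusedSectionVars false

open Polynomial Finset OrderDual

universe u

section Cone

variable {Q : Type u} [Fintype Q] [PartialOrder Q] [DecidableEq Q]

/-- the cone of the cell `(A, A + 3)` of a stair -/
structure ConeG (Q : Type u) [Fintype Q] [PartialOrder Q] (co : Q → ℕ × ℕ) (A : ℕ) : Prop where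
  inj : Function.Injective co
  le_iff : ∀ x y : Q, x ≤ y ↔ co y ≤ co x
  mem : ∀ x, (co x).1 ≤ A ∧ (co x).1 ≤ (co x).2 ∧ (co x).2 ≤ A + 3
  surj : ∀ a b, a ≤ A → a ≤ b → b ≤ A + 3 → ∃ x, co x = (a, b)

variable {co : Q → ℕ × ℕ} {A : ℕ}

lemma ConeG.lev (H : ConeG Q co A) (x : Q) : lev x = (co x).1 + (co x).2 := by
  refine lev_co co H.le_iff (fun x hx => ?_) x
  have hdx := H.mem x
  rcases Nat.eq_zero_or_pos (co x).1 with h | h
  · have h2 : 0 < (co x).2 := by
      rcases Nat.eq_zero_or_pos (co x).2 with h3 | h3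
      · exact absurd (Prod.ext h h3) hx
      · exact h3
    obtain ⟨z, hz⟩ := H.surj (co x).1 ((co x).2 - 1) (by omega) (by omega) (by omega)
    refine ⟨z, by rw [hz]; exact ⟨le_rfl, Nat.sub_le _ _⟩, ?_⟩
    rw [hz]
    simp only
    omega
  · obtain ⟨z, hz⟩ := H.surj ((co x).1 - 1) (co x).2 (by omega) (by omega) (by omega)
    refine ⟨z, by rw [hz]; exact ⟨Nat.sub_le _ _, le_rfl⟩, ?_⟩
    rw [hz]
    simp only
    omega

/-- the dual coordinates -/
def ConeG.dc (co : Q → ℕ × ℕ) (A : ℕ) (x : Qᵒᵈ) : ℕ × ℕ :=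
  (A - (co (ofDual x)).1, A + 3 - (co (ofDual x)).2)

lemma ConeG.dc_le (H : ConeG Q co A) (x y : Qᵒᵈ) :
    x ≤ y ↔ ConeG.dc co A y ≤ ConeG.dc co A x := by
  have h1 : x ≤ y ↔ ofDual y ≤ ofDual x := Iff.rfl
  rw [h1, H.le_iff]
  have hx := H.mem (ofDual x)
  have hy := H.mem (ofDual y)
  unfold ConeG.dc
  rw [Prod.le_def, Prod.le_def]
  simp only
  omega

lemma ConeG.dc_inj (H : ConeG Q co A) : Function.Injective (ConeG.dc co A) := by
  intro x y h
  have h1 := (H.dc_le x y).2 h.symm.le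
  have h2 := (H.dc_le y x).2 h.le
  exact le_antisymm h1 h2

lemma ConeG.dc_surj (H : ConeG Q co A) {a b : ℕ} (ha : a ≤ A) (hb : b ≤ A + 3)
    (hab : b ≤ 3 + a) : ∃ x, ConeG.dc co A x = (a, b) := by
  obtain ⟨x, hx⟩ := H.surj (A - a) (A + 3 - b) (by omega) (by omega) (by omega)
  refine ⟨toDual x, ?_⟩
  unfold ConeG.dc
  rw [ofDual_toDual, hx]
  simp only
  exact Prod.ext (by simp only; omega) (by simp only; omega)

lemma ConeG.lev_dual (H : ConeG Q co A) (x : Qᵒᵈ) :
    Pool.Agent.GaussPoset.lev x = (ConeG.dc co A x).1 + (ConeG.dc co A x).2 := by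
  refine lev_co (ConeG.dc co A) H.dc_le (fun x hx => ?_) x
  have hm := H.mem (ofDual x)
  have e1 : (ConeG.dc co A x).1 = A - (co (ofDual x)).1 := rfl
  have e2 : (ConeG.dc co A x).2 = A + 3 - (co (ofDual x)).2 := rfl
  by_cases h : 0 < (ConeG.dc co A x).2
  · obtain ⟨z, hz⟩ := H.dc_surj (a := (ConeG.dc co A x).1) (b := (ConeG.dc co A x).2 - 1)
      (by omega) (by omega) (by omega)
    refine ⟨z, by rw [hz]; exact ⟨le_rfl, Nat.sub_le _ _⟩, ?_⟩
    rw [hz]
    simp only
    omega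
  · have h2 : 0 < (ConeG.dc co A x).1 := by
      rcases Nat.eq_zero_or_pos (ConeG.dc co A x).1 with h3 | h3
      · exact absurd (Prod.ext h3 (by simp only; omega)) hx
      · exact h3
    obtain ⟨z, hz⟩ := H.dc_surj (a := (ConeG.dc co A x).1 - 1) (b := (ConeG.dc co A x).2)
      (by omega) (by omega) (by omega)
    refine ⟨z, by rw [hz]; exact ⟨Nat.sub_le _ _, le_rfl⟩, ?_⟩
    rw [hz]
    simp only
    omega

lemma ConeG.pure (H : ConeG Q co A) : Pure' Q (A + (A + 3)) where
  cov := by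
    intro x y hxy
    have h1 := (H.le_iff x y).1 hxy.1.le
    have hx := H.mem x
    have hy := H.mem y
    have h2 : ¬ co x ≤ co y := fun h => not_le_of_gt hxy.1 ((H.le_iff y x).2 h)
    rw [Prod.le_def] at h1 h2
    rw [H.lev, H.lev]
    have key : ∀ a b, a ≤ A → a ≤ b → b ≤ A + 3 → co y ≤ (a, b) → (a, b) ≤ co x →
        a + b + 1 = (co x).1 + (co x).2 → (co x).1 + (co x).2 = (co y).1 + (co y).2 + 1 := by
      intro a b g1 g2 g3 g4 g5 g6
      obtain ⟨z, hz⟩ := H.surj a b g1 g2 g3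
      have h3 : x ≤ z := (H.le_iff x z).2 (by rw [hz]; exact g5)
      have h4 : z ≤ y := (H.le_iff z y).2 (by rw [hz]; exact g4)
      have h5 : x < z := by
        refine lt_of_le_of_ne h3 ?_
        rintro rfl
        rw [hz] at g6
        simp only at g6
        omega
      have h6 : z = y := by
        by_contra h7
        exact hxy.2 h5 (lt_of_le_of_ne h4 h7)
      rw [← h6, hz]
      simp only
      omega
    by_cases h3 : (co y).1 < (co x).1
    · exact key ((co x).1 - 1) (co x).2 (by omega) (by omega) (by omega)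
        ⟨by simp only; omega, h1.2⟩ ⟨Nat.sub_le _ _, le_rfl⟩ (by omega)
    · exact key (co x).1 ((co x).2 - 1) (by omega) (by omega) (by omega)
        ⟨h1.1, by simp only; omega⟩ ⟨le_rfl, Nat.sub_le _ _⟩ (by omega)
  le := by
    intro x
    have := H.mem x
    rw [H.lev]
    omega
  dual := by
    intro x
    have := H.mem x
    rw [H.lev_dual, H.lev]
    unfold ConeG.dc
    simp only [ofDual_toDual]
    omega

/-- **The cone of the cell `(A, A + 3)` of a stair has order two at the window `2 A + 2`.** -/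
theorem ConeG.dvd (H : ConeG Q co A) (hA : 2 ≤ A) {n : ℕ} (hn : n ≤ 2) :
    (1 + X : ℤ[X]) ^ 2 ∣ Z Q (A + (A + 3) - 1) n := by
  classical
  refine dvd_Z_dual H.pure (by omega) ?_
  have e0 : A + (A + 3) - (A + (A + 3) - 1) = 1 := by omega
  rw [e0]
  set D : Finset Qᵒᵈ := univ.filter (fun x : Qᵒᵈ => (co (ofDual x)).2 < A) with hDdef
  have hmD : ∀ x : Qᵒᵈ, x ∈ D ↔ (co (ofDual x)).2 < A := by
    intro x
    rw [hDdef, mem_filter]
    exact ⟨fun h => h.2, fun h => ⟨mem_univ _, h⟩⟩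
  have hDl : ∀ x y : Qᵒᵈ, x ≤ y → y ∈ D → x ∈ D := by
    intro x y hxy hy
    rw [hmD] at hy ⊢
    have h1 : ofDual y ≤ ofDual x := hxy
    rw [H.le_iff, Prod.le_def] at h1
    omega
  have hlev : ∀ x ∈ D, 1 < Pool.Agent.GaussPoset.lev x := by
    intro x hx
    rw [hmD] at hx
    rw [H.lev_dual]
    unfold ConeG.dc
    simp only
    omega
  rw [Z_cut hDl hlev ?_]
  · refine young_trunc (fun x : {x : Qᵒᵈ // x ∉ D} => ConeG.dc co A x) ?_ ?_ ?_ (i := 1) (k := 2)
      (J := 2) (by omega) (by omega) ?_ (by omega)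
    · intro x y h
      exact Subtype.ext (H.dc_inj h)
    · intro x y
      exact H.dc_le x y
    · intro x c hc
      have h1 := x.2
      rw [hmD] at h1
      rw [Prod.le_def] at hc
      have hm := H.mem (ofDual (x : Qᵒᵈ))
      have e1 : (ConeG.dc co A (x : Qᵒᵈ)).1 = A - (co (ofDual (x : Qᵒᵈ))).1 := rfl
      have e2 : (ConeG.dc co A (x : Qᵒᵈ)).2 = A + 3 - (co (ofDual (x : Qᵒᵈ))).2 := rfl
      obtain ⟨y, hy⟩ := H.dc_surj (a := c.1) (b := c.2) (by omega) (by omega) (by omega)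
      have e3 : (ConeG.dc co A y).2 = A + 3 - (co (ofDual y)).2 := rfl
      refine ⟨⟨y, ?_⟩, by rw [hy]⟩
      rw [hmD]
      rw [hy] at e3
      omega
    · intro s c hs hc _
      obtain ⟨y, hy⟩ := H.dc_surj (a := s) (b := c) (by omega) (by omega) (by omega)
      have e3 : (ConeG.dc co A y).2 = A + 3 - (co (ofDual y)).2 := rfl
      refine ⟨⟨y, ?_⟩, by rw [hy]⟩
      rw [hmD]
      rw [hy] at e3
      simp only at e3
      omega
  · intro z hz
    rw [hmD] at hz
    have hmz := H.mem (ofDual z)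
    rw [ncone_eq]
    have h1 : ({(0, 2), (0, 3), (1, 1)} : Finset (ℕ × ℕ)) ⊆
        (univ.filter (fun x : Qᵒᵈ => z ≤ x ∧ 1 < Pool.Agent.GaussPoset.lev x)).image
          (ConeG.dc co A) := by
      intro c hc
      have hcc : c = (0, 2) ∨ c = (0, 3) ∨ c = (1, 1) := by
        simpa using hc
      obtain ⟨y, hy⟩ := H.dc_surj (a := c.1) (b := c.2)
        (by rcases hcc with rfl | rfl | rfl <;> simp only <;> omega)
        (by rcases hcc with rfl | rfl | rfl <;> simp only <;> omega)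
        (by rcases hcc with rfl | rfl | rfl <;> simp only <;> omega)
      rw [mem_image]
      refine ⟨y, ?_, hy⟩
      rw [mem_filter]
      refine ⟨mem_univ _, ?_, ?_⟩
      · rw [H.dc_le, hy, Prod.le_def]
        unfold ConeG.dc
        rcases hcc with rfl | rfl | rfl <;> simp only <;> omega
      · rw [H.lev_dual, hy]
        rcases hcc with rfl | rfl | rfl <;> simp only <;> omega
    have h2 := card_le_card h1
    have h3 : ({(0, 2), (0, 3), (1, 1)} : Finset (ℕ × ℕ)).card = 3 := by decide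
    rw [h3] at h2
    exact lt_of_lt_of_le (by omega) (h2.trans card_image_le)

end Cone

namespace F4

variable {P : Type u} [Fintype P] [PartialOrder P] [DecidableEq P]

/-- the cone of `x` is the cone of the cell `(A, A + 3)` of a stair -/
structure ConeAtG (x : P) (co : P → ℕ × ℕ) (A : ℕ) : Prop where
  le_iff : ∀ y z, x ≤ y → x ≤ z → (y ≤ z ↔ co z ≤ co y)
  mem : ∀ y, x ≤ y → (co y).1 ≤ A ∧ (co y).1 ≤ (co y).2 ∧ (co y).2 ≤ A + 3
  surj : ∀ a b, a ≤ A → a ≤ b → b ≤ A + 3 → ∃ y, x ≤ y ∧ co y = (a, b)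

variable {p : P → Prop} [DecidablePred p]

/-- **order two of a part with the full bound at the cell `(A, A + 3)`, for own energies at most
2** -/
theorem part_coneG (hp : ∀ x y, x ≤ y → p x → p y) {i h A : ℕ} {x : P} (hx : p x)
    {co : P → ℕ × ℕ} (C : ConeAtG x co A) (hih : i + h = A + (A + 3) - 1) (hA : 2 ≤ A)
    (hh : 3 ≤ h) (hlow : ∀ y, p y → lev y ≤ i + 2 → x ≤ y)
    {B : {x // p x} → ℕ} (hB : ∀ y, B y ≤ h) (hBx : B ⟨x, hx⟩ = h) {n : ℕ}
    (hn : n ≤ Efs i h x x + 2) : (1 + X : ℤ[X]) ^ 2 ∣ ZB (P := {x // p x}) i ∅ 0 B n := by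
  classical
  refine ZB_dvd_upL (m := Efs i h x x + 2) hB (fun L hL hBL c hc => ?_) hn
  have hl : ∀ x : {x // p x}, lev x = lev (x : P) := lev_subtype hp
  have hxL : (⟨x, hx⟩ : {x // p x}) ∈ L := hBL _ hBx
  have hsum : ∑ x ∈ L, min h (lev x - i) =
      ∑ y ∈ L.map (Function.Embedding.subtype p), min h (lev y - i) := by
    rw [Finset.sum_map]
    refine Finset.sum_congr rfl fun x _ => ?_
    rw [hl]
    rfl
  rw [hsum] at hc
  have hsub : univ.filter (fun y : P => x ≤ y ∨ x ≤ y) ⊆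
      L.map (Function.Embedding.subtype p) := by
    intro y hy
    rw [mem_filter, or_self] at hy
    rw [mem_map]
    exact ⟨⟨y, hp _ _ hy.2 hx⟩, hL ⟨x, hx⟩ _ hy.2 hxL, rfl⟩
  have hE : Efs i h x x ≤ ∑ y ∈ L.map (Function.Embedding.subtype p), min h (lev y - i) := by
    unfold Efs
    exact Finset.sum_le_sum_of_subset hsub
  have hall : ∀ y ∈ L, x ≤ (y : P) := by
    intro y hy
    by_contra hcon
    have h3 : i + 2 < lev (y : P) := by
      by_contra h4
      exact hcon (hlow y y.2 (not_lt.mp h4))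
    have h5 : insert (y : P) (univ.filter (fun y : P => x ≤ y ∨ x ≤ y)) ⊆
        L.map (Function.Embedding.subtype p) := by
      intro z hz
      rw [mem_insert] at hz
      rcases hz with rfl | hz
      · rw [mem_map]; exact ⟨y, hy, rfl⟩
      · exact hsub hz
    have h6 := Finset.sum_le_sum_of_subset (f := fun y : P => min h (lev y - i)) h5
    rw [Finset.sum_insert (by
      rw [mem_filter, or_self]
      exact fun h => hcon h.2)] at h6
    have h7 : Efs i h x x = ∑ y ∈ univ.filter (fun y : P => x ≤ y ∨ x ≤ y), min h (lev y - i) := by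
      unfold Efs
      rfl
    have h8 : 2 < min h (lev (y : P) - i) := by
      rw [lt_min_iff]
      omega
    omega
  have hc2 : c ≤ 2 := by omega
  have hmemL : ∀ y (hy : x ≤ y), (⟨y, hp _ _ hy hx⟩ : {x // p x}) ∈ L := fun y hy =>
    hL ⟨x, hx⟩ _ hy hxL
  have H : ConeG {y // y ∈ L} (fun y => co (y : {x // p x})) A := by
    refine ⟨?_, ?_, ?_, ?_⟩
    · intro y z hyz
      simp only at hyz
      have h1 := (C.le_iff _ _ (hall _ y.2) (hall _ z.2)).2 hyz.ge
      have h2 := (C.le_iff _ _ (hall _ z.2) (hall _ y.2)).2 hyz.le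
      exact Subtype.ext (Subtype.ext (le_antisymm h1 h2))
    · intro y z
      exact C.le_iff _ _ (hall _ y.2) (hall _ z.2)
    · intro y
      exact C.mem _ (hall _ y.2)
    · intro a b h1 h2 h3
      obtain ⟨y, hy, hco⟩ := C.surj a b h1 h2 h3
      exact ⟨⟨⟨y, hp _ _ hy hx⟩, hmemL y hy⟩, hco⟩
  rw [hih]
  exact H.dvd hA hc2

end F4

end Pool.Agent.GaussPoset
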