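import Pool.Agent.W_448f4_h70.IA
import Pool.Agent.W_448f4_h70.GK

/-!
# The flips: pendants below the cell `(A, A + 3)` of level `j`; the far window theorem with the
larger labels (MP_448cb3_co, S7, windows 2, 3)
-/

namespace Pool.Agent.GaussPoset.Sm

set_option linter.unusedSectionVars false

open Polynomial Finset

universe u

variable {P : Type u} [Fintype P] [PartialOrder P] [DecidableEq P] {r j w K : ℕ}
  {N : Tops P → Finset P} {b : Tops P → ℕ} {θ : Tops P → P → ℕ}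

/-- the double next to the fold, `j` odd -/
structure FlpC (j w : ℕ) (N : Tops P → Finset P) (b : Tops P → ℕ) (θ : Tops P → P → ℕ)
    (x : P) (Nc : Finset P) (co : P → ℕ × ℕ) : Prop where
  nat : StairNat j w (topOf x) Nc co
  hN : N (topOf x) = natS Nc co
  hb : b (topOf x) = 2
  mem : x ∈ Nc
  co_eq : co x = ((j - 3) / 2, (j - 3) / 2 + 3)
  odd : j % 2 = 1
  th : θ (topOf x) x + 2 + w = j

lemma FlpC.lev {x : P} {Nc : Finset P} {co : P → ℕ × ℕ} (C : FlpC j w N b θ x Nc co)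
    (hj : 3 ≤ j) : lev x = j := by
  have := C.nat.chart.lev x C.mem
  rw [C.co_eq] at this
  have := C.odd
  simp only at *
  omega

/-- ancestors of the double next to the fold -/
lemma FlpC.nab {x : P} {Nc : Finset P} {co : P → ℕ × ℕ} (C : FlpC j w N b θ x Nc co)
    (hj : 3 ≤ j) {k : ℕ} (hk : k ≤ j) :
    nab k x + (k - (j + 3) / 2) = min (k / 2) ((j - 3) / 2) + 1 := by
  have hl := C.lev hj
  have ho := C.odd
  have := stair_nab C.nat.chart C.mem (k := k) (by omega)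
  rw [C.co_eq] at this
  simp only at this
  rw [show (j - 3) / 2 + 3 = (j + 3) / 2 by omega] at this
  exact this

/-- the cone of the double next to the fold -/
lemma FlpC.cone {x : P} {Nc : Finset P} {co : P → ℕ × ℕ} (C : FlpC j w N b θ x Nc co) :
    F4.ConeAtG x co ((j - 3) / 2) := by
  have hC := C.nat.chart
  have hin : ∀ y, x ≤ y → y ∈ Nc := fun y hy => hC.up x C.mem y hy
  refine ⟨fun y z hy hz => hC.le_iff y (hin y hy) z (hin z hz), fun y hy => ?_,
    fun a b h1 h2 h3 => ?_⟩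
  · have h1 := (hC.le_iff x C.mem y (hin y hy)).mp hy
    rw [C.co_eq, Prod.le_def] at h1
    have h2 : (co y).1 ≤ (co y).2 := hC.mem y (hin y hy)
    exact ⟨h1.1, h2, h1.2⟩
  · obtain ⟨y, hy, hcy⟩ := hC.low x C.mem (a, b) (by
      rw [C.co_eq]
      exact ⟨h1, h3⟩) h2
    refine ⟨y, ?_, hcy⟩
    rw [hC.le_iff x C.mem y hy, hcy, C.co_eq]
    exact ⟨h1, h3⟩

/-- the elements of small level in the part are above it -/
lemma FlpC.above {x : P} {Nc : Finset P} {co : P → ℕ × ℕ} (C : FlpC j w N b θ x Nc co)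
    (hw : w ≤ 3) (hj : 7 ≤ j) {z : P} (hz : topOf z = topOf x)
    (hlz : Pool.Agent.GaussPoset.lev z ≤ w + 2) : x ≤ z := by
  have ho := C.odd
  have hzN : z ∈ Nc := by
    refine C.nat.strip (mem_lowPart.mpr ⟨?_, by omega⟩)
    rw [← hz]
    exact le_topOf z
  have h1 := C.nat.chart.lev z hzN
  have h2 : (co z).1 ≤ (co z).2 := C.nat.chart.mem z hzN
  rw [C.nat.chart.le_iff x C.mem z hzN, C.co_eq]
  exact ⟨by simp only; omega, by simp only; omega⟩

/-- the flips -/
def PenF (j w : ℕ) (N : Tops P → Finset P) (b : Tops P → ℕ) (θ : Tops P → P → ℕ) (z : P) : Prop :=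
  z ∈ rA N ∧ ∃ x, z ⋖ x ∧ (∀ y, z ⋖ y → y = x) ∧ ∃ Nc co, FlpC j w N b θ x Nc co

/-- data of a flip -/
theorem Wk.penF (W : Wk r j w K N b θ) {z : P} (hz : PenF j w N b θ z) :
    hA N θ z = j - w - 1 ∧ lev z = j + 1 ∧ z ∈ bdR (rA N) ∧ j % 2 = 1 := by
  obtain ⟨h1, x, h3, h4, Nc, co, C⟩ := hz
  have H := W.gt.H
  have hj := W.hj
  have e1 := (H.covBy_iff.mp h3).2
  have e3 := C.lev (by omega)
  have hx : x ∉ unnat N := W.low (by omega)
  have hbs : GaussPoset.bs N x = x := by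
    unfold GaussPoset.bs
    rw [if_neg (W.not_tw hx)]
  have hbd : z ∈ bdR (rA N) := mem_bdR.mpr ⟨h1, x, not_mem_rA.mpr (Or.inl hx), h3⟩
  obtain ⟨x0, f1, f2, f3⟩ := W.hA_spec hbd
  have e4 := h4 x0 f2
  subst e4
  rw [hbs] at f3
  have := C.th
  exact ⟨by omega, by omega, hbd, C.odd⟩

open Classical in
/-- the labels: one more below the special cells and for the flips, full below both ends of a
stair -/
noncomputable def hT (j w : ℕ) (N : Tops P → Finset P) (b : Tops P → ℕ) (θ : Tops P → P → ℕ)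
    (z : P) : ℕ :=
  if PenF j w N b θ z then hA N θ z + 1 else hS j w N b θ z

lemma hT_of {z : P} (h : PenF j w N b θ z) : hT j w N b θ z = hA N θ z + 1 := if_pos h

lemma hT_not {z : P} (h : ¬ PenF j w N b θ z) : hT j w N b θ z = hS j w N b θ z := if_neg h

lemma Wk.penF_not (W : Wk r j w K N b θ) {z : P} (hz : lev z ≠ j + 1) : ¬ PenF j w N b θ z :=
  fun h => hz (W.penF h).2.1

/-- the part of a flip -/
theorem Wk.bigF (W : Wk r j w K N b θ) (h7 : 7 ≤ j) {n0 : ℕ} {g : P → ℕ}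
    {x z : P} (hz : z ∈ unnat N \ twA N) (hzx : z ⋖ x) (hzS : PenF j w N b θ z)
    (hgz : g z = j - w - 1)
    (hCc : n0 ≤ cst w (fun _ => j - w) z) {m : ℕ}
    (hm : m + ∑ x ∈ unnat N \ twA N, g x ≤ n0) :
    (1 + X : ℤ[X]) ^ (b (topOf x)) ∣
      ZB (P := {y : P // y ∉ unnat N \ twA N ∧ topOf y = topOf x}) w ∅ 0
        (fun y => by classical exact ((unnat N \ twA N).filter (fun z => z ⋖ (y : P))).sup g) m := by
  classical
  have H := W.gt.H
  have HN := W.natSys
  have hj := W.hj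
  have hw := W.hw
  obtain ⟨-, x1, h2, h4, Nc, co, C⟩ := hzS
  have hxx := h4 x hzx
  subst hxx
  have q2 := C.lev (by omega)
  have ho := C.odd
  have e1 := (H.covBy_iff.mp hzx).2
  have h1 : x ∉ unnat N \ twA N := not_mem_rA.mpr (Or.inl (W.low (by omega)))
  rw [C.hb]
  set k := j - w - 1 with hk
  have hn0 : n0 ≤ F4.Efs w k x x + k + 2 := by
    rw [← cst_pen hzx h4 (by omega) (by omega), show k + 1 = j - w by omega]
    exact hCc
  have hsz : k ≤ ∑ x ∈ unnat N \ twA N, g x := by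
    rw [← hgz]
    exact Finset.single_le_sum (f := g) (fun _ _ => Nat.zero_le _) hz
  have hp : ∀ x' y : P, x' ≤ y → (x' ∉ unnat N \ twA N ∧ topOf x' = topOf x) →
      (y ∉ unnat N \ twA N ∧ topOf y = topOf x) :=
    pg_part_up (W.twSys.lower HN.lower) (W.twSys.cp' HN.cp)
  have hBx : k ≤ ((unnat N \ twA N).filter (fun z => z ⋖ x)).sup g := by
    rw [← hgz]
    exact Finset.le_sup (f := g) (mem_filter.mpr ⟨hz, hzx⟩)
  by_cases hbigz : ∃ z' ∈ unnat N \ twA N, k < g z'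
  · obtain ⟨z', hz', hk'⟩ := hbigz
    have hne' : z' ≠ z := by
      rintro rfl
      omega
    have h8 : g z + g z' ≤ ∑ x ∈ unnat N \ twA N, g x := by
      rw [← Finset.sum_pair (f := g) hne'.symm]
      refine Finset.sum_le_sum_of_subset ?_
      intro y hy
      rw [mem_insert, mem_singleton] at hy
      rcases hy with rfl | rfl
      · exact hz
      · exact hz'
    rw [F4.part_zero hp (i := w) (k := k) (f := x) (s := x) ⟨h1, rfl⟩ ⟨h1, rfl⟩ hBx hBx (by omega)]
    exact dvd_zero _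
  · push Not at hbigz
    have hBle : ∀ y : P, ((unnat N \ twA N).filter (fun z => z ⋖ y)).sup g ≤ k := by
      intro y
      refine Finset.sup_le fun z' hz' => ?_
      exact hbigz z' (mem_filter.mp hz').1
    exact F4.part_coneG hp (i := w) (h := k) (x := x) ⟨h1, rfl⟩ C.cone (by omega) (by omega)
      (by omega) (fun y hy hly => C.above hw h7 hy.2 hly) (fun y => hBle y)
      (le_antisymm (hBle x) hBx) (by omega)

/-- **The far window theorem with the larger labels and flips.** -/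
theorem Wk.farT (W : Wk r j w K N b θ) (h7 : 7 ≤ j) (h12 : j % 2 = 0 → 12 ≤ j) (hw2 : 2 ≤ w)
    (n0 : ℕ)
    (hcost : ∀ x ∈ twA N, n0 ≤ tcS j w N b θ x)
    (hbd : ∀ z ∈ bdR (rA N), n0 ≤ cst w (hT j w N b θ) z) :
    FarV P w (rA N) (lv P w).card (hT j w N b θ)
      (∑ x ∈ (twA N).filter (fun x => tcS j w N b θ x = n0), TmS j w N b θ x) n0 := by
  classical
  have H := W.gt.H
  have HN := W.natSys
  have hj := W.hj
  have hw := W.hw
  have F := W.farS0 h7 n0 hcost
  choose B hB using fun t => (W.top t).natTop H.gradedBelow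
  have hCl : ∀ z, CEl j w N θ z → hA N θ z = j - w - 1 ∧ lev z = j + 1 ∧ j % 2 = 0 := by
    intro z hz
    obtain ⟨h1, h2, f, s, h3, h4, h5, h6, h7⟩ := hz
    obtain ⟨Nc, co, C⟩ := W.fold_cell hw2 h1 h2 h3 h4 h5 h7
    exact ⟨W.hA_fold C h1 h2 h3 h4 h5, h2, C.ev⟩
  have hspec : ∀ z, (PenS j w N b θ z ∧ hA N θ z = j - w ∧ lev z = j + 2 ∧
      hT j w N b θ z = j - w + 1) ∨
      (PenF j w N b θ z ∧ hA N θ z = j - w - 1 ∧ lev z = j + 1 ∧ hT j w N b θ z = j - w) ∨
      ((CEl j w N θ z ∧ j % 2 = 0) ∧ hA N θ z = j - w - 1 ∧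
        lev z = j + 1 ∧ hT j w N b θ z = lev z - w) ∨ hT j w N b θ z = hA N θ z := by
    intro z
    by_cases h0 : PenF j w N b θ z
    · obtain ⟨a1, a2, a3, a4⟩ := W.penF h0
      exact Or.inr (Or.inl ⟨h0, a1, a2, by rw [hT_of h0, a1]; omega⟩)
    · by_cases h1 : PenS j w N b θ z
      · obtain ⟨a1, a2, a3⟩ := W.penS h1
        exact Or.inl ⟨h1, a1, a2, by rw [hT_not h0, hS_of h1, a1]⟩
      · right; right
        by_cases h2 : CEl j w N θ z
        · obtain ⟨a1, a2, a3⟩ := hCl z h2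
          exact Or.inl ⟨⟨h2, a3⟩, a1, a2, by rw [hT_not h0, hS_not h1, hC_of h2]⟩
        · exact Or.inr (by rw [hT_not h0, hS_not h1, hC_not h2])
  have F' : FarV P w (unnat N \ twA N) (∑ t, b t)
      (hcan (unnat N \ twA N) (thX (twA N) (twT N) (fun x => θ (topOf x) x)))
      (∑ x ∈ (twA N).filter (fun x => tcS j w N b θ x = n0), TmS j w N b θ x) n0 := by
    rw [W.sum_b]
    exact F
  have key := farV_big (B := B) hB W.twSys n0 (j - w - 1) F' (fun x hx => W.twn hx) ?_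
    (hT j w N b θ) ?_ ?_ ?_ ?_
  · rw [W.sum_b] at key
    exact key
  · intro x hx
    have h1 := hcost x hx
    show n0 < tcst w (thA N θ) (twT N x, x) + (j - w - 1)
    by_cases hs : Spc j w N b θ (twT N x)
    · rw [W.tcS_spc hx hs] at h1
      omega
    · unfold tcS at h1
      rw [if_neg hs] at h1
      omega
  · intro z _
    show hA N θ z ≤ hT j w N b θ z
    rcases hspec z with ⟨-, h1, -, h2⟩ | ⟨-, h1, h3, h2⟩ | ⟨-, h1, h3, h2⟩ | h1 <;> omega
  · intro z _ hlt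
    have hlt' : hA N θ z < hT j w N b θ z := hlt
    show j - w - 1 ≤ hA N θ z
    rcases hspec z with ⟨-, h1, -, h2⟩ | ⟨-, h1, h3, h2⟩ | ⟨-, h1, h3, h2⟩ | h1 <;> omega
  · intro z hz
    have h0 : hA N θ z ≤ lev z - w := F.le_lev z hz
    rcases hspec z with ⟨-, h1, h3, h2⟩ | ⟨-, h1, h3, h2⟩ | ⟨-, h1, h3, h2⟩ | h1 <;> omega
  · intro g g0 hg x z hx hz hzx hlt m hm
    have hzb : z ∈ bdR (unnat N \ twA N) := mem_bdR.mpr ⟨hz, x, hx, hzx⟩
    have hlt' : thA N θ x < g z := hlt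
    have hle : hA N θ z ≤ thA N θ x + 1 := hcan_le hx hzx
    have hgz := hg z hzb
    have hcz := hbd z hzb
    rw [cst_const w (hT j w N b θ) z] at hcz
    rcases hspec z with ⟨h0, h1, h3, h2⟩ | ⟨h0, h1, h3, h2⟩ | ⟨h0, h1, h3, h2⟩ | h1
    · rw [h2] at hcz hgz
      exact W.bigS (by omega) hz hzx h0 (by omega) hcz hm
    · rw [h2] at hcz hgz
      exact W.bigF (by omega) hz hzx h0 (by omega) hcz hm
    · rw [h2] at hcz hgz
      exact W.bigC (h12 h0.2) hw2 hz hzx h0.1 (by omega) hgz hcz hm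
    · omega

end Pool.Agent.GaussPoset.Sm
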