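import Pool.Agent.W_448f4_h70.IE
import Pool.Agent.W_448f4_h70.GX

/-!
# The windows `2`, `3` with the larger labels and flips: cells (MP_448cb3_co, S7)
-/

namespace Pool.Agent.GaussPoset.Sm

set_option linter.unusedSectionVars false

open Polynomial Finset W4 Cp

universe u

section

variable {P : Type u} [Fintype P] [PartialOrder P] [DecidableEq P] {r j w K0 K : ℕ}
  {N : Tops P → Finset P} {b : Tops P → ℕ} {θ : Tops P → P → ℕ} {XE XO BE YE YO : ℕ → Prop}

/-- the number of elements strictly between, for a flip -/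
def flN (w j : ℕ) : ℕ :=
  ∑ n ∈ range (j - w), (min ((w + n) / 2) ((j - 3) / 2) + 1 - (w + n - (j + 3) / 2))

/-- the outcome for a flip -/
theorem Wk.flp_out (W : Wk r j w K0 N b θ) (hw2 : 2 ≤ w) (h7 : 7 ≤ j) {z : P}
    (hz : PenF j w N b θ z) {v : ℕ} (hc : cst w (hT j w N b θ) z = v)
    (h : Okv K XE XO (flN w j) (flC w j + 2)) : OutG j w K XE XO (hT j w N b θ) z v := by
  have hp := hz
  obtain ⟨p1, p2, p3, p4⟩ := W.penF hz
  obtain ⟨h1, x, h3, h4, Nc, co, C⟩ := hz
  have H := W.gt.H.gradedBelow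
  have hj := W.hj
  have hw := W.hw
  have e1 := H.lev_covBy h3
  have hT1 := hT_of hp
  have hlx := C.lev (by omega)
  have e0 : hT j w N b θ z = j - w := by omega
  have hnz : ∀ k, k < j + 1 → nab k z = nab k x := fun k hk => nab_only h4 h3 (by omega)
  have hrise : cst w (fun _ => j - w) x = cst w (fun _ => j - w - 1) x + 1 := by
    have hx : lev x = w + (j - w - 1 + 1) := by omega
    rw [cst_shift (i := w) (h := fun _ => j - w) hx,
      cst_shift (i := w) (h := fun _ => j - w - 1) hx, Finset.sum_range_succ,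
      Finset.sum_range_succ _ (j - w - 1 + 1), show w + (j - w - 1 + 1) = lev x by omega, nab_self,
      Finset.sum_congr rfl (g := fun n => min (j - w - 1) n * nab (w + n) x) (fun n hn => by
        rw [mem_range] at hn
        rw [Nat.min_eq_right (by omega), Nat.min_eq_right (by omega)])]
    rw [Nat.min_eq_left (by omega), Nat.min_eq_left (by omega)]
    omega
  have hcs : cst w (fun _ => j - w - 1) x + (j - w - 1) = flC w j := by
    have ho := C.odd
    rw [cst_stair (w := w) (L := j) (h := j - w - 1) C.nat.chart C.mem hlx (by omega), C.co_eq]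
    unfold flC
    rw [show j - (j - 3) / 2 = (j + 3) / 2 by omega]
  have hv : v = flC w j + 2 := by
    rw [← hc, cst_const, e0, cst_only (h := fun _ => j - w) H h3 h4, hrise,
      Nat.min_eq_left (by omega)]
    omega
  rw [hv]
  refine h.out ?_ ?_
  · rw [nst_eq, e0]
    unfold flN
    refine Finset.sum_congr rfl fun n hn => ?_
    rw [mem_range] at hn
    rw [hnz _ (by omega)]
    have := C.nab (by omega) (k := w + n) (by omega)
    omega
  · rw [e0, show w + (j - w) = j by omega, hnz _ (by omega), hnz _ (by omega)]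
    have a1 := C.nab (by omega) (k := w) (by omega)
    rw [show j = lev x by omega, nab_self]
    omega

/-- elements of level `j + 1` below a deep cell: no flips -/
theorem Wk.deep_jT (W : Wk r j w K0 N b θ) (hw2 : 2 ≤ w) (hj8 : 8 ≤ j)
    {z : P} (hz : z ∈ bdR (rA N)) (hlz : lev z = j + 1)
    {x : P} (hzx : z ⋖ x) (hD : Dk j w K0 N θ x) : PenF j w N b θ z ∨
      (j % 2 = 0 ∧ cst w (hA N θ) z = foC w j ∧ nst w (hA N θ) z = foN w j ∧
        nab w z = nab (w + hA N θ z) z + 1 ∧ (∀ y, z ⋖ y → y = x) ∧ Fold j x) ∨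
      ((∃ x', FJn j z x x') ∧ hA N θ z = j - w - 1) ∨ CEl j w N θ z := by
  classical
  have H := W.gt.H
  have HN := W.natSys
  have hj := W.hj
  have hw := W.hw
  have hzR := (mem_bdR.mp hz).1
  have hzu := (mem_rA.mp hzR).1
  have e1 := (H.covBy_iff.mp hzx).2
  have hlx : lev x = j := by omega
  have hx : x ∉ unnat N := W.low (by omega)
  have hbs : GaussPoset.bs N x = x := by
    unfold GaussPoset.bs
    rw [if_neg (W.not_tw hx)]
  have hle := W.hA_le (not_mem_rA.mpr (Or.inl hx)) hzx
  rw [hbs] at hle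
  have hth := hD.th
  have h1w := hD.one_le
  have hxt : x ∈ N (topOf x) := HN.mem_iff.mpr ⟨hx, rfl⟩
  have hxle : x ≤ (topOf x : P) := le_topOf x
  have hzN := mem_unnat.mp hzu (topOf x)
  have hnat : ∀ y ∈ N (topOf x), y ∉ unnat N := fun y hy => (HN.mem_iff.mp hy).1
  have hzt : ∀ y, y ∉ unnat N → ¬ ∀ v, y < v ↔ z < v := fun y hy h =>
    (mem_rA.mp hzR).2 (mem_twA.mpr ⟨hzu, y, hy, h⟩)
  -- two covers have one cover each
  have hnear : (Win.uc x).card = 2 → ∀ y, z ⋖ y → y = x := by
    intro h2 y hy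
    by_contra hne
    have := (W.near hzR hlz hzx hy (Ne.symm hne)).1
    omega
  -- the label of an element with one cover
  have hlab : (∀ y, z ⋖ y → y = x) → hA N θ z = θ (topOf x) x + 1 := by
    intro ho
    obtain ⟨x0, g1, g2, g3⟩ := W.hA_spec hz
    rw [ho x0 g2, hbs] at g3
    exact g3
  have hthx : θ (topOf x) x = θ (topOf x) x := rfl
  have hth0 := hD.th
  have hbt : b (topOf x) = b (topOf x) := rfl
  generalize htt : topOf x = t at hxt hxle hzN hnat hle hth hlab
  rcases W.typ t with ⟨g1, g2, g3, g5⟩ | ⟨Nc, co, h0, g1, g2, g4⟩ |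
    ⟨Nc, co, h0, g1, g2, g3, g4, g5'⟩
  · exfalso
    rw [g2] at hth
    simp only at hth
    omega
  · exfalso
    rw [g1] at hxt
    rw [g2] at hth
    have hJ : ¬ (x ∈ junk (fun _ => True) Nc co ∨ x ∈ junk (fun _ => True) Nc (swp co)) := by
      intro h
      unfold thR at hth
      rw [if_pos h] at hth
      omega
    have hxN : x ∈ Nc := by
      rw [mem_natR] at hxt
      rcases hxt with h | h | h
      · exact h
      · exact absurd (Or.inl h) hJ
      · exact absurd (Or.inr h) hJ
    have h2 := rect_th7 h0 hw hxN hJ (by omega)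
    have h3 := chart_inner_uc h0.chart H hxN (by omega) (by omega)
    exact g4 x z hxle hlx h3 hzx (hnear h3)
  · rw [g1] at hxt hzN
    rw [g2] at hth
    have hJ : x ∉ junk (fun c => c.1 ≤ c.2) Nc co := by
      intro h
      unfold thS at hth
      rw [if_pos h] at hth
      omega
    have hxN : x ∈ Nc := by
      rw [mem_natS] at hxt
      exact hxt.resolve_right hJ
    have hl := h0.chart.lev x hxN
    have hm : (co x).1 ≤ (co x).2 := h0.chart.mem x hxN
    have h2 := stair_th7 h0 hw g4 hxN hJ (by omega)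
    have hzN1 : z ∉ Nc := fun h => hzN (mem_natS.mpr (Or.inl h))
    have h6 := cst_ge_cover (i := w) (h := hA N θ) H.gradedBelow hzx
    rcases Nat.lt_or_ge (co x).1 (co x).2 with hlt | hge
    · -- a double
      have h3 := stair_inner_uc h0.chart H hxN (by omega) hlt
      have ho := hnear h3
      rcases g5' x z hxle hlx h3 hzx ho with h4 | h4
      · exfalso
        obtain ⟨y, hy, h⟩ := diag_twin h0.chart h0.max H hzN1 hxN hzx ho h4
        exact hzt y (hnat y (by rw [g1]; exact mem_natS.mpr (Or.inl hy))) h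
      · left
        have h5 := hlab ho
        have hth2 := hth
        rw [← g2] at hth2
        subst htt
        refine ⟨hzR, x, hzx, ho, Nc, co, h0, g1, by rw [g3]; omega, hxN, ?_, by omega, ?_⟩
        · exact Prod.ext (by simp only; omega) (by simp only; omega)
        · rw [g2]
          omega
    · -- the fold end
      have hcc : (co x).2 = (co x).1 := by omega
      -- the label
      have hlb : hA N θ z + 1 = lev x - w := by
        obtain ⟨x0, f1, f2, f3⟩ := W.hA_spec hz
        rw [g2] at hle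
        by_cases hne : x0 = x
        · rw [hne, hbs, htt, g2] at f3
          omega
        · have f4 := W.near hzR hlz hzx f2 (Ne.symm hne)
          have f5 := (H.covBy_iff.mp f2).2
          have hx0 : x0 ∉ unnat N := W.low (by omega)
          have hbs0 : GaussPoset.bs N x0 = x0 := by
            unfold GaussPoset.bs
            rw [if_neg (W.not_tw hx0)]
          rw [hbs0] at f3
          have f6 := W.single_th hx0 (by omega) f4.2
          omega
      have h8 : min (hA N θ z) (lev z - w) = hA N θ z := Nat.min_eq_left (by omega)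
      rw [h8] at h6
      have hj2 : j % 2 = 0 := by omega
      have hA2 : (co x).1 = j / 2 := by omega
      have hlb' : hA N θ z = j - w - 1 := by omega
      have h7 := cst_stair (w := w) (L := j) (h := j - w - 1) h0.chart hxN hlx (by omega)
      rw [hA2, show j - j / 2 = j / 2 by omega] at h7
      have hnk : ∀ k, k ≤ j → nab k x + (k - j / 2) = min (k / 2) (j / 2) + 1 := by
        intro k hk
        have := stair_nab h0.chart hxN (k := k) (by omega)
        rw [hA2, show (co x).2 = j / 2 by omega] at this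
        exact this
      have hFo : Fold j x := ⟨hlx, hj2, fun k hk => by
        have := hnk k hk
        omega⟩
      by_cases ho : ∀ y, z ⋖ y → y = x
      · -- a pendant
        right; left
        have h9 := cst_only (i := w) (h := hA N θ) H.gradedBelow hzx ho
        rw [h8, hlb', h7] at h9
        have hns : nst w (hA N θ) z = foN w j := by
          rw [nst_eq, hlb']
          unfold foN
          refine Finset.sum_congr rfl fun n hn => ?_
          rw [mem_range] at hn
          rw [nab_only ho hzx (by omega)]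
          have := hnk (w + n) (by omega)
          omega
        refine ⟨hj2, by unfold foC; exact h9, hns, ?_, ho, hFo⟩
        rw [hlb', nab_only ho hzx (by omega), nab_only ho hzx (by omega)]
        have a1 := hnk w (by omega)
        have a2 := hnk (w + (j - w - 1)) (by omega)
        omega
      · -- a second cover
        right; right
        push Not at ho
        obtain ⟨x', hzx', hne'⟩ := ho
        have hne : x ≠ x' := Ne.symm hne'
        have e2 := (H.covBy_iff.mp hzx').2
        have hx' : x' ∉ unnat N := W.low (by omega)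
        by_cases hh : topOf x' = t
        · right
          exact ⟨hzR, hlz, x, x', hzx, hzx', hne, by rw [htt, hh], by omega⟩
        · left
          refine ⟨⟨x', Cg.mk' hzx hzx' (mem_onlyB.mpr fun s hs hxs => ?_)
            (mem_onlyB.mpr fun s hs hxs => ?_) ?_, hlz, hFo⟩, hlb'⟩
          · exact HN.top_eq (HN.mem_iff.mpr ⟨hx, rfl⟩) hs hxs
          · exact HN.top_eq (HN.mem_iff.mpr ⟨hx', rfl⟩) hs hxs
          · rw [htt]
            exact fun h => hh h.symm

/-- **elements of level `j + 1` below a deep cell** -/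
theorem Wk.dj_T (W : Wk r j w K0 N b θ) (hw2 : 2 ≤ w) (hj8 : 8 ≤ j)
    (hfl : j % 2 = 1 → NoFlip P j ∨ Okv K XE XO (flN w j) (flC w j + 2))
    (hcc : j % 2 = 0 → NoCC P j ∨ Okv K XE XO (ccN w j) (ccC w j))
    (hFo : j % 2 = 0 → ∀ z x x' : P, FJn j z x x' → K < cst w (fun _ => j - w - 1) z)
    (hfv : j % 2 = 0 → Okv K XE XO (foN w j) (foC w j))
    {v : ℕ} {z x : P} (hz : z ∈ bdR (rA N))
    (hc : cst w (hT j w N b θ) z = v) (hlz : lev z = j + 1) (hzx : z ⋖ x)
    (hD : Dk j w K0 N θ x) : OutG j w K XE XO (hT j w N b θ) z v := by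
  have hj := W.hj
  have hp : ¬ PenS j w N b θ z := fun h => by
    have := (W.penS h).2.1
    omega
  have H := W.gt.H
  by_cases hpF : PenF j w N b θ z
  · have ho := (W.penF hpF).2.2.2
    rcases hfl ho with h8 | h8
    · exfalso
      obtain ⟨h1, x1, h3, h4, Nc, co, C⟩ := hpF
      have hl := C.lev (by omega)
      refine h8 z x1 hlz hl h3 h4 ?_ fun k hk => ?_
      · exact stair_inner_uc C.nat.chart H C.mem (by rw [C.co_eq]; simp only; omega)
          (by rw [C.co_eq]; simp only; omega)
      · exact C.nab (by omega) hk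
    · exact W.flp_out hw2 (by omega) hpF hc h8
  have hTS : hT j w N b θ z = hS j w N b θ z := hT_not hpF
  by_cases hC : CEl j w N θ z
  · have hev := (W.cel_nab hw2 hC).2.1
    rcases hcc hev with h | h
    · exact absurd hC (h.not_cel W hw2)
    · rw [← hc]
      exact W.cel_out hw2 hj8 hC (by rw [hTS, hS_not hp, hC_of hC]) h
  · have hS1 : hT j w N b θ z = hA N θ z := by rw [hTS, hS_not hp, hC_not hC]
    have hcA : cst w (hA N θ) z = v := by
      rw [← hc, cst_const w (hA N θ) z, cst_const w (hT j w N b θ) z, hS1]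
    refine outG_congr (h := hA N θ) hS1.symm ?_
    rcases W.deep_jT hw2 hj8 hz hlz hzx hD with h | ⟨h1, h2, h3, h4, -⟩ | ⟨⟨x', h1⟩, h2⟩ | h
    · exact absurd h hpF
    · rw [← hcA, h2]
      exact (hfv h1).out h3 h4
    · left
      have h3 := hFo h1.2.2.2.1 z x x' h1
      have h4 : cst w (hA N θ) z = cst w (fun _ => j - w - 1) z := by
        rw [cst_const, h2]
      omega
    · exact absurd h hC

end

variable {P : Type u} [Fintype P] [PartialOrder P] [DecidableEq P] {r j w : ℕ}
  {lo hi : Tops P → ℕ → ℕ} {e : Tops P → ℕ → ℕ → P}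

/-- the inputs of the windows `2`, `3` with larger labels and flips, at level `j + 1` -/
structure InT (P : Type u) [Fintype P] [PartialOrder P] [DecidableEq P] (j w K : ℕ)
    (XE XO : ℕ → Prop) : Prop where
  hfl : j % 2 = 1 → NoFlip P j ∨ Okv K XE XO (flN w j) (flC w j + 2)
  hcc : j % 2 = 0 → NoCC P j ∨ Okv K XE XO (ccN w j) (ccC w j)
  hFo : j % 2 = 0 → ∀ z x x' : P, FJn j z x x' → K < cst w (fun _ => j - w - 1) z
  hfv : j % 2 = 0 → Okv K XE XO (foN w j) (foC w j)

/-- the inputs at window `w` for the larger labels, with excluded own elements -/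
theorem Wk.lkT {K0 K : ℕ} {N : Tops P → Finset P} {b : Tops P → ℕ} {θ : Tops P → P → ℕ}
    {XE XO BE : ℕ → Prop} (W : Wk r j w K0 N b θ) (hw2 : 2 ≤ w) (h10 : 10 ≤ j)
    (hK : 2 * K < 3 * (j + 1 - w) ^ 2 + 3 * (j + 1 - w)) (hu : Unq P w b)
    (I : InT P j w K XE XO) (C : CellsN P j w K0 K N b θ XE XO) (hk : HkT P j w K N b θ BE) :
    LkT P j w K0 K N b θ XE XO BE where
  hK := hK
  unq := hu
  nsk := fun z x x' h hl hn hns => by
    have hw := W.hw
    exact (nsk23' h10 (by omega) hn hns).elim
  dj := fun v z x _ hz hc hl hzx hD =>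
    W.dj_T hw2 (by omega) I.hfl I.hcc I.hFo I.hfv hz hc hl hzx hD
  dp := fun v z x _ hz hc hx hzx hl hD hR => by
    have hw := W.hw
    have e1 := (W.gt.H.covBy_iff.mp hzx).2
    have hTS : hT j w N b θ z = hS j w N b θ z := hT_not (W.penF_not (by omega))
    refine outG_congr (h := hS j w N b θ) hTS.symm ?_
    refine W.dp_cellsN hw2 (by omega) C hz ?_ hx hzx hl hD hR
    rw [← hc, cst_const w (hS j w N b θ) z, cst_const w (hT j w N b θ) z, hTS]
  dt := fun x hx hD hR => W.dt_cellsN hw2 (by omega) C hx hD hR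
  hk := hk

/-- **the balance at the windows `2`, `3` with the larger labels, excluded own elements** -/
theorem Ctx.winT (K : Ctx P r j lo hi e) (hF : NoFo P j) (h10 : 10 ≤ j)
    (h12 : j % 2 = 0 → 12 ≤ j)
    (hwj : w = 2 ∨ (w = 3 ∧ 11 ≤ j)) {c0 cT : ℕ}
    {LE LO BL : List ℤ} {lb : ℤ} {E : List (ℕ × ℕ × ℕ)} (hE : ChkE j E) (h0 : (0, 0, 0) ∈ E)
    (hb : j % 2 = 1 → ∀ s ∈ E, (s.1 : ℤ) * ((j : ℤ) - w) - s.2.1 ≤ 5 * ((j : ℤ) - w))
    (c1 : ∀ a ∈ Finset.Icc 2 ((j + 1) / 2), (j + 1 - w) ^ 2 + c0 + 1 < stC w (j + 1) a)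
    (c2 : ∀ a ∈ Finset.Icc 2 (j - 1), (j + 1 - w) ^ 2 + c0 + 1 < reC w (j + 1) a)
    (hc : c0 ≤ cT)
    (hcell : ∀ (N : Tops P → Finset P) (b : Tops P → ℕ) (θ : Tops P → P → ℕ),
      Wk r j w ((j + 1 - w) ^ 2 + c0) N b θ →
      CellsN P j w ((j + 1 - w) ^ 2 + c0) ((j + 1 - w) ^ 2 + cT) N b θ
        (XL (j + 1 - w) LE) (XL (j + 1 - w) LO))
    (hk : ∀ (N : Tops P → Finset P) (b : Tops P → ℕ) (θ : Tops P → P → ℕ),
      Wk r j w ((j + 1 - w) ^ 2 + c0) N b θ → Unq P w b →
      HkT P j w ((j + 1 - w) ^ 2 + cT) N b θ (XL (j + 1 - w) BL))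
    (I : InT P j w ((j + 1 - w) ^ 2 + cT) (XL (j + 1 - w) LE) (XL (j + 1 - w) LO))
    (c6 : 2 * ((j + 1 - w) ^ 2 + cT) < 3 * (j + 1 - w) ^ 2 + 3 * (j + 1 - w))
    (c7 : cT < 7 * (j + 1 - w) + 10)
    (hl0 : lb ≤ 0) (hlE : ∀ x ∈ LE, lb ≤ x) (hlO : ∀ x ∈ LO, lb ≤ x)
    (hJ : ∃ z : P, Hul.Jn z) :
    ∃ V, WinB P j w cT (fun V => LO.elem V) 
      (fun V => (nz ((j + 1 - w : ℕ) : ℤ) V && !(BL.elem V)) || LE.elem V)
      lb V := by
  have H := K.gt.H
  have h16 := K.h16
  have hw : w = 2 ∨ w = 3 := by omega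
  have hsh : ∀ t : Tops P, lo t w = hi t w ∨ RectShape j (lo t) (hi t) ∨
      StairShape j (lo t) (hi t) ∨ StairShape j (fun k => k - hi t k) (fun k => k - lo t k) := by
    intro t
    rcases shape_cases (K.comp t) (by omega) (K.shape t) with h | h | ⟨a, h, h3⟩
    · exact Or.inl (h w (by omega))
    · exact Or.inr (by tauto)
    · left
      have h4 := h.lt (h3 (by omega)) hwj
      rw [(h.low w (by omega)).1, (h.low w (by omega)).2]
  obtain ⟨N, θ, t1, t2, hs, hu⟩ := K.types (w := w) (by omega) hsh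
  have W : Wk r j w ((j + 1 - w) ^ 2 + c0) N (fun t => hi t w - lo t w + 1) θ :=
    { gt := K.gt, hj := by omega, hw1 := by omega, hw := by omega, typ := t1, top := t2
      sum_b := hs
      hK := by omega
      rdeep := fun C _ hx _ h1 h2 h3 h4 => rdeep_of (by omega) (by omega) c2 C hx h1 h2 h3 h4
      sdeep := fun _ _ _ _ C _ hx _ h1 h3 h4 => sdeep_of (by omega) (by omega) c1 C hx h1 h3 h4 }
  have L := W.lkT (by omega) h10 c6 hu I (hcell _ _ _ W) (hk _ _ _ W hu)
  have hlow : ∀ z x x' : P, Cg z x x' → Sok j x → Sok j x' → j + 1 ≤ lev z →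
      ∀ k, k < w → nab k z = 2 := by
    intro z x x' h hs hs' hl k hk
    rw [h.sum H (by omega), K.low_one' hF h10 hwj h hs hk, K.low_one' hF h10 hwj h.symm hs' hk]
  have hpen : OnePen P j (fun t => 2 ≤ hi t w - lo t w + 1) ∨ ∃ z : P, Hul.Jn z ∧
      ful w z ≤ (j + 1 - w) ^ 2 + 5 * (j - w) := by
    rcases K.pen_or with h | ⟨hodd, z, x, x', h1, h2, h3, h4⟩
    · left
      intro e e' p p' hB
      refine h e e' p p' ?_
      rcases shape_cases (K.comp (topOf e)) (by omega) (K.shape (topOf e)) with h | h | ⟨a, h, h3⟩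
      · have := h w (by omega)
        omega
      · exact h
      · have h4 := h.lt (h3 (by omega)) hwj
        have e1 := h.low w (by omega)
        omega
    · right
      have hs : Sok j x := ⟨fun hf => by
        have := hf.1
        have := (h1.lev_eq H).1
        omega, fun _ hf => by
        have := hf.2.1
        omega⟩
      have hs' : Sok j x' := ⟨fun hf => by
        have := hf.1
        have := (h1.lev_eq H).2
        omega, fun _ hf => by
        have := hf.2.1
        omega⟩
      exact ⟨z, h1.jn, K.cheap (by omega) hodd hE h0 (hb hodd) h1 h2 h3 h4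
        (hlow z x x' h1 hs hs' h2.ge)⟩
  obtain ⟨v, -, h⟩ := W.winBF (by omega) h12 (by omega) L h16 (cT := (cT : ℤ)) (lb := lb)
    (by push_cast; ring) (by exact_mod_cast c7) hl0 hlE hlO hlow hpen hJ
  exact ⟨_, h⟩

end Pool.Agent.GaussPoset.Sm
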