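import Pool.Agent.W_448f4_h70.IF
import Pool.Agent.W_448pg_h74.WtC
import Pool.Agent.W_448s7s_h5.SsC
import Pool.Agent.W_448s7s_h5.SrJ11
import Pool.Agent.W_448s7s_h5.SrJ13
import Pool.Agent.W_448s7_h27.PhK

/-!
# The windows `2`, `3` for `j = 11, 13` (MP_448cb3_co, S7)
-/

namespace Pool.Agent.GaussPoset.Sm

set_option linter.unusedSectionVars false

open Finset Wd W4

universe u

variable {P : Type u} [Fintype P] [PartialOrder P] [DecidableEq P] {r j w : ℕ}
  {lo hi : Tops P → ℕ → ℕ} {e : Tops P → ℕ → ℕ → P}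

lemma noPT_of {r j : ℕ} (H : Win.GoodTo P r j) (hj : 2 ≤ j) : NoPT P j :=
  fun _ _ hne hl hup h1 h2 => no_pend_tw H hj hne hl hup h1 h2

lemma okv_e {K y n u : ℕ} {LE LO : List ℤ} (h1 : n % 2 = 0) (h2 : ((u : ℤ) - (y : ℤ) ^ 2) ∈ LE) :
    Okv K (XL y LE) (XL y LO) n u := Or.inr (Or.inl ⟨Nat.even_iff.mpr h1, h2⟩)

lemma okv_o {K y n u : ℕ} {LE LO : List ℤ} (h1 : n % 2 = 1) (h2 : ((u : ℤ) - (y : ℤ) ^ 2) ∈ LO) :
    Okv K (XL y LE) (XL y LO) n u := Or.inr (Or.inr ⟨Nat.odd_iff.mpr h1, h2⟩)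

/-- no hooks -/
lemma hkT_nil {N : Tops P → Finset P} {b : Tops P → ℕ} {θ : Tops P → P → ℕ} {K y : ℕ} :
    HkT P j w K N b θ (XL y []) where
  br := fun _ _ _ _ _ _ _ h => absurd h (by simp [XL])
  bo := fun _ _ _ _ _ h => absurd h (by simp [XL])
  bt := fun _ _ _ _ _ _ h => absurd h (by simp [XL])

/-- window `2` for `j = 11`, with flips -/
theorem winT2_11 (K : Ctx P r 11 lo hi e) (hJ : ∃ z : P, Hul.Jn z) :
    ∃ V, WinB P 11 2 50 (fun V => ([32, 43, 44, 45] : List ℤ).elem V)
      (fun V => nz ((11 + 1 - 2 : ℕ) : ℤ) V || ([23] : List ℤ).elem V) 0 V := by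
  obtain ⟨V, h⟩ := K.winT (nf_odd (by norm_num)).noFo (by norm_num) (by norm_num)
    (Or.inl rfl) (c0 := 21) (cT := 50) (LE := [23]) (LO := [32, 43, 44, 45]) (BL := []) (lb := 0)
    chkEr11 (by decide +kernel) (by decide +kernel) (by decide +kernel) (by decide +kernel)
    (by norm_num) (fun N b θ W => W.cellsF le_rfl
      (numF_11_2.mono (fun _ h => h) (fun v h => List.mem_cons_of_mem _ h)) (noPT_of K.gt (by norm_num)))
    (fun _ _ _ _ _ => hkT_nil)
    { hfl := fun _ => Or.inr (okv_o (by decide +kernel) (by decide +kernel))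
      hcc := fun h => absurd h (by norm_num)
      hFo := fun h => absurd h (by norm_num)
      hfv := fun h => absurd h (by norm_num) }
    (by norm_num) (by norm_num) le_rfl (by decide) (by decide) hJ
  exact ⟨V, h.mono le_rfl (fun v _ h => h) (fun v _ h => by simpa using h) le_rfl⟩

/-- window `3` for `j = 11`, with flips -/
theorem winT3_11 (K : Ctx P r 11 lo hi e) (hJ : ∃ z : P, Hul.Jn z) :
    ∃ V, WinB P 11 3 40 (fun V => ([24, 36, 37] : List ℤ).elem V)
      (fun V => nz ((11 + 1 - 3 : ℕ) : ℤ) V || ([17, 34, 35] : List ℤ).elem V) 0 V := by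
  obtain ⟨V, h⟩ := K.winT (nf_odd (by norm_num)).noFo (by norm_num) (by norm_num)
    (Or.inr ⟨rfl, by norm_num⟩) (c0 := 15) (cT := 40) (LE := [17, 34, 35]) (LO := [24, 36, 37])
    (BL := []) (lb := 0)
    chkEr11 (by decide +kernel) (by decide +kernel) (by decide +kernel) (by decide +kernel)
    (by norm_num) (fun N b θ W => W.cellsF (by norm_num)
      (numF_11_3.mono (fun _ h => h) (fun v h => List.mem_cons_of_mem _ h)) (noPT_of K.gt (by norm_num)))
    (fun _ _ _ _ _ => hkT_nil)
    { hfl := fun _ => Or.inr (okv_o (by decide +kernel) (by decide +kernel))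
      hcc := fun h => absurd h (by norm_num)
      hFo := fun h => absurd h (by norm_num)
      hfv := fun h => absurd h (by norm_num) }
    (by norm_num) (by norm_num) le_rfl (by decide) (by decide) hJ
  exact ⟨V, h.mono le_rfl (fun v _ h => h) (fun v _ h => by simpa using h) le_rfl⟩

/-- window `2` for `j = 13`, with flips -/
theorem winT2_13 (K : Ctx P r 13 lo hi e) (hJ : ∃ z : P, Hul.Jn z) :
    ∃ V, WinB P 13 2 70 (fun V => ([64, 65, 66] : List ℤ).elem V)
      (fun V => nz ((13 + 1 - 2 : ℕ) : ℤ) V || ([68, 49] : List ℤ).elem V) 0 V := by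
  obtain ⟨V, h⟩ := K.winT (nf_odd (by norm_num)).noFo (by norm_num) (by norm_num)
    (Or.inl rfl) (c0 := 47) (cT := 70) (LE := [68, 49]) (LO := [64, 65, 66])
    (BL := []) (lb := 0)
    chkEr13 (by decide +kernel) (by decide +kernel) (by decide +kernel) (by decide +kernel)
    (by norm_num) (fun N b θ W => W.cellsF le_rfl
      (numF_13_2.mono (fun v h => List.mem_cons_of_mem _ h) (fun _ h => h)) (noPT_of K.gt (by norm_num)))
    (fun _ _ _ _ _ => hkT_nil)
    { hfl := fun _ => Or.inr (okv_e (by decide +kernel) (by decide +kernel))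
      hcc := fun h => absurd h (by norm_num)
      hFo := fun h => absurd h (by norm_num)
      hfv := fun h => absurd h (by norm_num) }
    (by norm_num) (by norm_num) le_rfl (by decide) (by decide) hJ
  exact ⟨V, h.mono le_rfl (fun v _ h => h) (fun v _ h => by simpa using h) le_rfl⟩

/-- window `3` for `j = 13`, with flips -/
theorem winT3_13 (K : Ctx P r 13 lo hi e) (hJ : ∃ z : P, Hul.Jn z) :
    ∃ V, WinB P 13 3 60 (fun V => ([55, 56] : List ℤ).elem V)
      (fun V => nz ((13 + 1 - 3 : ℕ) : ℤ) V || ([55, 39, 53, 54] : List ℤ).elem V) 0 V := by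
  obtain ⟨V, h⟩ := K.winT (nf_odd (by norm_num)).noFo (by norm_num) (by norm_num)
    (Or.inr ⟨rfl, by norm_num⟩) (c0 := 37) (cT := 60) (LE := [55, 39, 53, 54]) (LO := [55, 56])
    (BL := []) (lb := 0)
    chkEr13 (by decide +kernel) (by decide +kernel) (by decide +kernel) (by decide +kernel)
    (by norm_num) (fun N b θ W => W.cellsF (by norm_num)
      (numF_13_3.mono (fun v h => List.mem_cons_of_mem _ h) (fun _ h => h)) (noPT_of K.gt (by norm_num)))
    (fun _ _ _ _ _ => hkT_nil)
    { hfl := fun _ => Or.inr (okv_e (by decide +kernel) (by decide +kernel))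
      hcc := fun h => absurd h (by norm_num)
      hFo := fun h => absurd h (by norm_num)
      hfv := fun h => absurd h (by norm_num) }
    (by norm_num) (by norm_num) le_rfl (by decide) (by decide) hJ
  exact ⟨V, h.mono le_rfl (fun v _ h => h) (fun v _ h => by simpa using h) le_rfl⟩

end Pool.Agent.GaussPoset.Sm
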