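import Pool.Agent.W_448s7_h27.HangA

/-!
Twins at a minimal place: the window polynomial of a poset with two minimal elements with the same
strict up-set, in terms of the poset with one of them placed below the other and the poset
without it (MP_448cb3_co, S7, even levels).
-/

namespace Pool.Agent.GaussPoset

set_option linter.unusedSectionVars false

open Finset

universe u v

section Twin

variable {A : Type u} {B : Type v} [Fintype A] [PartialOrder A] [DecidableEq A]
  [Fintype B] [PartialOrder B] [DecidableEq B] {x x' : A}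

open Classical in
/-- the order preserving maps of `B`, in terms of the order preserving maps of `A` -/
lemma U_chainT (f : A ≃ B)
    (hf : ∀ y z, f y ≤ f z ↔ y ≤ z ∨ (y = x' ∧ z = x)) (m : ℕ) :
    U B m = ∑ σ ∈ (univ : Finset (A → Fin (m + 1))).filter
      (fun σ : A → Fin (m + 1) => Monotone σ ∧ σ x' ≤ σ x),
        (Polynomial.X : Polynomial ℤ) ^ (∑ y, (σ y : ℕ)) := by
  classical
  unfold U
  refine Finset.sum_bij' (fun σ _ y => σ (f y)) (fun τ _ z => τ (f.symm z)) ?_ ?_ ?_ ?_ ?_
  · intro σ hσ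
    simp only [mem_filter, mem_univ, true_and] at hσ ⊢
    exact ⟨fun y z h => hσ ((hf y z).mpr (Or.inl h)), hσ ((hf x' x).mpr (Or.inr ⟨rfl, rfl⟩))⟩
  · intro τ hτ
    simp only [mem_filter, mem_univ, true_and] at hτ ⊢
    intro y z h
    obtain ⟨y, rfl⟩ := f.surjective y
    obtain ⟨z, rfl⟩ := f.surjective z
    simp only [Equiv.symm_apply_apply]
    rcases (hf y z).mp h with h | ⟨rfl, rfl⟩
    · exact hτ.1 h
    · exact hτ.2
  · intro σ _
    funext z
    simp
  · intro τ _
    funext y
    simp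
  · intro σ _
    congr 1
    exact (Equiv.sum_comp f (fun z => ((σ z : ℕ)))).symm

open Classical in
/-- the order preserving maps with `0` at a minimal element -/
lemma U_drop (hmx' : ∀ y, ¬ y < x') (m : ℕ) :
    U {y : A // y ≠ x'} m = ∑ σ ∈ (univ : Finset (A → Fin (m + 1))).filter
      (fun σ : A → Fin (m + 1) => Monotone σ ∧ σ x' = 0),
        (Polynomial.X : Polynomial ℤ) ^ (∑ y, (σ y : ℕ)) := by
  classical
  unfold U
  refine Finset.sum_bij' (fun (σ : {y : A // y ≠ x'} → Fin (m + 1)) _ (y : A) =>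
      (if h : y = x' then (0 : Fin (m + 1)) else σ ⟨y, h⟩ : Fin (m + 1)))
    (fun (τ : A → Fin (m + 1)) _ z => τ z) ?_ ?_ ?_ ?_ ?_
  · intro σ hσ
    rw [mem_filter] at hσ ⊢
    refine ⟨mem_univ _, fun y z h => ?_, dif_pos rfl⟩
    have hσ := hσ.2
    simp only
    by_cases hy : y = x'
    · rw [dif_pos hy]
      exact Fin.zero_le _
    · by_cases hz : z = x'
      · exfalso
        exact hmx' y (lt_of_le_of_ne (hz ▸ h) hy)
      · rw [dif_neg hy, dif_neg hz]
        exact hσ h
  · intro τ hτ
    simp only [mem_filter, mem_univ, true_and] at hτ ⊢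
    exact fun y z h => hτ.1 h
  · intro σ _
    funext z
    simp only
    rw [dif_neg z.2]
  · intro τ hτ
    rw [mem_filter] at hτ
    funext y
    simp only
    split_ifs with h
    · rw [h]
      exact hτ.2.2.symm
    · rfl
  · intro σ _
    congr 1
    rw [← Finset.add_sum_erase univ _ (mem_univ x')]
    have h0 : (((if h : x' = x' then (0 : Fin (m + 1)) else σ ⟨x', h⟩ : Fin (m + 1))) : ℕ) = 0 := by
      rw [dif_pos rfl]
      rfl
    simp only at h0 ⊢
    rw [h0, zero_add]
    refine Finset.sum_bij' (fun z _ => (z : A))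
      (fun z hz => ⟨z, (mem_erase.mp hz).1⟩) ?_ ?_ ?_ ?_ ?_
    · intro z _
      exact mem_erase.mpr ⟨z.2, mem_univ _⟩
    · intro _ _
      exact mem_univ _
    · intro _ _
      rfl
    · intro _ _
      rfl
    · intro z _
      rw [dif_neg z.2]

lemma sum_two_twin (hne : x ≠ x') (g : A → ℕ) :
    ∑ y, g y = g x + (g x' + ∑ y ∈ (univ.erase x).erase x', g y) := by
  rw [← Finset.add_sum_erase univ _ (mem_univ x),
    ← Finset.add_sum_erase (univ.erase x) _ (mem_erase.mpr ⟨hne.symm, mem_univ x'⟩)]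

open Classical in
/-- the swap -/
lemma U_swap (hne : x ≠ x') (hup : ∀ y, x < y ↔ x' < y) (hmx : ∀ y, ¬ y < x)
    (hmx' : ∀ y, ¬ y < x') (m : ℕ) :
    ∑ σ ∈ (univ : Finset (A → Fin (m + 1))).filter
      (fun σ : A → Fin (m + 1) => (Monotone σ ∧ σ x' ≤ σ x) ∧ ¬ σ x' = 0),
        (Polynomial.X : Polynomial ℤ) ^ (∑ y, (σ y : ℕ)) =
    Polynomial.X * ∑ σ ∈ (univ : Finset (A → Fin (m + 1))).filter
      (fun σ : A → Fin (m + 1) => Monotone σ ∧ ¬ σ x' ≤ σ x),
        (Polynomial.X : Polynomial ℤ) ^ (∑ y, (σ y : ℕ)) := by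
  classical
  rw [Finset.mul_sum]
  refine Finset.sum_bij' (fun (σ : A → Fin (m + 1)) _ (y : A) =>
      (if y = x then ⟨(σ x' : ℕ) - 1, by have := (σ x').2; omega⟩ else
        if y = x' then σ x else σ y : Fin (m + 1)))
    (fun (τ : A → Fin (m + 1)) hτ (y : A) =>
      (if y = x' then ⟨(τ x : ℕ) + 1, by
        rw [mem_filter] at hτ
        have h1 := hτ.2.2
        rw [not_le, Fin.lt_def] at h1
        have := (τ x').2
        omega⟩ else
        if y = x then τ x' else τ y : Fin (m + 1))) ?_ ?_ ?_ ?_ ?_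
  · intro σ hσ
    rw [mem_filter] at hσ ⊢
    obtain ⟨-, ⟨h1, h2⟩, h3⟩ := hσ
    have h3' : (σ x' : ℕ) ≠ 0 := fun h => h3 (Fin.ext h)
    rw [Fin.le_def] at h2
    refine ⟨mem_univ _, fun y z h => ?_, ?_⟩
    · simp only
      rcases eq_or_lt_of_le h with rfl | hlt
      · exact le_rfl
      · have hz : z ≠ x := fun h' => hmx y (h' ▸ hlt)
        have hz' : z ≠ x' := fun h' => hmx' y (h' ▸ hlt)
        rw [if_neg hz, if_neg hz']
        by_cases hy : y = x
        · rw [if_pos hy]
          have h4 : x' < z := (hup z).mp (hy ▸ hlt)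
          have h5 := h1 h4.le
          rw [Fin.le_def] at h5 ⊢
          simp only
          omega
        · rw [if_neg hy]
          by_cases hy' : y = x'
          · rw [if_pos hy']
            exact h1 ((hup z).mpr (hy' ▸ hlt)).le
          · rw [if_neg hy']
            exact h1 h
    · beta_reduce
      rw [if_neg hne.symm, if_pos rfl, if_pos rfl, not_le, Fin.lt_def]
      simp only
      omega
  · intro τ hτ
    have hτ' := hτ
    rw [mem_filter] at hτ' ⊢
    obtain ⟨-, h1, h2⟩ := hτ'
    rw [not_le, Fin.lt_def] at h2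
    refine ⟨mem_univ _, ⟨fun y z h => ?_, ?_⟩, ?_⟩
    · simp only
      rcases eq_or_lt_of_le h with rfl | hlt
      · exact le_rfl
      · have hz : z ≠ x := fun h' => hmx y (h' ▸ hlt)
        have hz' : z ≠ x' := fun h' => hmx' y (h' ▸ hlt)
        rw [if_neg hz', if_neg hz]
        by_cases hy : y = x'
        · rw [if_pos hy]
          have h5 := h1 (hy ▸ hlt : x' < z).le
          rw [Fin.le_def] at h5 ⊢
          simp only
          omega
        · rw [if_neg hy]
          by_cases hy' : y = x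
          · rw [if_pos hy']
            exact h1 ((hup z).mp (hy' ▸ hlt)).le
          · rw [if_neg hy']
            exact h1 h
    · beta_reduce
      rw [if_pos rfl, if_neg hne, if_pos rfl, Fin.le_def]
      simp only
      omega
    · beta_reduce
      rw [if_pos rfl]
      intro h
      have h6 := congrArg Fin.val h
      simp only at h6
      have : ((0 : Fin (m + 1)) : ℕ) = 0 := rfl
      omega
  · intro σ hσ
    simp only [mem_filter, mem_univ, true_and] at hσ
    obtain ⟨⟨h1, h2⟩, h3⟩ := hσ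
    have h3' : (σ x' : ℕ) ≠ 0 := fun h => h3 (Fin.ext h)
    funext y
    simp only
    by_cases hy : y = x'
    · rw [if_pos hy, hy]
      apply Fin.ext
      simp only [if_true]
      omega
    · rw [if_neg hy]
      by_cases hy' : y = x
      · subst hy'
        simp only [if_true, if_neg hne.symm]
      · rw [if_neg hy', if_neg hy', if_neg hy]
  · intro τ hτ
    funext y
    simp only
    by_cases hy : y = x
    · rw [if_pos hy, hy]
      apply Fin.ext
      simp only [if_true]
      omega
    · rw [if_neg hy]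
      by_cases hy' : y = x'
      · subst hy'
        simp only [if_true, if_neg hne]
      · rw [if_neg hy', if_neg hy', if_neg hy]
  · intro σ hσ
    simp only [mem_filter, mem_univ, true_and] at hσ
    obtain ⟨⟨h1, h2⟩, h3⟩ := hσ
    have h3' : (σ x' : ℕ) ≠ 0 := fun h => h3 (Fin.ext h)
    rw [← pow_succ']
    congr 1
    rw [sum_two_twin hne, sum_two_twin hne]
    simp only [if_true, if_neg hne.symm]
    have h4 : ∑ y ∈ (univ.erase x).erase x', ((σ y : Fin (m + 1)) : ℕ) =
        ∑ y ∈ (univ.erase x).erase x', (((if y = x then ⟨(σ x' : ℕ) - 1, by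
          have := (σ x').2; omega⟩ else if y = x' then σ x else σ y : Fin (m + 1))) : ℕ) := by
      refine Finset.sum_congr rfl fun y hy => ?_
      have h5 := (mem_erase.mp hy).1
      have h6 := (mem_erase.mp (mem_erase.mp hy).2).1
      rw [if_neg h6, if_neg h5]
    rw [← h4]
    omega

/-- the recursion of the generating functions -/
lemma U_twin (hne : x ≠ x') (hup : ∀ y, x < y ↔ x' < y) (hmx : ∀ y, ¬ y < x)
    (hmx' : ∀ y, ¬ y < x') (f : A ≃ B)
    (hf : ∀ y z, f y ≤ f z ↔ y ≤ z ∨ (y = x' ∧ z = x)) (m : ℕ) :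
    Polynomial.X * U A m = (1 + Polynomial.X) * U B m - U {y : A // y ≠ x'} m := by
  classical
  have h1 : U A m = U B m + ∑ σ ∈ (univ : Finset (A → Fin (m + 1))).filter
      (fun σ : A → Fin (m + 1) => Monotone σ ∧ ¬ σ x' ≤ σ x),
        (Polynomial.X : Polynomial ℤ) ^ (∑ y, (σ y : ℕ)) := by
    rw [U_chainT f hf m]
    unfold U
    rw [← Finset.sum_filter_add_sum_filter_not _ (fun σ : A → Fin (m + 1) => σ x' ≤ σ x),
      Finset.filter_filter, Finset.filter_filter]
    refine congrArg₂ (· + ·) (Finset.sum_congr ?_ fun _ _ => rfl)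
      (Finset.sum_congr ?_ fun _ _ => rfl)
    · ext σ
      simp only [Finset.mem_filter, Finset.mem_univ, true_and]
    · ext σ
      simp only [Finset.mem_filter, Finset.mem_univ, true_and]
  have h2 : U B m = U {y : A // y ≠ x'} m + ∑ σ ∈ (univ : Finset (A → Fin (m + 1))).filter
      (fun σ : A → Fin (m + 1) => (Monotone σ ∧ σ x' ≤ σ x) ∧ ¬ σ x' = 0),
        (Polynomial.X : Polynomial ℤ) ^ (∑ y, (σ y : ℕ)) := by
    rw [U_chainT f hf m, U_drop hmx' m,
      ← Finset.sum_filter_add_sum_filter_not _ (fun σ : A → Fin (m + 1) => σ x' = 0),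
      Finset.filter_filter, Finset.filter_filter]
    congr 1
    refine Finset.sum_congr (Finset.filter_congr fun σ _ => ?_) (fun _ _ => rfl)
    constructor
    · rintro ⟨⟨h, -⟩, h'⟩
      exact ⟨h, h'⟩
    · rintro ⟨h, h'⟩
      exact ⟨⟨h, by rw [h']; exact Fin.zero_le _⟩, h'⟩
  rw [U_swap hne hup hmx hmx' m] at h2
  have h3 : Polynomial.X * (∑ σ ∈ (univ : Finset (A → Fin (m + 1))).filter
      (fun σ : A → Fin (m + 1) => Monotone σ ∧ ¬ σ x' ≤ σ x),
        (Polynomial.X : Polynomial ℤ) ^ (∑ y, (σ y : ℕ))) =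
      Polynomial.X * (U A m - U B m) := by
    rw [h1]
    ring
  rw [h3] at h2
  have h4 : Polynomial.X * U A m = Polynomial.X * (U A m - U B m) + Polynomial.X * U B m := by ring
  rw [h4]
  have h5 : Polynomial.X * (U A m - U B m) = U B m - U {y : A // y ≠ x'} m := by
    rw [eq_sub_iff_add_eq, add_comm]
    exact h2.symm
  rw [h5]
  ring

/-- the recursion of the window polynomials -/
theorem W_twin (hne : x ≠ x') (hup : ∀ y, x < y ↔ x' < y) (hmx : ∀ y, ¬ y < x)
    (hmx' : ∀ y, ¬ y < x') (f : A ≃ B)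
    (hf : ∀ y z, f y ≤ f z ↔ y ≤ z ∨ (y = x' ∧ z = x)) (i : ℕ) :
    Polynomial.C (PowerSeries.X : PowerSeries ℤ) * W A i =
      Polynomial.C (1 + PowerSeries.X : PowerSeries ℤ) * W B i -
        Polynomial.C ((PowerSeries.X : PowerSeries ℤ) ^ i) * W {y : A // y ≠ x'} i := by
  classical
  apply Polynomial.eq_of_infinite_eval_eq
  have hinj : Function.Injective (fun m : ℕ => -(PowerSeries.X : PowerSeries ℤ) ^ (i + m + 1)) := by
    intro a b hab
    simp only [neg_inj] at hab
    have := congrArg PowerSeries.order hab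
    rw [PowerSeries.order_X_pow, PowerSeries.order_X_pow] at this
    have h2 : i + a + 1 = i + b + 1 := by exact_mod_cast this
    omega
  refine Set.infinite_of_injective_forall_mem hinj fun m => ?_
  simp only [Set.mem_ofPred_eq]
  have hcB : Fintype.card B = Fintype.card A := (Fintype.card_congr f).symm
  have hcC : Fintype.card {y : A // y ≠ x'} + 1 = Fintype.card A := by
    rw [Fintype.card_subtype_compl (fun y => y = x'), Fintype.card_subtype_eq]
    have : 0 < Fintype.card A := Fintype.card_pos_iff.mpr ⟨x⟩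
    omega
  rw [Polynomial.eval_sub, Polynomial.eval_mul, Polynomial.eval_mul, Polynomial.eval_mul,
    Polynomial.eval_C, Polynomial.eval_C, Polynomial.eval_C, W_eval, W_eval, W_eval, hcB, ← hcC]
  have h1 := congrArg (fun g : Polynomial ℤ => (g : PowerSeries ℤ)) (U_twin hne hup hmx hmx' f hf m)
  simp only [Polynomial.coe_mul, Polynomial.coe_sub, Polynomial.coe_add, Polynomial.coe_X,
    Polynomial.coe_one] at h1
  have h2 : (PowerSeries.X : PowerSeries ℤ) ^ (i * (Fintype.card {y : A // y ≠ x'} + 1)) =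
      PowerSeries.X ^ i * PowerSeries.X ^ (i * Fintype.card {y : A // y ≠ x'}) := by
    rw [← pow_add]
    congr 1
    ring
  rw [h2]
  calc PowerSeries.X * (PowerSeries.X ^ i * PowerSeries.X ^ (i * Fintype.card {y : A // y ≠ x'}) *
        ((U A m : Polynomial ℤ) : PowerSeries ℤ))
      = PowerSeries.X ^ i * PowerSeries.X ^ (i * Fintype.card {y : A // y ≠ x'}) *
        (PowerSeries.X * ((U A m : Polynomial ℤ) : PowerSeries ℤ)) := by ring
    _ = PowerSeries.X ^ i * PowerSeries.X ^ (i * Fintype.card {y : A // y ≠ x'}) *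
        ((1 + PowerSeries.X) * ((U B m : Polynomial ℤ) : PowerSeries ℤ) -
          ((U {y : A // y ≠ x'} m : Polynomial ℤ) : PowerSeries ℤ)) := by rw [h1]
    _ = _ := by ring

/-- **Orders of a poset with two minimal twins.** -/
theorem dvd_W_twin (hne : x ≠ x') (hup : ∀ y, x < y ↔ x' < y) (hmx : ∀ y, ¬ y < x)
    (hmx' : ∀ y, ¬ y < x') (f : A ≃ B)
    (hf : ∀ y z, f y ≤ f z ↔ y ≤ z ∨ (y = x' ∧ z = x))
    {p : Polynomial (PowerSeries ℤ)} (hp : p.Monic) (i : ℕ) (hB : p ∣ W B i)
    (hC : p ∣ W {y : A // y ≠ x'} i) : p ∣ W A i := by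
  have h1 : p ∣ Polynomial.C (PowerSeries.X : PowerSeries ℤ) * W A i := by
    rw [W_twin hne hup hmx hmx' f hf i]
    exact dvd_sub (dvd_mul_of_dvd_right hB _) (dvd_mul_of_dvd_right hC _)
  rw [← Polynomial.modByMonic_eq_zero_iff_dvd hp] at h1 ⊢
  have h2 : (Polynomial.C (PowerSeries.X : PowerSeries ℤ) * W A i) %ₘ p =
      Polynomial.C (PowerSeries.X : PowerSeries ℤ) * (W A i %ₘ p) := by
    rw [← Polynomial.smul_eq_C_mul, ← Polynomial.smul_eq_C_mul, Polynomial.smul_modByMonic]
  rw [h2] at h1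
  rcases mul_eq_zero.mp h1 with h | h
  · exfalso
    exact PowerSeries.X_ne_zero (Polynomial.C_eq_zero.mp h)
  · exact h

end Twin

end Pool.Agent.GaussPoset
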