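import Pool.Agent.W_448ft_h93.FtB
import Pool.Agent.W_448fw_h5.FwR
import Pool.Agent.W_448rr_h67.RrA

/-!
Twins of the cell `(m, m + 1)` of a stair-like component, and the elements which hang below them
(MP_448cb3_co, S7).
-/

namespace Pool.Agent.GaussPoset

set_option linter.unusedSectionVars false

open Polynomial Finset

universe u

variable {P : Type u} [Fintype P] [PartialOrder P] [DecidableEq P]

/-- a twin `x'` of the cell `(m, m + 1)` of a stair-like chart -/
structure FoldC (i : ℕ) (t : Tops P) (Nc : Finset P) (co : P → ℕ × ℕ) (m : ℕ) (x x' : P) :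
    Prop where
  chart : Chart (t : P) (fun c => c.1 ≤ c.2) Nc co
  hi : 2 ≤ i
  him : i < m
  cell : ∃ y ∈ Nc, co y = (2 * (i / 2), i)
  low : ∀ y, y ≤ (t : P) → lev y ≤ i → y ∈ Nc
  mem : x ∈ Nc
  co_eq : co x = (m, m + 1)
  nN : x' ∉ natS Nc co
  up : ∀ y, x < y ↔ x' < y

section Fold

variable {i m : ℕ} {t : Tops P} {Nc : Finset P} {co : P → ℕ × ℕ} {x x' z : P}

lemma FoldC.nNc (F : FoldC i t Nc co m x x') : x' ∉ Nc := fun h => F.nN (mem_natS.mpr (Or.inl h))

lemma FoldC.ne (F : FoldC i t Nc co m x x') : x ≠ x' := fun h => F.nNc (h ▸ F.mem)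

lemma FoldC.lev_eq (F : FoldC i t Nc co m x x') : lev x' = lev x := (lev_eq_of_up F.up).symm

lemma FoldC.lev_x (F : FoldC i t Nc co m x x') : lev x = 2 * m + 1 := by
  have h := F.chart.lev x F.mem
  rw [F.co_eq] at h
  simp only at h
  omega

lemma FoldC.lt_t (F : FoldC i t Nc co m x x') : x < (t : P) := by
  refine lt_of_le_of_ne (F.chart.le_t x F.mem) (fun h => ?_)
  have h1 := F.lev_x
  rw [h] at h1
  have h2 : lev (t : P) = 0 := t.2
  omega

/-- the new chart -/
noncomputable def NcP (Nc : Finset P) (x x' z : P) : Finset P := by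
  classical exact insert z (insert x' (Nc.filter (fun y => ¬ y ≤ x)))

/-- the coordinates of the new chart -/
def coP (co : P → ℕ × ℕ) (m : ℕ) (x' z : P) (y : P) : ℕ × ℕ :=
  if y = x' then (m, m + 1) else if y = z then (m + 1, m + 1) else co y

lemma mem_NcP {y : P} : y ∈ NcP Nc x x' z ↔ y = z ∨ y = x' ∨ (y ∈ Nc ∧ ¬ y ≤ x) := by
  classical
  unfold NcP
  rw [mem_insert, mem_insert, mem_filter]

lemma coP_tw : coP co m x' z x' = (m, m + 1) := if_pos rfl

lemma coP_pen (h : z ≠ x') : coP co m x' z z = (m + 1, m + 1) := by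
  unfold coP
  rw [if_neg h, if_pos rfl]

lemma coP_old {y : P} (h1 : y ≠ x') (h2 : y ≠ z) : coP co m x' z y = co y := by
  unfold coP
  rw [if_neg h1, if_neg h2]

/-- the chart in which the twin replaces the cell -/
theorem FoldC.chartP (F : FoldC i t Nc co m x x') (hgr : GradedBelow P) (hz : z ∉ Nc)
    (hzx : ∀ y, z < y ↔ x' ≤ y) :
    Chart (t : P) (fun c => c.1 ≤ c.2) (NcP Nc x x' z) (coP co m x' z) := by
  have C := F.chart
  have hzx' : z < x' := (hzx x').mpr le_rfl
  have hne : z ≠ x' := hzx'.ne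
  have hoN : ∀ y ∈ Nc, y ≠ x' ∧ y ≠ z := fun y hy =>
    ⟨fun h => F.nNc (h ▸ hy), fun h => hz (h ▸ hy)⟩
  have hco : ∀ y ∈ Nc, coP co m x' z y = co y := fun y hy => coP_old (hoN y hy).1 (hoN y hy).2
  have hct : coP co m x' z x' = (m, m + 1) := coP_tw
  have hcz : coP co m x' z z = (m + 1, m + 1) := coP_pen hne
  have hcov : z ⋖ x' := ⟨hzx', fun y h1 h2 => absurd ((hzx y).mp h1) (not_le_of_gt h2)⟩
  -- the elements above `x'`
  have hupx : ∀ y, x' < y → y ∈ Nc ∧ ¬ y ≤ x := fun y hy => by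
    have h1 := (F.up y).mpr hy
    exact ⟨C.up x F.mem y h1.le, fun h => absurd h1 (not_lt_of_ge h)⟩
  -- the cells above
  have hxy : ∀ y ∈ Nc, ¬ y ≤ x → (x' ≤ y ↔ co y ≤ (m, m + 1)) := by
    intro y hy hyx
    have h1 := C.le_iff x F.mem y hy
    rw [F.co_eq] at h1
    rw [← h1]
    constructor
    · intro h
      exact ((F.up y).mpr (lt_of_le_of_ne h (hoN y hy).1.symm)).le
    · intro h
      exact ((F.up y).mp (lt_of_le_of_ne h (fun h => hyx (h ▸ le_rfl)))).le
  have hz2 : ∀ y ∈ Nc, ¬ y ≤ x → (co y ≤ (m, m + 1) ↔ co y ≤ (m + 1, m + 1)) := by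
    intro y hy hyx
    have h1 : (co y).1 ≤ (co y).2 := C.mem y hy
    have h2 : ¬ co x ≤ co y := fun h => hyx ((C.le_iff y hy x F.mem).mpr h)
    rw [F.co_eq, Prod.le_def] at h2
    rw [Prod.le_def, Prod.le_def]
    simp only at h2 ⊢
    omega
  constructor
  · intro y hy w hyw
    rw [mem_NcP] at hy ⊢
    rcases hy with rfl | rfl | ⟨h1, h2⟩
    · rcases eq_or_lt_of_le hyw with h | h
      · exact Or.inl h.symm
      · rcases eq_or_lt_of_le ((hzx w).mp h) with h3 | h3
        · exact Or.inr (Or.inl h3.symm)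
        · exact Or.inr (Or.inr (hupx w h3))
    · rcases eq_or_lt_of_le hyw with h | h
      · exact Or.inr (Or.inl h.symm)
      · exact Or.inr (Or.inr (hupx w h))
    · exact Or.inr (Or.inr ⟨C.up y h1 w hyw, fun h => h2 (hyw.trans h)⟩)
  · intro y hy
    rw [mem_NcP] at hy
    have h0 : x' ≤ (t : P) := ((F.up _).mp F.lt_t).le
    rcases hy with rfl | rfl | ⟨h1, -⟩
    · exact hzx'.le.trans h0
    · exact h0
    · exact C.le_t y h1
  · intro y hy w hw h
    rw [mem_NcP] at hy hw
    rcases hy with rfl | rfl | ⟨h1, h2⟩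
    · rcases hw with rfl | rfl | ⟨h3, h4⟩
      · rfl
      · rw [hct, hcz] at h
        simp only [Prod.mk.injEq] at h
        omega
      · exfalso
        rw [hco w h3, hcz] at h
        exact h4 ((C.le_iff w h3 x F.mem).mpr (by
          rw [← h, F.co_eq]
          exact ⟨Nat.le_succ m, le_rfl⟩))
    · rcases hw with rfl | rfl | ⟨h3, h4⟩
      · rw [hct, hcz] at h
        simp only [Prod.mk.injEq] at h
        omega
      · rfl
      · exfalso
        rw [hco w h3, hct] at h
        exact h4 ((C.le_iff w h3 x F.mem).mpr (by rw [← h, F.co_eq]))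
    · rcases hw with rfl | rfl | ⟨h3, h4⟩
      · exfalso
        rw [hco y h1, hcz] at h
        exact h2 ((C.le_iff y h1 x F.mem).mpr (by
          rw [h, F.co_eq]
          exact ⟨Nat.le_succ m, le_rfl⟩))
      · exfalso
        rw [hco y h1, hct] at h
        exact h2 ((C.le_iff y h1 x F.mem).mpr (by rw [h, F.co_eq]))
      · rw [hco y h1, hco w h3] at h
        exact C.inj y h1 w h3 h
  · intro y hy w hw
    rw [mem_NcP] at hy hw
    have hnxN : ∀ w ∈ Nc, ¬ w ≤ x' := fun w hw h => F.nNc (C.up w hw x' h)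
    have hnzN : ∀ w ∈ Nc, ¬ w ≤ z := fun w hw h => hz (C.up w hw z h)
    rcases hy with rfl | rfl | ⟨h1, h2⟩
    · rcases hw with rfl | rfl | ⟨h3, h4⟩
      · simp
      · rw [hct, hcz]
        exact ⟨fun _ => ⟨Nat.le_succ m, le_rfl⟩, fun _ => hzx'.le⟩
      · rw [hco w h3, hcz, ← hz2 w h3 h4, ← hxy w h3 h4]
        constructor
        · intro h
          exact (hzx w).mp (lt_of_le_of_ne h (hoN w h3).2.symm)
        · intro h
          exact ((hzx w).mpr h).le
    · rcases hw with rfl | rfl | ⟨h3, h4⟩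
      · rw [hct, hcz]
        constructor
        · intro h
          exact absurd h (not_le_of_gt hzx')
        · intro h
          have h5 : m + 1 ≤ m := h.1
          omega
      · simp
      · rw [hco w h3, hct]
        exact hxy w h3 h4
    · rcases hw with rfl | rfl | ⟨h3, h4⟩
      · rw [hco y h1, hcz]
        constructor
        · intro h
          exact absurd h (hnzN y h1)
        · intro h
          exact absurd ((C.le_iff y h1 x F.mem).mpr (by
            rw [F.co_eq]
            exact (show ((m, m + 1) : ℕ × ℕ) ≤ (m + 1, m + 1) from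
              ⟨Nat.le_succ m, le_rfl⟩).trans h)) h2
      · rw [hco y h1, hct]
        constructor
        · intro h
          exact absurd h (hnxN y h1)
        · intro h
          exact absurd ((C.le_iff y h1 x F.mem).mpr (by rw [F.co_eq]; exact h)) h2
      · rw [hco y h1, hco w h3]
        exact C.le_iff y h1 w h3
  · intro y hy
    rw [mem_NcP] at hy
    rcases hy with rfl | rfl | ⟨h1, h2⟩
    · rw [hcz]
    · rw [hct]; exact Nat.le_succ m
    · rw [hco y h1]; exact C.mem y h1
  · have key : ∀ c : ℕ × ℕ, c ≤ (m, m + 1) → c.1 ≤ c.2 →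
        ∃ y ∈ NcP Nc x x' z, coP co m x' z y = c := by
      intro c hc hcS
      by_cases h : c = (m, m + 1)
      · exact ⟨x', mem_NcP.mpr (Or.inr (Or.inl rfl)), by rw [hct, h]⟩
      · obtain ⟨y, hy, hcy⟩ := C.low x F.mem c (by rw [F.co_eq]; exact hc) hcS
        refine ⟨y, mem_NcP.mpr (Or.inr (Or.inr ⟨hy, fun hyx => h ?_⟩)), by rw [hco y hy, hcy]⟩
        have h1 := (C.le_iff y hy x F.mem).mp hyx
        rw [F.co_eq, hcy] at h1
        exact le_antisymm hc h1
    intro y hy c hc hcS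
    rw [mem_NcP] at hy
    rcases hy with rfl | rfl | ⟨h1, h2⟩
    · rw [hcz] at hc
      by_cases h : c = (m + 1, m + 1)
      · exact ⟨y, mem_NcP.mpr (Or.inl rfl), by rw [hcz, h]⟩
      · refine key c ?_ hcS
        rw [Prod.le_def] at hc ⊢
        simp only at hc ⊢ 
        have h3 : ¬ (c.1 = m + 1 ∧ c.2 = m + 1) := fun h4 => h (Prod.ext h4.1 h4.2)
        omega
    · rw [hct] at hc
      exact key c hc hcS
    · rw [hco y h1] at hc
      obtain ⟨w, hw, hcw⟩ := C.low y h1 c hc hcS
      refine ⟨w, mem_NcP.mpr (Or.inr (Or.inr ⟨hw, fun hwx => h2 ?_⟩)), by rw [hco w hw, hcw]⟩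
      exact le_trans ((C.le_iff y h1 w hw).mpr (by rw [hcw]; exact hc)) hwx
  · intro y hy
    rw [mem_NcP] at hy
    have h0 : Pool.Agent.GaussPoset.lev x' = 2 * m + 1 := by rw [F.lev_eq, F.lev_x]
    rcases hy with rfl | rfl | ⟨h1, h2⟩
    · rw [hcz, hgr.lev_covBy hcov, h0]
      simp only
      omega
    · rw [hct, h0]
      simp only
      omega
    · rw [hco y h1]
      exact C.lev y h1

/-- the end of the first row does not change -/
lemma FoldC.isEndP (F : FoldC i t Nc co m x x') (hz : z ∉ Nc) (hzx : ∀ y, z < y ↔ x' ≤ y) {x1 : P}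
    (E : IsEnd (fun c => c.1 ≤ c.2) Nc co x1) :
    IsEnd (fun c => c.1 ≤ c.2) (NcP Nc x x' z) (coP co m x' z) x1 := by
  have C := F.chart
  have hzx' : z < x' := (hzx x').mpr le_rfl
  have hne : z ≠ x' := hzx'.ne
  have hoN : ∀ y ∈ Nc, y ≠ x' ∧ y ≠ z := fun y hy =>
    ⟨fun h => F.nNc (h ▸ hy), fun h => hz (h ▸ hy)⟩
  have hco : ∀ y ∈ Nc, coP co m x' z y = co y := fun y hy => coP_old (hoN y hy).1 (hoN y hy).2
  have hct : coP co m x' z x' = (m, m + 1) := coP_tw
  have hcz : coP co m x' z z = (m + 1, m + 1) := coP_pen hne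
  have h2 := F.hi
  have h3 := F.him
  have h1 : ¬ x1 ≤ x := by
    intro h
    have h4 := (C.le_iff x1 E.mem x F.mem).mp h
    rw [F.co_eq] at h4
    have h5 : m ≤ (co x1).1 := h4.1
    rw [E.fst] at h5
    omega
  have hx := E.lt x F.mem (by rw [F.co_eq]; simp only; omega)
  rw [F.co_eq] at hx
  simp only at hx
  refine ⟨mem_NcP.mpr (Or.inr (Or.inr ⟨E.mem, h1⟩)), by rw [hco x1 E.mem]; exact E.fst, ?_, ?_⟩
  · intro y hy h4
    rw [hco x1 E.mem]
    rw [mem_NcP] at hy
    rcases hy with rfl | rfl | ⟨h5, h6⟩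
    · rw [hcz]; exact hx
    · rw [hct]; exact hx
    · rw [hco y h5] at h4 ⊢
      exact E.lt y h5 h4
  · intro c hc hcS
    rw [hco x1 E.mem] at hc
    obtain ⟨y, hy, hcy⟩ := E.ex c hc hcS
    refine ⟨y, mem_NcP.mpr (Or.inr (Or.inr ⟨hy, fun h => ?_⟩)), by rw [hco y hy, hcy]⟩
    have h4 := (C.le_iff y hy x F.mem).mp h
    rw [F.co_eq, hcy] at h4
    have h5 : m ≤ 1 := h4.1
    omega

/-- **The region in which the twin replaces the cell, with an element below the twin.** -/
theorem FoldC.clean_pen (F : FoldC i t Nc co m x x') (hgr : GradedBelow P) 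
    {M : Tops P → Finset P} (HM : NatSys M) (hM : M t = natS Nc co)
    (hlowM : ∀ y, lev y ≤ i → y ∉ unnat M) (hz : z ∈ unnat M) (hzx : ∀ y, z < y ↔ x' ≤ y)
    {D : Finset P} (hDl : ∀ a c, a ≤ c → c ∈ D → a ∈ D) (hDlev : ∀ y ∈ D, i < lev y)
    (hDB : ∀ y ∈ D, ¬ (y ∈ Nc ∧ co y = (2 * (i / 2), i)))
    (hD : ∀ y ∈ unnat M, y ≠ x' → y ≠ z → y ∈ D) (hx : x ∈ D) [DecidableEq (Tops P)] :
    (1 + X : Polynomial (PowerSeries ℤ)) ^ (i / 2 + 1) ∣
      W {y : {y : P // y ∉ D} // topOf (y : P) = t} i := by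
  classical
  have C := F.chart
  have hzx' : z < x' := (hzx x').mpr le_rfl
  have hne : z ≠ x' := hzx'.ne
  have hzN : z ∉ Nc := fun h => mem_unnat.mp hz t (by rw [hM]; exact mem_natS.mpr (Or.inl h))
  have hoN : ∀ y ∈ Nc, y ≠ x' ∧ y ≠ z := fun y hy =>
    ⟨fun h => F.nNc (h ▸ hy), fun h => hzN (h ▸ hy)⟩
  have hco : ∀ y ∈ Nc, coP co m x' z y = co y := fun y hy => coP_old (hoN y hy).1 (hoN y hy).2
  have hct : coP co m x' z x' = (m, m + 1) := coP_tw
  have hcz : coP co m x' z z = (m + 1, m + 1) := coP_pen hne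
  have CP := F.chartP hgr hzN hzx
  have h2 := F.hi
  have h3 := F.him
  have hxlow : ∀ y, y ≤ x → m ≤ (co y).1 ∨ y ∉ Nc := by
    intro y hy
    by_cases hyN : y ∈ Nc
    · left
      have h4 := (C.le_iff y hyN x F.mem).mp hy
      rw [F.co_eq] at h4
      exact h4.1
    · exact Or.inr hyN
  have NT := natTop_stair (i := i) hgr CP F.hi (by
    obtain ⟨y, hy, hcy⟩ := F.cell
    refine ⟨y, mem_NcP.mpr (Or.inr (Or.inr ⟨hy, fun h => ?_⟩)), by rw [hco y hy, hcy]⟩
    rcases hxlow y h with h4 | h4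
    · rw [hcy] at h4
      simp only at h4
      omega
    · exact h4 hy) (by
    intro y hy hly
    refine mem_NcP.mpr (Or.inr (Or.inr ⟨F.low y hy hly, fun h => ?_⟩))
    have h4 := F.lev_x
    rcases eq_or_lt_of_le h with h5 | h5
    · rw [h5] at hly; omega
    · have := lev_strictAnti h5; omega)
  set M' : Tops P → Finset P := Function.update M t (natS (NcP Nc x x' z) (coP co m x' z))
    with hM'
  have hM't : M' t = natS (NcP Nc x x' z) (coP co m x' z) := Function.update_self _ _ _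
  have hM'n : ∀ s, s ≠ t → M' s = M s := fun s hs => Function.update_of_ne hs _ _
  have HM' : NatSys M' := by
    constructor
    · intro s
      by_cases hs : s = t
      · rw [hs, hM't]; exact NT.up
      · rw [hM'n s hs]; exact HM.up s
    · intro s
      by_cases hs : s = t
      · rw [hs, hM't]; exact NT.le_t
      · rw [hM'n s hs]; exact HM.le_t s
  have hd := NT.data M' HM' hM't (thS i (NcP Nc x x' z) (coP co m x' z))
    (fun y => y ∈ NcP Nc x x' z ∧ coP co m x' z y = (2 * (i / 2), i)) (fun _ _ => rfl)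
    (fun _ _ => Iff.rfl)
  have hlow' : ∀ y, lev y ≤ i → y ∉ unnat M' := by
    intro y hy h
    rw [mem_unnat] at h
    have h4 := hlowM y hy
    rw [mem_unnat] at h4
    push Not at h4
    obtain ⟨s, hs⟩ := h4
    by_cases hst : s = t
    · subst hst
      refine h s ?_
      exact NT.low y (HM.le_t s y hs) hy |> fun h5 => by rw [hM't]; exact h5
    · exact h s (by rw [hM'n s hst]; exact hs)
  have hsub : ∀ y, y ∉ D → topOf y = t → y ∉ unnat M' := by
    intro y hyD hyt h
    rw [mem_unnat] at h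
    refine h t ?_
    rw [hM't, mem_natS]
    by_cases h4 : y = z
    · exact Or.inl (mem_NcP.mpr (Or.inl h4))
    by_cases h5 : y = x'
    · exact Or.inl (mem_NcP.mpr (Or.inr (Or.inl h5)))
    have h6 : y ∉ unnat M := fun h7 => hyD (hD y h7 h5 h4)
    have h7 : y ∈ M t := HM.mem_iff.mpr ⟨h6, hyt⟩
    rw [hM, mem_natS] at h7
    rcases h7 with h7 | h7
    · exact Or.inl (mem_NcP.mpr (Or.inr (Or.inr ⟨h7, fun h8 => hyD (hDl y x h8 hx)⟩)))
    · obtain ⟨x1, E, hj⟩ := mem_junk.mp h7
      exact Or.inr (mem_junk.mpr ⟨x1, F.isEndP hzN hzx E, hj⟩)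
  have hgood : Good i (unnat M') (fun y => y ∈ NcP Nc x x' z ∧
      coP co m x' z y = (2 * (i / 2), i)) (D ∪ unnat M') := by
    refine ⟨?_, subset_union_right, ?_, ?_⟩
    · intro a c hac hc
      rw [mem_union] at hc ⊢
      rcases hc with hc | hc
      · exact Or.inl (hDl a c hac hc)
      · exact Or.inr (HM'.lower a c hac hc)
    · intro y hy
      rw [mem_union] at hy
      rcases hy with hy | hy
      · exact hDlev y hy
      · by_contra hcon
        exact hlow' y (not_lt.mp hcon) hy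
    · intro y hy
      rw [mem_union] at hy
      rintro ⟨h4, h5⟩
      rcases hy with hy | hy
      · rw [mem_NcP] at h4
        rcases h4 with h4 | h4 | ⟨h4, -⟩
        · rw [h4, hcz] at h5
          simp only [Prod.mk.injEq] at h5
          omega
        · rw [h4, hct] at h5
          simp only [Prod.mk.injEq] at h5
          omega
        · rw [hco y h4] at h5
          exact hDB y hy ⟨h4, h5⟩
      · exact mem_unnat.mp hy t (by rw [hM't]; exact mem_natS.mpr (Or.inl h4))
  have h4 := hd.clean (D ∪ unnat M') hgood inferInstance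
  let e : {y : {y : P // y ∉ D} // topOf (y : P) = t} ≃o
      {y : {y : P // y ∉ D ∪ unnat M'} // topOf (y : P) = t} :=
    { toFun := fun y => ⟨⟨y, by
        rw [mem_union, not_or]
        exact ⟨y.1.2, hsub _ y.1.2 y.2⟩⟩, y.2⟩
      invFun := fun y => ⟨⟨y, fun h => y.1.2 (mem_union_left _ h)⟩, y.2⟩
      left_inv := fun y => rfl
      right_inv := fun y => rfl
      map_rel_iff' := Iff.rfl }
  rw [W_iso e]
  exact h4

end Fold

end Pool.Agent.GaussPoset
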