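import Pool.Agent.W_448f4_h70.JB

/-!
The region which contains the cell `(m, m + 1)` of a stair-like component and its twin, both
minimal (MP_448cb3_co, S7).
-/

namespace Pool.Agent.GaussPoset

set_option linter.unusedSectionVars false

open Polynomial Finset

universe u

variable {P : Type u} [Fintype P] [PartialOrder P] [DecidableEq P]

section Fold

variable {i m : ℕ} {t : Tops P} {Nc : Finset P} {co : P → ℕ × ℕ} {x x' z : P}

/-- the coordinates of a stair-like component with junk -/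
theorem coordJ_stair (C : Chart (t : P) (fun c => c.1 ≤ c.2) Nc co) {M : Tops P → Finset P}
    (HM : NatSys M) (hM : M t = natS Nc co) :
    CoordJ (unnat M) topOf t (fun y => y ∈ junk (fun c => c.1 ≤ c.2) Nc co)
      (fun c => c.1 ≤ c.2) co := by
  have hmem : ∀ x, x ∉ unnat M → topOf x = t → x ∈ natS Nc co := fun x h1 h2 => by
    rw [← hM]; exact HM.mem_iff.mpr ⟨h1, h2⟩
  have hnJ : ∀ x, x ∉ unnat M → topOf x = t → x ∉ junk (fun c => c.1 ≤ c.2) Nc co → x ∈ Nc := by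
    intro x hx hk hJ
    rcases mem_natS.mp (hmem x hx hk) with h | h
    · exact h
    · exact absurd h hJ
  have hNM : ∀ x ∈ Nc, x ∉ unnat M ∧ topOf x = t := fun x hx =>
    HM.mem_iff.mp (by rw [hM]; exact mem_natS.mpr (Or.inl hx))
  constructor
  · intro x y hx hy hkx hky hJx hJy h
    exact C.inj x (hnJ x hx hkx hJx) y (hnJ y hy hky hJy) h
  · intro x y hx hy hkx hky hJx hJy
    exact C.le_iff x (hnJ x hx hkx hJx) y (hnJ y hy hky hJy)
  · intro x hx hk hJx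
    exact C.mem x (hnJ x hx hk hJx)
  · intro x hx hk hJx c hc hS
    have hxN := hnJ x hx hk hJx
    obtain ⟨y, hy, hcy⟩ := C.low x hxN c hc hS
    refine ⟨y, (hNM y hy).1, (hNM y hy).2, ?_, hcy⟩
    have hxy : x ≤ y := by
      rw [C.le_iff x hxN y hy, hcy]
      exact hc
    intro h
    obtain ⟨w, Hw, hyw⟩ := mem_junk.mp h
    exact hJx (mem_junk.mpr ⟨w, Hw, (Hw.tail C hxN (hxy.trans_lt (mem_jset.mp hyw).1)).2⟩)
  · intro x hx hk hJx
    exact C.lev x (hnJ x hx hk hJx)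

/-- **The region which contains the cell `(m, m + 1)` and its twin, both minimal.** -/
theorem FoldC.clean_both (F : FoldC i t Nc co m x x')
    {M : Tops P → Finset P} (HM : NatSys M) (hM : M t = natS Nc co)
    {D : Finset P} (hDl : ∀ a c, a ≤ c → c ∈ D → a ∈ D)
    (hDB : ∀ y ∈ D, ¬ (y ∈ Nc ∧ co y = (2 * (i / 2), i)))
    (hD : ∀ y ∈ unnat M, y ≠ x' → y ∈ D) (hx : x ∉ D) (hx' : x' ∉ D) (hx't : topOf x' = t)
    (hmx : ∀ y < x, y ∈ D) (hmx' : ∀ y < x', y ∈ D) [DecidableEq (Tops P)] :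
    (1 + X : Polynomial (PowerSeries ℤ)) ^ (i / 2 + 1) ∣
      W {y : {y : P // y ∉ D} // topOf (y : P) = t} i := by
  classical
  have C := F.chart
  have h2 := F.hi
  have h3 := F.him
  have hmem : ∀ x, x ∉ unnat M → topOf x = t → x ∈ natS Nc co := fun x h1 h2 => by
    rw [← hM]; exact HM.mem_iff.mpr ⟨h1, h2⟩
  have hNM : ∀ x ∈ Nc, x ∉ unnat M ∧ topOf x = t := fun x hx =>
    HM.mem_iff.mp (by rw [hM]; exact mem_natS.mpr (Or.inl hx))
  have hnN : ∀ y, y ∉ D → y ≠ x' → y ∉ unnat M := fun y h4 h5 h6 => h4 (hD y h6 h5)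
  have H := coordJ_stair C HM hM
  obtain ⟨x0, hx0, hcx0⟩ := F.cell
  have h1 : ∃ y ∈ Nc, 1 ≤ (co y).1 := ⟨x0, hx0, by rw [hcx0]; simp only; omega⟩
  obtain ⟨x1, J1, hx1, hr1⟩ := junk_data (S := fun c : ℕ × ℕ => c.1 ≤ c.2) (fun c hc => hc) C h1
      HM (J' := fun _ => False) (fun x => by rw [hM, mem_natS, or_false])
      (fun _ _ _ h => h.elim) (fun _ h => h.elim) (fun h => h)
  have hNJ : ∀ y ∈ Nc, 1 ≤ (co y).1 → y ∉ junk (fun c => c.1 ≤ c.2) Nc co := by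
    intro y hy hc h
    obtain ⟨w, Hw, hxw⟩ := mem_junk.mp h
    have := (Hw.tail C hy (mem_jset.mp hxw).1).1
    omega
  have hxJ : x ∉ junk (fun c => c.1 ≤ c.2) Nc co := hNJ x F.mem (by rw [F.co_eq]; simp only; omega)
  have hx'J : x' ∉ junk (fun c => c.1 ≤ c.2) Nc co := fun h => F.nN (mem_natS.mpr (Or.inr h))
  have hx0D : x0 ∉ D := fun h => hDB x0 h ⟨hx0, hcx0⟩
  have hx1x' : x1 ≠ x' := by
    intro h
    have h4 := hmem x1 hx1.1 hx1.2.1
    rw [h] at h4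
    exact F.nN h4
  have hxx1 : (∃ y, y ∈ junk (fun c => c.1 ≤ c.2) Nc co) → ¬ x < x1 := by
    intro hex h
    have h4 := (hr1 hex).2 x (hNM x F.mem).1 (hNM x F.mem).2 hxJ (fun h => h) h.ne
    have hx1N : x1 ∈ Nc := C.up x F.mem x1 h.le
    have h5 := (C.le_iff x F.mem x1 hx1N).mp h.le
    have h6 : (co x1).2 ≤ (co x).2 := h5.2
    omega
  have hlowJ : ∀ y z, y ∉ D → y ≤ z → z ∈ junk (fun c => c.1 ≤ c.2) Nc co →
      y ∈ junk (fun c => c.1 ≤ c.2) Nc co := by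
    intro y z hyD hyz hz
    by_cases hyx : y = x'
    · exfalso
      subst hyx
      rcases eq_or_lt_of_le hyz with h | h
      · rw [h] at hx'J; exact hx'J hz
      · exact hxx1 ⟨z, hz⟩ (((F.up z).mpr h).trans (J1.mem z hz).2.2)
    · exact J1.low y z hyz (hnN y hyD hyx) hz
  -- the end
  obtain ⟨w1, hw1D, hw1t, hw1J, hw1x', hh1, hrr⟩ : ∃ w1 : P, w1 ∉ D ∧ topOf w1 = t ∧
      w1 ∉ junk (fun c => c.1 ≤ c.2) Nc co ∧ w1 ≠ x' ∧
      (∀ y z, y ∉ D → z ∉ D → y ∈ junk (fun c => c.1 ≤ c.2) Nc co →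
        z ∉ junk (fun c => c.1 ≤ c.2) Nc co → (y ≤ z ↔ w1 ≤ z)) ∧
      ((∃ y, y ∉ D ∧ y ∈ junk (fun c => c.1 ≤ c.2) Nc co) → (co w1).1 = 0 ∧
        ∀ y, y ∉ unnat M → topOf y = t → y ∉ junk (fun c => c.1 ≤ c.2) Nc co → y ≠ w1 →
          (co y).2 < (co w1).2) := by
    by_cases h4 : x1 ∈ D
    · have hno : ∀ y, y ∉ D → y ∉ junk (fun c => c.1 ≤ c.2) Nc co := by
        intro y hy hJ
        exact hy (hDl _ _ (J1.mem _ hJ).2.2.le h4)
      exact ⟨x, hx, (hNM x F.mem).2, hxJ, F.ne, fun y z hy _ hJ _ => (hno y hy hJ).elim,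
        fun ⟨y, hy, hJ⟩ => (hno y hy hJ).elim⟩
    · refine ⟨x1, h4, hx1.2.1, hx1.2.2.1, hx1x', ?_, ?_⟩
      · intro y z _ _ hJ hJz
        constructor
        · intro hxy
          exact (J1.anc _ _ hJ hxy).resolve_left hJz
        · intro hxy
          exact (J1.mem _ hJ).2.2.le.trans hxy
      · rintro ⟨y, -, hJ⟩
        obtain ⟨h5, h6⟩ := hr1 ⟨_, hJ⟩
        exact ⟨h5, fun y hy hyt hyJ hne => h6 y hy hyt hyJ (fun h => h) hne⟩
  have hQ : ∀ y : {y : {y : P // y ∉ D} // topOf (y : P) = t},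
      y ≠ ⟨⟨x', hx'⟩, hx't⟩ → y.1.1 ∉ unnat M := by
    intro y hy
    refine hnN _ y.1.2 (fun h => hy ?_)
    exact Subtype.ext (Subtype.ext h)
  refine shift_junk_dvd_twin (Q := {y : {y : P // y ∉ D} // topOf (y : P) = t})
    (fun y => y.1.1 ∈ junk (fun c => c.1 ≤ c.2) Nc co) (fun y => co y.1.1)
    ⟨⟨w1, hw1D⟩, hw1t⟩ ⟨⟨x, hx⟩, (hNM x F.mem).2⟩ ⟨⟨x', hx'⟩, hx't⟩ hw1J ?_ ?_ hxJ hx'J ?_ ?_ ?_
    (m := m) F.co_eq ?_ ?_ ?_ ?_ ?_ ?_ ?_ ?_
  · intro h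
    exact hw1x' (congrArg (fun y => y.1.1) h)
  · intro h
    exact F.ne (congrArg (fun y => y.1.1) h)
  · intro y h
    exact y.1.2 (hmx y.1.1 h)
  · intro y h
    exact y.1.2 (hmx' y.1.1 h)
  · intro y
    exact F.up y.1.1
  · intro y z hyz hz
    exact hlowJ y.1.1 z.1.1 y.1.2 hyz hz
  · intro y z hy hz _
    exact hh1 y.1.1 z.1.1 y.1.2 z.1.2 hy hz
  · intro y z hy hz hyx hzx h
    exact Subtype.ext (Subtype.ext (H.inj _ _ (hQ y hyx) (hQ z hzx) y.2 z.2 hy hz h))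
  · intro y hy hyx
    exact H.mem _ (hQ y hyx) y.2 hy
  · intro y z hy hz hyx hzx
    exact H.le_iff _ _ (hQ y hyx) (hQ z hzx) y.2 z.2 hy hz
  · intro y hy hyx c hc hcS
    obtain ⟨u, hu, hut, huJ, hcu⟩ := H.low _ (hQ y hyx) y.2 hy c hc hcS
    have huD : u ∉ D := by
      intro h
      refine y.1.2 (hDl _ u ?_ h)
      rw [H.le_iff _ u (hQ y hyx) hu y.2 hut hy huJ, hcu]
      exact hc
    refine ⟨⟨⟨u, huD⟩, hut⟩, huJ, fun h => ?_, hcu⟩
    have h5 : u = x' := congrArg (fun y => y.1.1) h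
    have h6 := hmem u hu hut
    rw [h5] at h6
    exact F.nN h6
  · rintro ⟨y, hy⟩
    obtain ⟨h5, h6⟩ := hrr ⟨y.1.1, y.1.2, hy⟩
    refine ⟨h5, fun y hy hyx hne => h6 y.1.1 (hQ y hyx) y.2 hy (fun h => hne ?_)⟩
    exact Subtype.ext (Subtype.ext h)
  · refine ⟨⟨⟨x0, hx0D⟩, (hNM x0 hx0).2⟩, hNJ x0 hx0 (by rw [hcx0]; simp only; omega), ?_, hcx0⟩
    intro h
    exact F.nNc ((congrArg (fun y => y.1.1) h : x0 = x') ▸ hx0)

end Fold

end Pool.Agent.GaussPoset
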