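import Pool.Agent.W_448f4_h70.JC

/-!
Systems of natural sets with twins of the cells `(m, m + 1)` and elements which hang below these
twins: the regions of one part (MP_448cb3_co, S7).
-/

namespace Pool.Agent.GaussPoset

set_option linter.unusedSectionVars false

open Polynomial Finset

universe u

variable {P : Type u} [Fintype P] [PartialOrder P] [DecidableEq P]

/-- twins `Yf` of cells `(m, m + 1)` and the elements `Z` which hang below them -/
structure FoldSys (i : ℕ) (N : Tops P → Finset P) (b : Tops P → ℕ) (B : Tops P → P → Prop)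
    (Y Yf Z : Finset P) (τ π : P → P) : Prop where
  sub : Yf ⊆ Y
  fold : ∀ x' ∈ Yf, ∃ Nc co m, FoldC i (topOf x') Nc co m (τ x') x' ∧
    N (topOf x') = natS Nc co ∧ b (topOf x') = i / 2 + 1 ∧
    ∀ y, B (topOf x') y ↔ (y ∈ Nc ∧ co y = (2 * (i / 2), i))
  uniq : ∀ x ∈ Yf, ∀ y ∈ Yf, topOf x = topOf y → x = y
  penU : ∀ z ∈ Z, z ∈ unnat N
  penY : ∀ z ∈ Z, z ∉ Y
  penF : ∀ z ∈ Z, π z ∈ Yf
  pen : ∀ z ∈ Z, ∀ y, z < y ↔ π z ≤ y

section Sys

variable {i : ℕ} {N : Tops P → Finset P} {b : Tops P → ℕ} {θ : Tops P → P → ℕ}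
  {B : Tops P → P → Prop} {Y Yf Z : Finset P} {τ π : P → P}

/-- nothing unnatural above a twin -/
lemma TwSys.top_unnat (T : TwSys (unnat N) Y topOf τ) (HN : NatSys N) {x c : P} (hx : x ∈ Y)
    (hxc : x < c) : c ∉ unnat N := by
  intro h
  exact T.nat x hx (HN.lower _ c ((T.up x hx c).mpr hxc).le h)

/-- nothing unnatural above a pendant except its twin -/
lemma FoldSys.above (F : FoldSys i N b B Y Yf Z τ π) (T : TwSys (unnat N) Y topOf τ)
    (HN : NatSys N) {z c : P} (hz : z ∈ Z) (hzc : z < c) (hc : c ∈ unnat N) : c = π z := by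
  have h1 := (F.pen z hz c).mp hzc
  by_contra hne
  exact T.top_unnat HN (F.sub (F.penF z hz)) (lt_of_le_of_ne h1 (Ne.symm hne)) hc

lemma FoldSys.lt (F : FoldSys i N b B Y Yf Z τ π) {z : P} (hz : z ∈ Z) : z < π z :=
  (F.pen z hz _).mpr le_rfl

lemma topOf_of_up {x y : P} (HN : NatSys N) (hx : x ∉ unnat N) (hyx : ∀ s : P, y ≤ s → lev s = 0 → x ≤ s) :
    topOf y = topOf x := by
  have h1 : x ∈ N (topOf x) := HN.mem_iff.mpr ⟨hx, rfl⟩
  exact Subtype.ext (HN.top_eq h1 (topOf y).2 (hyx _ (le_topOf y) (topOf y).2))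

/-- the top of a pendant -/
lemma FoldSys.top_pen (F : FoldSys i N b B Y Yf Z τ π) (T : TwSys (unnat N) Y topOf τ)
    (HN : NatSys N) {z : P} (hz : z ∈ Z) : topOf z = topOf (π z) := by
  have hY := F.sub (F.penF z hz)
  rw [← T.cp _ hY]
  refine topOf_of_up HN (T.nat _ hY) (fun s hs hl => ?_)
  have h1 : z ≠ s := by
    rintro rfl
    have := lev_strictAnti (F.lt hz)
    omega
  have h2 := (F.pen z hz s).mp (lt_of_le_of_ne hs h1)
  have h3 : π z ≠ s := by
    rintro rfl
    obtain ⟨Nc, co, m, hF, -⟩ := F.fold _ (F.penF z hz)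
    have h4 := hF.lev_eq
    have h5 := hF.lev_x
    omega
  exact ((T.up _ hY s).mpr (lt_of_le_of_ne h2 h3)).le

/-- regions of a part -/
lemma dvd_region {D E : Finset P} {t : Tops P} [DecidableEq (Tops P)] {p : Polynomial (PowerSeries ℤ)}
    (h1 : ∀ y, topOf y = t → (y ∈ D ↔ y ∈ E))
    (h : p ∣ W {y : {y : P // y ∉ E} // topOf (y : P) = t} i) :
    p ∣ W {y : {y : P // y ∉ D} // topOf (y : P) = t} i := by
  let e : {y : {y : P // y ∉ D} // topOf (y : P) = t} ≃o
      {y : {y : P // y ∉ E} // topOf (y : P) = t} :=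
    { toFun := fun y => ⟨⟨y, fun h => y.1.2 ((h1 _ y.2).mpr h)⟩, y.2⟩
      invFun := fun y => ⟨⟨y, fun h => y.1.2 ((h1 _ y.2).mp h)⟩, y.2⟩
      left_inv := fun y => rfl
      right_inv := fun y => rfl
      map_rel_iff' := Iff.rfl }
  rw [W_iso e]
  exact h

/-- the far set without the twins of the cells `(m, m + 1)` and without the pendants -/
lemma FoldSys.lowerF (F : FoldSys i N b B Y Yf Z τ π) (T : TwSys (unnat N) Y topOf τ)
    (HN : NatSys N) : ∀ a c, a ≤ c → c ∈ (unnat N \ Yf) \ Z → a ∈ (unnat N \ Yf) \ Z := by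
  intro a c hac hc
  rw [mem_sdiff, mem_sdiff] at hc ⊢
  rcases eq_or_lt_of_le hac with h | h
  · rw [h]; exact hc
  · refine ⟨⟨HN.lower a c hac hc.1.1, fun h1 => ?_⟩, fun h1 => ?_⟩
    · exact T.top_unnat HN (F.sub h1) h hc.1.1
    · have h2 := F.above T HN h1 h hc.1.1
      exact hc.1.2 (h2 ▸ F.penF a h1)

/-- the twins of the other cells -/
lemma FoldSys.twF (F : FoldSys i N b B Y Yf Z τ π) (T : TwSys (unnat N) Y topOf τ) :
    TwSys ((unnat N \ Yf) \ Z) (Y \ Yf) topOf τ where
  sub := by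
    intro x hx
    rw [mem_sdiff] at hx
    rw [mem_sdiff, mem_sdiff]
    exact ⟨⟨T.sub hx.1, hx.2⟩, fun h => F.penY x h hx.1⟩
  nat := by
    intro x hx h
    rw [mem_sdiff, mem_sdiff] at h
    exact T.nat x (mem_sdiff.mp hx).1 h.1.1
  up := fun x hx => T.up x (mem_sdiff.mp hx).1
  inj := fun x hx y hy => T.inj x (mem_sdiff.mp hx).1 y (mem_sdiff.mp hy).1
  anti := fun x hx y hy => T.anti x (mem_sdiff.mp hx).1 y (mem_sdiff.mp hy).1
  cp := fun x hx => T.cp x (mem_sdiff.mp hx).1

/-- **The regions of one part.** -/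
theorem FoldSys.clean_part (F : FoldSys i N b B Y Yf Z τ π) (T : TwSys (unnat N) Y topOf τ)
    (hgr : GradedBelow P) (H : ∀ t, NatTop i t (b t) (N t) (θ t) (B t)) {D : Finset P}
    (hD : Good i ((unnat N \ Y) \ Z) (fun x => x ∉ unnat N ∧ B (topOf x) x) D) (t : Tops P)
    (hb : ∀ y ∈ Y, topOf y = t → τ y ∈ D ∨ y ∈ D ∨
      (y ∈ Yf ∧ (∀ a < τ y, a ∈ D) ∧ ∀ a < y, a ∈ D))
    (hbz : ∀ z1 ∈ Z, ∀ z2 ∈ Z, topOf z1 = t → z1 ≠ z2 → π z1 = π z2 → z1 ∈ D ∨ z2 ∈ D)
    [DecidableEq (Tops P)] :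
    (1 + X : Polynomial (PowerSeries ℤ)) ^ (b t) ∣
      W {y : {y : P // y ∉ D} // topOf (y : P) = t} i := by
  classical
  have HN := natSys_of_tops H
  have hRlev : ∀ x ∈ unnat N, i < lev x := by
    intro x hx
    by_contra hcon
    exact low_natural H (not_lt.mp hcon) hx
  obtain ⟨hDl, hDR, hDlev, hDB⟩ := hD
  -- the unnatural elements of the other parts
  set A : Finset P := (unnat N).filter (fun a => (a ∉ Y ∧ a ∉ Z) ∨ topOf a ≠ t) with hA
  have hmA : ∀ a, a ∈ A ↔ a ∈ unnat N ∧ ((a ∉ Y ∧ a ∉ Z) ∨ topOf a ≠ t) := by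
    intro a; rw [hA, mem_filter]
  have hAl : ∀ a c, a ≤ c → c ∈ A → a ∈ A := by
    intro a c hac hc
    rw [hmA] at hc ⊢
    rcases eq_or_lt_of_le hac with h | h
    · rw [h]; exact hc
    have haU := HN.lower a c hac hc.1
    refine ⟨haU, ?_⟩
    have haY : a ∉ Y := fun h1 => T.top_unnat HN h1 h hc.1
    by_cases haZ : a ∈ Z
    · right
      have h2 := F.above T HN haZ h hc.1
      rw [F.top_pen T HN haZ, ← h2]
      rcases hc.2 with h3 | h3
      · exact absurd (h2 ▸ F.sub (F.penF a haZ)) h3.1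
      · exact h3
    · exact Or.inl ⟨haY, haZ⟩
  have hAR : ∀ y, topOf y = t → y ∈ A → y ∈ D := by
    intro y hy h
    rw [hmA] at h
    rcases h.2 with h2 | h2
    · exact hDR (mem_sdiff.mpr ⟨mem_sdiff.mpr ⟨h.1, h2.1⟩, h2.2⟩)
    · exact absurd hy h2
  have hg1 : Good i (((unnat N \ Yf) \ Z) \ (Y \ Yf)) (fun x => x ∉ unnat N ∧ B (topOf x) x)
      (D ∪ A) := by
    refine ⟨?_, ?_, ?_, ?_⟩
    · intro a c hac hc
      rw [mem_union] at hc ⊢
      exact hc.imp (hDl a c hac) (hAl a c hac)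
    · intro a ha
      rw [mem_sdiff, mem_sdiff, mem_sdiff, mem_sdiff] at ha
      refine mem_union_left _ (hDR ?_)
      rw [mem_sdiff, mem_sdiff]
      exact ⟨⟨ha.1.1.1, fun h => ha.2 ⟨h, ha.1.1.2⟩⟩, ha.1.2⟩
    · intro a ha
      rw [mem_union] at ha
      rcases ha with ha | ha
      · exact hDlev a ha
      · exact hRlev a ((hmA a).mp ha).1
    · intro a ha
      rw [mem_union] at ha
      rcases ha with ha | ha
      · exact hDB a ha
      · exact fun h => h.1 ((hmA a).mp ha).1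
  refine dvd_region (E := D ∪ A) (fun y hy => ?_) ?_
  · rw [mem_union]
    exact ⟨fun h => Or.inl h, fun h => h.elim id (hAR y hy)⟩
  have hbr : Broken (pairsX (Y \ Yf) τ) (D ∪ A) := by
    intro s hs
    rw [mem_pairsX] at hs
    have h1 := mem_sdiff.mp hs.1
    rw [hs.2]
    by_cases h2 : topOf s.2 = t
    · rcases hb _ h1.1 h2 with h3 | h3 | h3
      · exact Or.inl (mem_union_left _ h3)
      · exact Or.inr (mem_union_left _ h3)
      · exact absurd h3.1 h1.2
    · exact Or.inr (mem_union_right _ ((hmA _).mpr ⟨T.sub h1.1, Or.inr h2⟩))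
  have TF := F.twF T
  refine TF.dvd_W (F.lowerF T HN) hg1 hbr ?_
  have hg2 := TF.good_exc (F.lowerF T HN) (fun x hx => hRlev x (by
    rw [mem_sdiff, mem_sdiff] at hx; exact hx.1.1)) (fun x hx h => h.1 (by
    rw [mem_sdiff, mem_sdiff] at hx; exact hx.1.1)) hg1
  set E : Finset P := exc (Y \ Yf) τ (D ∪ A) with hE
  have hmE : ∀ y, y ∈ unnat N → topOf y = t → y ∉ Y \ Yf → (y ∈ E ↔ y ∈ D) := by
    intro y hyU hyt hyY
    rw [hE, mem_exc]
    constructor
    · rintro (h | h)
      · exact (mem_union.mp h.1).elim id (hAR y hyt)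
      · exact absurd h hyY
    · intro h
      refine Or.inl ⟨mem_union_left _ h, fun w hw _ hwy => ?_⟩
      exact T.nat w (mem_sdiff.mp hw).1 (hwy ▸ hyU)
  obtain ⟨hEl, hER, hElev, hEB⟩ := hg2
  -- a lower set with more unnatural elements
  have hplus : ∀ Q : Finset P, Q ⊆ unnat N → (∀ a c, a ≤ c → c ∈ unnat N \ Q → a ∈ unnat N \ Q) →
      (∀ y ∈ unnat N, topOf y = t → y ∉ Q → y ∈ E) →
      (∀ a c, a ≤ c → c ∈ E ∪ (unnat N \ Q) → a ∈ E ∪ (unnat N \ Q)) ∧
      (∀ y ∈ E ∪ (unnat N \ Q), i < lev y) ∧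
      (∀ y ∈ E ∪ (unnat N \ Q), ¬ (y ∉ unnat N ∧ B (topOf y) y)) ∧
      (∀ y, topOf y = t → (y ∈ E ↔ y ∈ E ∪ (unnat N \ Q))) := by
    intro Q hQ hQl hQE
    refine ⟨?_, ?_, ?_, ?_⟩
    · intro a c hac hc
      rw [mem_union] at hc ⊢
      exact hc.imp (hEl a c hac) (hQl a c hac)
    · intro y hy
      rw [mem_union] at hy
      exact hy.elim (hElev y) (fun h => hRlev y (mem_sdiff.mp h).1)
    · intro y hy
      rw [mem_union] at hy
      exact hy.elim (hEB y) (fun h h2 => h2.1 (mem_sdiff.mp h).1)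
    · intro y hy
      rw [mem_union]
      refine ⟨Or.inl, fun h => h.elim id (fun h => ?_)⟩
      rw [mem_sdiff] at h
      exact hQE y h.1 hy h.2
  by_cases hcase : ∀ y ∈ unnat N, topOf y = t → y ∈ E
  · -- no unnatural element
    obtain ⟨p1, p2, p3, p4⟩ := hplus ∅ (Finset.empty_subset _) (fun a c hac hc => by
      rw [Finset.sdiff_empty] at hc ⊢
      exact HN.lower a c hac hc) (fun y hy hyt _ => hcase y hy hyt)
    refine dvd_region p4 ?_
    refine ((H t).data N HN rfl (fun x => θ (topOf x) x) (fun x => x ∉ unnat N ∧ B (topOf x) x)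
      ?_ ?_).clean _ ⟨p1, ?_, p2, p3⟩ inferInstance
    · intro x hx
      simp only [HN.topOf_eq hx]
    · intro x hx
      simp only [HN.topOf_eq hx, (HN.mem_iff.mp hx).1, not_false_eq_true, true_and]
    · rw [Finset.sdiff_empty]
      exact subset_union_right
  -- there is a twin
  obtain ⟨x', hx'f, hx't, hx'E⟩ : ∃ x' ∈ Yf, topOf x' = t ∧ x' ∉ E := by
    push Not at hcase
    obtain ⟨y, hyU, hyt, hyE⟩ := hcase
    by_cases hyF : y ∈ Yf
    · exact ⟨y, hyF, hyt, hyE⟩
    · have hyZ : y ∈ Z := by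
        by_contra hyZ
        exact hyE (hER (mem_sdiff.mpr ⟨mem_sdiff.mpr ⟨hyU, hyF⟩, hyZ⟩))
      exact ⟨π y, F.penF y hyZ, by rw [← F.top_pen T HN hyZ]; exact hyt,
        fun h => hyE (hEl _ _ (F.lt hyZ).le h)⟩
  have hx'Y := F.sub hx'f
  have hx'U := T.sub hx'Y
  have hx'n : x' ∉ Y \ Yf := fun h => (mem_sdiff.mp h).2 hx'f
  have hx'D : x' ∉ D := fun h => hx'E ((hmE x' hx'U hx't hx'n).mpr h)
  obtain ⟨Nc, co, m, hF, hN, hbt, hBt⟩ := F.fold x' hx'f
  rw [hx't] at hF hN hbt hBt
  rw [hbt]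
  -- a natural element has another twin
  have hone : ∀ w ∈ Y \ Yf, τ w ≠ τ x' := by
    intro w hw h
    have := T.inj w (mem_sdiff.mp hw).1 x' hx'Y h
    exact (mem_sdiff.mp hw).2 (this ▸ hx'f)
  have hxnat : τ x' ∉ unnat N := T.nat x' hx'Y
  have hxt : topOf (τ x') = t := by rw [T.cp x' hx'Y]; exact hx't
  have hxE : τ x' ∈ E ↔ τ x' ∈ D := by
    rw [hE, mem_exc]
    constructor
    · rintro (h | h)
      · exact (mem_union.mp h.1).elim id (hAR _ hxt)
      · exact absurd (T.sub (mem_sdiff.mp h).1) hxnat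
    · intro h
      exact Or.inl ⟨mem_union_left _ h, fun w hw _ => hone w hw⟩
  have hBE : ∀ y, y ∉ unnat N → (B (topOf y) y → topOf y = t → y ∈ Nc ∧ co y = (2 * (i / 2), i)) := by
    intro y _ h hy
    rw [hy] at h
    exact (hBt y).mp h
  have hNcn : ∀ y ∈ Nc, y ∉ unnat N ∧ topOf y = t := fun y hy =>
    HN.mem_iff.mp (by rw [hN]; exact mem_natS.mpr (Or.inl hy))
  have hbase : ∀ Q : Finset P, (∀ y ∈ Q, ¬ (y ∉ unnat N ∧ B (topOf y) y)) →
      ∀ y ∈ Q, ¬ (y ∈ Nc ∧ co y = (2 * (i / 2), i)) := by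
    intro Q hQ y hy h
    refine hQ y hy ⟨(hNcn y h.1).1, ?_⟩
    rw [(hNcn y h.1).2]
    exact (hBt y).mpr h
  have hlowx' : ∀ a c : P, a ≤ c → c ∈ unnat N \ {x'} → a ∈ unnat N \ {x'} := by
    intro a c hac hc
    rw [mem_sdiff, mem_singleton] at hc ⊢
    refine ⟨HN.lower a c hac hc.1, fun h => ?_⟩
    subst h
    rcases eq_or_lt_of_le hac with h | h
    · exact hc.2 h.symm
    · exact T.top_unnat HN hx'Y h hc.1
  by_cases hpen : ∃ z ∈ Z, π z = x' ∧ z ∉ E
  · -- a pendant
    obtain ⟨z, hz, hzx, hzE⟩ := hpen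
    have hzU := F.penU z hz
    have hzt : topOf z = t := by rw [F.top_pen T HN hz, hzx]; exact hx't
    have hzn : z ∉ Y \ Yf := fun h => F.penY z hz (mem_sdiff.mp h).1
    have hzD : z ∉ D := fun h => hzE ((hmE z hzU hzt hzn).mpr h)
    have hxD : τ x' ∈ D := by
      rcases hb x' hx'Y hx't with h | h | h
      · exact h
      · exact absurd h hx'D
      · exact absurd (h.2.2 z (hzx ▸ F.lt hz)) hzD
    obtain ⟨p1, p2, p3, p4⟩ := hplus {x', z} (by
        intro y hy
        rw [mem_insert, mem_singleton] at hy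
        rcases hy with rfl | rfl
        · exact hx'U
        · exact hzU) (by
        intro a c hac hc
        rw [mem_sdiff, mem_insert, mem_singleton, not_or] at hc ⊢
        have h1 := hlowx' a c hac (mem_sdiff.mpr ⟨hc.1, by rw [mem_singleton]; exact hc.2.1⟩)
        rw [mem_sdiff, mem_singleton] at h1
        refine ⟨h1.1, h1.2, fun h => ?_⟩
        subst h
        rcases eq_or_lt_of_le hac with h | h
        · exact hc.2.2 h.symm
        · exact hc.2.1 ((F.above T HN hz h hc.1).trans hzx)) (by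
        intro y hyU hyt hyQ
        rw [mem_insert, mem_singleton, not_or] at hyQ
        by_contra hyE
        have hyn : y ∉ Yf := fun h => hyQ.1 (F.uniq y h x' hx'f (hyt.trans hx't.symm))
        have hyZ : y ∈ Z := by
          by_contra hyZ
          exact hyE (hER (mem_sdiff.mpr ⟨mem_sdiff.mpr ⟨hyU, hyn⟩, hyZ⟩))
        have h1 : π y = x' := F.uniq _ (F.penF y hyZ) x' hx'f (by
          rw [← F.top_pen T HN hyZ]; exact hyt.trans hx't.symm)
        have hyn' : y ∉ Y \ Yf := fun h => F.penY y hyZ (mem_sdiff.mp h).1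
        have hyD : y ∉ D := fun h => hyE ((hmE y hyU hyt hyn').mpr h)
        rcases hbz y hyZ z hz hyt hyQ.2 (h1.trans hzx.symm) with h | h
        · exact hyD h
        · exact hzD h)
    refine dvd_region p4 ?_
    refine hF.clean_pen (z := z) hgr HN hN (fun y hy h => low_natural H hy h) hzU
      (fun y => by rw [← hzx]; exact F.pen z hz y) p1 p2 (hbase _ p3) ?_
      (mem_union_left _ (hxE.mpr hxD))
    intro y hy h1 h2
    exact mem_union_right _ (mem_sdiff.mpr ⟨hy, by
      rw [mem_insert, mem_singleton, not_or]; exact ⟨h1, h2⟩⟩)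
  · push Not at hpen
    obtain ⟨p1, p2, p3, p4⟩ := hplus {x'} (by
        intro y hy
        rw [mem_singleton] at hy
        rw [hy]; exact hx'U) hlowx' (by
        intro y hyU hyt hyQ
        rw [mem_singleton] at hyQ
        by_contra hyE
        have hyn : y ∉ Yf := fun h => hyQ (F.uniq y h x' hx'f (hyt.trans hx't.symm))
        have hyZ : y ∈ Z := by
          by_contra hyZ
          exact hyE (hER (mem_sdiff.mpr ⟨mem_sdiff.mpr ⟨hyU, hyn⟩, hyZ⟩))
        have h1 : π y = x' := F.uniq _ (F.penF y hyZ) x' hx'f (by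
          rw [← F.top_pen T HN hyZ]; exact hyt.trans hx't.symm)
        exact hyE (hpen y hyZ h1))
    refine dvd_region p4 ?_
    by_cases hxD : τ x' ∈ D
    · -- exchange
      have T1 : TwSys (unnat N) {x'} topOf τ :=
        { sub := by
            intro y hy
            rw [mem_singleton] at hy
            rw [hy]; exact hx'U
          nat := fun y hy => by
            rw [mem_singleton] at hy
            rw [hy]; exact hxnat
          up := fun y hy => by
            rw [mem_singleton] at hy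
            rw [hy]; exact T.up x' hx'Y
          inj := fun y hy w hw _ => by
            rw [mem_singleton] at hy hw
            rw [hy, hw]
          anti := fun y hy w hw => by
            rw [mem_singleton] at hy hw
            rw [hy, hw]; exact lt_irrefl _
          cp := fun y hy => by
            rw [mem_singleton] at hy
            rw [hy]; exact T.cp x' hx'Y }
      have hg3 : Good i (unnat N \ {x'}) (fun x => x ∉ unnat N ∧ B (topOf x) x)
          (E ∪ (unnat N \ {x'})) := ⟨p1, subset_union_right, p2, p3⟩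
      refine T1.dvd_W HN.lower hg3 ?_ ?_
      · intro s hs
        rw [mem_pairsX, mem_singleton] at hs
        left
        rw [hs.2, hs.1]
        exact mem_union_left _ (hxE.mpr hxD)
      · rw [← hbt]
        refine ((H t).data N HN rfl (fun x => θ (topOf x) x)
          (fun x => x ∉ unnat N ∧ B (topOf x) x) ?_ ?_).clean _
          (T1.good_exc HN.lower hRlev (fun x hx h => h.1 hx) hg3) inferInstance
        · intro x hx
          simp only [HN.topOf_eq hx]
        · intro x hx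
          simp only [HN.topOf_eq hx, (HN.mem_iff.mp hx).1, not_false_eq_true, true_and]
    · -- both
      have hmin : (∀ a < τ x', a ∈ D) ∧ ∀ a < x', a ∈ D := by
        rcases hb x' hx'Y hx't with h | h | h
        · exact absurd h hxD
        · exact absurd h hx'D
        · exact h.2
      refine hF.clean_both HN hN p1 (hbase _ p3) ?_ ?_ ?_ hx't ?_ ?_
      · intro y hy h1
        exact mem_union_right _ (mem_sdiff.mpr ⟨hy, by rw [mem_singleton]; exact h1⟩)
      · rw [mem_union, not_or]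
        exact ⟨fun h => hxD (hxE.mp h), fun h => hxnat (mem_sdiff.mp h).1⟩
      · rw [mem_union, not_or]
        exact ⟨hx'E, fun h => (mem_sdiff.mp h).2 (mem_singleton.mpr rfl)⟩
      · intro y hy
        have hyD := hmin.1 y hy
        refine mem_union_left _ ?_
        rw [hE, mem_exc]
        refine Or.inl ⟨mem_union_left _ hyD, fun w hw hwD hwy => hwD ?_⟩
        refine mem_union_left _ (hmin.1 w ?_)
        rw [← T.up w (mem_sdiff.mp hw).1, hwy]
        exact hy
      · intro y hy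
        have hyD := hmin.2 y hy
        refine mem_union_left _ ?_
        rw [hE, mem_exc]
        refine Or.inl ⟨mem_union_left _ hyD, fun w hw hwD hwy => hwD ?_⟩
        refine mem_union_left _ (hmin.2 w ?_)
        rw [← T.up w (mem_sdiff.mp hw).1, hwy]
        exact hy

end Sys

end Pool.Agent.GaussPoset
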