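import Pool.Agent.W_448f4_h70.JD
import Pool.Agent.W_448f4_h70.GB

/-!
Systems with twins of the cells `(m, m + 1)`: the family of lower sets and the thresholds
(MP_448cb3_co, S7).
-/

namespace Pool.Agent.GaussPoset

set_option linter.unusedSectionVars false

open Polynomial Finset

universe u

variable {P : Type u} [Fintype P] [PartialOrder P] [DecidableEq P]

/-- the thresholds with pendants -/
def thZ (Z : Finset P) (π : P → P) (th : P → ℕ) (x : P) : ℕ := if x ∈ Z then th (π x) + 1 else th x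

lemma thZ_of {Z : Finset P} {π : P → P} {th : P → ℕ} {x : P} (h : x ∈ Z) :
    thZ Z π th x = th (π x) + 1 := if_pos h

lemma thZ_not {Z : Finset P} {π : P → P} {th : P → ℕ} {x : P} (h : x ∉ Z) :
    thZ Z π th x = th x := if_neg h

/-- the pairs of pendants of one twin -/
def pairsZ (Z : Finset P) (π : P → P) : Finset (P × P) :=
  (Z ×ˢ Z).filter (fun t => t.1 ≠ t.2 ∧ π t.1 = π t.2)

lemma mem_pairsZ {Z : Finset P} {π : P → P} {t : P × P} :
    t ∈ pairsZ Z π ↔ (t.1 ∈ Z ∧ t.2 ∈ Z) ∧ t.1 ≠ t.2 ∧ π t.1 = π t.2 := by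
  unfold pairsZ
  rw [mem_filter, mem_product]

section Sys

variable {i : ℕ} {N : Tops P → Finset P} {b : Tops P → ℕ} {θ : Tops P → P → ℕ}
  {B : Tops P → P → Prop} {Y Yf Z : Finset P} {τ π : P → P}

/-- the far set `R⁺ = (unnat N \ Y) \ Z` is a lower set -/
lemma FoldSys.lower (F : FoldSys i N b B Y Yf Z τ π) (T : TwSys (unnat N) Y topOf τ)
    (HN : NatSys N) : ∀ a c, a ≤ c → c ∈ (unnat N \ Y) \ Z → a ∈ (unnat N \ Y) \ Z := by
  intro a c hac hc
  rw [mem_sdiff] at hc ⊢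
  rcases eq_or_lt_of_le hac with h | h
  · rw [h]; exact hc
  · refine ⟨T.lower HN.lower a c hac hc.1, fun h1 => ?_⟩
    have hcU := (mem_sdiff.mp hc.1).1
    have h2 := F.above T HN h1 h hcU
    exact (mem_sdiff.mp hc.1).2 (h2 ▸ F.sub (F.penF a h1))

/-- the parts -/
lemma FoldSys.cp (F : FoldSys i N b B Y Yf Z τ π) (T : TwSys (unnat N) Y topOf τ)
    (HN : NatSys N) : ∀ x y, x ≤ y → x ∉ (unnat N \ Y) \ Z → topOf x = topOf y := by
  intro x y hxy hx
  by_cases hxZ : x ∈ Z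
  · rcases eq_or_lt_of_le hxy with h | h
    · rw [h]
    · rw [F.top_pen T HN hxZ]
      have hY := F.sub (F.penF x hxZ)
      refine T.cp' HN.cp _ y ((F.pen x hxZ y).mp h) (fun h2 => (mem_sdiff.mp h2).2 hY)
  · exact T.cp' HN.cp x y hxy (fun h => hx (mem_sdiff.mpr ⟨h, hxZ⟩))

/-- component data with twins, without the elements `Z` -/
lemma compT_of (H : ∀ t, NatTop i t (b t) (N t) (θ t) (B t)) (T : TwSys (unnat N) Y topOf τ)
    (t : Tops P) : CompDataT (unnat N \ Y) topOf t i (b t) (thX Y τ (fun x => θ (topOf x) x))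
      (fun x => x ∉ unnat N ∧ B (topOf x) x) (pairsX Y τ) := by
  have HN := natSys_of_tops H
  refine CompData.toTwins ((H t).data N HN rfl _ _ ?_ ?_) T HN.lower
    (fun x hx => by
      by_contra hcon
      exact low_natural H (not_lt.mp hcon) hx) (fun x hx h => h.1 hx)
  · intro x hx
    simp only [HN.topOf_eq hx]
  · intro x hx
    simp only [HN.topOf_eq hx, (HN.mem_iff.mp hx).1, not_false_eq_true, true_and]

/-- the thresholds, zero on the far set -/
noncomputable def thPen (N : Tops P → Finset P) (θ : Tops P → P → ℕ) (Y Z : Finset P) (τ π : P → P)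
    (x : P) : ℕ := by
  classical exact if x ∈ (unnat N \ Y) \ Z then 0 else thZ Z π (thX Y τ (fun x => θ (topOf x) x)) x

lemma thPen_of {x : P} (h : x ∉ (unnat N \ Y) \ Z) :
    thPen N θ Y Z τ π x = thZ Z π (thX Y τ (fun x => θ (topOf x) x)) x := by
  unfold thPen
  exact if_neg h

lemma thPen_not {x : P} (h : 1 ≤ thPen N θ Y Z τ π x) : x ∉ (unnat N \ Y) \ Z := by
  intro h1
  unfold thPen at h
  rw [if_pos h1] at h
  omega

/-- the cover of a pendant -/
lemma FoldSys.cov (F : FoldSys i N b B Y Yf Z τ π) {z y : P} (hz : z ∈ Z) : z ⋖ y ↔ y = π z := by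
  constructor
  · intro h
    have h1 := (F.pen z hz y).mp h.1
    rcases eq_or_lt_of_le h1 with h2 | h2
    · exact h2.symm
    · exact absurd h2 (h.2 (F.lt hz))
  · rintro rfl
    exact ⟨F.lt hz, fun c h1 h2 => absurd ((F.pen z hz c).mp h1) (not_le_of_gt h2)⟩

lemma FoldSys.tw_not (F : FoldSys i N b B Y Yf Z τ π) {z : P} (hz : z ∈ Z) :
    π z ∉ Z ∧ π z ∈ Y ∧ π z ∉ (unnat N \ Y) \ Z := by
  have hY := F.sub (F.penF z hz)
  exact ⟨fun h => F.penY _ h hY, hY, fun h => (mem_sdiff.mp (mem_sdiff.mp h).1).2 hY⟩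

/-- **The family of lower sets with the thresholds.** -/
theorem FoldSys.fam (F : FoldSys i N b B Y Yf Z τ π) (T : TwSys (unnat N) Y topOf τ)
    (hgr : GradedBelow P) (H : ∀ t, NatTop i t (b t) (N t) (θ t) (B t)) :
    (∀ x, 1 ≤ thPen N θ Y Z τ π x → i < lev x) ∧ (∀ x, thPen N θ Y Z τ π x ≤ lev x - i) ∧
    (∀ D, Good i ((unnat N \ Y) \ Z) (fun x => x ∉ unnat N ∧ B (topOf x) x) D → ∀ x, x ∉ D →
      1 ≤ thPen N θ Y Z τ π x →
      Good i ((unnat N \ Y) \ Z) (fun x => x ∉ unnat N ∧ B (topOf x) x) (D ∪ dnf x)) ∧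
    (∀ D, Good i ((unnat N \ Y) \ Z) (fun x => x ∉ unnat N ∧ B (topOf x) x) D → ∀ x, x ∉ D →
      1 ≤ thPen N θ Y Z τ π x → ∀ y ≤ x, y ∉ D → ∀ x', y ⋖ x' → ¬ x' ≤ x →
      thPen N θ Y Z τ π x ≤ thPen N θ Y Z τ π x' + 1) := by
  have HN := natSys_of_tops H
  have HT := compT_of H T
  have hRlev : ∀ x ∈ unnat N, i < lev x := by
    intro x hx
    by_contra hcon
    exact low_natural H (not_lt.mp hcon) hx
  have hR1 : ∀ {x}, x ∉ (unnat N \ Y) \ Z → x ∉ Z → x ∉ unnat N \ Y := fun h1 h2 h3 =>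
    h1 (mem_sdiff.mpr ⟨h3, h2⟩)
  have hlev : ∀ x, 1 ≤ thPen N θ Y Z τ π x → i < lev x := by
    intro x hx
    have h1 := thPen_not hx
    rw [thPen_of h1] at hx
    by_cases hxZ : x ∈ Z
    · exact hRlev x (F.penU x hxZ)
    · rw [thZ_not hxZ] at hx
      exact (HT (topOf x)).lev x (hR1 h1 hxZ) rfl hx
  refine ⟨hlev, ?_, ?_, ?_⟩
  · intro x
    by_cases h1 : x ∈ (unnat N \ Y) \ Z
    · unfold thPen
      rw [if_pos h1]
      exact Nat.zero_le _
    · rw [thPen_of h1]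
      by_cases hxZ : x ∈ Z
      · rw [thZ_of hxZ]
        have h2 := hgr.lev_covBy ((F.cov hxZ).mpr rfl)
        obtain ⟨-, h3, -⟩ := F.tw_not hxZ
        have h4 := (HT (topOf (π x))).le (π x) (fun h => (mem_sdiff.mp h).2 h3) rfl
        have h5 := hRlev _ (T.sub h3)
        omega
      · rw [thZ_not hxZ]
        exact (HT (topOf x)).le x (hR1 h1 hxZ) rfl
  · intro D hD x hx hθx
    have h1 := thPen_not hθx
    have hlx := hlev x hθx
    refine ⟨?_, hD.2.1.trans subset_union_left, ?_, ?_⟩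
    · intro a c hac hc
      rw [mem_union, mem_dnf] at hc ⊢
      rcases hc with hc | hc
      · exact Or.inl (hD.1 a c hac hc)
      · exact Or.inr (hac.trans hc)
    · intro a ha
      rw [mem_union, mem_dnf] at ha
      rcases ha with ha | ha
      · exact hD.2.2.1 a ha
      · rcases eq_or_lt_of_le ha with h | h
        · rw [h]; exact hlx
        · have := lev_strictAnti h; omega
    · intro a ha
      rw [mem_union, mem_dnf] at ha
      rcases ha with ha | ha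
      · exact hD.2.2.2 a ha
      · rintro ⟨h2, h3⟩
        have hxU : x ∉ unnat N := fun h => h2 (HN.lower a x ha h)
        have hxZ : x ∉ Z := fun h => hxU (F.penU x h)
        rw [thPen_of h1, thZ_not hxZ] at hθx
        exact (HT (topOf x)).base x (hR1 h1 hxZ) rfl hθx a ha
          (fun h => h2 (mem_sdiff.mp h).1) ⟨h2, h3⟩
  · intro D hD x hx hθx y hyx hyD x' hyx' hx'x
    have h1 := thPen_not hθx
    have hyR : y ∉ (unnat N \ Y) \ Z := fun h => hyD (hD.2.1 h)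
    have hx'R : x' ∉ (unnat N \ Y) \ Z := fun h => hyR (F.lower T HN y x' hyx'.1.le h)
    rw [thPen_of h1] at hθx ⊢
    rw [thPen_of hx'R]
    by_cases hyZ : y ∈ Z
    · have h2 := (F.cov hyZ).mp hyx'
      have hyx2 : y = x := by
        by_contra hne
        exact hx'x (h2 ▸ (F.pen y hyZ x).mp (lt_of_le_of_ne hyx hne))
      subst hyx2
      rw [thZ_of hyZ, h2, thZ_not (F.tw_not hyZ).1]
    · have hyR1 := hR1 hyR hyZ
      have hx'Z : x' ∉ Z := by
        intro h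
        apply hyR1
        refine mem_sdiff.mpr ⟨HN.lower y x' hyx'.1.le (F.penU x' h), fun h2 => ?_⟩
        exact T.top_unnat HN h2 hyx'.1 (F.penU x' h)
      have hxZ : x ∉ Z := by
        intro h
        rcases eq_or_lt_of_le hyx with h2 | h2
        · exact hyZ (h2 ▸ h)
        · apply hyR1
          refine mem_sdiff.mpr ⟨HN.lower y x hyx (F.penU x h), fun h3 => ?_⟩
          exact T.top_unnat HN h3 h2 (F.penU x h)
      rw [thZ_not hxZ] at hθx ⊢
      rw [thZ_not hx'Z]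
      exact (HT (topOf x)).step x (hR1 h1 hxZ) rfl hθx y hyx hyR1 x' (hR1 hx'R hx'Z) hyx' hx'x

/-- **The regions.** -/
theorem FoldSys.c0 (F : FoldSys i N b B Y Yf Z τ π) (T : TwSys (unnat N) Y topOf τ)
    (hgr : GradedBelow P) (H : ∀ t, NatTop i t (b t) (N t) (θ t) (B t)) {D : Finset P}
    (hD : Good i ((unnat N \ Y) \ Z) (fun x => x ∉ unnat N ∧ B (topOf x) x) D)
    (hb : ∀ y ∈ Y, τ y ∈ D ∨ y ∈ D ∨ (y ∈ Yf ∧ (∀ a < τ y, a ∈ D) ∧ ∀ a < y, a ∈ D))
    (hbz : ∀ z1 ∈ Z, ∀ z2 ∈ Z, z1 ≠ z2 → π z1 = π z2 → z1 ∈ D ∨ z2 ∈ D) (n : ℕ) :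
    (1 + X : ℤ[X]) ^ (∑ t, b t) ∣ ZB i D 0 0 n := by
  classical
  have HN := natSys_of_tops H
  rw [ZB_off hD.1 hD.2.2.1]
  refine dvd_Z_of_dvd_W ?_ n
  refine dvd_W_prod (fun x : {x : P // x ∉ D} => topOf (x : P)) ?_ i b fun t => ?_
  · intro x y hxy
    exact F.cp T HN x y hxy fun h => x.2 (hD.2.1 h)
  · exact F.clean_part T hgr H hD t (fun y hy _ => hb y hy) (fun z1 h1 z2 h2 _ => hbz z1 h1 z2 h2)

end Sys

end Pool.Agent.GaussPoset
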