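import Pool.Agent.W_448f4_h70.JE

/-!
Two high labels on a cell `(m, m + 1)` and its twin are clean below the energy `M0 + θ + 2`: the
elements of higher level are peeled (MP_448cb3_co, S7).
-/

namespace Pool.Agent.GaussPoset

set_option linter.unusedSectionVars false

open Polynomial Finset

universe u

variable {P : Type u} [Fintype P] [PartialOrder P] [DecidableEq P]

section Cost

variable {i : ℕ} {D : Finset P} {g β e : P → ℕ} {F : Finset P}

/-- labels above an element with a bound -/
lemma Cst.min_le (hC : Cst i D g β e F) {x y : P} (hx : x ∉ D) (hxy : x ≤ y) :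
    min (β x) (lev y - i) ≤ e y := by
  obtain ⟨hV, -, hβ⟩ := hC
  by_cases hyF : y ∈ F
  · exact (min_le_right _ _).trans (sub_le_of_mem hV hyF)
  · have hxF : x ∉ F := fun h => hyF (hV.1 x y hxy h)
    have h1 := hβ x hx hxF
    have h2 := hV.2.2.1 x y hxy hxF hyF
    have h3 := rho_le i e y
    refine (min_le_left _ _).trans ?_
    omega

/-- no configuration of small energy -/
lemma ZB_zero_of_cost (c : P → ℕ) (hc : ∀ y, c y = 0 ∨ ∃ x ≤ y, x ∉ D ∧
    c y ≤ min (β x) (lev y - i)) {n : ℕ} (hn : n < ∑ y, c y) : ZB i D g β n = 0 := by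
  classical
  unfold ZB
  refine Finset.sum_eq_zero fun F _ => ?_
  rw [Finset.filter_eq_empty_iff.mpr, Finset.sum_empty]
  rintro e he hC
  rw [mem_piAntidiag] at he
  have h1 : ∑ y, c y ≤ ∑ y, e y := by
    refine Finset.sum_le_sum fun y _ => ?_
    rcases hc y with h | ⟨x, hxy, hx, h⟩
    · rw [h]; exact Nat.zero_le _
    · exact h.trans (hC.min_le hx hxy)
  have h2 : ∑ y, e y = n := he.1
  omega

/-- no configuration of small energy above a pair of twins with high labels -/
lemma T_cost {x x' : P} {k : ℕ} (hup : ∀ u, x < u ↔ x' < u) (hx' : x' ∉ D)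
    (hβ : k + 1 ≤ β x') (w : P → ℕ) (hw0 : ∀ u, x < u → w u = 0)
    (hw : ∀ y, w y = 0 ∨ ∃ x ≤ y, x ∉ D ∧ w y ≤ min (β x) (lev y - i)) {n : ℕ}
    (hn : n < ∑ u, (by classical exact if x < u then min (k + 1) (lev u - i) else 0) +
      ∑ u, w u) : ZB i D g β n = 0 := by
  classical
  refine ZB_zero_of_cost (fun u => (if x < u then min (k + 1) (lev u - i) else 0) + w u) ?_
    (by rw [Finset.sum_add_distrib]; exact hn)
  intro u
  by_cases h : x < u
  · right
    refine ⟨x', ((hup u).mp h).le, hx', ?_⟩
    rw [if_pos h, hw0 u h, add_zero]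
    exact min_le_min hβ le_rfl
  · rw [if_neg h, zero_add]
    exact hw u

lemma sum_four {x x' y c0 : P} (a a' K K' : ℕ) :
    ∑ u : P, ((if u = x then a else 0) + (if u = x' then a' else 0) + (if u = y then K else 0) +
      (if u = c0 then K' else 0)) = a + a' + K + K' := by
  rw [Finset.sum_add_distrib, Finset.sum_add_distrib, Finset.sum_add_distrib,
    Finset.sum_ite_eq' univ x, Finset.sum_ite_eq' univ x', Finset.sum_ite_eq' univ y,
    Finset.sum_ite_eq' univ c0, if_pos (mem_univ _), if_pos (mem_univ _), if_pos (mem_univ _),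
    if_pos (mem_univ _)]

end Cost

section Sys

variable {i : ℕ} {N : Tops P → Finset P} {b : Tops P → ℕ} {θ : Tops P → P → ℕ}
  {B : Tops P → P → Prop} {Y Yf Z : Finset P} {τ π : P → P}

/-- the least cost of a pair with high labels -/
noncomputable def cM (i k : ℕ) (x : P) : ℕ :=
  ∑ u, (by classical exact if x < u then min (k + 1) (lev u - i) else 0) + (2 * k + 1)

/-- the hypotheses on the position of a twin of a cell `(m, m + 1)` -/
structure FoldPos (i : ℕ) (N : Tops P → Finset P) (θ : Tops P → P → ℕ) (B : Tops P → P → Prop)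
    (Y Z : Finset P) (τ π : P → P) (k : ℕ) (x' : P) : Prop where
  th : thX Y τ (fun x => θ (topOf x) x) x' = k
  pos : 1 ≤ k
  lev : i + k + 2 ≤ Pool.Agent.GaussPoset.lev x'
  yl : ∀ y ∈ Y, Pool.Agent.GaussPoset.lev x' ≤ Pool.Agent.GaussPoset.lev y
  dc : ∀ c, x' ⋖ c → ∀ y, y ⋖ c → y = τ x' ∨ y = x'
  bl : ∀ y, y ∉ unnat N → B (topOf y) y →
    Pool.Agent.GaussPoset.lev y < Pool.Agent.GaussPoset.lev x'
  low : ∀ y, Pool.Agent.GaussPoset.lev y + 1 = Pool.Agent.GaussPoset.lev x' →
    (k + 1) / 2 ≤ thPen N θ Y Z τ π y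

/-- the end of the peeling: everything of level at least `lev x'` is frozen -/
theorem FoldSys.fold_end (F : FoldSys i N b B Y Yf Z τ π) (T : TwSys (unnat N) Y topOf τ)
    (hgr : GradedBelow P) (H : ∀ t, NatTop i t (b t) (N t) (θ t) (B t)) {x' : P} (hx' : x' ∈ Yf)
    {k : ℕ} (Q : FoldPos i N θ B Y Z τ π k x') {D : Finset P}
    (hD : Good i ((unnat N \ Y) \ Z) (fun x => x ∉ unnat N ∧ B (topOf x) x) D)
    (hxD : τ x' ∉ D) (hx'D : x' ∉ D)
    (hall : ∀ y, lev x' ≤ lev y → y ≠ τ x' → y ≠ x' → y ∈ D) {β : P → ℕ} (h1 : β (τ x') = k)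
    (h2 : β x' = k + 1) (h3 : ∀ c, lev c + 1 = lev x' → β c ≤ (k + 1) / 2)
    (h4 : ∀ c, lev c + 1 < lev x' → β c = 0) (n : ℕ) :
    (1 + X : ℤ[X]) ^ (∑ t, b t) ∣ ZB i D 0 β n := by
  classical
  have HN := natSys_of_tops H
  have hY := F.sub hx'
  have hup := T.up x' hY
  have hnat := T.nat x' hY
  have hll : lev (τ x') = lev x' := lev_eq_of_up hup
  have hne : τ x' ≠ x' := fun h => hnat (by rw [h]; exact T.sub hY)
  obtain ⟨f1, f2, f3, f4⟩ := F.fam T hgr H
  have hQ := Q.lev
  have hk := Q.pos
  have hxR : τ x' ∉ (unnat N \ Y) \ Z := fun h => hnat (mem_sdiff.mp (mem_sdiff.mp h).1).1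
  have hx'R : x' ∉ (unnat N \ Y) \ Z := fun h => (mem_sdiff.mp (mem_sdiff.mp h).1).2 hY
  have hx'Z : x' ∉ Z := fun h => F.penY x' h hY
  have hxZ : τ x' ∉ Z := fun h => hnat (F.penU _ h)
  have hxY : τ x' ∉ Y := fun h => hnat (T.sub h)
  have ht' : thPen N θ Y Z τ π x' = k := by rw [thPen_of hx'R, thZ_not hx'Z]; exact Q.th
  have ht : thPen N θ Y Z τ π (τ x') = k := by
    rw [thPen_of hxR, thZ_not hxZ, thX_not hxY]
    have := Q.th
    rw [thX_of hY] at this
    exact this
  set DD : Set (Finset P) := {E | Good i ((unnat N \ Y) \ Z)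
    (fun x => x ∉ unnat N ∧ B (topOf x) x) E ∧ D ⊆ E} with hDD
  have hb := dvd_ZB_bounds i ((1 + X : ℤ[X]) ^ (∑ t, b t)) DD (thPen N θ Y Z τ π)
    (fun E hE => hE.1.1) (fun E hE => hE.1.2.2.1) f1 (fun E hE n => F.c0 T hgr H hE.1 ?_ ?_ n)
    (fun E hE x hx hθ => ⟨f3 E hE.1 x hx hθ, hE.2.trans subset_union_left⟩)
    (fun E hE x hx hθ y hyx hyE w hyw hwx => f4 E hE.1 x hx hθ y hyx hyE w hyw hwx)
  rotate_left
  · intro y hy
    by_cases hyx : y = x'
    · right; right
      rw [hyx]
      refine ⟨hx', fun a ha => hE.2 ?_, fun a ha => hE.2 ?_⟩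
      · have := lev_strictAnti ha
        refine hall a (by omega) ha.ne ?_
        rintro rfl
        omega
      · have := lev_strictAnti ha
        refine hall a (by omega) ?_ ha.ne
        rintro rfl
        omega
    · exact Or.inr (Or.inl (hE.2 (hall y (Q.yl y hy) (fun h => hxY (h ▸ hy)) hyx)))
  · intro z1 hz1 z2 _ _ _
    have e1 := lev_strictAnti (F.lt hz1)
    have e2 := Q.yl _ (F.sub (F.penF z1 hz1))
    refine Or.inl (hE.2 (hall z1 (by omega) ?_ ?_))
    · rintro rfl
      omega
    · rintro rfl
      omega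
  -- the bounds `k, k` minus the frozen label `k` on `x'`
  have hβ1 : ∀ y, y ∉ D → Function.update β x' k y ≤ thPen N θ Y Z τ π y := by
    intro y hy
    by_cases hyx' : y = x'
    · rw [hyx', Function.update_self, ht']
    rw [Function.update_of_ne hyx']
    by_cases hyx : y = τ x'
    · rw [hyx, h1, ht]
    · have hly : lev y < lev x' := by
        by_contra hcon
        exact hy (hall y (not_lt.mp hcon) hyx hyx')
      rcases Nat.lt_or_ge (lev y + 1) (lev x') with h | h
      · rw [h4 y h]; exact Nat.zero_le _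
      · exact (h3 y (by omega)).trans (Q.low y (by omega))
  have hDi : D ∈ DD := ⟨hD, Subset.refl D⟩
  have hu : Function.update (Function.update β x' k) x' (k + 1) = β := by
    rw [Function.update_idem, ← h2, Function.update_eq_self]
  have hlx' : i < lev x' := by omega
  have key := dvd_ZB_step_up (i := i) (g := 0) (Function.update β x' k) x' hx'D hlx'
    ((1 + X : ℤ[X]) ^ (∑ t, b t)) n (hb D hDi _ hβ1 n) ?_
  · rw [Function.update_self, hu] at key
    exact key
  · intro g' hG
    obtain ⟨g1, g2, g3, g4, g5⟩ := hG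
    rw [Function.update_self] at g2
    have hE : D ∪ dnf x' ∈ DD := ⟨f3 D hD x' hx'D (by omega), subset_union_left⟩
    have hEm : ∀ y, y ∈ D ∪ dnf x' ↔ y ∈ D ∨ y = x' := by
      intro y
      rw [mem_union, mem_dnf]
      constructor
      · rintro (h | h)
        · exact Or.inl h
        · rcases eq_or_lt_of_le h with h | h
          · exact Or.inr h
          · have := lev_strictAnti h
            refine Or.inl (hall y (by omega) ?_ h.ne)
            rintro rfl
            omega
      · rintro (h | h)
        · exact Or.inl h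
        · exact Or.inr h.le
    refine dvd_ZB_shift _ hE.1.1 hE.1.2.2.1 g5 _ (fun n => ?_) n
    rw [ZB_redundant (β := Function.update β x' k)]
    · refine hb _ hE _ (fun y hy => hβ1 y (fun h => hy (mem_union_left _ h))) n
    · intro y _
      exact le_bg _ _ _ y
    · intro y hy
      rw [hEm, not_or] at hy
      have hg0 : ∀ d ∈ D ∪ dnf x', d ≠ x' → g' d = 0 := by
        intro d hd hdx
        exact g1 d (((hEm d).mp hd).resolve_right hdx)
      by_cases hxy : x' ⋖ y
      · right
        refine ⟨τ x', ((hup y).mpr hxy.1).le, ?_, ?_⟩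
        · rw [hEm]
          rintro (h | h)
          · exact hxD h
          · exact hne h
        · rw [Function.update_of_ne hne, h1]
          refine bg_le ?_ ?_
          · rw [Function.update_of_ne hy.2]
            have h5 := hgr.lev_covBy hxy
            exact (h3 y (by omega)).trans (by omega)
          · intro d hd _
            by_cases hdx : d = x'
            · rw [hdx, g2]
            · rw [hg0 d hd hdx]; exact Nat.zero_le _
      · left
        refine bg_le le_rfl ?_
        intro d hd hdy
        by_cases hdx : d = x'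
        · exact absurd (hdx ▸ hdy) hxy
        · rw [hg0 d hd hdx]; exact Nat.zero_le _

/-- **Two high labels on a cell `(m, m + 1)` and its twin are clean below `M0 + k + 2`.** -/
theorem FoldSys.fold_T (F : FoldSys i N b B Y Yf Z τ π) (T : TwSys (unnat N) Y topOf τ)
    (hgr : GradedBelow P) (H : ∀ t, NatTop i t (b t) (N t) (θ t) (B t)) {x' : P} (hx' : x' ∈ Yf)
    {k : ℕ} (Q : FoldPos i N θ B Y Z τ π k x') :
    ∀ s : ℕ, ∀ D : Finset P, Good i ((unnat N \ Y) \ Z) (fun x => x ∉ unnat N ∧ B (topOf x) x) D →
      τ x' ∉ D → x' ∉ D →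
      (univ.filter (fun y => y ∉ D ∧ lev x' ≤ lev y ∧ y ≠ τ x' ∧ y ≠ x')).card = s →
      ∀ β : P → ℕ, β (τ x') = k → β x' = k + 1 → (∀ c, lev c + 1 = lev x' → β c ≤ (k + 1) / 2) →
      (∀ c, lev c + 1 < lev x' → β c = 0) → ∀ n < cM i k (τ x') + k + 2,
      (1 + X : ℤ[X]) ^ (∑ t, b t) ∣ ZB i D 0 β n := by
  classical
  have HN := natSys_of_tops H
  have hY := F.sub hx'
  have hup := T.up x' hY
  have hnat := T.nat x' hY
  have hll : lev (τ x') = lev x' := lev_eq_of_up hup
  have hne : τ x' ≠ x' := fun h => hnat (by rw [h]; exact T.sub hY)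
  have hQ := Q.lev
  have hk := Q.pos
  have hdc : ∀ c, τ x' < c ∨ x' < c → ∀ y, y ⋖ c → y = τ x' ∨ y = x' ∨ lev y < lev x' := by
    intro c hc y hyc
    have hc' : x' < c := hc.elim (fun h => (hup c).mp h) id
    have h1 := lev_strictAnti hc'
    have h2 := hgr.lev_covBy hyc
    by_cases h3 : lev c + 1 = lev x'
    · have h4 : x' ⋖ c := by
        refine ⟨hc', fun u hu1 hu2 => ?_⟩
        have := lev_strictAnti hu1
        have := lev_strictAnti hu2
        omega
      rcases Q.dc c h4 y hyc with h | h
      · exact Or.inl h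
      · exact Or.inr (Or.inl h)
    · right; right; omega
  intro s
  induction s using Nat.strong_induction_on with
  | _ s ih =>
  intro D hD hxD hx'D hs β h1 h2 h3 h4 n hn
  by_cases hex : ∃ y, y ∉ D ∧ lev x' ≤ lev y ∧ y ≠ τ x' ∧ y ≠ x'
  swap
  · push Not at hex
    refine F.fold_end T hgr H hx' Q hD hxD hx'D (fun y hy1 hy2 hy3 => ?_) h1 h2 h3 h4 n
    by_contra hcon
    exact hy3 (hex y hcon hy1 hy2)
  -- a minimal element to be peeled
  obtain ⟨y, hy⟩ := (univ.filter (fun y => y ∉ D ∧ lev x' ≤ lev y ∧ y ≠ τ x' ∧ y ≠ x')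
    ).exists_max_image (fun y => lev y) (by
      obtain ⟨y, hy⟩ := hex
      exact ⟨y, mem_filter.mpr ⟨mem_univ _, hy⟩⟩)
  obtain ⟨hy, hymax⟩ := hy
  obtain ⟨-, hyD, hyl, hyx, hyx'⟩ := mem_filter.mp hy
  have hymin : ∀ a < y, a ∈ D := by
    intro a ha
    by_contra haD
    have e1 := lev_strictAnti ha
    have e2 := hymax a (mem_filter.mpr ⟨mem_univ _, haD, by omega, by rintro rfl; omega,
      by rintro rfl; omega⟩)
    omega
  have hly : i < lev y := by omega
  have hEm : ∀ u, u ∈ D ∪ dnf y ↔ u ∈ D ∨ u = y := by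
    intro u
    rw [mem_union, mem_dnf]
    constructor
    · rintro (h | h)
      · exact Or.inl h
      · rcases eq_or_lt_of_le h with h | h
        · exact Or.inr h
        · exact Or.inl (hymin u h)
    · rintro (h | h)
      · exact Or.inl h
      · exact Or.inr h.le
  have hE : Good i ((unnat N \ Y) \ Z) (fun x => x ∉ unnat N ∧ B (topOf x) x) (D ∪ dnf y) := by
    refine ⟨?_, hD.2.1.trans subset_union_left, ?_, ?_⟩
    · intro a c hac hc
      rw [mem_union, mem_dnf] at hc ⊢
      rcases hc with hc | hc
      · exact Or.inl (hD.1 a c hac hc)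
      · exact Or.inr (hac.trans hc)
    · intro a ha
      rw [hEm] at ha
      rcases ha with ha | ha
      · exact hD.2.2.1 a ha
      · rw [ha]; exact hly
    · intro a ha
      rw [hEm] at ha
      rcases ha with ha | ha
      · exact hD.2.2.2 a ha
      · rw [ha]
        intro h
        have := Q.bl y h.1 h.2
        omega
  have hcard : (univ.filter (fun u => u ∉ D ∪ dnf y ∧ lev x' ≤ lev u ∧ u ≠ τ x' ∧ u ≠ x')).card
      < s := by
    rw [← hs]
    apply Finset.card_lt_card
    rw [Finset.ssubset_iff_of_subset]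
    · refine ⟨y, hy, ?_⟩
      rw [mem_filter]
      rintro ⟨-, h, -⟩
      exact h ((hEm y).mpr (Or.inr rfl))
    · intro u hu
      rw [mem_filter] at hu ⊢
      exact ⟨hu.1, fun h => hu.2.1 (mem_union_left _ h), hu.2.2⟩
  -- the cover of `y`
  obtain ⟨v, hv⟩ : ∃ v, y ⋖ v := by
    obtain ⟨v, hv, -⟩ := exists_lev_succ (x := y) (k := lev y - 1) (by omega)
    obtain ⟨u, hu, -⟩ := exists_covBy_le hv
    exact ⟨u, hu⟩
  -- the least label which costs too much
  obtain ⟨K, hK1, hK2, hK3, hzero⟩ : ∃ K : ℕ, (y ⋖ τ x' → K ≤ k + 1) ∧ (y ⋖ x' → K ≤ k + 2) ∧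
      (∀ c, y ⋖ c → lev c + 1 = lev x' → K ≤ (k + 1) / 2 + 1) ∧
      (∀ γ : P → ℕ, γ (τ x') = k → γ x' = k + 1 → K ≤ γ y →
        ∀ n < cM i k (τ x') + k + 2, ZB i D 0 γ n = 0) := by
    have hxy : ∀ u, τ x' < u → u ≠ τ x' ∧ u ≠ x' ∧ u ≠ y := by
      intro u hu
      have e1 := lev_strictAnti hu
      refine ⟨hu.ne', ?_, ?_⟩
      · rintro rfl; omega
      · rintro rfl; omega
    by_cases hc : ∃ c0, y ⋖ c0 ∧ c0 ≠ τ x' ∧ c0 ≠ x'
    · obtain ⟨c0, hyc, hcx, hcx'⟩ := hc
      have hcy : c0 ≠ y := hyc.1.ne'
      have e1 := hgr.lev_covBy hyc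
      refine ⟨(k + 1) / 2 + 1, fun _ => by omega, fun _ => by omega, fun _ _ _ => le_rfl, ?_⟩
      intro γ g1 g2 g3 n hn
      refine T_cost (x := τ x') (x' := x') (k := k) hup hx'D g2.ge
        (fun u => (if u = τ x' then k else 0) + (if u = x' then k + 1 else 0) +
          (if u = y then (k + 1) / 2 + 1 else 0) + (if u = c0 then (k + 1) / 2 + 1 else 0))
        ?_ ?_ ?_
      · intro u hu
        obtain ⟨h5, h6, h7⟩ := hxy u hu
        have h8 : u ≠ c0 := by
          rintro rfl
          rcases hdc u (Or.inl hu) y hyc with h | h | h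
          · exact hyx h
          · exact hyx' h
          · omega
        simp only [if_neg h5, if_neg h6, if_neg h7, if_neg h8]
      · intro u
        by_cases h5 : u = τ x'
        · right
          subst h5
          refine ⟨τ x', le_rfl, hxD, ?_⟩
          simp only [if_true, if_neg hne, if_neg hyx.symm, if_neg hcx.symm]
          omega
        by_cases h6 : u = x'
        · right
          subst h6
          refine ⟨u, le_rfl, hx'D, ?_⟩
          simp only [if_true, if_neg hne.symm, if_neg hyx'.symm, if_neg hcx'.symm]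
          omega
        by_cases h7 : u = y
        · right
          subst h7
          refine ⟨u, le_rfl, hyD, ?_⟩
          simp only [if_true, if_neg h5, if_neg h6, if_neg hcy.symm]
          omega
        by_cases h8 : u = c0
        · right
          subst h8
          refine ⟨y, hyc.1.le, hyD, ?_⟩
          simp only [if_true, if_neg h5, if_neg h6, if_neg h7]
          omega
        · left
          simp only [if_neg h5, if_neg h6, if_neg h7, if_neg h8]
      · rw [sum_four]
        unfold cM at hn
        omega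
    · push Not at hc
      by_cases hyx2 : y ⋖ τ x'
      · refine ⟨k + 1, fun _ => le_rfl, fun _ => by omega, ?_, ?_⟩
        · intro c hc1 hc2
          exfalso
          have h5 : lev c = lev x' := by
            by_cases h5 : c = τ x'
            · rw [h5]; exact hll
            · rw [hc c hc1 h5]
          omega
        intro γ g1 g2 g3 n hn
        refine T_cost (x := τ x') (x' := x') (k := k) hup hx'D g2.ge
          (fun u => (if u = τ x' then k + 1 else 0) + (if u = x' then k + 1 else 0) +
            (if u = y then k + 1 else 0) + (if u = y then 0 else 0))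
          ?_ ?_ ?_
        · intro u hu
          obtain ⟨h5, h6, h7⟩ := hxy u hu
          simp only [if_neg h5, if_neg h6, if_neg h7]
        · intro u
          by_cases h5 : u = τ x'
          · right
            subst h5
            refine ⟨y, hyx2.1.le, hyD, ?_⟩
            simp only [if_true, if_neg hne, if_neg hyx.symm]
            omega
          by_cases h6 : u = x'
          · right
            subst h6
            refine ⟨u, le_rfl, hx'D, ?_⟩
            simp only [if_true, if_neg hne.symm, if_neg hyx'.symm]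
            omega
          by_cases h7 : u = y
          · right
            subst h7
            refine ⟨u, le_rfl, hyD, ?_⟩
            simp only [if_true, if_neg h5, if_neg h6]
            omega
          · left
            simp only [if_neg h5, if_neg h6, if_neg h7]
        · rw [sum_four]
          unfold cM at hn
          omega
      · have hvx : v = x' := hc v hv (fun h => hyx2 (h ▸ hv))
        subst hvx
        refine ⟨k + 2, fun h => absurd h hyx2, fun _ => le_rfl, ?_, ?_⟩
        · intro c hc1 hc2
          exfalso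
          have h5 : c = v := hc c hc1 (fun h => hyx2 (h ▸ hc1))
          rw [h5] at hc2
          omega
        intro γ g1 g2 g3 n hn
        refine T_cost (x := τ v) (x' := v) (k := k) hup hx'D g2.ge
          (fun u => (if u = τ v then k else 0) + (if u = v then k + 2 else 0) +
            (if u = y then k + 2 else 0) + (if u = y then 0 else 0))
          ?_ ?_ ?_
        · intro u hu
          obtain ⟨h5, h6, h7⟩ := hxy u hu
          simp only [if_neg h5, if_neg h6, if_neg h7]
        · intro u
          by_cases h5 : u = τ v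
          · right
            subst h5
            refine ⟨τ v, le_rfl, hxD, ?_⟩
            simp only [if_true, if_neg hne, if_neg hyx.symm]
            omega
          by_cases h6 : u = v
          · right
            subst h6
            refine ⟨y, hv.1.le, hyD, ?_⟩
            simp only [if_true, if_neg hne.symm, if_neg hyx'.symm]
            omega
          by_cases h7 : u = y
          · right
            subst h7
            refine ⟨u, le_rfl, hyD, ?_⟩
            simp only [if_true, if_neg h5, if_neg h6]
            omega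
          · left
            simp only [if_neg h5, if_neg h6, if_neg h7]
        · rw [sum_four]
          unfold cM at hn
          omega
  have inner : ∀ d : ℕ, ∀ γ : P → ℕ, γ (τ x') = k → γ x' = k + 1 →
      (∀ c, lev c + 1 = lev x' → γ c ≤ (k + 1) / 2) → (∀ c, lev c + 1 < lev x' → γ c = 0) →
      K ≤ γ y + d → ∀ n < cM i k (τ x') + k + 2, (1 + X : ℤ[X]) ^ (∑ t, b t) ∣ ZB i D 0 γ n := by
    intro d
    induction d with
    | zero =>
      intro γ g1 g2 _ _ g5 n hn
      rw [hzero γ g1 g2 g5 n hn]
      exact dvd_zero _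
    | succ d ihd =>
      intro γ g1 g2 g3 g4 g5 n hn
      by_cases hKy : K ≤ γ y
      · rw [hzero γ g1 g2 hKy n hn]
        exact dvd_zero _
      refine dvd_ZB_step_down γ y hyD hly _ n ?_ ?_
      · refine ihd _ ?_ ?_ ?_ ?_ ?_ n hn
        · rw [Function.update_of_ne hyx.symm]; exact g1
        · rw [Function.update_of_ne hyx'.symm]; exact g2
        · intro c hc
          rw [Function.update_of_ne (by rintro rfl; omega)]
          exact g3 c hc
        · intro c hc
          rw [Function.update_of_ne (by rintro rfl; omega)]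
          exact g4 c hc
        · rw [Function.update_self]; omega
      · intro g' hG
        obtain ⟨q1, q2, q3, q4, q5⟩ := hG
        have hg0 : ∀ d ∈ D ∪ dnf y, d ≠ y → g' d = 0 := by
          intro d hd hdx
          exact q1 d (((hEm d).mp hd).resolve_right hdx)
        refine dvd_ZB_shift_lt _ hE.1 hE.2.2.1 q5 _ (cM i k (τ x') + k + 2) (fun n hn => ?_) n hn
        have hbd : ∀ c m, γ c ≤ m → (y ⋖ c → γ y ≤ m) → bg (D ∪ dnf y) g' γ c ≤ m := by
          intro c m hc1 hc2
          refine bg_le hc1 fun d hd hdc => ?_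
          by_cases hdy : d = y
          · rw [hdy, q2]
            exact hc2 (hdy ▸ hdc)
          · rw [hg0 d hd hdy]; exact Nat.zero_le _
        refine ih _ hcard _ hE ?_ ?_ rfl _ ?_ ?_ ?_ ?_ n hn
        · rw [hEm, not_or]
          exact ⟨hxD, hyx.symm⟩
        · rw [hEm, not_or]
          exact ⟨hx'D, hyx'.symm⟩
        · refine le_antisymm (hbd _ _ g1.le fun h => ?_) (g1 ▸ le_bg _ _ _ _)
          have := hK1 h
          omega
        · refine le_antisymm (hbd _ _ g2.le fun h => ?_) (g2 ▸ le_bg _ _ _ _)
          have := hK2 h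
          omega
        · intro c hc
          refine hbd _ _ (g3 c hc) fun h => ?_
          have := hK3 c h hc
          omega
        · intro c hc
          refine Nat.le_zero.mp (hbd _ _ (g4 c hc).le fun h => ?_)
          exfalso
          have := hgr.lev_covBy h
          omega
  exact inner K β h1 h2 h3 h4 (by omega) n hn

end Sys

end Pool.Agent.GaussPoset
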