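import Pool.Agent.W_448f4_h70.JG

/-!
The far window theorem for systems with twins of the cells `(m, m + 1)`: these twins and the
elements which hang below them do not contribute (MP_448cb3_co, S7).
-/

namespace Pool.Agent.GaussPoset

set_option linter.unusedSectionVars false

open Polynomial Finset

universe u

variable {P : Type u} [Fintype P] [PartialOrder P] [DecidableEq P]

open Classical in
/-- the twin lemma, exact form, with prescribed sums; the broken sets are clean up to `n0` only -/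
theorem dvd_ZB_exactL (i : ℕ) (p : ℤ[X]) (n0 : ℕ) (ld : P × P → Prop) (V : P × P → ℤ[X]) (DD : Set (Finset P)) (θ : P → ℕ)
    (Tw : Finset (P × P))
    (hlow : ∀ D ∈ DD, ∀ x y, x ≤ y → y ∈ D → x ∈ D) (hlev : ∀ D ∈ DD, ∀ x ∈ D, i < lev x)
    (hθ : ∀ x, 1 ≤ θ x → i < lev x) (hle : ∀ x, θ x ≤ lev x - i)
    (c0 : ∀ D ∈ DD, (∀ t ∈ Tw, t.1 ∈ D ∨ t.2 ∈ D) → ∀ n ≤ n0, p ∣ ZB i D 0 0 n)
    (c1 : ∀ D ∈ DD, ∀ x, x ∉ D → 1 ≤ θ x → D ∪ dnf x ∈ DD)
    (c2 : ∀ D ∈ DD, ∀ x, x ∉ D → 1 ≤ θ x → ∀ y ≤ x, y ∉ D → ∀ x', y ⋖ x' → ¬ x' ≤ x →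
      θ x ≤ θ x' + 1)
    (hT : ∀ t ∈ Tw, Twn i θ t) (hanti : ∀ x x', (x, x') ∈ Tw → (x', x) ∉ Tw)
    (hHT : ∀ t ∈ Tw, ∀ D ∈ DD, t.1 ∉ D → t.2 ∉ D → ∀ n < n0,
      p ∣ ZB i D 0 (st2 t.1 t.2 (θ t.1) (θ t.1 + 1)) n)
    (hV : ∀ t ∈ Tw, ∀ D ∈ DD, t.1 ∉ D → t.2 ∉ D →
      p ∣ ZB i D 0 (st2 t.1 t.2 (θ t.1) (θ t.1 + 1)) n0 - (if ld t then V t else 0))
    (hmin : ∀ t ∈ Tw, ∀ D ∈ DD, ∀ y < t.2, y ∈ D) :
    ∀ D ∈ DD, ∀ β : P → ℕ, (∀ x, x ∉ D → β x ≤ θ x) →
      p ∣ ZB i D 0 β n0 - tsumV i θ ld V Tw D β := by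
  classical
  have hlt := dvd_ZB_bounds_twinsH i p n0 DD θ Tw hlow hlev hθ (fun D hD hb n hn => c0 D hD hb n hn.le)
    c1 c2 (fun t ht => (hT t ht).toP) hHT hmin
  have outer : ∀ N : ℕ, ∀ D ∈ DD, (Dᶜ).card = N → ∀ β : P → ℕ, (∀ x, x ∉ D → β x ≤ θ x) →
      p ∣ ZB i D 0 β n0 - tsumV i θ ld V Tw D β := by
    intro N
    induction N using Nat.strong_induction_on with
    | _ N ihN =>
    intro D hDD hN
    have hsmall : ∀ x, x ∉ D → 1 ≤ θ x → ∀ β : P → ℕ, (∀ y, y ∉ D ∪ dnf x → β y ≤ θ y) →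
        p ∣ ZB i (D ∪ dnf x) 0 β n0 - tsumV i θ ld V Tw (D ∪ dnf x) β := by
      intro x hx hθx β hβ
      refine ihN _ ?_ _ (c1 D hDD x hx hθx) rfl β hβ
      rw [← hN]
      apply Finset.card_lt_card
      rw [Finset.compl_ssubset_compl]
      rw [Finset.ssubset_iff_of_subset subset_union_left]
      exact ⟨x, mem_union_right _ (mem_dnf.mpr le_rfl), hx⟩
    have base : p ∣ ZB i D 0 0 n0 - tsumV i θ ld V Tw D 0 := by
      by_cases hall : ∀ t ∈ Tw, t.1 ∈ D ∨ t.2 ∈ D
      · have h1 : tsumV i θ ld V Tw D 0 = 0 := by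
          unfold tsumV
          rw [Finset.sum_eq_zero]
          intro t ht
          exfalso
          rw [mem_twsV] at ht
          rcases hall t ht.1 with h | h
          · exact ht.2.1.1 h
          · exact ht.2.1.2 h
        rw [h1, sub_zero]
        exact c0 D hDD hall n0 le_rfl
      · push Not at hall
        obtain ⟨⟨x, x'⟩, ht, hx, hx'⟩ := hall
        have H := hT _ ht
        have hθx := H.one_le
        have heq := H.eq
        simp only at hθx heq hx hx'
        have hθx' : 1 ≤ θ x' := by omega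
        have hDx := c1 D hDD x hx hθx
        have hDx' := c1 D hDD x' hx' hθx'
        have hin : ∀ E : Finset P, E = D ∪ dnf x ∨ E = D ∪ dnf x' → E ∈ DD := by
          rintro E (rfl | rfl)
          · exact hDx
          · exact hDx'
        have hm : ∀ y < x', y ∈ D := hmin _ ht D hDD
        have h1 := twin_step_exactH (p := p) (n0 := n0) H (hθ x hθx) (hlev D hDD) (hlow D hDD) hx hx'
          hm (fun E hE => hlow E (hin E hE)) (fun E hE => hlev E (hin E hE))
          (c2 D hDD x hx hθx) (fun E hE => hlt E (hin E hE))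
          (hV _ ht D hDD hx hx')
        have hx'x : ¬ x' ≤ x := fun h => by
          have h1 : x' < x := lt_of_le_of_ne h (fun h => H.ne h.symm)
          exact lt_irrefl x ((H.up x).mpr h1)
        have h2 := hsmall x hx hθx (st2 x x' 0 1) (by
          intro y hy
          unfold st2
          split_ifs with h8 h9
          · exact Nat.zero_le _
          · rw [h9]; exact hθx'
          · exact Nat.zero_le _)
        have h3 := hsmall x' hx' hθx' 0 (fun _ _ => Nat.zero_le _)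
        rw [tsumV_twin hT ht (hanti _ _ ht) hx hx' hm]
        have h4 := dvd_add (dvd_add h1 h2) h3
        refine h4.trans (dvd_of_eq ?_)
        ring
    have inner : ∀ s : ℕ, ∀ β : P → ℕ, (∑ x ∈ Dᶜ, β x = s) → (∀ x, x ∉ D → β x ≤ θ x) →
        p ∣ ZB i D 0 β n0 - tsumV i θ ld V Tw D β := by
      intro s
      induction s with
      | zero =>
        intro β hβ _
        have h0 : ∀ x, x ∉ D → β x = 0 := by
          intro x hx
          rw [Finset.sum_eq_zero_iff] at hβ
          exact hβ x (by simpa using hx)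
        rw [ZB_congr (g' := 0) (β' := 0) (fun _ _ => rfl) (fun x hx => by simpa using h0 x hx)]
        have h1 : tsumV i θ ld V Tw D β = tsumV i θ ld V Tw D 0 := by
          unfold tsumV
          rw [twsV_congr (β' := 0) (fun x hx => by simpa using h0 x hx)]
        rw [h1]
        exact base
      | succ s ihs =>
        intro β hβ hbd
        obtain ⟨x0, hx0, hx0b⟩ : ∃ x0, x0 ∉ D ∧ 1 ≤ β x0 := by
          by_contra hcon
          push Not at hcon
          have : ∑ x ∈ Dᶜ, β x = 0 := Finset.sum_eq_zero fun x hx => by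
            have := hcon x (by simpa using hx)
            omega
          omega
        let β' : P → ℕ := Function.update β x0 (β x0 - 1)
        have hβ'x : β' x0 = β x0 - 1 := Function.update_self _ _ _
        have hβ'n : ∀ x, x ≠ x0 → β' x = β x := fun x hx => Function.update_of_ne hx _ _
        have hββ : β = Function.update β' x0 (β' x0 + 1) := by
          funext x
          by_cases hx : x = x0
          · subst hx
            rw [Function.update_self, hβ'x]; omega
          · rw [Function.update_of_ne hx, hβ'n x hx]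
        have hle' : ∀ x, β' x ≤ β x := by
          intro x
          by_cases hx : x = x0
          · subst hx; rw [hβ'x]; omega
          · rw [hβ'n x hx]
        have hθx0 : 1 ≤ θ x0 := hx0b.trans (hbd x0 hx0)
        have hsum : ∑ x ∈ Dᶜ, β' x = s := by
          have h1 : ∑ x ∈ Dᶜ, β x = ∑ x ∈ Dᶜ, β' x + 1 := by
            rw [← Finset.add_sum_erase Dᶜ β (by simpa using hx0 : x0 ∈ Dᶜ),
              ← Finset.add_sum_erase Dᶜ β' (by simpa using hx0 : x0 ∈ Dᶜ), hβ'x]
            have h2 : ∑ x ∈ Dᶜ.erase x0, β x = ∑ x ∈ Dᶜ.erase x0, β' x :=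
              Finset.sum_congr rfl fun x hx => (hβ'n x (ne_of_mem_erase hx)).symm
            omega
          omega
        have hD' := c1 D hDD x0 hx0 hθx0
        have hbx := hbd x0 hx0
        have h1 := step_mod (p := p) (n0 := n0) (β := β') hx0 (hθ x0 hθx0) (by
          intro g' hG hg0
          obtain ⟨g1, g2, g3, g4, g5⟩ := hG
          refine dvd_ZB_shift_pos β' (hlow _ hD') (hlev _ hD') g5 p n0 (fun n hn => ?_) hg0
          refine hlt _ hD' _ ?_ n hn
          intro x hx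
          rw [mem_union, mem_dnf, not_or] at hx
          refine bg_le ((hle' x).trans (hbd x hx.1)) ?_
          intro y hy hyx
          by_cases hyD : y ∈ D
          · rw [g1 y hyD]; exact Nat.zero_le _
          · have hyx0 : y ≤ x0 := by
              rcases mem_union.mp hy with h | h
              · exact absurd h hyD
              · exact mem_dnf.mp h
            have h1 := g3 y hyx0
            rw [hβ'x] at h1
            have h2 := c2 D hDD x0 hx0 hθx0 y hyx0 hyD x hyx hx.2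
            omega)
        have h2 := tsumV_step (ld := ld) (V := V) hT (D := D) (β := β') hx0 (hθ x0 hθx0) (hle x0)
          (by omega)
        have h3 := ihs β' hsum (fun x hx => (hle' x).trans (hbd x hx))
        rw [← hββ] at h1 h2
        rw [h2] at h3
        by_cases hc : β' x0 = 0 ∧ ∀ y ≤ x0, y ∉ D → β' y = 0
        · rw [if_pos hc] at h1 h3
          have h4 := hsmall x0 hx0 hθx0 β' (fun y hy => by
            rw [mem_union, not_or] at hy
            exact (hle' y).trans (hbd y hy.1))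
          have h5 := dvd_sub (dvd_sub h3 h1) h4
          refine h5.trans (dvd_of_eq ?_)
          ring
        · rw [if_neg hc, sub_zero] at h1
          rw [if_neg hc, add_zero] at h3
          have h5 := dvd_sub h3 h1
          refine h5.trans (dvd_of_eq ?_)
          ring
    intro β hbd
    exact inner _ β rfl hbd
  intro D hDD β hbd
  exact outer _ D hDD rfl β hbd


section Sys

variable {i : ℕ} {N : Tops P → Finset P} {b : Tops P → ℕ} {θ : Tops P → P → ℕ}
  {B : Tops P → P → Prop} {Y Yf Z : Finset P} {τ π : P → P}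

/-- the pairs of twins of cells `(m, m + 1)` and the pairs of pendants -/
def pairsF (Yf Z : Finset P) (τ π : P → P) : Finset (P × P) := pairsX Yf τ ∪ pairsZ Z π

/-- no energy below the cost of two high labels on two pendants -/
lemma FoldSys.pen_T (F : FoldSys i N b B Y Yf Z τ π) (T : TwSys (unnat N) Y topOf τ)
    (hgr : GradedBelow P) {z1 z2 : P} (hz1 : z1 ∈ Z) (hz2 : z2 ∈ Z) (hne : z1 ≠ z2)
    (hπ : π z1 = π z2) {k : ℕ} (hlev : i + k + 2 ≤ lev (π z1)) {D : Finset P} (h1 : z1 ∉ D)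
    (h2 : z2 ∉ D) {n : ℕ} (hn : n < cM i k (τ (π z1)) + k + 2) :
    ZB i D 0 (st2 z1 z2 (k + 1) (k + 1 + 1)) n = 0 := by
  classical
  have hY := F.sub (F.penF z1 hz1)
  have hup := T.up _ hY
  have e1 := hgr.lev_covBy ((F.cov hz1).mpr rfl)
  have e2 := hgr.lev_covBy ((F.cov hz2).mpr rfl)
  rw [← hπ] at e2
  have hs1 : st2 z1 z2 (k + 1) (k + 1 + 1) z1 = k + 1 := by unfold st2; rw [if_pos rfl]
  have hs2 : st2 z1 z2 (k + 1) (k + 1 + 1) z2 = k + 1 + 1 := by
    unfold st2; rw [if_neg hne.symm, if_pos rfl]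
  have hlt1 := F.lt hz1
  have hlt2 : z2 < π z1 := by rw [hπ]; exact F.lt hz2
  refine ZB_zero_of_cost (fun u => (if τ (π z1) < u then min (k + 1) (lev u - i) else 0) +
    ((if u = z1 then k + 1 else 0) + (if u = z2 then k + 2 else 0) +
      (if u = π z1 then k + 2 else 0) + (if u = π z1 then 0 else 0))) ?_ ?_
  · intro u
    by_cases h : τ (π z1) < u
    · right
      have h3 := (hup u).mp h
      have h4 : u ≠ z1 := fun h5 => lt_irrefl _ (hlt1.trans (h5 ▸ h3))
      have h5 : u ≠ z2 := fun h5 => lt_irrefl _ (hlt2.trans (h5 ▸ h3))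
      have h6 : u ≠ π z1 := h3.ne'
      refine ⟨z2, (hlt2.trans h3).le, h2, ?_⟩
      rw [hs2]
      simp only [if_pos h, if_neg h4, if_neg h5, if_neg h6]
      omega
    · by_cases h4 : u = z1
      · right
        subst h4
        refine ⟨u, le_rfl, h1, ?_⟩
        rw [hs1]
        simp only [if_neg h, if_true, if_neg hne, if_neg hlt1.ne]
        omega
      by_cases h5 : u = z2
      · right
        subst h5
        refine ⟨u, le_rfl, h2, ?_⟩
        rw [hs2]
        simp only [if_neg h, if_true, if_neg h4, if_neg hlt2.ne]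
        omega
      by_cases h6 : u = π z1
      · right
        refine ⟨z2, by rw [h6]; exact hlt2.le, h2, ?_⟩
        rw [hs2, h6]
        simp only [if_neg (h6 ▸ h), if_true, if_neg (h6 ▸ h4), if_neg (h6 ▸ h5)]
        omega
      · left
        simp only [if_neg h, if_neg h4, if_neg h5, if_neg h6]
  · rw [Finset.sum_add_distrib, sum_four]
    unfold cM at hn
    omega

/-- **The lower sets which break the other pairs are clean below `n1`.** -/
theorem FoldSys.cleanF (F : FoldSys i N b B Y Yf Z τ π) (T : TwSys (unnat N) Y topOf τ)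
    (hgr : GradedBelow P) (H : ∀ t, NatTop i t (b t) (N t) (θ t) (B t)) {n1 : ℕ}
    (hpos : ∀ x' ∈ Yf, ∃ k, FoldPos i N θ B Y Z τ π k x' ∧ n1 ≤ cM i k (τ x') + k + 2) :
    ∀ D, Good i ((unnat N \ Y) \ Z) (fun x => x ∉ unnat N ∧ B (topOf x) x) D →
      (∀ t ∈ pairsX (Y \ Yf) τ, t.1 ∈ D ∨ t.2 ∈ D) →
      ∀ β : P → ℕ, (∀ x, x ∉ D → β x ≤ thPen N θ Y Z τ π x) → ∀ n < n1,
      (1 + X : ℤ[X]) ^ (∑ t, b t) ∣ ZB i D 0 β n := by
  classical
  have HN := natSys_of_tops H
  obtain ⟨f1, f2, f3, f4⟩ := F.fam T hgr H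
  -- the thresholds
  have hfold : ∀ x' ∈ Yf, ∀ k, FoldPos i N θ B Y Z τ π k x' →
      thPen N θ Y Z τ π x' = k ∧ thPen N θ Y Z τ π (τ x') = k := by
    intro x' hx' k Q
    have hY := F.sub hx'
    have hnat := T.nat x' hY
    have hxR : τ x' ∉ (unnat N \ Y) \ Z := fun h => hnat (mem_sdiff.mp (mem_sdiff.mp h).1).1
    have hx'R : x' ∉ (unnat N \ Y) \ Z := fun h => (mem_sdiff.mp (mem_sdiff.mp h).1).2 hY
    have hx'Z : x' ∉ Z := fun h => F.penY x' h hY
    have hxZ : τ x' ∉ Z := fun h => hnat (F.penU _ h)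
    have hxY : τ x' ∉ Y := fun h => hnat (T.sub h)
    refine ⟨by rw [thPen_of hx'R, thZ_not hx'Z]; exact Q.th, ?_⟩
    rw [thPen_of hxR, thZ_not hxZ, thX_not hxY]
    have := Q.th
    rw [thX_of hY] at this
    exact this
  have hpenT : ∀ z ∈ Z, ∀ k, FoldPos i N θ B Y Z τ π k (π z) → thPen N θ Y Z τ π z = k + 1 := by
    intro z hz k Q
    have h1 : z ∉ (unnat N \ Y) \ Z := fun h => (mem_sdiff.mp h).2 hz
    rw [thPen_of h1, thZ_of hz, Q.th]
  have hup : ∀ z1 ∈ Z, ∀ z2 ∈ Z, π z1 = π z2 → ∀ y, z1 < y ↔ z2 < y := by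
    intro z1 h1 z2 h2 h y
    rw [F.pen z1 h1, F.pen z2 h2, h]
  intro D hD hbr β hβ n hn
  refine dvd_ZB_bounds_twinsR i ((1 + X : ℤ[X]) ^ (∑ t, b t)) n1
    {D | Good i ((unnat N \ Y) \ Z) (fun x => x ∉ unnat N ∧ B (topOf x) x) D ∧
      ∀ t ∈ pairsX (Y \ Yf) τ, t.1 ∈ D ∨ t.2 ∈ D} (thPen N θ Y Z τ π) (pairsF Yf Z τ π)
    (fun D hD => hD.1.1) (fun D hD => hD.1.2.2.1) f1 ?_ ?_ ?_ ?_ ?_ ?_ D ⟨hD, hbr⟩ β hβ n hn
  · intro D hD hb n _
    refine F.c0 T hgr H hD.1 ?_ ?_ n
    · intro y hy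
      by_cases hyf : y ∈ Yf
      · rcases hb (τ y, y) (mem_union_left _ (mem_pairsX.mpr ⟨hyf, rfl⟩)) with h | h
        · exact Or.inl h
        · exact Or.inr (Or.inl h)
      · rcases hD.2 (τ y, y) (mem_pairsX.mpr ⟨mem_sdiff.mpr ⟨hy, hyf⟩, rfl⟩) with h | h
        · exact Or.inl h
        · exact Or.inr (Or.inl h)
    · intro z1 h1 z2 h2 hne hπ
      exact hb (z1, z2) (mem_union_right _ (mem_pairsZ.mpr ⟨⟨h1, h2⟩, hne, hπ⟩))
  · intro D hD x hx hθ
    exact ⟨f3 D hD.1 x hx hθ, fun t ht => (hD.2 t ht).imp (fun h => mem_union_left _ h)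
      (fun h => mem_union_left _ h)⟩
  · intro D hD x hx hθ y hyx hyD w hyw hwx
    exact f4 D hD.1 x hx hθ y hyx hyD w hyw hwx
  · intro t ht
    rcases mem_union.mp ht with ht | ht
    · rw [mem_pairsX] at ht
      obtain ⟨k, Q, -⟩ := hpos t.2 ht.1
      obtain ⟨e1, e2⟩ := hfold t.2 ht.1 k Q
      have hY := F.sub ht.1
      refine ⟨fun h => T.nat t.2 hY ?_, ?_, ?_, ?_⟩
      · rw [← ht.2, h]; exact T.sub hY
      · rw [ht.2]; exact T.up t.2 hY
      · rw [ht.2, e2]; exact Q.pos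
      · rw [ht.2, e1, e2]
    · rw [mem_pairsZ] at ht
      obtain ⟨k, Q, -⟩ := hpos _ (F.penF t.1 ht.1.1)
      have e1 := hpenT t.1 ht.1.1 k Q
      have e2 := hpenT t.2 ht.1.2 k (ht.2.2 ▸ Q)
      exact ⟨ht.2.1, hup _ ht.1.1 _ ht.1.2 ht.2.2, by rw [e1]; omega, by rw [e1, e2]⟩
  · intro t ht D hD h1 h2 n hn
    rcases mem_union.mp ht with ht | ht
    · rw [mem_pairsX] at ht
      obtain ⟨k, Q, hk⟩ := hpos t.2 ht.1
      obtain ⟨e1, e2⟩ := hfold t.2 ht.1 k Q
      have hY := F.sub ht.1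
      have hne : τ t.2 ≠ t.2 := fun h => T.nat t.2 hY (by rw [h]; exact T.sub hY)
      have hll : lev (τ t.2) = lev t.2 := lev_eq_of_up (T.up t.2 hY)
      rw [ht.2] at h1 ⊢
      rw [e2]
      have hs : ∀ c, lev c < lev t.2 → st2 (τ t.2) t.2 k (k + 1) c = 0 := by
        intro c hc
        unfold st2
        rw [if_neg (by rintro rfl; omega), if_neg (by rintro rfl; omega)]
      refine F.fold_T T hgr H ht.1 Q _ D hD.1 h1 h2 rfl _ ?_ ?_ ?_ ?_ n (by omega)
      · unfold st2; rw [if_pos rfl]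
      · unfold st2; rw [if_neg hne.symm, if_pos rfl]
      · intro c hc
        rw [hs c (by omega)]
        exact Nat.zero_le _
      · intro c hc
        exact hs c (by omega)
    · rw [mem_pairsZ] at ht
      obtain ⟨k, Q, hk⟩ := hpos _ (F.penF t.1 ht.1.1)
      rw [hpenT t.1 ht.1.1 k Q,
        F.pen_T T hgr ht.1.1 ht.1.2 ht.2.1 ht.2.2 (k := k) Q.lev h1 h2 (by omega)]
      exact dvd_zero _
  · intro t ht D hD y hy
    rcases mem_union.mp ht with ht | ht
    · rw [mem_pairsX] at ht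
      have hY := F.sub ht.1
      have hyU := HN.lower y _ hy.le (T.sub hY)
      have hyY : y ∉ Y := fun h => T.top_unnat HN h hy (T.sub hY)
      by_cases hyZ : y ∈ Z
      · right
        have h1 := F.above T HN hyZ hy (T.sub hY)
        refine ⟨fun h => ?_, fun w hw => ?_⟩
        · rw [ht.2] at h
          have h2 : y ≠ τ t.2 := fun h3 => T.nat t.2 hY (h3 ▸ hyU)
          have h3 := (F.pen y hyZ _).mp (lt_of_le_of_ne h h2)
          rw [← h1] at h3
          have h4 : t.2 ≠ τ t.2 := fun h => T.nat t.2 hY (by rw [← h]; exact T.sub hY)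
          have h5 := lev_strictAnti (lt_of_le_of_ne h3 h4)
          have h6 : lev (τ t.2) = lev t.2 := lev_eq_of_up (T.up t.2 hY)
          omega
        · rw [(F.cov hyZ).mp hw, ← h1]
      · left
        exact hD.1.2.1 (mem_sdiff.mpr ⟨mem_sdiff.mpr ⟨hyU, hyY⟩, hyZ⟩)
    · left
      rw [mem_pairsZ] at ht
      have hU := F.penU _ ht.1.2
      refine hD.1.2.1 (mem_sdiff.mpr ⟨mem_sdiff.mpr ⟨HN.lower y _ hy.le hU, fun h => ?_⟩,
        fun h => ?_⟩)
      · exact T.top_unnat HN h hy hU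
      · have h1 := F.above T HN h hy hU
        exact F.penY _ ht.1.2 (h1 ▸ F.sub (F.penF y h))

end Sys

end Pool.Agent.GaussPoset
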