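import Pool.Agent.W_448f4_h70.JH

/-!
The far window theorem for systems with twins of the cells `(m, m + 1)` (MP_448cb3_co, S7).
-/

namespace Pool.Agent.GaussPoset

set_option linter.unusedSectionVars false

open Polynomial Finset

universe u

variable {P : Type u} [Fintype P] [PartialOrder P] [DecidableEq P]

section Sys

variable {i : ℕ} {N : Tops P → Finset P} {b : Tops P → ℕ} {θ : Tops P → P → ℕ}
  {B : Tops P → P → Prop} {Y Yf Z : Finset P} {τ π : P → P}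

/-- **The far window theorem without the twins of the cells `(m, m + 1)` and their pendants.** -/
theorem FoldSys.farV (F : FoldSys i N b B Y Yf Z τ π) (T : TwSys (unnat N) Y topOf τ)
    (hgr : GradedBelow P) (H : ∀ t, NatTop i t (b t) (N t) (θ t) (B t)) {n0 : ℕ}
    (hpos : ∀ x' ∈ Yf, ∃ k, FoldPos i N θ B Y Z τ π k x' ∧ n0 < cM i k (τ x') + k + 2)
    (htw : ∀ x ∈ Y, x ∉ Yf → Twn i (thX Y τ (fun x => θ (topOf x) x)) (τ x, x))
    (ld : P → Prop) (V : P → ℤ[X])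
    (hHT : ∀ x ∈ Y, x ∉ Yf → ∀ D, Good i ((unnat N \ Y) \ Z)
      (fun x => x ∉ unnat N ∧ B (topOf x) x) D → τ x ∉ D → x ∉ D → ∀ n < n0,
      (1 + X : ℤ[X]) ^ (∑ t, b t) ∣ ZB i D 0
        (st2 (τ x) x (thX Y τ (fun x => θ (topOf x) x) (τ x))
          (thX Y τ (fun x => θ (topOf x) x) (τ x) + 1)) n)
    (hV : ∀ x ∈ Y, x ∉ Yf → ∀ D, Good i ((unnat N \ Y) \ Z)
      (fun x => x ∉ unnat N ∧ B (topOf x) x) D → τ x ∉ D → x ∉ D →
      (1 + X : ℤ[X]) ^ (∑ t, b t) ∣ ZB i D 0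
        (st2 (τ x) x (thX Y τ (fun x => θ (topOf x) x) (τ x))
          (thX Y τ (fun x => θ (topOf x) x) (τ x) + 1)) n0 -
        (by classical exact if ld x then V x else 0)) :
    FarV P i ((unnat N \ Y) \ Z) (∑ t, b t)
      (hcan ((unnat N \ Y) \ Z) (thZ Z π (thX Y τ (fun x => θ (topOf x) x))))
      (∑ x ∈ (by classical exact (Y \ Yf).filter ld), V x) n0 := by
  classical
  have HN := natSys_of_tops H
  have hRlev : ∀ x ∈ (unnat N \ Y) \ Z, i < lev x := by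
    intro x hx
    by_contra hcon
    exact low_natural H (not_lt.mp hcon) (mem_sdiff.mp (mem_sdiff.mp hx).1).1
  obtain ⟨f1, f2, f3, f4⟩ := F.fam T hgr H
  have hR := F.lower T HN
  set Rp : Finset P := (unnat N \ Y) \ Z with hRp
  set θX : P → ℕ := thX Y τ (fun x => θ (topOf x) x) with hθX
  have hRR : Rp ∈ {D | Good i Rp (fun x => x ∉ unnat N ∧ B (topOf x) x) D} :=
    ⟨hR, Subset.refl _, hRlev, fun x hx h => h.1 (mem_sdiff.mp (mem_sdiff.mp hx).1).1⟩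
  have hclean := F.cleanF T hgr H (n1 := n0 + 1) (fun x' hx' => by
    obtain ⟨k, Q, hk⟩ := hpos x' hx'
    exact ⟨k, Q, hk⟩)
  have c0 : ∀ D ∈ {D | Good i Rp (fun x => x ∉ unnat N ∧ B (topOf x) x) D},
      (∀ t ∈ pairsX (Y \ Yf) τ, t.1 ∈ D ∨ t.2 ∈ D) → ∀ n ≤ n0,
      (1 + X : ℤ[X]) ^ (∑ t, b t) ∣ ZB i D 0 0 n := fun D hD hbr n hn =>
    hclean D hD hbr 0 (fun _ _ => Nat.zero_le _) n (by omega)
  -- the thresholds of the pairs
  have hth : ∀ x ∈ Y \ Yf, thPen N θ Y Z τ π (τ x) = θX (τ x) ∧ thPen N θ Y Z τ π x = θX x ∧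
      (∀ y, τ x < y → thPen N θ Y Z τ π y = θX y) := by
    intro x hx
    have hxY := (mem_sdiff.mp hx).1
    have hnat := T.nat x hxY
    have key : ∀ y, y ∉ unnat N → thPen N θ Y Z τ π y = θX y := by
      intro y hy
      rw [thPen_of (fun h => hy (mem_sdiff.mp (mem_sdiff.mp h).1).1),
        thZ_not (fun h => hy (F.penU _ h))]
    refine ⟨key _ hnat, ?_, fun y hy => key y (fun h => hnat (HN.lower _ y hy.le h))⟩
    rw [thPen_of (fun h => (mem_sdiff.mp (mem_sdiff.mp h).1).2 hxY), thZ_not (fun h => F.penY _ h hxY)]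
  have hT : ∀ t ∈ pairsX (Y \ Yf) τ, Twn i (thPen N θ Y Z τ π) t := by
    intro t ht
    rw [mem_pairsX] at ht
    have h0 := mem_sdiff.mp ht.1
    have h2 := htw t.2 h0.1 h0.2
    rw [← ht.2] at h2
    obtain ⟨e1, e2, e3⟩ := hth t.2 ht.1
    rw [← ht.2] at e1 e3
    refine ⟨h2.ne, h2.up, ?_, ?_, ?_, ?_⟩
    · rw [e1]; exact h2.one_le
    · rw [e1, e2]; exact h2.eq
    · rw [e1]; exact h2.lt
    · intro y hy
      rw [e1, e3 y hy]
      exact h2.mono y hy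
  have hanti : ∀ x x', (x, x') ∈ pairsX (Y \ Yf) τ → (x', x) ∉ pairsX (Y \ Yf) τ := by
    intro x x' h1 h2
    rw [mem_pairsX] at h1 h2
    simp only at h1 h2
    exact T.nat x' (mem_sdiff.mp h1.1).1 (h1.2 ▸ T.sub (mem_sdiff.mp h2.1).1)
  have hHT' : ∀ t ∈ pairsX (Y \ Yf) τ,
      ∀ D ∈ {D | Good i Rp (fun x => x ∉ unnat N ∧ B (topOf x) x) D}, t.1 ∉ D → t.2 ∉ D →
      ∀ n < n0, (1 + X : ℤ[X]) ^ (∑ t, b t) ∣ ZB i D 0
        (st2 t.1 t.2 (thPen N θ Y Z τ π t.1) (thPen N θ Y Z τ π t.1 + 1)) n := by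
    intro t ht D hD h1 h2 n hn
    rw [mem_pairsX] at ht
    have h0 := mem_sdiff.mp ht.1
    obtain ⟨e1, e2, e3⟩ := hth t.2 ht.1
    rw [ht.2] at h1 ⊢
    rw [e1]
    exact hHT t.2 h0.1 h0.2 D hD h1 h2 n hn
  have hV' : ∀ t ∈ pairsX (Y \ Yf) τ,
      ∀ D ∈ {D | Good i Rp (fun x => x ∉ unnat N ∧ B (topOf x) x) D}, t.1 ∉ D → t.2 ∉ D →
      (1 + X : ℤ[X]) ^ (∑ t, b t) ∣ ZB i D 0
        (st2 t.1 t.2 (thPen N θ Y Z τ π t.1) (thPen N θ Y Z τ π t.1 + 1)) n0 -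
        (if ld t.2 then V t.2 else 0) := by
    intro t ht D hD h1 h2
    rw [mem_pairsX] at ht
    have h0 := mem_sdiff.mp ht.1
    obtain ⟨e1, e2, e3⟩ := hth t.2 ht.1
    rw [ht.2] at h1 ⊢
    rw [e1]
    exact hV t.2 h0.1 h0.2 D hD h1 h2
  have hmin : ∀ t ∈ pairsX (Y \ Yf) τ,
      ∀ D ∈ {D | Good i Rp (fun x => x ∉ unnat N ∧ B (topOf x) x) D}, ∀ y < t.2, y ∈ D := by
    intro t ht D hD y hy
    rw [mem_pairsX] at ht
    have h0 := mem_sdiff.mp ht.1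
    have hU := T.sub h0.1
    refine hD.2.1 (mem_sdiff.mpr ⟨mem_sdiff.mpr ⟨HN.lower y _ hy.le hU, fun h => ?_⟩, fun h => ?_⟩)
    · exact T.top_unnat HN h hy hU
    · have h1 := F.above T HN h hy hU
      exact h0.2 (h1 ▸ F.penF y h)
  have hlt := dvd_ZB_bounds_twinsH i _ n0
    {D | Good i Rp (fun x => x ∉ unnat N ∧ B (topOf x) x) D} (thPen N θ Y Z τ π)
    (pairsX (Y \ Yf) τ) (fun D hD => hD.1) (fun D hD => hD.2.2.1) f1
    (fun D hD hb n hn => c0 D hD hb n hn.le) f3 f4 (fun t ht => (hT t ht).toP) hHT' hmin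
  have hex := dvd_ZB_exactL i _ n0 (fun t => ld t.2) (fun t => V t.2)
    {D | Good i Rp (fun x => x ∉ unnat N ∧ B (topOf x) x) D} (thPen N θ Y Z τ π)
    (pairsX (Y \ Yf) τ) (fun D hD => hD.1) (fun D hD => hD.2.2.1) f1 f2 c0 f3 f4 hT hanti
    hHT' hV' hmin Rp hRR 0 (fun _ _ => Nat.zero_le _)
  refine ⟨hgr, hRlev, ?_, ?_, ?_, ?_⟩
  · intro g hg0 hg hp
    refine dvd_ZB_shift_pos 0 hR hRlev hg0 _ n0 (fun n hn => ?_) hp
    refine hlt Rp hRR _ ?_ n hn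
    intro x hx
    refine bg_le (Nat.zero_le _) fun y hy hyx => ?_
    rw [thPen_of hx, ← hθX]
    have h1 : y ∈ bdR Rp := mem_filter.mpr ⟨hy, x, hx, hyx⟩
    have h2 := hg y h1
    have h3 := hcan_le (θ := thZ Z π θX) hx hyx
    omega
  · have h1 : tsumV i (thPen N θ Y Z τ π) (fun t => ld t.2) (fun t => V t.2)
        (pairsX (Y \ Yf) τ) Rp 0 = ∑ x ∈ (Y \ Yf).filter ld, V x := by
      have h2 : (pairsX (Y \ Yf) τ).filter (fun t => ld t.2) =
          ((Y \ Yf).filter ld).image (fun x => (τ x, x)) := by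
        unfold pairsX
        rw [Finset.filter_image]
      have h3 : ∑ t ∈ (pairsX (Y \ Yf) τ).filter (fun t => ld t.2), V t.2 =
          ∑ x ∈ (Y \ Yf).filter ld, V x := by
        rw [h2, Finset.sum_image (by
          intro x _ y _ h
          exact (Prod.mk.inj h).2)]
      rw [← h3]
      unfold tsumV
      refine Finset.sum_congr ?_ (fun _ _ => rfl)
      ext t
      rw [mem_twsV, mem_filter]
      constructor
      · exact fun h => ⟨h.1, h.2.2.1⟩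
      · intro h
        refine ⟨h.1, ?_, h.2, fun _ _ => Nat.zero_le _⟩
        have h4 := (mem_pairsX.mp h.1)
        have h5 := mem_sdiff.mp h4.1
        refine ⟨fun h6 => ?_, fun h6 => ?_⟩
        · rw [h4.2] at h6
          exact T.nat _ h5.1 (mem_sdiff.mp (mem_sdiff.mp h6).1).1
        · exact (mem_sdiff.mp (mem_sdiff.mp h6).1).2 h5.1
    rw [h1] at hex
    exact hex
  · intro z hz
    obtain ⟨x, -, -, hx⟩ := hcan_spec (θ := thZ Z π θX) hz
    omega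
  · intro z hz
    obtain ⟨x, hxR, hzx, hx⟩ := hcan_spec (θ := thZ Z π θX) hz
    have h1 := hgr.lev_covBy hzx
    have h2 := f2 x
    rw [thPen_of hxR, ← hθX] at h2
    have h3 := hRlev z (mem_filter.mp hz).1
    omega

end Sys

end Pool.Agent.GaussPoset
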