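import Pool.Agent.W_448f4_h70.JI
import Pool.Agent.W_448f4_h70.GH

/-!
The factor of one part for systems with twins of the cells `(m, m + 1)` (MP_448cb3_co, S7).
-/

namespace Pool.Agent.GaussPoset

set_option linter.unusedSectionVars false

open Polynomial Finset

universe u

variable {P : Type u} [Fintype P] [PartialOrder P] [DecidableEq P]

section Sys

variable {i : ℕ} {N : Tops P → Finset P} {b : Tops P → ℕ} {θ : Tops P → P → ℕ}
  {B : Tops P → P → Prop} {Y Yf Z : Finset P} {τ π : P → P}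

/-- **The factor of one part.** -/
theorem FoldSys.factorE (F : FoldSys i N b B Y Yf Z τ π) (T : TwSys (unnat N) Y topOf τ)
    (hgr : GradedBelow P) (H : ∀ t, NatTop i t (b t) (N t) (θ t) (B t)) {n0 : ℕ}
    (htw : ∀ x ∈ Y, TwinPair i (thPen N θ Y Z τ π) n0 (τ x) x)
    (htz : ∀ z1 ∈ Z, ∀ z2 ∈ Z, z1 ≠ z2 → π z1 = π z2 → TwinPair i (thPen N θ Y Z τ π) n0 z1 z2)
    {G : Finset P} (hG : Good i ((unnat N \ Y) \ Z) (fun x => x ∉ unnat N ∧ B (topOf x) x) G)
    (t : Tops P) (β : P → ℕ)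
    (hβ : ∀ x, x ∉ G → topOf x = t → β x ≤ thPen N θ Y Z τ π x) {m : ℕ}
    (hm : m < n0) :
    (1 + X : ℤ[X]) ^ (b t) ∣
      ZB (P := {x : P // x ∉ G ∧ topOf x = t}) i ∅ 0 (fun x => β x) m := by
  classical
  have HN := natSys_of_tops H
  obtain ⟨f1, f2, f3, f4⟩ := F.fam T hgr H
  have hR := hG.1
  have hcp : ∀ x y, x ≤ y → x ∉ G → topOf x = topOf y := fun x y hxy hx =>
    F.cp T HN x y hxy (fun h => hx (hG.2.1 h))
  have hup := pg_part_up (k := t) hR hcp
  have hl : ∀ y : {x : P // x ∉ G ∧ topOf x = t}, lev y = lev (y : P) :=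
    lev_subtype (p := fun x => x ∉ G ∧ topOf x = t) hup
  have hTP : ∀ s ∈ pairsX Y τ ∪ pairsZ Z π, TwinPair i (thPen N θ Y Z τ π) n0 s.1 s.2 := by
    intro s hs
    rcases mem_union.mp hs with h | h
    · rw [mem_pairsX] at h
      rw [h.2]
      exact htw s.2 h.1
    · rw [mem_pairsZ] at h
      exact htz _ h.1.1 _ h.1.2 h.2.1 h.2.2
  let DD : Set (Finset {x : P // x ∉ G ∧ topOf x = t}) :=
    {D | (∀ x y, x ≤ y → y ∈ D → x ∈ D) ∧ ∀ x ∈ D, i < lev (x : P) ∧
      ¬ ((x : P) ∉ unnat N ∧ B (topOf (x : P)) x)}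
  let TwQ : Finset ({x : P // x ∉ G ∧ topOf x = t} × {x : P // x ∉ G ∧ topOf x = t}) :=
    univ.filter (fun s => ((s.1 : P), (s.2 : P)) ∈ pairsX Y τ ∪ pairsZ Z π)
  have hTQ : ∀ s ∈ TwQ, TwinPair (P := {x : P // x ∉ G ∧ topOf x = t}) i
      (fun x => thPen N θ Y Z τ π x) n0 s.1 s.2 := fun s hs =>
    twinPair_part hR hcp (hTP _ (mem_filter.mp hs).2)
  refine dvd_ZB_bounds_twinsR (P := {x : P // x ∉ G ∧ topOf x = t}) i
    ((1 + X : ℤ[X]) ^ (b t)) n0 DD (fun x => thPen N θ Y Z τ π x) TwQ (fun D hD => hD.1)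
    (fun D hD x hx => by rw [hl]; exact (hD.2 x hx).1) (fun x hx => by rw [hl]; exact f1 x hx)
    ?_ ?_ ?_ ?_ ?_ ?_
    ∅ ⟨fun x y _ h => absurd h (Finset.notMem_empty y), fun x h => absurd h (Finset.notMem_empty x)⟩
    (fun x => β x) (fun x _ => hβ x x.2.1 x.2.2) m hm
  · intro D hD hbr n _
    rw [ZB_off hD.1 (fun x hx => by rw [hl]; exact (hD.2 x hx).1)]
    refine dvd_Z_of_dvd_W ?_ n
    let E : Finset P := G ∪ D.image Subtype.val
    have hE : ∀ x, x ∈ E ↔ (x ∈ G ∨ ∃ h : x ∉ G ∧ topOf x = t,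
        (⟨x, h⟩ : {x : P // x ∉ G ∧ topOf x = t}) ∈ D) := by
      intro x
      simp only [E, mem_union, mem_image]
      refine or_congr Iff.rfl ?_
      constructor
      · rintro ⟨y, hy, rfl⟩
        exact ⟨y.2, hy⟩
      · rintro ⟨h, hx⟩
        exact ⟨⟨x, h⟩, hx, rfl⟩
    have hgood : Good i ((unnat N \ Y) \ Z) (fun x => x ∉ unnat N ∧ B (topOf x) x) E := by
      refine ⟨?_, ?_, ?_, ?_⟩
      · intro x y hxy hy
        rw [hE] at hy ⊢
        rcases hy with hy | ⟨h, hy⟩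
        · exact Or.inl (hR x y hxy hy)
        · by_cases hx : x ∈ G
          · exact Or.inl hx
          · have hxk : topOf x = t := (hcp x y hxy hx).trans h.2
            exact Or.inr ⟨⟨hx, hxk⟩, hD.1 ⟨x, hx, hxk⟩ ⟨y, h⟩ hxy hy⟩
      · intro x hx
        rw [hE]
        exact Or.inl (hG.2.1 hx)
      · intro x hx
        rw [hE] at hx
        rcases hx with hx | ⟨h, hx⟩
        · exact hG.2.2.1 x hx
        · exact (hD.2 _ hx).1
      · intro x hx
        rw [hE] at hx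
        rcases hx with hx | ⟨h, hx⟩
        · exact hG.2.2.2 x hx
        · exact (hD.2 _ hx).2
    have h1 := F.clean_part T hgr H hgood t (by
      intro y hy hyt
      have hxt : topOf (τ y) = t := (T.cp y hy).trans hyt
      by_cases hxR : τ y ∈ G
      · exact Or.inl ((hE _).mpr (Or.inl hxR))
      by_cases hyR : y ∈ G
      · exact Or.inr (Or.inl ((hE _).mpr (Or.inl hyR)))
      rcases hbr (⟨τ y, hxR, hxt⟩, ⟨y, hyR, hyt⟩) (mem_filter.mpr ⟨mem_univ _,
        mem_union_left _ (mem_pairsX.mpr ⟨hy, rfl⟩)⟩) with h | h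
      · exact Or.inl ((hE _).mpr (Or.inr ⟨_, h⟩))
      · exact Or.inr (Or.inl ((hE _).mpr (Or.inr ⟨_, h⟩)))) (by
      intro z1 h1 z2 h2 h3 h4 h5
      have e3 : topOf z2 = t := by
        rw [F.top_pen T HN h2, ← h5, ← F.top_pen T HN h1]
        exact h3
      by_cases e1 : z1 ∈ G
      · exact Or.inl ((hE _).mpr (Or.inl e1))
      by_cases e2 : z2 ∈ G
      · exact Or.inr ((hE _).mpr (Or.inl e2))
      rcases hbr (⟨z1, e1, h3⟩, ⟨z2, e2, e3⟩) (mem_filter.mpr ⟨mem_univ _,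
        mem_union_right _ (mem_pairsZ.mpr ⟨⟨h1, h2⟩, h4, h5⟩)⟩) with h | h
      · exact Or.inl ((hE _).mpr (Or.inr ⟨_, h⟩))
      · exact Or.inr ((hE _).mpr (Or.inr ⟨_, h⟩)))
    have hEk : ∀ x : P, topOf x = t → (x ∉ E ↔ ∃ h : x ∉ G ∧ topOf x = t,
        (⟨x, h⟩ : {x : P // x ∉ G ∧ topOf x = t}) ∉ D) := by
      intro x hxk
      rw [hE]
      constructor
      · intro h
        have hxR : x ∉ G := fun h2 => h (Or.inl h2)
        exact ⟨⟨hxR, hxk⟩, fun h2 => h (Or.inr ⟨_, h2⟩)⟩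
      · rintro ⟨h, h2⟩ (h3 | ⟨h3, h4⟩)
        · exact h.1 h3
        · exact h2 h4
    rw [W_iso (partIso hEk) i] at h1
    exact h1
  · intro D hD x hx hθx
    refine ⟨?_, ?_⟩
    · intro a c hac hc
      rw [mem_union, mem_dnf] at hc ⊢
      rcases hc with hc | hc
      · exact Or.inl (hD.1 a c hac hc)
      · exact Or.inr (hac.trans hc)
    · intro a ha
      rw [mem_union, mem_dnf] at ha
      rcases ha with ha | ha
      · exact hD.2 a ha
      · have h1 := f3 G hG x x.2.1 hθx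
        have h2 : (a : P) ∈ G ∪ dnf (x : P) := mem_union_right _ (mem_dnf.mpr ha)
        exact ⟨h1.2.2.1 a h2, h1.2.2.2 a h2⟩
  · intro D hD x hx hθx y hyx hyD x' hyx' hx'x
    refine f4 G hG x x.2.1 hθx y hyx y.2.1 x' ?_ (fun h => hx'x h)
    refine ⟨hyx'.1, fun z hz hzx' => ?_⟩
    exact hyx'.2 (c := ⟨z, hup y z hz.le y.2⟩) hz hzx'
  · intro s hs
    have h1 := hTQ s hs
    exact ⟨h1.ne, h1.up, h1.one_le, h1.eq⟩
  · intro s hs D hD h1 h2 n hn
    have h3 := hTQ s hs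
    rw [ZB_st2_eq_zero h3 (by have := h3.le; have := h3.one_le; omega) h1 h2 0 hn]
    exact dvd_zero _
  · intro s hs D _ y hy
    have hy' : (y : P) < (s.2 : P) := hy
    have hyRp : (y : P) ∉ (unnat N \ Y) \ Z := fun h => y.2.1 (hG.2.1 h)
    rcases mem_union.mp (mem_filter.mp hs).2 with h | h
    · rw [mem_pairsX] at h
      simp only at h
      have hU := T.sub h.1
      have hyU := HN.lower (y : P) _ hy'.le hU
      have hyY : (y : P) ∉ Y := fun h3 => T.top_unnat HN h3 hy' hU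
      have hyZ : (y : P) ∈ Z := by
        by_contra hyZ
        exact hyRp (mem_sdiff.mpr ⟨mem_sdiff.mpr ⟨hyU, hyY⟩, hyZ⟩)
      right
      have h1 := F.above T HN hyZ hy' hU
      refine ⟨fun h3 => ?_, fun w hw => ?_⟩
      · have h3' : (y : P) ≤ τ (s.2 : P) := by rw [← h.2]; exact h3
        have h4 : (y : P) ≠ τ (s.2 : P) := fun h5 => T.nat _ h.1 (h5 ▸ hyU)
        have h5 := (F.pen _ hyZ _).mp (lt_of_le_of_ne h3' h4)
        rw [← h1] at h5
        have h6 : (s.2 : P) ≠ τ (s.2 : P) := fun h7 => T.nat _ h.1 (by rw [← h7]; exact hU)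
        have h7 := lev_strictAnti (lt_of_le_of_ne h5 h6)
        have h8 : lev (τ (s.2 : P)) = lev (s.2 : P) := lev_eq_of_up (T.up _ h.1)
        omega
      · have h3 : (y : P) < (w : P) := hw.1
        have h4 := (F.pen _ hyZ _).mp h3
        rw [← h1] at h4
        by_contra hcon
        have h5 : s.2 < w := lt_of_le_of_ne h4 (fun h6 => hcon h6.ge)
        exact hw.2 hy h5
    · exfalso
      rw [mem_pairsZ] at h
      simp only at h
      have hU := F.penU _ h.1.2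
      refine hyRp (mem_sdiff.mpr ⟨mem_sdiff.mpr ⟨HN.lower (y : P) _ hy'.le hU, fun h3 => ?_⟩,
        fun h3 => ?_⟩)
      · exact T.top_unnat HN h3 hy' hU
      · have h1 := F.above T HN h3 hy' hU
        exact F.penY _ h.1.2 (h1 ▸ F.sub (F.penF _ h3))

/-- the far set is good -/
lemma FoldSys.goodR (F : FoldSys i N b B Y Yf Z τ π) (T : TwSys (unnat N) Y topOf τ)
    (H : ∀ t, NatTop i t (b t) (N t) (θ t) (B t)) :
    Good i ((unnat N \ Y) \ Z) (fun x => x ∉ unnat N ∧ B (topOf x) x) ((unnat N \ Y) \ Z) := by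
  refine ⟨F.lower T (natSys_of_tops H), Subset.refl _, fun x hx => ?_,
    fun x hx h => h.1 (mem_sdiff.mp (mem_sdiff.mp hx).1).1⟩
  by_contra hcon
  exact low_natural H (not_lt.mp hcon) (mem_sdiff.mp (mem_sdiff.mp hx).1).1

/-- **Larger labels**: in the parts with larger labels by `hbig`, in the other parts by the cost
of the twins -/
theorem FoldSys.farV_big (F : FoldSys i N b B Y Yf Z τ π) (T : TwSys (unnat N) Y topOf τ)
    (hgr : GradedBelow P) (H : ∀ t, NatTop i t (b t) (N t) (θ t) (B t)) {n0 : ℕ} {S : ℤ[X]}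
    (FV : FarV P i ((unnat N \ Y) \ Z) (∑ t, b t)
      (hcan ((unnat N \ Y) \ Z) (thZ Z π (thX Y τ (fun x => θ (topOf x) x)))) S n0)
    {k0 e0 n1 : ℕ} (hn1 : n0 < n1 + k0 + e0)
    (htw : ∀ x ∈ Y, TwinPair i (thPen N θ Y Z τ π) n1 (τ x) x)
    (htz : ∀ z1 ∈ Z, ∀ z2 ∈ Z, z1 ≠ z2 → π z1 = π z2 → TwinPair i (thPen N θ Y Z τ π) n1 z1 z2)
    (h' : P → ℕ)
    (hle : ∀ z ∈ bdR ((unnat N \ Y) \ Z),
      hcan ((unnat N \ Y) \ Z) (thZ Z π (thX Y τ (fun x => θ (topOf x) x))) z ≤ h' z)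
    (hk0 : ∀ z ∈ bdR ((unnat N \ Y) \ Z),
      hcan ((unnat N \ Y) \ Z) (thZ Z π (thX Y τ (fun x => θ (topOf x) x))) z < h' z →
      k0 ≤ hcan ((unnat N \ Y) \ Z) (thZ Z π (thX Y τ (fun x => θ (topOf x) x))) z ∧
      e0 ≤ hcan ((unnat N \ Y) \ Z) (thZ Z π (thX Y τ (fun x => θ (topOf x) x))) z ∧
      i + e0 < lev z)
    (hlev : ∀ z ∈ bdR ((unnat N \ Y) \ Z), h' z ≤ lev z - i)
    (hbig : ∀ g : P → ℕ, (∀ x, x ∉ (unnat N \ Y) \ Z → g x = 0) →
      (∀ z ∈ bdR ((unnat N \ Y) \ Z), g z < h' z) → ∀ (x z : P), x ∉ (unnat N \ Y) \ Z →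
      z ∈ (unnat N \ Y) \ Z → z ⋖ x →
      thPen N θ Y Z τ π x < g z → ∀ m,
      m + ∑ x ∈ (unnat N \ Y) \ Z, g x ≤ n0 → (1 + X : ℤ[X]) ^ (b (topOf x)) ∣
      ZB (P := {y : P // y ∉ (unnat N \ Y) \ Z ∧ topOf y = topOf x}) i ∅ 0
        (fun y => by classical exact (((unnat N \ Y) \ Z).filter (fun z => z ⋖ (y : P))).sup g) m) :
    FarV P i ((unnat N \ Y) \ Z) (∑ t, b t) h' S n0 := by
  classical
  have HN := natSys_of_tops H
  have hR := F.lower T HN
  have hcp := F.cp T HN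
  set Rp : Finset P := (unnat N \ Y) \ Z with hRp
  refine FV.raise hle hlev ?_
  rintro g g0 hg ⟨z0, hz0, hgz0⟩
  obtain ⟨hk, he, hl0⟩ := hk0 z0 hz0 (lt_of_le_of_lt hgz0 (hg z0 hz0))
  have hz0R := (mem_filter.mp hz0).1
  have hsum : hcan Rp (thZ Z π (thX Y τ (fun x => θ (topOf x) x))) z0 ≤ ∑ x ∈ Rp, g x :=
    hgz0.trans (Finset.single_le_sum (f := g) (fun _ _ => Nat.zero_le _) hz0R)
  obtain ⟨x0, hx0R, hzx0, hx0⟩ := hcan_spec (θ := thZ Z π (thX Y τ (fun x => θ (topOf x) x))) hz0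
  have hx0' : thPen N θ Y Z τ π x0 < g z0 := by
    rw [thPen_of hx0R]
    omega
  have hsum2 : ∑ x ∈ Rp, g x = ∑ x, g x :=
    Finset.sum_subset (subset_univ Rp) fun x _ hx => g0 x hx
  refine dvd_ZB_shift_at 0 hR FV.hlev g0 _ n0 (fun m hm => ?_)
  refine F4.zb_prod hR FV.hlev topOf hcp b (bg Rp g 0) (fun M hM => ?_)
  have hbg : ∀ y, bg Rp g 0 y = (Rp.filter (fun z => z ⋖ y)).sup g := by
    intro y
    unfold bg
    exact max_eq_right (Nat.zero_le _)
  by_cases hM0 : M (topOf x0) < e0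
  · left
    refine ⟨topOf x0, ?_⟩
    refine ZB_zero_of_cost (P := {x : P // x ∉ Rp ∧ topOf x = topOf x0})
      (fun y => if y = ⟨x0, hx0R, rfl⟩ then e0 else 0) ?_ ?_
    · intro y
      by_cases hy : y = ⟨x0, hx0R, rfl⟩
      · right
        refine ⟨y, le_rfl, Finset.notMem_empty _, ?_⟩
        rw [if_pos hy, hy]
        have h1 : g z0 ≤ bg Rp g 0 x0 := le_bg' 0 hz0R hzx0
        have h2 := hgr.lev_covBy hzx0
        have h3 : lev (⟨x0, hx0R, rfl⟩ : {x : P // x ∉ Rp ∧ topOf x = topOf x0}) = lev x0 :=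
          lev_subtype (p := fun x => x ∉ Rp ∧ topOf x = topOf x0) (pg_part_up hR hcp) _
        rw [h3]
        simp only
        omega
      · left
        rw [if_neg hy]
    · rw [Finset.sum_ite_eq' univ, if_pos (mem_univ _)]
      exact hM0
  · right
    intro t
    have hMt : M t ≤ m := by
      rw [← hM]
      exact Finset.single_le_sum (f := M) (fun _ _ => Nat.zero_le _) (mem_univ t)
    by_cases hall : ∀ x, x ∉ Rp → topOf x = t → bg Rp g 0 x ≤ thPen N θ Y Z τ π x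
    · have ht : t ≠ topOf x0 := by
        intro h
        have h1 := hall x0 hx0R h.symm
        have h2 : g z0 ≤ bg Rp g 0 x0 := le_bg' 0 hz0R hzx0
        omega
      have h3 : M t + M (topOf x0) ≤ m := by
        rw [← hM, ← Finset.sum_pair (f := M) ht]
        exact Finset.sum_le_sum_of_subset (Finset.subset_univ _)
      exact F.factorE T hgr H htw htz (F.goodR T H) t (bg Rp g 0) hall (by omega)
    · push Not at hall
      obtain ⟨x, hx, hxt, hlt⟩ := hall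
      rw [hbg, Finset.lt_sup_iff] at hlt
      obtain ⟨z, hz, hlt⟩ := hlt
      rw [mem_filter] at hz
      subst hxt
      have h4 := hbig g g0 hg x z hx hz.1 hz.2 hlt (M (topOf x)) (by omega)
      have h5 : (fun y : {y : P // y ∉ Rp ∧ topOf y = topOf x} => bg Rp g 0 (y : P)) =
          (fun y : {y : P // y ∉ Rp ∧ topOf y = topOf x} =>
            (Rp.filter (fun z => z ⋖ (y : P))).sup g) := by
        funext y
        exact hbg y
      rw [h5]
      exact h4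

end Sys

end Pool.Agent.GaussPoset
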