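import Pool.Agent.W_448f4_h70.JJ

/-!
Special cells and their twins in systems with twins of the cells `(m, m + 1)` (MP_448cb3_co, S7).
-/

namespace Pool.Agent.GaussPoset

set_option linter.unusedSectionVars false

open Polynomial Finset

universe u

variable {P : Type u} [Fintype P] [PartialOrder P] [DecidableEq P]

section Sys

variable {i : ℕ} {N : Tops P → Finset P} {b : Tops P → ℕ} {θ : Tops P → P → ℕ}
  {B : Tops P → P → Prop} {Y Yf Z : Finset P} {τ π : P → P}

open Classical in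
/-- **One full bound at a special cell**: order `∑ b` for energies at most `2` above the least -/
theorem FoldSys.spec_one (F : FoldSys i N b B Y Yf Z τ π) (T0 : TwSys (unnat N) Y topOf τ)
    (hgr : GradedBelow P) (H : ∀ t, NatTop i t (b t) (N t) (θ t) (B t))
    (htw : ∀ x ∈ Y, TwinPair i (thPen N θ Y Z τ π) 3 (τ x) x)
    (htz : ∀ z1 ∈ Z, ∀ z2 ∈ Z, z1 ≠ z2 → π z1 = π z2 → TwinPair i (thPen N θ Y Z τ π) 3 z1 z2)
    {E : Finset P}
    (hE : Good i ((unnat N \ Y) \ Z) (fun x => x ∉ unnat N ∧ B (topOf x) x) E) {h q : ℕ} {y : P} (hy : y ∉ E)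
    {co : P → ℕ × ℕ} (C : F4.ConeAt y co q) (hih : i + h = q + 1) (hq : 6 ≤ q) (hh : 3 ≤ h)
    (hlow : ∀ z, z ∉ E → topOf z = topOf y → lev z ≤ i + 2 → y ≤ z) (hb : b (topOf y) = 2)
    {β : P → ℕ} (hβy : β y = h) (hβ : ∀ w, w ∉ E → β w ≤ h)
    (hβ0 : ∀ w, w ∉ E → topOf w ≠ topOf y → β w = 0)
    {m : ℕ} (hm : m ≤ F4.Efs i h y y + 2) :
    (1 + X : ℤ[X]) ^ (∑ k, b k) ∣ ZB i E 0 β m := by
  have hElow := hE.1
  have hElev := hE.2.2.1
  have hcpE : ∀ x y, x ≤ y → x ∉ E → topOf x = topOf y := fun x y hxy hx =>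
    F.cp T0 (natSys_of_tops H) x y hxy (fun h' => hx (hE.2.1 h'))
  have hp : ∀ x' z : P, x' ≤ z → (x' ∉ E ∧ topOf x' = topOf y) → (z ∉ E ∧ topOf z = topOf y) :=
    pg_part_up hElow hcpE
  refine F4.zb_prod hElow hElev topOf hcpE b β fun M hM => ?_
  by_cases hMy : M (topOf y) < F4.Efs i h y y
  · left
    refine ⟨topOf y, ?_⟩
    exact F4.part_zero hp (i := i) (k := h) (f := y) (s := y) ⟨hy, rfl⟩ ⟨hy, rfl⟩
      (by simp only [hβy]; exact le_rfl) (by simp only [hβy]; exact le_rfl) hMy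
  · right
    intro k
    by_cases hk : k = topOf y
    · subst hk
      rw [hb]
      have h1 : M (topOf y) ≤ m := by
        rw [← hM]
        exact Finset.single_le_sum (fun _ _ => Nat.zero_le _) (mem_univ _)
      exact F4.part_cone hp (x := y) ⟨hy, rfl⟩ C hih hq hh (fun z hz hlz => hlow z hz.1 hz.2 hlz)
        (fun z => hβ z z.2.1) (by simp only [hβy]) (h1.trans hm)
    · have h1 : M (topOf y) + M k ≤ m := by
        rw [← hM, ← Finset.sum_pair (f := M) (Ne.symm hk)]
        exact Finset.sum_le_sum_of_subset (Finset.subset_univ _)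
      refine F.factorE T0 hgr H htw htz hE k β (fun x hx hxk => ?_) (by omega)
      rw [hβ0 x hx (by rw [hxk]; exact hk)]
      exact Nat.zero_le _

open Classical in
/-- **The twins of a special cell**: the sums with the thresholds are the sums with the thresholds
one larger, for energies at most the cost of the latter. -/
theorem FoldSys.spec_twin (F : FoldSys i N b B Y Yf Z τ π) (T0 : TwSys (unnat N) Y topOf τ)
    (hgr : GradedBelow P) (H : ∀ t, NatTop i t (b t) (N t) (θ t) (B t))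
    (htw : ∀ x ∈ Y, TwinPair i (thPen N θ Y Z τ π) 3 (τ x) x)
    (htz : ∀ z1 ∈ Z, ∀ z2 ∈ Z, z1 ≠ z2 → π z1 = π z2 → TwinPair i (thPen N θ Y Z τ π) 3 z1 z2)
    {D : Finset P}
    (hD : Good i ((unnat N \ Y) \ Z) (fun x => x ∉ unnat N ∧ B (topOf x) x) D)
    {x x' : P} (T : Twn i (thPen N θ Y Z τ π) (x, x')) (hx : x ∉ D)
    (hx' : x' ∉ D) (hm' : ∀ y < x', y ∈ D) (hcx : topOf x' = topOf x)
    {h q : ℕ} (hθ : thPen N θ Y Z τ π x + 1 = h) (hlx : lev x = i + h + 1) (hih : i + h = q + 1) (hq : 6 ≤ q)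
    (hh : 3 ≤ h)
    {co co' : P → ℕ × ℕ} (C : F4.ConeAt x co q) (C' : F4.ConeAt x' co' q)
    (hlow : ∀ z, z ∉ D → topOf z = topOf x → lev z ≤ i + 2 → x < z)
    (hb : b (topOf x) = 2)
    {n : ℕ} (hn : n ≤ F4.Efs i h x x + h + 1) :
    (1 + X : ℤ[X]) ^ (∑ k, b k) ∣
      ZB i D 0 (st2 x x' (thPen N θ Y Z τ π x) (thPen N θ Y Z τ π x + 1)) n -
      ZB i D 0 (st2 x x' h (h + 1)) n := by
  obtain ⟨f1, f2, f3, f4⟩ := F.fam T0 hgr H
  have hup : ∀ y, x < y ↔ x' < y := T.up
  have hll : lev x = lev x' := lev_eq_of_up hup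
  have hne : x ≠ x' := T.ne
  have hθx : 1 ≤ thPen N θ Y Z τ π x := T.one_le
  have hθ' : thPen N θ Y Z τ π x' = thPen N θ Y Z τ π x := T.eq
  have hgood : ∀ E : Finset P, E = D ∪ dnf x ∨ E = D ∪ dnf x' →
      Good i ((unnat N \ Y) \ Z) (fun x => x ∉ unnat N ∧ B (topOf x) x) E := by
    rintro E (rfl | rfl)
    · exact f3 D hD x hx hθx
    · exact f3 D hD x' hx' (by omega)
  have hEeq : F4.Efs i h x x = F4.Efs i h x' x' := by
    unfold F4.Efs
    have e1 : univ.filter (fun y : P => x ≤ y ∨ x ≤ y) =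
        insert x (univ.filter (fun y : P => x < y)) := by
      ext y
      rw [mem_filter, mem_insert, mem_filter, or_self]
      constructor
      · rintro ⟨-, h⟩
        rcases eq_or_lt_of_le h with h | h
        · exact Or.inl h.symm
        · exact Or.inr ⟨mem_univ _, h⟩
      · rintro (h | ⟨-, h⟩)
        · exact ⟨mem_univ _, h.ge⟩
        · exact ⟨mem_univ _, h.le⟩
    have e2 : univ.filter (fun y : P => x' ≤ y ∨ x' ≤ y) =
        insert x' (univ.filter (fun y : P => x < y)) := by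
      ext y
      rw [mem_filter, mem_insert, mem_filter, or_self, hup]
      constructor
      · rintro ⟨-, h⟩
        rcases eq_or_lt_of_le h with h | h
        · exact Or.inl h.symm
        · exact Or.inr ⟨mem_univ _, h⟩
      · rintro (h | ⟨-, h⟩)
        · exact ⟨mem_univ _, h.ge⟩
        · exact ⟨mem_univ _, h.le⟩
    rw [e1, e2, Finset.sum_insert (by simp), Finset.sum_insert (by simp [hup]), hll]
  have key := F4.T_stepG (p := (1 + X : ℤ[X]) ^ (∑ k, b k)) (i := i) (D := D) (n := n)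
    (k := thPen N θ Y Z τ π x)
    hne hup (by omega) hx hx' hm' (fun E hE => (hgood E hE).1)
    (fun E hE => (hgood E hE).2.2.1) (fun w => topOf w = topOf x) (fun d hd hdD w hdw => by
      have hcp := F.cp T0 (natSys_of_tops H)
      have hdR : d ∉ (unnat N \ Y) \ Z := fun h' => hdD (hD.2.1 h')
      have e1 : topOf d = topOf x := by
        rcases hd with hd | hd
        · exact hcp d x hd hdR
        · exact (hcp d x' hd hdR).trans hcx
      exact (hcp d w hdw hdR).symm.trans e1) hθx ?_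
  · rw [hθ] at key
    rw [show thPen N θ Y Z τ π x + 2 = h + 1 by omega] at key
    rw [hθ]
    exact key
  · intro E hE y hy hyE β hβy hβ hβ0 m hmk
    rw [hθ] at hβy hβ
    have hDE : D ⊆ E := by
      rcases hE with rfl | rfl <;> exact subset_union_left
    have hEG := hgood E hE
    rcases hy with rfl | rfl
    · exact F.spec_one T0 hgr H htw htz hEG hyE C hih hq hh
        (fun z hz hcz hlz => (hlow z (fun h' => hz (hDE h')) hcz hlz).le) hb hβy hβ hβ0 (by omega)
    · exact F.spec_one T0 hgr H htw htz hEG hyE C' hih hq hh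
        (fun z hz hcz hlz => ((hup z).mp (hlow z (fun h' => hz (hDE h')) (hcz.trans hcx) hlz)).le)
        (by rw [hcx]; exact hb) hβy hβ
        (fun w hw hcw => hβ0 w hw (fun h' => hcw (h'.trans hcx.symm))) (by omega)

end Sys

end Pool.Agent.GaussPoset
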