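import Pool.Agent.W_448f4_h70.JK

/-!
The windows 2 and 3 of S7: the twins of the cells `(m, m + 1)` of the stairs and the elements which
hang below them (MP_448cb3_co)
-/

namespace Pool.Agent.GaussPoset.Sm

set_option linter.unusedSectionVars false

open Polynomial Finset

universe u

variable {P : Type u} [Fintype P] [PartialOrder P] [DecidableEq P] {r j w : ℕ}
  {N : Tops P → Finset P} {b : Tops P → ℕ} {θ : Tops P → P → ℕ} {B : Tops P → P → Prop}

/-- twins of the cell `(j / 2, j / 2 + 1)` of a stair, seen from above -/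
def Fc (j : ℕ) (x : P) : Prop := lev x = j + 1 ∧ nab (j - 1) x = 2 ∧ nab (j - 2) x = 3

/-- a type with its base elements -/
inductive TypB (j i : ℕ) (t : Tops P) (b : ℕ) (N : Finset P) (θ : P → ℕ) (B : P → Prop) : Prop
  | light (h2 : θ = fun x => lev x - i) (hB : ∀ y, ¬ B y)
  | rect (Nc : Finset P) (co : P → ℕ × ℕ) (h0 : RectNat j i t b Nc co) (h1 : N = natR Nc co)
      (h2 : θ = thR i b Nc co) (hB : ∀ y, B y → (y ∈ Nc ∧ co y = (b - 1, i)))
  | stair (Nc : Finset P) (co : P → ℕ × ℕ) (h0 : StairNat j i t Nc co) (h1 : N = natS Nc co)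
      (h2 : θ = thS i Nc co) (h3 : b = i / 2 + 1) (h5 : 2 ≤ i)
      (hB : ∀ y, B y ↔ (y ∈ Nc ∧ co y = (2 * (i / 2), i)))
  | low (hN : ∀ y ∈ N, lev y ≤ j)

lemma TypB.of_top {i : ℕ} {t : Tops P} {c : ℕ} {M : Finset P} {ϑ : P → ℕ}
    (T : TopType j i t c M ϑ) (hgr : GradedBelow P) :
    ∃ B, TypB j i t c M ϑ B ∧ NatTop i t c M ϑ B := by
  rcases T with ⟨h1, h2, h3, h4, h5, h6⟩ | ⟨Nc, co, h0, h1, h2, h4⟩ |
    ⟨Nc, co, h0, h1, h2, h3, h4, h5⟩
  · refine ⟨fun _ => False, TypB.light h2 (fun _ h => h), ?_⟩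
    rw [h1, h2, h3]
    exact natTop_light hgr (fun x hx hxi => h5 x hx (hxi.trans h4)) h6
  · refine ⟨_, TypB.rect Nc co h0 h1 h2 (fun _ h => h), ?_⟩
    rw [h1, h2]
    exact h0.natTop hgr h4
  · refine ⟨_, TypB.stair Nc co h0 h1 h2 h3 h5 (fun _ => Iff.rfl), ?_⟩
    rw [h1, h2, h3]
    exact h0.natTop hgr h5 h4

lemma TypB.of_typeX {i : ℕ} {t : Tops P} {c : ℕ} {M : Finset P} {ϑ : P → ℕ}
    (T : TypeX j i t c M ϑ) (hgr : GradedBelow P) (hij : i ≤ j)
    (hex : ∃ x ≤ (t : P), lev x = i) :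
    ∃ B, TypB j i t c M ϑ B ∧ NatTop i t c M ϑ B := by
  rcases T with ⟨h1, h2, h3, h5⟩ | ⟨Nc, co, h0, h1, h2, h4⟩ | ⟨Nc, co, h0, h1, h2, h3, h4, h5'⟩
  · refine ⟨fun _ => False, TypB.light h2 (fun _ h => h), ?_⟩
    rw [h1, h2, h3]
    exact natTop_light hgr (fun x hx hxi => h5 x hx (hxi.trans hij)) hex
  · refine ⟨_, TypB.rect Nc co h0 h1 h2 (fun _ h => h), ?_⟩
    rw [h1, h2]
    exact h0.natTop hgr hij
  · refine ⟨_, TypB.stair Nc co h0 h1 h2 h3 h4 (fun _ => Iff.rfl), ?_⟩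
    rw [h1, h2, h3]
    exact h0.natTop hgr h4 hij

/-- the data of a window -/
structure FdX (r j w : ℕ) (N : Tops P → Finset P) (b : Tops P → ℕ) (θ : Tops P → P → ℕ)
    (B : Tops P → P → Prop) : Prop where
  H : Gr P r
  h7 : 7 ≤ j
  hj : w + 5 ≤ j
  hw1 : 1 ≤ w
  hw : w ≤ 3
  typ : ∀ t, TypB j w t (b t) (N t) (θ t) (B t)
  nt : ∀ t, NatTop w t (b t) (N t) (θ t) (B t)
  tws : TwSys (unnat N) (twA N) topOf (twT N)
  low : ∀ x, lev x ≤ j → x ∉ unnat N
  twn : ∀ x ∈ twA N, Twn w (thA N θ) (twT N x, x)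
  le_th : ∀ y, y ∉ unnat N → j ≤ lev y → lev y ≤ θ (topOf y) y + w + 3
  sum_b : ∑ t, b t = (lv P w).card

namespace FdX

lemma natSys (W : FdX r j w N b θ B) : NatSys N := natSys_of_tops W.nt

lemma lt_lev (W : FdX r j w N b θ B) {x : P} (hx : x ∈ unnat N) : j < lev x := by
  by_contra hcon
  exact W.low x (not_lt.mp hcon) hx

lemma up (W : FdX r j w N b θ B) {x y : P} (hx : x ∉ unnat N) (hxy : x ≤ y) :
    y ∉ unnat N ∧ topOf y = topOf x := by
  have HN := W.natSys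
  exact ⟨fun h => hx (HN.lower x y hxy h), (HN.cp x y hxy hx).symm⟩

lemma not_tw (_W : FdX r j w N b θ B) {x : P} (hx : x ∉ unnat N) : x ∉ twA N :=
  fun h => hx (mem_twA.mp h).1

lemma thA_nat (W : FdX r j w N b θ B) {x : P} (hx : x ∉ unnat N) :
    thA N θ x = θ (topOf x) x := thX_not (W.not_tw hx)

lemma thA_tw (_W : FdX r j w N b θ B) {x : P} (hx : x ∈ twA N) :
    thA N θ x = θ (topOf (twT N x)) (twT N x) := thX_of hx

/-- base elements have small level -/
lemma bl (W : FdX r j w N b θ B) {y : P} (hy : y ∉ unnat N) (hB : B (topOf y) y) : lev y ≤ j := by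
  have hj := W.hj
  have hw := W.hw
  rcases W.typ (topOf y) with ⟨h2, h⟩ | ⟨Nc, co, h0, h1, h2, h⟩ | ⟨Nc, co, h0, h1, h2, h3, h4, h⟩ |
    h
  · exact absurd hB (h y)
  · obtain ⟨e1, e2⟩ := h y hB
    have e3 := h0.chart.lev y e1
    have e4 := h0.b_le
    rw [e2] at e3
    simp only at e3
    omega
  · obtain ⟨e1, e2⟩ := (h y).mp hB
    have e3 := h0.chart.lev y e1
    rw [e2] at e3
    simp only at e3
    omega
  · exact h y (W.natSys.mem_iff.mpr ⟨hy, rfl⟩)

/-- the cell of a twin seen in the chart of a stair -/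
lemma cell (W : FdX r j w N b θ B) {x : P} (hx : x ∈ twA N) (hF : Fc j x) {Nc : Finset P}
    {co : P → ℕ × ℕ} (h0 : StairNat j w (topOf x) Nc co) (h1 : N (topOf x) = natS Nc co)
    (h2 : θ (topOf x) = thS w Nc co) :
    twT N x ∈ Nc ∧ twT N x ∉ junk (fun c => c.1 ≤ c.2) Nc co ∧
      co (twT N x) = (j / 2, j / 2 + 1) ∧ j % 2 = 0 := by
  have T := W.twn x hx
  have h7 := W.h7
  have hj := W.hj
  have hw := W.hw
  have hup : ∀ y, twT N x < y ↔ x < y := T.up
  have hll : lev (twT N x) = lev x := lev_eq_of_up hup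
  have hnat := W.tws.nat x hx
  have hcp : topOf (twT N x) = topOf x := W.tws.cp x hx
  have e1 : thA N θ (twT N x) = θ (topOf x) (twT N x) := by rw [W.thA_nat hnat, hcp]
  have e2 : thA N θ (twT N x) + 1 ≤ lev (twT N x) - w := T.lt
  obtain ⟨f1, f2, f3⟩ := hF
  have hm : twT N x ∈ natS Nc co := by
    rw [← h1, ← hcp]
    exact W.natSys.mem_iff.mpr ⟨hnat, rfl⟩
  have hJ : twT N x ∉ junk (fun c => c.1 ≤ c.2) Nc co := by
    intro h
    rw [e1, h2] at e2
    unfold thS at e2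
    rw [if_pos h] at e2
    omega
  have hN : twT N x ∈ Nc := (mem_natS.mp hm).resolve_right hJ
  have g1 : nab (j - 1) (twT N x) = nab (j - 1) x := nab_congr_up hup (by omega)
  have g2 : nab (j - 2) (twT N x) = nab (j - 2) x := nab_congr_up hup (by omega)
  have g3 := stair_nab h0.chart hN (k := j - 1) (by omega)
  have g4 := stair_nab h0.chart hN (k := j - 2) (by omega)
  have g5 := h0.chart.lev _ hN
  have g6 : (co (twT N x)).1 ≤ (co (twT N x)).2 := h0.chart.mem _ hN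
  refine ⟨hN, hJ, Prod.ext ?_ ?_, ?_⟩
  · show (co (twT N x)).1 = j / 2
    omega
  · show (co (twT N x)).2 = j / 2 + 1
    omega
  · omega

/-- the top of a twin of a cell `(m, m + 1)` -/
lemma stair (W : FdX r j w N b θ B) {x : P} (hx : x ∈ twA N) (hF : Fc j x) :
    ∃ Nc co, StairNat j w (topOf x) Nc co ∧ N (topOf x) = natS Nc co ∧
      θ (topOf x) = thS w Nc co ∧ b (topOf x) = w / 2 + 1 ∧ 2 ≤ w ∧
      ∀ y, B (topOf x) y ↔ (y ∈ Nc ∧ co y = (2 * (w / 2), w)) := by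
  have T := W.twn x hx
  have h7 := W.h7
  have hj := W.hj
  have hw := W.hw
  have hup : ∀ y, twT N x < y ↔ x < y := T.up
  have hll : lev (twT N x) = lev x := lev_eq_of_up hup
  have hnat := W.tws.nat x hx
  have hcp : topOf (twT N x) = topOf x := W.tws.cp x hx
  have e1 : thA N θ (twT N x) = θ (topOf x) (twT N x) := by rw [W.thA_nat hnat, hcp]
  have e2 : thA N θ (twT N x) + 1 ≤ lev (twT N x) - w := T.lt
  have hlx := W.lt_lev (W.tws.sub hx)
  have hm : twT N x ∈ N (topOf x) := by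
    rw [← hcp]
    exact W.natSys.mem_iff.mpr ⟨hnat, rfl⟩
  rcases W.typ (topOf x) with ⟨h2, h⟩ | ⟨Nc, co, h0, h1, h2, h⟩ | ⟨Nc, co, h0, h1, h2, h3, h4, h⟩ |
    h
  · exfalso
    rw [e1, h2] at e2
    simp only at e2
    omega
  · exfalso
    have hJ : ¬ (twT N x ∈ junk (fun _ => True) Nc co ∨
        twT N x ∈ junk (fun _ => True) Nc (swp co)) := by
      intro h'
      rw [e1, h2] at e2
      unfold thR at e2
      rw [if_pos h'] at e2
      omega
    have hN : twT N x ∈ Nc := by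
      rw [h1, mem_natR] at hm
      rcases hm with h' | h' | h'
      · exact h'
      · exact absurd (Or.inl h') hJ
      · exact absurd (Or.inr h') hJ
    obtain ⟨f1, f2, f3⟩ := hF
    have g1 : nab (j - 1) (twT N x) = nab (j - 1) x := nab_congr_up hup (by omega)
    have g2 : nab (j - 2) (twT N x) = nab (j - 2) x := nab_congr_up hup (by omega)
    have g3 := rect_nab h0.chart hN (k := j - 1) (by omega)
    have g4 := rect_nab h0.chart hN (k := j - 2) (by omega)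
    have g5 := h0.chart.lev _ hN
    omega
  · exact ⟨Nc, co, h0, h1, h2, h3, h4, h⟩
  · exfalso
    have := h _ hm
    omega

/-- the threshold of a twin of a cell `(m, m + 1)` -/
lemma th_fold (W : FdX r j w N b θ B) {x : P} (hx : x ∈ twA N) (hF : Fc j x) :
    thA N θ x = j - w - 1 ∧ 2 ≤ w := by
  obtain ⟨Nc, co, h0, h1, h2, h3, h4, h5⟩ := W.stair hx hF
  obtain ⟨c1, c2, c3, c4⟩ := W.cell hx hF h0 h1 h2
  have h7 := W.h7
  have hj := W.hj
  have hll : lev (twT N x) = lev x := lev_eq_of_up (W.tws.up x hx)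
  have hl := hF.1
  have e1 := stair_th7 h0 W.hw h4 c1 c2 (by omega)
  have hcp : topOf (twT N x) = topOf x := W.tws.cp x hx
  rw [W.thA_tw hx, hcp, h2]
  rw [c3] at e1
  simp only at e1
  omega

open Classical in
/-- the twins of the cells `(m, m + 1)` -/
noncomputable def _root_.Pool.Agent.GaussPoset.Sm.yfA (j : ℕ) (N : Tops P → Finset P) : Finset P :=
  (twA N).filter (Fc j)

open Classical in
/-- the elements which hang below these twins -/
noncomputable def _root_.Pool.Agent.GaussPoset.Sm.zfA (j : ℕ) (N : Tops P → Finset P) : Finset P :=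
  (rA N).filter (fun z => ∃ x ∈ twA N, Fc j x ∧ ∀ y, z < y ↔ x ≤ y)

open Classical in
/-- the twin above a pendant -/
noncomputable def _root_.Pool.Agent.GaussPoset.Sm.piA (j : ℕ) (N : Tops P → Finset P) (z : P) : P :=
  if h : ∃ x ∈ twA N, Fc j x ∧ ∀ y, z < y ↔ x ≤ y then h.choose else z

lemma _root_.Pool.Agent.GaussPoset.Sm.mem_yfA {x : P} : x ∈ yfA j N ↔ x ∈ twA N ∧ Fc j x := by
  classical
  unfold yfA
  rw [mem_filter]

lemma _root_.Pool.Agent.GaussPoset.Sm.mem_zfA {z : P} : z ∈ zfA j N ↔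
    z ∈ rA N ∧ ∃ x ∈ twA N, Fc j x ∧ ∀ y, z < y ↔ x ≤ y := by
  classical
  unfold zfA
  rw [mem_filter]

lemma _root_.Pool.Agent.GaussPoset.Sm.piA_spec {z : P} (h : z ∈ zfA j N) :
    piA j N z ∈ twA N ∧ Fc j (piA j N z) ∧ ∀ y, z < y ↔ piA j N z ≤ y := by
  have h1 := (mem_zfA.mp h).2
  unfold piA
  rw [dif_pos h1]
  exact h1.choose_spec

/-- **the system of the twins of the cells `(m, m + 1)`** -/
theorem sys (W : FdX r j w N b θ B) :
    FoldSys w N b B (twA N) (yfA j N) (zfA j N) (twT N) (piA j N) where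
  sub := fun x hx => (mem_yfA.mp hx).1
  fold := by
    intro x hx
    obtain ⟨hx, hF⟩ := mem_yfA.mp hx
    obtain ⟨Nc, co, h0, h1, h2, h3, h4, h5⟩ := W.stair hx hF
    obtain ⟨c1, c2, c3, c4⟩ := W.cell hx hF h0 h1 h2
    have hj := W.hj
    have hw := W.hw
    refine ⟨Nc, co, j / 2, ⟨h0.chart, h4, by omega, h0.cell,
      low_of_strip h0.strip (by omega), c1, c3, ?_, W.tws.up x hx⟩, h1, h3, h5⟩
    rw [← h1]
    exact mem_unnat.mp (W.tws.sub hx) _
  uniq := by
    intro x hx y hy hxy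
    obtain ⟨hx, hF⟩ := mem_yfA.mp hx
    obtain ⟨hy, hG⟩ := mem_yfA.mp hy
    obtain ⟨Nc, co, h0, h1, h2, h3, h4, h5⟩ := W.stair hx hF
    obtain ⟨c1, c2, c3, c4⟩ := W.cell hx hF h0 h1 h2
    rw [hxy] at h0 h1 h2
    obtain ⟨d1, d2, d3, d4⟩ := W.cell hy hG h0 h1 h2
    exact W.tws.inj x hx y hy (h0.chart.inj _ c1 _ d1 (c3.trans d3.symm))
  penU := fun z hz => (mem_rA.mp (mem_zfA.mp hz).1).1
  penY := fun z hz => (mem_rA.mp (mem_zfA.mp hz).1).2
  penF := fun z hz => mem_yfA.mpr ⟨(piA_spec hz).1, (piA_spec hz).2.1⟩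
  pen := fun z hz => (piA_spec hz).2.2

lemma lev_pen (W : FdX r j w N b θ B) {z : P} (hz : z ∈ zfA j N) : lev z = j + 2 ∧ z ⋖ piA j N z := by
  obtain ⟨h1, h2, h3⟩ := piA_spec hz
  have h4 : z < piA j N z := (h3 _).mpr le_rfl
  have h5 : z ⋖ piA j N z := ⟨h4, fun y h6 h7 => absurd ((h3 y).mp h6) (not_le_of_gt h7)⟩
  have h6 := (W.H.covBy_iff.mp h5).2
  have h7 := h2.1
  exact ⟨by omega, h5⟩

/-- thresholds of the natural elements and twins -/
lemma thPen_eq (_W : FdX r j w N b θ B) {x : P} (hx : x ∉ rA N) :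
    thPen N θ (twA N) (zfA j N) (twT N) (piA j N) x = thA N θ x := by
  rw [thPen_of (fun h => hx (mem_sdiff.mp h).1), thZ_not (fun h => hx (mem_zfA.mp h).1)]

/-- thresholds of the pendants -/
lemma thPen_pen (W : FdX r j w N b θ B) {z : P} (hz : z ∈ zfA j N) :
    thPen N θ (twA N) (zfA j N) (twT N) (piA j N) z = j - w := by
  obtain ⟨h1, h2, h3⟩ := piA_spec hz
  have h4 := (W.th_fold h1 h2).1
  have hj := W.hj
  rw [thPen_of (fun h => (mem_sdiff.mp h).2 hz)]
  unfold thZ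
  rw [if_pos hz]
  have h5 : thX (twA N) (twT N) (fun x => θ (topOf x) x) (piA j N z) = j - w - 1 := h4
  omega

/-- **the position of the twins of the cells `(m, m + 1)`** -/
theorem pos (W : FdX r j w N b θ B) {x : P} (hx : x ∈ yfA j N) :
    FoldPos w N θ B (twA N) (zfA j N) (twT N) (piA j N) (j - w - 1) x := by
  obtain ⟨hx, hF⟩ := mem_yfA.mp hx
  obtain ⟨e1, e2⟩ := W.th_fold hx hF
  have hj := W.hj
  have hl := hF.1
  refine ⟨e1, by omega, by omega, ?_, ?_, ?_, ?_⟩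
  · intro y hy
    have := W.lt_lev (W.tws.sub hy)
    omega
  · intro c hc y hy
    by_contra hcon
    push Not at hcon
    have h1 : twT N x ⋖ c := (cov_of_up (W.tws.up x hx)).mpr hc
    have h2 : twT N x ≠ x := fun h => W.tws.nat x hx (by rw [h]; exact W.tws.sub hx)
    exact Win.dc_three W.H hy h1 hc hcon.1 hcon.2 h2
  · intro y hy hB
    have := W.bl hy hB
    omega
  · intro y hy
    have h1 := W.low y (by omega)
    rw [W.thPen_eq (fun h => h1 (mem_rA.mp h).1), W.thA_nat h1]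
    have := W.le_th y h1 (by omega)
    omega

end FdX

end Pool.Agent.GaussPoset.Sm
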