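import Pool.Agent.W_448f4_h70.JL
import Pool.Agent.W_448f4_h70.GK

/-!
The windows 2 and 3 of S7: far data without the twins of the cells `(m, m + 1)` of the stairs and
their pendants (MP_448cb3_co)
-/

namespace Pool.Agent.GaussPoset.Sm

set_option linter.unusedSectionVars false

open Polynomial Finset

universe u

variable {P : Type u} [Fintype P] [PartialOrder P] [DecidableEq P] {r j w : ℕ}
  {N : Tops P → Finset P} {b : Tops P → ℕ} {θ : Tops P → P → ℕ} {B : Tops P → P → Prop}

namespace FdX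

lemma not_rA_tw (W : FdX r j w N b θ B) {x : P} (hx : x ∈ twA N) : twT N x ∉ rA N :=
  fun h => W.tws.nat x hx (mem_rA.mp h).1

lemma th_le (W : FdX r j w N b θ B) {y : P} (hy : y ∉ unnat N) :
    θ (topOf y) y ≤ lev y - w := by
  have h1 := (W.sys.fam W.tws W.H.gradedBelow W.nt).2.1 y
  rw [W.thPen_eq (fun h => hy (mem_rA.mp h).1), W.thA_nat hy] at h1
  exact h1

/-- the twins of the system -/
lemma twnP (W : FdX r j w N b θ B) {x : P} (hx : x ∈ twA N) :
    Twn w (thPen N θ (twA N) (zfA j N) (twT N) (piA j N)) (twT N x, x) := by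
  have T := W.twn x hx
  have e1 := W.thPen_eq (W.not_rA_tw hx)
  have e2 := W.thPen_eq (x := x) (fun h => (mem_rA.mp h).2 hx)
  have e3 : ∀ y, twT N x < y →
      thPen N θ (twA N) (zfA j N) (twT N) (piA j N) y = thA N θ y := fun y hy =>
    W.thPen_eq (fun h => (W.up (W.tws.nat x hx) hy.le).1 (mem_rA.mp h).1)
  refine ⟨T.ne, T.up, ?_, ?_, ?_, ?_⟩
  · simp only
    rw [e1]; exact T.one_le
  · simp only
    rw [e1, e2]; exact T.eq
  · simp only
    rw [e1]; exact T.lt
  · intro y hy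
    simp only at hy ⊢
    rw [e1, e3 y hy]
    exact T.mono y hy

lemma tcstP (W : FdX r j w N b θ B) {x : P} (hx : x ∈ twA N) :
    tcst w (thPen N θ (twA N) (zfA j N) (twT N) (piA j N)) (twT N x, x) =
      tcst w (thA N θ) (twT N x, x) := by
  have e1 := W.thPen_eq (W.not_rA_tw hx)
  rw [tcst_eq (W.twnP hx), tcst_eq (W.twn x hx)]
  simp only
  rw [e1]

/-- the least cost of the twins of the cells `(m, m + 1)` -/
lemma cM_eq (W : FdX r j w N b θ B) {x : P} (hx : x ∈ twA N) (hF : Fc j x) :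
    cM w (j - w - 1) (twT N x) = tcst w (thA N θ) (twT N x, x) := by
  have T := W.twn x hx
  have e1 : thA N θ (twT N x) = j - w - 1 := T.eq.symm.trans (W.th_fold hx hF).1
  rw [tcst_eq T]
  simp only
  rw [e1]
  rfl

/-- pairs of pendants -/
lemma twnZ (W : FdX r j w N b θ B) {z1 z2 : P} (h1 : z1 ∈ zfA j N) (h2 : z2 ∈ zfA j N)
    (hne : z1 ≠ z2) (h : piA j N z1 = piA j N z2) :
    Twn w (thPen N θ (twA N) (zfA j N) (twT N) (piA j N)) (z1, z2) := by
  obtain ⟨a1, a2, a3⟩ := piA_spec h1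
  obtain ⟨b1, b2, b3⟩ := piA_spec h2
  have e1 := W.thPen_pen h1
  have e2 := W.thPen_pen h2
  have hj := W.hj
  have hl := (W.lev_pen h1).1
  have hx := (W.th_fold a1 a2).1
  refine ⟨hne, fun y => ?_, ?_, ?_, ?_, ?_⟩
  · simp only
    rw [a3, b3, h]
  · simp only
    rw [e1]; omega
  · simp only
    rw [e1, e2]
  · simp only
    rw [e1, hl]
    omega
  · intro y hy
    simp only at hy ⊢
    rw [e1]
    have hy' := (a3 y).mp hy
    rcases eq_or_lt_of_le hy' with h3 | h3
    · rw [← h3, W.thPen_eq (fun h => (mem_rA.mp h).2 a1)]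
      omega
    · have h4 : twT N (piA j N z1) < y := (W.tws.up _ a1 y).mpr h3
      have h5 := (W.up (W.tws.nat _ a1) h4.le).1
      rw [W.thPen_eq (fun h => h5 (mem_rA.mp h).1), W.thA_nat h5]
      have h6 := W.th_le h5
      have h7 := lev_strictAnti h3
      have h8 := a2.1
      omega

lemma pair3 (W : FdX r j w N b θ B) {x : P} (hx : x ∈ twA N) :
    TwinPair w (thPen N θ (twA N) (zfA j N) (twT N) (piA j N)) 3 (twT N x) x := by
  have h1 := W.twnP hx
  refine h1.pair ?_
  rw [tcst_eq h1]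
  have := h1.one_le
  omega

lemma pairZ3 (W : FdX r j w N b θ B) {z1 z2 : P} (h1 : z1 ∈ zfA j N) (h2 : z2 ∈ zfA j N)
    (hne : z1 ≠ z2) (h : piA j N z1 = piA j N z2) :
    TwinPair w (thPen N θ (twA N) (zfA j N) (twT N) (piA j N)) 3 z1 z2 := by
  have h1 := W.twnZ h1 h2 hne h
  refine h1.pair ?_
  rw [tcst_eq h1]
  have := h1.one_le
  omega

/-- elements below the other twins -/
lemma below (W : FdX r j w N b θ B) {x y : P} (hx : x ∈ twA N) (hF : ¬ Fc j x) (hy : y < x) :
    y ∈ (unnat N \ twA N) \ zfA j N := by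
  have HN := W.natSys
  have hU := W.tws.sub hx
  refine mem_sdiff.mpr ⟨mem_sdiff.mpr ⟨HN.lower y _ hy.le hU, fun h => ?_⟩, fun h => ?_⟩
  · exact W.tws.top_unnat HN h hy hU
  · have h1 := W.sys.above W.tws HN h hy hU
    exact hF (h1 ▸ (piA_spec h).2.1)

/-- a special pair with the larger thresholds -/
lemma twnS (W : FdX r j w N b θ B) {x : P} (hx : x ∈ twA N)
    (hs : Spc j w N b θ (twT N x)) : Twn w (fun _ => j - w) (twT N x, x) := by
  obtain ⟨Nc, co, C⟩ := hs
  have H := W.twn x hx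
  have hj := W.hj
  have hl := C.lev (by omega)
  refine ⟨H.ne, H.up, ?_, rfl, ?_, fun _ _ => Nat.le_succ _⟩
  · show 1 ≤ j - w
    omega
  · show j - w + 1 ≤ lev (twT N x) - w
    omega

open Classical in
/-- the sums with two high labels -/
theorem key_tw (W : FdX r j w N b θ B) {n0 : ℕ} {x : P} (hx : x ∈ twA N) (hF : ¬ Fc j x)
    (hcost : n0 ≤ tcS j w N b θ x) {D : Finset P}
    (hD : Good w ((unnat N \ twA N) \ zfA j N) (fun x => x ∉ unnat N ∧ B (topOf x) x) D)
    (h1 : twT N x ∉ D) (h2 : x ∉ D) {n : ℕ} (hn : n ≤ n0) :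
    (1 + X : ℤ[X]) ^ (∑ t, b t) ∣ ZB w D 0
      (st2 (twT N x) x (thA N θ (twT N x)) (thA N θ (twT N x) + 1)) n -
      (if tcS j w N b θ x = n then TmS j w N b θ x else 0) := by
  have T := W.twn x hx
  have hj := W.hj
  have h7 := W.h7
  have hw := W.hw
  have hxn := W.tws.nat x hx
  have hup : ∀ y, twT N x < y ↔ x < y := W.tws.up x hx
  have hll : lev (twT N x) = lev x := lev_eq_of_up hup
  have hl := W.lt_lev (W.tws.sub hx)
  have hDl : ∀ d ∈ D, w < lev d := hD.2.2.1
  have hupD : ∀ y, twT N x < y → y ∉ D := fun y hy hyD => h1 (hD.1 _ _ hy.le hyD)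
  by_cases hs : Spc j w N b θ (twT N x)
  · have T' := W.twnS hx hs
    have hs' := hs
    obtain ⟨Nc, co, C⟩ := hs
    have hlC := C.lev (by omega)
    have e1 : thA N θ (twT N x) = θ (topOf (twT N x)) (twT N x) := W.thA_nat hxn
    have hth := C.th
    have e3 : tcS j w N b θ x = tcst w (fun _ => j - w) (twT N x, x) := by
      unfold tcS
      rw [if_pos hs']
    have e4 : TmS j w N b θ x = Tm w (fun _ => j - w) (twT N x, x) := by
      unfold TmS
      rw [if_pos hs']
    have hlC2 : lev (twT N x) = w + (j - w) + 1 := by omega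
    have e5 := F4.tcst_const T' hlC2
    have hne : twT N x ≠ x := T.ne
    have e6 := W.thPen_eq (W.not_rA_tw hx)
    have k1 := W.sys.spec_twin W.tws W.H.gradedBelow W.nt (fun x hx => W.pair3 hx)
      (fun z1 h1 z2 h2 h3 h4 => W.pairZ3 h1 h2 h3 h4) hD (W.twnP hx) h1 h2
      (fun y hy => hD.2.1 (W.below hx hF hy)) (W.tws.cp x hx).symm
      (h := j - w) (q := j - 1) (by rw [e6, e1]; omega) hlC2 (by omega) (by omega) (by omega)
      C.cone (C.cone.twin hne hup)
      (fun z _ hcz hlz => C.above hw (by omega) hcz hlz) C.hb (n := n) (by omega)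
    have k2 := ZB_st2_exact (D := D) T' (by omega) hDl h1 h2 hupD (n0 := n)
      (by rw [← e3]; omega)
    rw [e6] at k1
    rw [e3, e4, ← k2]
    exact k1
  · have e3 : tcS j w N b θ x = tcst w (thA N θ) (twT N x, x) := by
      unfold tcS
      rw [if_neg hs]
    have e4 : TmS j w N b θ x = Tm w (thA N θ) (twT N x, x) := by
      unfold TmS
      rw [if_neg hs]
    have k2 := ZB_st2_exact (D := D) T (by omega) hDl h1 h2 hupD (n0 := n)
      (by rw [← e3]; omega)
    rw [e3, e4, k2, sub_self]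
    exact dvd_zero _

/-- the labels of the system -/
noncomputable def _root_.Pool.Agent.GaussPoset.Sm.hRz (j : ℕ) (N : Tops P → Finset P)
    (θ : Tops P → P → ℕ) : P → ℕ :=
  hcan (rA N \ zfA j N) (thZ (zfA j N) (piA j N) (thA N θ))

/-- **The far window theorem without the twins of the cells `(m, m + 1)` and their pendants.** -/
theorem farF0 (W : FdX r j w N b θ B) (n0 : ℕ)
    (hcost : ∀ x ∈ twA N, ¬ Fc j x → n0 ≤ tcS j w N b θ x)
    (hfold : ∀ x ∈ twA N, Fc j x → n0 < tcst w (thA N θ) (twT N x, x) + (j - w) + 1) :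
    FarV P w (rA N \ zfA j N) (∑ t, b t) (hRz j N θ)
      (∑ x ∈ (by classical exact (twA N).filter (fun x => ¬ Fc j x ∧ tcS j w N b θ x = n0)),
        TmS j w N b θ x) n0 := by
  classical
  have hj := W.hj
  have F := W.sys.farV W.tws W.H.gradedBelow W.nt (n0 := n0) ?_ ?_
    (fun x => tcS j w N b θ x = n0) (fun x => TmS j w N b θ x) ?_ ?_
  · have hs : (∑ x ∈ (twA N \ yfA j N).filter (fun x => tcS j w N b θ x = n0), TmS j w N b θ x) =
        ∑ x ∈ (twA N).filter (fun x => ¬ Fc j x ∧ tcS j w N b θ x = n0), TmS j w N b θ x := by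
      refine Finset.sum_congr ?_ (fun _ _ => rfl)
      ext x
      rw [mem_filter, mem_filter, mem_sdiff, mem_yfA]
      tauto
    rw [← hs]
    convert F using 2
    · rfl
    · ext x
      simp only [mem_filter]
  · intro x hx
    have hx' := mem_yfA.mp hx
    refine ⟨j - w - 1, W.pos hx, ?_⟩
    rw [W.cM_eq hx'.1 hx'.2]
    have := hfold x hx'.1 hx'.2
    omega
  · intro x hx _
    exact W.twn x hx
  · intro x hx hxf D hD h1 h2 n hn
    have hF : ¬ Fc j x := fun h => hxf (mem_yfA.mpr ⟨hx, h⟩)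
    have hC := hcost x hx hF
    have k := W.key_tw hx hF hC hD h1 h2 hn.le
    rw [if_neg (by omega), sub_zero] at k
    exact k
  · intro x hx hxf D hD h1 h2
    have hF : ¬ Fc j x := fun h => hxf (mem_yfA.mpr ⟨hx, h⟩)
    have k := W.key_tw hx hF (hcost x hx hF) hD h1 h2 le_rfl
    convert k

end FdX

end Pool.Agent.GaussPoset.Sm
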