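import Pool.Agent.W_448f4_h70.JM

/-!
The windows 2 and 3 of S7: the labels without the twins of the cells `(m, m + 1)` of the stairs and
their pendants (MP_448cb3_co)
-/

namespace Pool.Agent.GaussPoset.Sm

set_option linter.unusedSectionVars false

open Polynomial Finset

universe u

variable {P : Type u} [Fintype P] [PartialOrder P] [DecidableEq P] {r j w : ℕ}
  {N : Tops P → Finset P} {b : Tops P → ℕ} {θ : Tops P → P → ℕ} {B : Tops P → P → Prop}

open Classical in
/-- the labels: as in the system below the pendants of the twins of the cells `(m, m + 1)` -/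
noncomputable def hF (j w : ℕ) (N : Tops P → Finset P) (b : Tops P → ℕ) (θ : Tops P → P → ℕ)
    (z : P) : ℕ :=
  if ∃ y ∈ zfA j N, z ⋖ y then hRz j N θ z else hS j w N b θ z

lemma hF_adj {z : P} (h : ∃ y ∈ zfA j N, z ⋖ y) : hF j w N b θ z = hRz j N θ z := if_pos h

lemma hF_not {z : P} (h : ∀ y ∈ zfA j N, ¬ z ⋖ y) : hF j w N b θ z = hS j w N b θ z :=
  if_neg (by rintro ⟨y, hy, hz⟩; exact h y hy hz)

/-- the labels agree away from the pendants -/
lemma hRz_eq {z : P} (h : ∀ y ∈ zfA j N, ¬ z ⋖ y) : hRz j N θ z = hA N θ z := by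
  unfold hRz hA hcan
  congr 1
  ext t
  simp only [Set.mem_ofPred_eq]
  constructor
  · rintro ⟨x, hx, hzx, ht⟩
    have h1 : x ∉ zfA j N := fun h2 => h x h2 hzx
    have h2 : x ∉ rA N := fun h2 => hx (mem_sdiff.mpr ⟨h2, h1⟩)
    rw [thZ_not h1] at ht
    exact ⟨x, h2, hzx, ht⟩
  · rintro ⟨x, hx, hzx, ht⟩
    refine ⟨x, fun h2 => hx (mem_sdiff.mp h2).1, hzx, ?_⟩
    rw [thZ_not (fun h2 => hx (mem_zfA.mp h2).1)]
    exact ht

namespace FdX

lemma bs (W : FdX r j w N b θ B) {x : P} (hx : x ∉ rA N) : Bs N θ x (GaussPoset.bs N x) := by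
  classical
  unfold GaussPoset.bs
  rcases not_mem_rA.mp hx with h | h
  · rw [if_neg (W.not_tw h)]
    exact ⟨h, rfl, W.thA_nat h, fun k => Or.inl rfl, fun v => Iff.rfl⟩
  · rw [if_pos h]
    have h1 := W.tws.up x h
    refine ⟨W.tws.nat x h, W.tws.lev h, W.thA_tw h, fun k => ?_, h1⟩
    rcases Nat.lt_or_ge k (Pool.Agent.GaussPoset.lev x) with h2 | h2
    · exact Or.inl (nab_congr_up h1 h2)
    · exact Or.inr h2

lemma hA_spec (W : FdX r j w N b θ B) {z : P} (hz : z ∈ bdR (rA N)) :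
    ∃ x, x ∉ rA N ∧ z ⋖ x ∧
      hA N θ z = θ (topOf (GaussPoset.bs N x)) (GaussPoset.bs N x) + 1 := by
  obtain ⟨x, h1, h2, h3⟩ := hcan_spec (θ := thA N θ) hz
  refine ⟨x, h1, h2, ?_⟩
  rw [← (W.bs h1).th]
  exact h3

/-- data of a pendant below a special cell -/
theorem penS (W : FdX r j w N b θ B) {z : P} (hz : PenS j w N b θ z) :
    hA N θ z = j - w ∧ lev z = j + 2 ∧ z ∈ bdR (rA N) := by
  obtain ⟨h1, x, h2, h3, h4, Nc, co, C⟩ := hz
  have H := W.H
  have hj := W.hj
  have g6 := W.bs h2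
  have e1 := (H.covBy_iff.mp h3).2
  have e2 := g6.lev
  have e3 := C.lev (by omega)
  have hbd : z ∈ bdR (rA N) := mem_bdR.mpr ⟨h1, x, h2, h3⟩
  obtain ⟨x0, f1, f2, f3⟩ := W.hA_spec hbd
  have e4 := h4 x0 f2
  subst e4
  have := C.th
  exact ⟨by omega, by omega, hbd⟩

/-- the special cell of a pendant -/
theorem penS_cone (W : FdX r j w N b θ B) {x : P}
    (hs : Spc j w N b θ (GaussPoset.bs N x)) :
    b (topOf x) = 2 ∧ lev x = j + 1 ∧ (∃ co, F4.ConeAt x co (j - 1)) ∧
      ∀ y : P, topOf y = topOf x → lev y ≤ w + 2 → x ≤ y := by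
  classical
  obtain ⟨Nc, co, C⟩ := hs
  have hj := W.hj
  have hw := W.hw
  have hw1 := W.hw1
  have hl := C.lev (by omega)
  by_cases ht : x ∈ twA N
  · have hbs : GaussPoset.bs N x = twT N x := by
      unfold GaussPoset.bs
      rw [if_pos ht]
    rw [hbs] at C hl
    have h1 := W.tws.cp x ht
    have hup := W.tws.up x ht
    have T := W.twn x ht
    have hne : twT N x ≠ x := T.ne
    have hll : lev (twT N x) = lev x := lev_eq_of_up hup
    refine ⟨by rw [← h1]; exact C.hb, by omega, ⟨_, C.cone.twin hne hup⟩, fun y hy hly => ?_⟩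
    exact ((hup y).mp (C.above hw (by omega) (hy.trans h1.symm) hly)).le
  · have hbs : GaussPoset.bs N x = x := by
      unfold GaussPoset.bs
      rw [if_neg ht]
    rw [hbs] at C hl
    exact ⟨C.hb, hl, ⟨co, C.cone⟩, fun y hy hly => (C.above hw (by omega) hy hly).le⟩

/-- the parts are up-closed -/
lemma part_up (W : FdX r j w N b θ B) (t : Tops P) :
    ∀ x' y : P, x' ≤ y → (x' ∉ (unnat N \ twA N) \ zfA j N ∧ topOf x' = t) →
      (y ∉ (unnat N \ twA N) \ zfA j N ∧ topOf y = t) :=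
  pg_part_up (W.sys.lower W.tws W.natSys) (W.sys.cp W.tws W.natSys)

/-- the part of a pendant below a special cell -/
theorem bigS (W : FdX r j w N b θ B) {n0 : ℕ} {g : P → ℕ}
    {x z : P} (hz : z ∈ (unnat N \ twA N) \ zfA j N) (hzx : z ⋖ x) (hzS : PenS j w N b θ z)
    (hgz : g z = j - w)
    (hCc : n0 ≤ cst w (fun _ => j - w + 1) z) {m : ℕ}
    (hm : m + ∑ x ∈ (unnat N \ twA N) \ zfA j N, g x ≤ n0) :
    (1 + X : ℤ[X]) ^ (b (topOf x)) ∣
      ZB (P := {y : P // y ∉ (unnat N \ twA N) \ zfA j N ∧ topOf y = topOf x}) w ∅ 0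
        (fun y => by classical exact
          (((unnat N \ twA N) \ zfA j N).filter (fun z => z ⋖ (y : P))).sup g) m := by
  classical
  have H := W.H
  have h7 := W.h7
  have hj := W.hj
  have hw := W.hw
  obtain ⟨-, x1, h1, h2, h4, hs⟩ := hzS
  have hxx := h4 x hzx
  subst hxx
  obtain ⟨q1, q2, ⟨co, q3⟩, q4⟩ := W.penS_cone hs
  have e1 := (H.covBy_iff.mp hzx).2
  have hxR : x ∉ (unnat N \ twA N) \ zfA j N := fun h => h1 (mem_sdiff.mp h).1
  rw [q1]
  set k := j - w with hk
  have hn0 : n0 ≤ F4.Efs w k x x + k + 2 := by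
    rw [← cst_pen hzx h4 (by omega) (by omega)]
    exact hCc
  have hsz : k ≤ ∑ x ∈ (unnat N \ twA N) \ zfA j N, g x := by
    rw [← hgz]
    exact Finset.single_le_sum (f := g) (fun _ _ => Nat.zero_le _) hz
  have hp := W.part_up (topOf x)
  have hBx : k ≤ (((unnat N \ twA N) \ zfA j N).filter (fun z => z ⋖ x)).sup g := by
    rw [← hgz]
    exact Finset.le_sup (f := g) (mem_filter.mpr ⟨hz, hzx⟩)
  by_cases hbigz : ∃ z' ∈ (unnat N \ twA N) \ zfA j N, k < g z'
  · obtain ⟨z', hz', hk'⟩ := hbigz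
    have hne' : z' ≠ z := by
      rintro rfl
      omega
    have h8 : g z + g z' ≤ ∑ x ∈ (unnat N \ twA N) \ zfA j N, g x := by
      rw [← Finset.sum_pair (f := g) hne'.symm]
      refine Finset.sum_le_sum_of_subset ?_
      intro y hy
      rw [mem_insert, mem_singleton] at hy
      rcases hy with rfl | rfl
      · exact hz
      · exact hz'
    rw [F4.part_zero hp (i := w) (k := k) (f := x) (s := x) ⟨hxR, rfl⟩ ⟨hxR, rfl⟩ hBx hBx
      (by omega)]
    exact dvd_zero _
  · push Not at hbigz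
    have hBle : ∀ y : P, (((unnat N \ twA N) \ zfA j N).filter (fun z => z ⋖ y)).sup g ≤ k := by
      intro y
      refine Finset.sup_le fun z' hz' => ?_
      exact hbigz z' (mem_filter.mp hz').1
    exact F4.part_cone hp (i := w) (h := k) (x := x) ⟨hxR, rfl⟩ q3 (by omega) (by omega)
      (by omega) (fun y hy hly => q4 y hy.2 hly) (fun y => hBle y) (le_antisymm (hBle x) hBx)
      (by omega)

/-- the pairs for the factors -/
lemma pairN (W : FdX r j w N b θ B) {n0 : ℕ}
    (hcost : ∀ x ∈ twA N, n0 ≤ tcst w (thA N θ) (twT N x, x) + (j - w)) {x : P}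
    (hx : x ∈ twA N) :
    TwinPair w (thPen N θ (twA N) (zfA j N) (twT N) (piA j N)) (n0 - (j - w)) (twT N x) x := by
  refine (W.twnP hx).pair ?_
  rw [W.tcstP hx]
  have := hcost x hx
  omega

lemma pairZN (W : FdX r j w N b θ B) {n0 : ℕ}
    (hcost : ∀ x ∈ twA N, n0 ≤ tcst w (thA N θ) (twT N x, x) + (j - w)) {z1 z2 : P}
    (h1 : z1 ∈ zfA j N) (h2 : z2 ∈ zfA j N) (hne : z1 ≠ z2) (h : piA j N z1 = piA j N z2) :
    TwinPair w (thPen N θ (twA N) (zfA j N) (twT N) (piA j N)) (n0 - (j - w)) z1 z2 := by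
  classical
  have T := W.twnZ h1 h2 hne h
  obtain ⟨a1, a2, a3⟩ := piA_spec h1
  refine T.pair ?_
  have e0 := hcost _ a1
  have e1 := W.cM_eq a1 a2
  unfold cM at e1
  rw [tcst_eq T]
  simp only
  rw [W.thPen_pen h1]
  have hj := W.hj
  have e2 : ∑ u, (if twT N (piA j N z1) < u then min (j - w - 1 + 1) (lev u - w) else 0) ≤
      ∑ u, (if z1 < u then min (j - w + 1) (lev u - w) else 0) := by
    refine Finset.sum_le_sum fun u _ => ?_
    by_cases h3 : twT N (piA j N z1) < u
    · have h4 : z1 < u := (a3 u).mpr ((W.tws.up _ a1 u).mp h3).le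
      rw [if_pos h3, if_pos h4]
      omega
    · rw [if_neg h3]
      exact Nat.zero_le _
  omega

/-- the cost of an element below a pendant -/
theorem cost_adj (W : FdX r j w N b θ B) {z : P} (hz : z ∈ bdR (rA N \ zfA j N))
    (hadj : ∃ y ∈ zfA j N, z ⋖ y) :
    j - w ≤ hRz j N θ z ∧ lev z = j + 3 ∧
      ∃ x ∈ twA N, Fc j x ∧ tcst w (thA N θ) (twT N x, x) + (j - w) + 1 ≤
        cst w (fun _ => hRz j N θ z) z := by
  classical
  obtain ⟨y, hy, hzy⟩ := hadj
  obtain ⟨a1, a2, a3⟩ := piA_spec hy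
  obtain ⟨b1, b2⟩ := W.lev_pen hy
  have hj := W.hj
  have hw := W.hw
  have hlz := (W.H.covBy_iff.mp hzy).2
  -- the label
  have hlab : j - w ≤ hRz j N θ z := by
    obtain ⟨x, hx, hzx, he⟩ := hcan_spec (θ := thZ (zfA j N) (piA j N) (thA N θ)) hz
    have he' : hRz j N θ z = thZ (zfA j N) (piA j N) (thA N θ) x + 1 := he
    have hlx := (W.H.covBy_iff.mp hzx).2
    rw [he']
    by_cases hxZ : x ∈ zfA j N
    · have h1 := W.thPen_pen hxZ
      rw [thPen_of (fun h => (mem_sdiff.mp h).2 hxZ)] at h1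
      have h2 : thZ (zfA j N) (piA j N) (thA N θ) x = j - w := h1
      omega
    · have hxR : x ∉ rA N := fun h => hx (mem_sdiff.mpr ⟨h, hxZ⟩)
      rw [thZ_not hxZ]
      have g := W.bs hxR
      have h3 := g.th
      have h4 := g.lev
      have h5 := W.le_th _ g.nat (by omega)
      omega
  refine ⟨hlab, by omega, piA j N y, a1, a2, ?_⟩
  have e1 := W.cM_eq a1 a2
  unfold cM at e1
  have hlx := a2.1
  have hyx : y < piA j N y := b2.1
  have hzx : z < piA j N y := hzy.1.trans hyx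
  -- four parts
  have hsub : ({z, y, piA j N y} : Finset P) ∪ univ.filter (fun u => piA j N y < u) ⊆
      univ.filter (fun u => z ≤ u) := by
    intro u hu
    rw [mem_filter]
    refine ⟨mem_univ _, ?_⟩
    rw [mem_union, mem_insert, mem_insert, mem_singleton, mem_filter] at hu
    rcases hu with (rfl | rfl | rfl) | h
    · exact le_rfl
    · exact hzy.1.le
    · exact hzx.le
    · exact (hzx.trans h.2).le
  have hdis : Disjoint ({z, y, piA j N y} : Finset P) (univ.filter (fun u => piA j N y < u)) := by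
    rw [Finset.disjoint_left]
    intro u hu h
    rw [mem_insert, mem_insert, mem_singleton] at hu
    have h' := (mem_filter.mp h).2
    rcases hu with rfl | rfl | rfl
    · exact lt_irrefl _ (hzx.trans h')
    · exact lt_irrefl _ (hyx.trans h')
    · exact lt_irrefl _ h'
  have hc : cst w (fun _ => hRz j N θ z) z = ∑ u ∈ univ.filter (fun u : P => z ≤ u),
      min (hRz j N θ z) (lev u - w) := by
    unfold cst ez
    rw [Finset.sum_filter]
  have h3 : ∑ u ∈ ({z, y, piA j N y} : Finset P) ∪ univ.filter (fun u => piA j N y < u),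
      min (hRz j N θ z) (lev u - w) ≤ cst w (fun _ => hRz j N θ z) z := by
    rw [hc]
    exact Finset.sum_le_sum_of_subset hsub
  rw [Finset.sum_union hdis, Finset.sum_insert (by
    rw [mem_insert, mem_singleton]
    rintro (h | h)
    · exact hzy.1.ne h
    · exact hzx.ne h), Finset.sum_insert (by
    rw [mem_singleton]
    exact hyx.ne), Finset.sum_singleton] at h3
  have h4 : ∑ u, (if twT N (piA j N y) < u then min (j - w - 1 + 1) (lev u - w) else 0) ≤
      ∑ u ∈ univ.filter (fun u => piA j N y < u), min (hRz j N θ z) (lev u - w) := by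
    rw [Finset.sum_filter]
    refine Finset.sum_le_sum fun u _ => ?_
    by_cases h5 : twT N (piA j N y) < u
    · have h6 := (W.tws.up _ a1 u).mp h5
      rw [if_pos h5, if_pos h6]
      omega
    · rw [if_neg h5]
      exact Nat.zero_le _
  have m1 : j - w ≤ min (hRz j N θ z) (lev z - w) := by omega
  have m2 : j - w ≤ min (hRz j N θ z) (lev y - w) := by omega
  have m3 : j - w ≤ min (hRz j N θ z) (lev (piA j N y) - w) := by omega
  omega

end FdX

end Pool.Agent.GaussPoset.Sm
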