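import Pool.Agent.W_448f4_h70.JN

/-!
The windows 2 and 3 of S7: the far window theorem without the twins of the cells `(m, m + 1)` of
the stairs and their pendants, larger labels (MP_448cb3_co)
-/

namespace Pool.Agent.GaussPoset.Sm

set_option linter.unusedSectionVars false

open Polynomial Finset

universe u

variable {P : Type u} [Fintype P] [PartialOrder P] [DecidableEq P] {r j w : ℕ}
  {N : Tops P → Finset P} {b : Tops P → ℕ} {θ : Tops P → P → ℕ} {B : Tops P → P → Prop}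

namespace FdX

/-- the cost of a special twin is larger by two -/
lemma tcS_spc (W : FdX r j w N b θ B) {x : P} (hx : x ∈ twA N)
    (hs : Spc j w N b θ (twT N x)) :
    tcS j w N b θ x = tcst w (thA N θ) (twT N x, x) + 2 := by
  classical
  have T' := W.twnS hx hs
  have T := W.twn x hx
  have hj := W.hj
  unfold tcS
  rw [if_pos hs, tcst_eq T', tcst_eq T]
  obtain ⟨Nc, co, C⟩ := hs
  have hl := C.lev (by omega)
  have hth := C.th
  have e1 : thA N θ (twT N x) = θ (topOf (twT N x)) (twT N x) := W.thA_nat (W.tws.nat x hx)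
  have e2 : ∑ y, (if (twT N x, x).1 < y then
      min ((fun _ => j - w) (twT N x, x).1 + 1) (lev y - w) else 0) =
      ∑ y, (if (twT N x, x).1 < y then min (thA N θ (twT N x, x).1 + 1) (lev y - w) else 0) := by
    refine Finset.sum_congr rfl fun y _ => ?_
    split_ifs with hy
    · have h1 := lev_strictAnti hy
      simp only at h1 ⊢
      rw [e1]
      omega
    · rfl
  rw [e2]
  simp only
  rw [e1]
  omega

lemma tcS_le (W : FdX r j w N b θ B) {x : P} (hx : x ∈ twA N) :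
    tcS j w N b θ x ≤ tcst w (thA N θ) (twT N x, x) + 2 := by
  classical
  by_cases hs : Spc j w N b θ (twT N x)
  · exact (W.tcS_spc hx hs).le
  · unfold tcS
    rw [if_neg hs]
    omega

/-- the labels -/
lemma hspec (W : FdX r j w N b θ B) (hcel : ∀ z, CEl j w N θ z → hA N θ z = j - w - 1) (z : P) :
    (PenS j w N b θ z ∧ hA N θ z = j - w ∧ lev z = j + 2 ∧ hS j w N b θ z = j - w + 1) ∨
      (¬ PenS j w N b θ z ∧ CEl j w N θ z ∧ hA N θ z = j - w - 1 ∧
        lev z = j + 1 ∧ hS j w N b θ z = lev z - w) ∨ hS j w N b θ z = hA N θ z := by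
  by_cases h1 : PenS j w N b θ z
  · obtain ⟨a1, a2, a3⟩ := W.penS h1
    exact Or.inl ⟨h1, a1, a2, by rw [hS_of h1, a1]⟩
  · right
    by_cases h2 : CEl j w N θ z
    · exact Or.inl ⟨h1, h2, hcel z h2, h2.2.1, by rw [hS_not h1, hC_of h2]⟩
    · exact Or.inr (by rw [hS_not h1, hC_not h2])

/-- boundary elements away from the pendants -/
lemma bd_not (_W : FdX r j w N b θ B) {z : P} (hz : z ∈ bdR (rA N \ zfA j N))
    (h : ∀ y ∈ zfA j N, ¬ z ⋖ y) : z ∈ bdR (rA N) ∧ z ∉ zfA j N := by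
  obtain ⟨h1, x, hx, hzx⟩ := mem_bdR.mp hz
  obtain ⟨h2, h3⟩ := mem_sdiff.mp h1
  refine ⟨mem_bdR.mpr ⟨h2, x, fun h4 => ?_, hzx⟩, h3⟩
  exact hx (mem_sdiff.mpr ⟨h4, fun h5 => h x h5 hzx⟩)

/-- **The far window theorem without the twins of the cells `(m, m + 1)` and their pendants, with
the larger labels.** -/
theorem farF (W : FdX r j w N b θ B) (n0 : ℕ)
    (hcost : ∀ x ∈ twA N, ¬ Fc j x → n0 ≤ tcS j w N b θ x)
    (hfold : ∀ x ∈ twA N, Fc j x → n0 < tcst w (thA N θ) (twT N x, x) + (j - w) + 1)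
    (hcel : ∀ z, CEl j w N θ z → hA N θ z = j - w - 1)
    (hbd : ∀ z ∈ bdR (rA N \ zfA j N), n0 ≤ cst w (hF j w N b θ) z)
    (hbigC : ∀ (g : P → ℕ) (x z : P), z ∈ (unnat N \ twA N) \ zfA j N → z ⋖ x →
      CEl j w N θ z → hA N θ z ≤ g z → g z < lev z - w → n0 ≤ cst w (fun _ => lev z - w) z →
      ∀ m, m + ∑ x ∈ (unnat N \ twA N) \ zfA j N, g x ≤ n0 →
      (1 + X : ℤ[X]) ^ (b (topOf x)) ∣
        ZB (P := {y : P // y ∉ (unnat N \ twA N) \ zfA j N ∧ topOf y = topOf x}) w ∅ 0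
        (fun y => by classical exact
          (((unnat N \ twA N) \ zfA j N).filter (fun z => z ⋖ (y : P))).sup g) m) :
    FarV P w (rA N \ zfA j N) (∑ t, b t) (hF j w N b θ)
      (∑ x ∈ (by classical exact (twA N).filter (fun x => ¬ Fc j x ∧ tcS j w N b θ x = n0)),
        TmS j w N b θ x) n0 := by
  classical
  have hj := W.hj
  have hw1 := W.hw1
  have F := W.farF0 n0 hcost hfold
  have hsp := W.hspec hcel
  have hc : ∀ x ∈ twA N, n0 ≤ tcst w (thA N θ) (twT N x, x) + (j - w) := by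
    intro x hx
    by_cases h : Fc j x
    · have := hfold x hx h
      omega
    · have h1 := hcost x hx h
      have h2 := W.tcS_le hx
      omega
  have hnb : ∀ z ∈ bdR (rA N \ zfA j N), (∀ y ∈ zfA j N, ¬ z ⋖ y) →
      hRz j N θ z = hA N θ z ∧ hF j w N b θ z = hS j w N b θ z := fun z _ h =>
    ⟨hRz_eq h, hF_not h⟩
  refine W.sys.farV_big W.tws W.H.gradedBelow W.nt (n0 := n0) F (k0 := j - w - 1) (e0 := 2)
    (n1 := n0 - (j - w)) (by omega) (fun x hx => W.pairN hc hx)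
    (fun z1 h1 z2 h2 h3 h4 => W.pairZN hc h1 h2 h3 h4) (hF j w N b θ) ?_ ?_ ?_ ?_
  · intro z hz
    show hRz j N θ z ≤ hF j w N b θ z
    by_cases h : ∃ y ∈ zfA j N, z ⋖ y
    · rw [hF_adj h]
    · push Not at h
      obtain ⟨e1, e2⟩ := hnb z hz h
      rw [e1, e2]
      rcases hsp z with ⟨-, h1, -, h2⟩ | ⟨-, -, h1, h3, h2⟩ | h1 <;> omega
  · intro z hz hlt
    have hlt' : hRz j N θ z < hF j w N b θ z := hlt
    show j - w - 1 ≤ hRz j N θ z ∧ 2 ≤ hRz j N θ z ∧ w + 2 < lev z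
    by_cases h : ∃ y ∈ zfA j N, z ⋖ y
    · rw [hF_adj h] at hlt'
      omega
    · push Not at h
      obtain ⟨e1, e2⟩ := hnb z hz h
      rw [e1, e2] at hlt'
      rw [e1]
      rcases hsp z with ⟨-, h1, h3, h2⟩ | ⟨-, -, h1, h3, h2⟩ | h1 <;> omega
  · intro z hz
    have h0 : hRz j N θ z ≤ lev z - w := F.le_lev z hz
    by_cases h : ∃ y ∈ zfA j N, z ⋖ y
    · rw [hF_adj h]
      exact h0
    · push Not at h
      obtain ⟨e1, e2⟩ := hnb z hz h
      rw [e1] at h0
      rw [e2]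
      rcases hsp z with ⟨-, h1, h3, h2⟩ | ⟨-, -, h1, h3, h2⟩ | h1 <;> omega
  · intro g g0 hg x z hx hz hzx hlt m hm
    have hzb : z ∈ bdR ((unnat N \ twA N) \ zfA j N) := mem_bdR.mpr ⟨hz, x, hx, hzx⟩
    have hgz := hg z hzb
    have hle : hRz j N θ z ≤ thZ (zfA j N) (piA j N) (thA N θ) x + 1 := hcan_le hx hzx
    rw [thPen_of hx] at hlt
    have hlt' : thZ (zfA j N) (piA j N) (thA N θ) x < g z := hlt
    have hcz := hbd z hzb
    by_cases h : ∃ y ∈ zfA j N, z ⋖ y
    · rw [hF_adj h] at hgz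
      omega
    · push Not at h
      obtain ⟨e1, e2⟩ := hnb z hzb h
      rw [e2] at hgz
      rw [e1] at hle
      rw [cst_const w (hF j w N b θ) z, e2] at hcz
      rcases hsp z with ⟨h0, h1, h3, h2⟩ | ⟨-, h0, h1, h3, h2⟩ | h1
      · rw [h2] at hcz hgz
        exact W.bigS hz hzx h0 (by omega) hcz hm
      · rw [h2] at hcz hgz
        exact hbigC g x z hz hzx h0 (by omega) hgz hcz m hm
      · omega

end FdX

end Pool.Agent.GaussPoset.Sm
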