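import Pool.Agent.W_448f4_h70.JO

/-!
The windows 2 and 3 of S7 with a cap: the far window theorem without the twins of the cells
`(m, m + 1)` of the stairs and their pendants (MP_448cb3_co)
-/

namespace Pool.Agent.GaussPoset.Sm

set_option linter.unusedSectionVars false

open Polynomial Finset

universe u

variable {P : Type u} [Fintype P] [PartialOrder P] [DecidableEq P] {r j w K : ℕ}
  {N : Tops P → Finset P} {b : Tops P → ℕ} {θ : Tops P → P → ℕ} {B : Tops P → P → Prop}

/-- the cost of the twins of the cells `(m, m + 1)` -/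
def fcT (w j : ℕ) : ℕ := ∑ k ∈ range (j + 1), min (j - w) (k - w) * (k / 2 + 1 -
  (k - (j / 2 + 1))) + (2 * (j - w - 1) + 1)

namespace FdX

lemma nab_fold (W : FdX r j w N b θ B) {x : P} (hx : x ∈ twA N) (hF : Fc j x) {k : ℕ}
    (hk : k ≤ j) : nab k x = k / 2 + 1 - (k - (j / 2 + 1)) := by
  obtain ⟨Nc, co, h0, h1, h2, h3, h4, h5⟩ := W.stair hx hF
  obtain ⟨c1, c2, c3, c4⟩ := W.cell hx hF h0 h1 h2
  have hup : ∀ y, twT N x < y ↔ x < y := W.tws.up x hx
  have hll : lev (twT N x) = lev x := lev_eq_of_up hup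
  have hl := hF.1
  have e1 : nab k (twT N x) = nab k x := nab_congr_up hup (by omega)
  have e2 := stair_nab h0.chart c1 (k := k) (by omega)
  rw [c3] at e2
  simp only at e2
  have e3 := one_le_nab (l := k) (z := x) (by omega)
  omega

lemma cost_fold (W : FdX r j w N b θ B) {x : P} (hx : x ∈ twA N) (hF : Fc j x) :
    tcst w (thA N θ) (twT N x, x) = fcT w j := by
  have T := W.twn x hx
  have e1 : thA N θ (twT N x) = j - w - 1 := T.eq.symm.trans (W.th_fold hx hF).1
  have hj := W.hj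
  have hup : ∀ y, twT N x < y ↔ x < y := W.tws.up x hx
  have hll : lev (twT N x) = lev x := lev_eq_of_up hup
  have hl := hF.1
  rw [tcst_cst T]
  simp only
  rw [e1, cst_eq, show lev (twT N x) = j + 1 by omega, Finset.sum_range_succ]
  have e2 : nab (j + 1) (twT N x) = 1 := by
    rw [show j + 1 = lev (twT N x) by omega]
    exact nab_self
  have e3 : ∑ k ∈ range (j + 1), min (j - w - 1 + 1) (k - w) * nab k (twT N x) =
      ∑ k ∈ range (j + 1), min (j - w) (k - w) * (k / 2 + 1 - (k - (j / 2 + 1))) := by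
    refine Finset.sum_congr rfl fun k hk => ?_
    rw [mem_range] at hk
    rw [nab_congr_up hup (by omega), W.nab_fold hx hF (by omega), show j - w - 1 + 1 = j - w by
      omega]
  rw [e2, e3]
  unfold fcT
  have e4 : min (j - w - 1 + 1) (j + 1 - w) = j - w := by omega
  rw [e4]
  omega

/-- labels are positive -/
lemma hF_pos (W : FdX r j w N b θ B) (hcel : ∀ z, CEl j w N θ z → hA N θ z = j - w - 1) {z : P}
    (hz : z ∈ bdR (rA N \ zfA j N)) : 1 ≤ hF j w N b θ z := by
  have hj := W.hj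
  have h1 : 1 ≤ hRz j N θ z := by
    obtain ⟨x, -, -, hx⟩ := hcan_spec (θ := thZ (zfA j N) (piA j N) (thA N θ)) hz
    have : hRz j N θ z = thZ (zfA j N) (piA j N) (thA N θ) x + 1 := hx
    omega
  by_cases h : ∃ y ∈ zfA j N, z ⋖ y
  · rw [hF_adj h]
    exact h1
  · push Not at h
    rw [hRz_eq h] at h1
    rw [hF_not h]
    rcases W.hspec hcel z with ⟨-, h1, h3, h2⟩ | ⟨-, -, h1, h3, h2⟩ | h1 <;> omega

end FdX

/-- the windows of S7 have the data -/
theorem Wk.fdx (W : Wk r j w K N b θ) (h7 : 7 ≤ j) : ∃ B, FdX r j w N b θ B := by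
  choose B hB hN using fun t => TypB.of_top (W.top t) W.gt.H.gradedBelow
  refine ⟨B, W.gt.H, h7, W.hj, W.hw1, W.hw, hB, hN, W.twSys, fun x hx => W.low hx,
    fun x hx => W.twn hx, ?_, W.sum_b⟩
  intro y hy hly
  have := W.hj
  rcases W.cases hy hly with h | h | h
  · have := h.th
    omega
  · have := h.th
    omega
  · have := h.th3
    omega

/-- the label of the element below both ends of a stair -/
lemma Wk.hA_cel (W : Wk r j w K N b θ) (hw2 : 2 ≤ w) {z : P} (hz : CEl j w N θ z) :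
    hA N θ z = j - w - 1 := by
  obtain ⟨h1, h2, f, s, h3, h4, h5, h6, h7⟩ := hz
  obtain ⟨Nc, co, C⟩ := W.fold_cell hw2 h1 h2 h3 h4 h5 h7
  exact W.hA_fold C h1 h2 h3 h4 h5

/-- the part of the element below both ends of a stair -/
theorem Wk.bigCF (W : Wk r j w K N b θ) (h12 : 12 ≤ j) (hw2 : 2 ≤ w) {n0 : ℕ} {g : P → ℕ}
    {x z : P} (hz : z ∈ (unnat N \ twA N) \ zfA j N) (hzx : z ⋖ x) (hzC : CEl j w N θ z)
    (hlt : hA N θ z ≤ g z) (hgz : g z < lev z - w)
    (hCc : n0 ≤ cst w (fun _ => lev z - w) z) {m : ℕ}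
    (hm : m + ∑ x ∈ (unnat N \ twA N) \ zfA j N, g x ≤ n0) :
    (1 + X : ℤ[X]) ^ (b (topOf x)) ∣
      ZB (P := {y : P // y ∉ (unnat N \ twA N) \ zfA j N ∧ topOf y = topOf x}) w ∅ 0
        (fun y => by classical exact
          (((unnat N \ twA N) \ zfA j N).filter (fun z => z ⋖ (y : P))).sup g) m := by
  classical
  obtain ⟨B, W'⟩ := W.fdx (by omega)
  have H := W.gt.H
  have HN := W.natSys
  have hj := W.hj
  have hw := W.hw
  have hz' := hzC
  obtain ⟨h1, h2, f, s, h3, h4, h5, h6, h7⟩ := hz'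
  obtain ⟨Nc, co, C⟩ := W.fold_cell hw2 h1 h2 h3 h4 h5 h7
  have e1 := W.hA_fold C h1 h2 h3 h4 h5
  obtain ⟨s1, s2, s3⟩ := W.fold_end C h1 h2 h3 h4 h5 h6
  have hlf := C.lev
  have hls : lev s = j := by
    have := C.nat.chart.lev s s1
    omega
  have htx : topOf x = topOf f := by
    rcases cov_two H h3 h4 h5 hzx with rfl | rfl
    · rfl
    · exact h6.symm
  have hbt : b (topOf x) = 2 := by rw [htx, C.hb]
  rw [hbt]
  set k := g z with hk
  have hk1 : j - w - 1 ≤ k := by omega
  have hk2 : k ≤ j - w := by omega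
  have hn0 : n0 ≤ F4.Efs w k f s + k + 4 := hCc.trans (cst_full_le H h3 h4 h5 (by omega))
  have hsz : k ≤ ∑ x ∈ (unnat N \ twA N) \ zfA j N, g x :=
    Finset.single_le_sum (f := g) (fun _ _ => Nat.zero_le _) hz
  have hp := W'.part_up (topOf x)
  have hfR : f ∉ (unnat N \ twA N) \ zfA j N := fun h =>
    W.low (by omega) (mem_sdiff.mp (mem_sdiff.mp h).1).1
  have hsR : s ∉ (unnat N \ twA N) \ zfA j N := fun h =>
    W.low (by omega) (mem_sdiff.mp (mem_sdiff.mp h).1).1
  have hBf : k ≤ (((unnat N \ twA N) \ zfA j N).filter (fun z => z ⋖ f)).sup g :=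
    Finset.le_sup (f := g) (mem_filter.mpr ⟨hz, h3⟩)
  have hBs : k ≤ (((unnat N \ twA N) \ zfA j N).filter (fun z => z ⋖ s)).sup g :=
    Finset.le_sup (f := g) (mem_filter.mpr ⟨hz, h4⟩)
  by_cases hbigz : ∃ z' ∈ (unnat N \ twA N) \ zfA j N, k < g z'
  · obtain ⟨z', hz', hk'⟩ := hbigz
    have hne' : z' ≠ z := by
      rintro rfl
      omega
    have h8 : g z + g z' ≤ ∑ x ∈ (unnat N \ twA N) \ zfA j N, g x := by
      rw [← Finset.sum_pair (f := g) hne'.symm]
      refine Finset.sum_le_sum_of_subset ?_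
      intro y hy
      rw [mem_insert, mem_singleton] at hy
      rcases hy with rfl | rfl
      · exact hz
      · exact hz'
    rw [F4.part_zero hp (i := w) (k := k) (f := f) (s := s) ⟨hfR, htx.symm⟩
      ⟨hsR, h6.symm.trans htx.symm⟩ hBf hBs (by omega)]
    exact dvd_zero _
  · push Not at hbigz
    have hBle : ∀ y : P,
        (((unnat N \ twA N) \ zfA j N).filter (fun z => z ⋖ y)).sup g ≤ k := by
      intro y
      refine Finset.sup_le fun z' hz' => ?_
      exact hbigz z' (mem_filter.mp hz').1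
    refine F4.part_two hp (i := w) (k := k) (M := j / 2 + 1) (c0 := 4) (f := f) (s := s)
      ⟨hfR, htx.symm⟩ ⟨hsR, h6.symm.trans htx.symm⟩ (by omega) (by omega) ?_ (by omega)
      (by omega) ?_ (fun y => hBle y) (le_antisymm (hBle f) hBf) (le_antisymm (hBle s) hBs)
      (by omega)
    · rintro y ⟨-, hy2⟩ hy3
      have hyN : y ∈ Nc := by
        refine C.nat.strip (mem_lowPart.mpr ⟨?_, by omega⟩)
        rw [← htx, ← hy2]
        exact le_topOf y
      have hly := C.nat.chart.lev y hyN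
      have hmy : (co y).1 ≤ (co y).2 := C.nat.chart.mem y hyN
      rcases Nat.lt_or_ge (j / 2) (co y).2 with h9 | h9
      · right
        rw [C.nat.chart.le_iff s s1 y hyN, Prod.le_def, s2, s3]
        constructor
        · omega
        · omega
      · left
        rw [C.nat.chart.le_iff f C.mem y hyN, Prod.le_def, C.co1, C.co2]
        constructor
        · omega
        · exact h9
    · intro y hy1 hy2
      have hyN := C.nat.chart.up f C.mem y hy1
      have a1 := (C.nat.chart.le_iff f C.mem y hyN).mp hy1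
      have a2 := (C.nat.chart.le_iff s s1 y hyN).mp hy2
      rw [Prod.le_def, C.co1, C.co2] at a1
      rw [Prod.le_def, s2, s3] at a2
      have hly := C.nat.chart.lev y hyN
      have := C.ev
      omega

/-- **The far window theorem without the twins of the cells `(m, m + 1)` and their pendants.** -/
theorem Wk.farF (W : Wk r j w K N b θ) (h12 : 12 ≤ j) (hw2 : 2 ≤ w) (n0 : ℕ)
    (hcost : ∀ x ∈ twA N, ¬ Fc j x → n0 ≤ tcS j w N b θ x)
    (hfold : n0 ≤ fcT w j + (j - w))
    (hbd : ∀ z ∈ bdR (rA N \ zfA j N), n0 ≤ cst w (hF j w N b θ) z) :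
    FarV P w (rA N \ zfA j N) (lv P w).card (hF j w N b θ)
      (∑ x ∈ (by classical exact (twA N).filter (fun x => ¬ Fc j x ∧ tcS j w N b θ x = n0)),
        TmS j w N b θ x) n0 := by
  classical
  obtain ⟨B, W'⟩ := W.fdx (by omega)
  rw [← W.sum_b]
  refine W'.farF n0 hcost (fun x hx hx' => ?_) (fun z hz => W.hA_cel hw2 hz) hbd
    (fun g x z hz hzx hzC h1 h2 h3 m hm => W.bigCF h12 hw2 hz hzx hzC h1 h2 h3 hm)
  rw [W'.cost_fold hx hx']
  omega

end Pool.Agent.GaussPoset.Sm
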