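import Pool.Agent.W_448f4_h70.JP
import Pool.Agent.W_448jx_h67.WeH

/-!
The windows 2 and 3 of S7: the twins of the cells `(m, m + 1)` of the stairs and their pendants as
natural elements (MP_448cb3_co)
-/

namespace Pool.Agent.GaussPoset.Sm

set_option linter.unusedSectionVars false

open Polynomial Finset

universe u

variable {P : Type u} [Fintype P] [PartialOrder P] [DecidableEq P] {r j w K Kc K0 : ℕ}
  {N : Tops P → Finset P} {b : Tops P → ℕ} {θ : Tops P → P → ℕ} {B : Tops P → P → Prop}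

/-- the windows of S7 have the data -/
theorem We.fdx (W : We r j w K0 N b θ) (h7 : 7 ≤ j)
    (hex : ∀ t : Tops P, ∃ x ≤ (t : P), lev x = w) : ∃ B, FdX r j w N b θ B := by
  have key : ∀ t, ∃ B, TypB j w t (b t) (N t) (θ t) B ∧ NatTop w t (b t) (N t) (θ t) B := by
    intro t
    have hj := W.hj
    rcases W.typ t with h | h
    · exact TypB.of_typeX h W.gt.H.gradedBelow (by omega) (hex t)
    · obtain ⟨B, hB⟩ := W.nt t
      refine ⟨B, TypB.low ?_, hB⟩
      rw [h.hN]
      exact fun y hy => (mem_lowPart.mp hy).2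
  choose B hB hN using key
  refine ⟨B, W.gt.H, h7, W.hj, W.hw1, W.hw, hB, hN, W.twSys, fun x hx => W.low hx,
    fun x hx => W.twn hx, ?_, W.sum_b⟩
  intro y hy hly
  have := W.hj
  rcases W.cases hy hly with h | h | h
  · have := h.th
    omega
  · have := h.th
    omega
  · have := h.th3
    omega

/-- **the twins of the cells `(m, m + 1)` and their pendants are natural** -/
theorem FdX.fs (W : FdX r j w N b θ B) (hcel : ∀ z, CEl j w N θ z → hA N θ z = j - w - 1)
    (hK : Kc ≤ fcT w j + (j - w))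
    (hbigC : ∀ n0 ≤ Kc, ∀ (g : P → ℕ) (x z : P), z ∈ (unnat N \ twA N) \ zfA j N → z ⋖ x →
      CEl j w N θ z → hA N θ z ≤ g z → g z < lev z - w → n0 ≤ cst w (fun _ => lev z - w) z →
      ∀ m, m + ∑ x ∈ (unnat N \ twA N) \ zfA j N, g x ≤ n0 →
      (1 + X : ℤ[X]) ^ (b (topOf x)) ∣
        ZB (P := {y : P // y ∉ (unnat N \ twA N) \ zfA j N ∧ topOf y = topOf x}) w ∅ 0
        (fun y => by classical exact
          (((unnat N \ twA N) \ zfA j N).filter (fun z => z ⋖ (y : P))).sup g) m) :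
    FS P j w Kc N b θ (zfA j N) (Fc j) (hF j w N b θ) where
  sub := fun z hz => (mem_zfA.mp hz).1
  up := by
    intro z hz
    obtain ⟨a1, a2, a3⟩ := piA_spec hz
    obtain ⟨b1, b2⟩ := W.lev_pen hz
    refine ⟨piA j N z, a1, a2, b2, fun y hy => ?_⟩
    have h1 := (a3 y).mp hy.1
    by_contra hne
    exact hy.2 b2.1 (lt_of_le_of_ne h1 (Ne.symm hne))
  ft := by
    intro x hx hxF hxR
    have hj := W.hj
    have hw := W.hw
    have h7 := W.h7
    have hl := hxF.1
    have hup : ∀ y, twT N x < y ↔ x < y := W.tws.up x hx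
    have hll : lev (twT N x) = lev x := lev_eq_of_up hup
    have h1 := hxR.nab (j - 2) (by omega) (by omega)
    rw [nab_congr_up hup (by omega)] at h1
    have h2 := hxF.2.2
    omega
  eq := fun z _ _ h => hF_not h
  pos := fun z hz => W.hF_pos hcel hz
  big := by
    intro z hz hadj
    obtain ⟨h1, h2, x, hx, hxF, h3⟩ := W.cost_adj hz hadj
    rw [W.cost_fold hx hxF] at h3
    rw [cst_const w (hF j w N b θ) z, hF_adj hadj]
    omega
  far := by
    classical
    intro v M hv
    have h := W.farF v M.tw (fun x hx hxF => by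
      rw [W.cost_fold hx hxF]
      omega) hcel M.bd (hbigC v hv)
    rw [W.sum_b] at h
    convert h

/-- **`j = 10`** -/
theorem We.fsF (W : We r 10 w K0 N b θ) (hw2 : 2 ≤ w) (hCC : NoCC P 10)
    (hex : ∀ t : Tops P, ∃ x ≤ (t : P), lev x = w) (hK : Kc ≤ fcT w 10 + (10 - w)) :
    FS P 10 w Kc N b θ (zfA 10 N) (Fc 10) (hF 10 w N b θ) := by
  obtain ⟨B, W'⟩ := W.fdx (by norm_num) hex
  exact W'.fs (fun z hz => absurd hz (hCC.not_celE W hw2)) hK
    (fun n0 _ g x z _ _ hz => absurd hz (hCC.not_celE W hw2))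

lemma fcT_10_2 : fcT 2 10 + (10 - 2) = 119 := by decide +kernel

lemma fcT_10_3 : fcT 3 10 + (10 - 3) = 94 := by decide +kernel

lemma fcT_12_2 : fcT 2 12 + (12 - 2) = 189 := by decide +kernel

lemma fcT_12_3 : fcT 3 12 + (12 - 3) = 156 := by decide +kernel

end Pool.Agent.GaussPoset.Sm
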