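import Pool.Agent.W_448f4_h70.JQ
import Pool.Agent.W_448f4_h70.IF
import Pool.Agent.W_448jx_h67.WeI
import Pool.Agent.W_448jx_h67.WeL

/-!
# The windows `2`, `3` for even `j` from `12` on, beyond the twins of the cells `(m, m + 1)`
(MP_448cb3_co, S7)
-/

namespace Pool.Agent.GaussPoset.Sm

set_option linter.unusedSectionVars false

open Polynomial Finset W4 Cp Wd

universe u

variable {P : Type u} [Fintype P] [PartialOrder P] [DecidableEq P] {r j w K Kc K0 : ℕ}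
  {N : Tops P → Finset P} {b : Tops P → ℕ} {θ : Tops P → P → ℕ} {XE XO : ℕ → Prop}

lemma Wk.toWe (W : Wk r j w K N b θ) : We r j w K N b θ where
  gt := W.gt
  hj := W.hj
  hw1 := W.hw1
  hw := W.hw
  typ := fun t => Or.inl (W.typ t)
  nt := fun t => (W.top t).natTop W.gt.H.gradedBelow
  sum_b := W.sum_b
  hK := W.hK
  rdeep := W.rdeep
  sdeep := W.sdeep

/-- the twins of the cells `(m, m + 1)` and their pendants are natural -/
theorem Wk.fsK (W : Wk r j w K0 N b θ) (h12 : 12 ≤ j) (hw2 : 2 ≤ w)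
    (hK : Kc ≤ fcT w j + (j - w)) : FS P j w Kc N b θ (zfA j N) (Fc j) (hF j w N b θ) := by
  obtain ⟨B, W'⟩ := W.fdx (by omega)
  exact W'.fs (fun z hz => W.hA_cel hw2 hz) hK
    (fun n0 _ g x z hz hzx hzC h1 h2 h3 m hm => W.bigCF h12 hw2 hz hzx hzC h1 h2 h3 hm)

/-- the inputs at window `w` -/
theorem Wk.lkFK {Zf : Finset P} {FT : P → Prop} (W : Wk r j w K0 N b θ) (hw2 : 2 ≤ w)
    (h10 : 10 ≤ j) (hj2 : j % 2 = 0)
    (hK : 2 * K < 3 * (j + 1 - w) ^ 2 + 3 * (j + 1 - w)) (hu : Unq P w b)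
    (hcc : NoCC P j ∨ Okv K XE XO (ccN w j) (ccC w j))
    (hFo : ∀ z x x' : P, FJn j z x x' → K < cst w (fun _ => j - w - 1) z)
    (hfv : Okv K XE XO (foN w j) (foC w j))
    (C : CellsF P j w K0 K N b θ XE XO Zf FT) :
    LkF P j w K0 K N b θ XE XO Zf FT where
  hK := hK
  unq := hu
  nsk := fun z x x' h hl hn hns => by
    have hw := W.hw
    exact (nsk23' h10 (by omega) hn hns).elim
  dj := fun v z x hz hc hl hzx hD =>
    (W.dj_S hw2 (by omega) (fun h => by omega) (fun _ => hcc) (fun _ => hFo) (fun _ => hfv) hz hc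
      hl hzx hD).toK
  dp := fun v z x hz hzf _ hc hx hzx hl hD hR =>
    (W.toWe.dp_cellsN hw2 (by omega) C hz hzf hc hx hzx hl hD hR).toK
  dt := fun x hx hxf hD hR => (W.toWe.dt_cellsN hw2 (by omega) C hx hxf hD hR).toT

variable {lo hi : Tops P → ℕ → ℕ} {e : Tops P → ℕ → ℕ → P}

/-- **the balance at the windows `2`, `3` beyond the twins of the cells `(m, m + 1)`** -/
theorem Ctx.winFK (K : Ctx P r j lo hi e) (h12 : 12 ≤ j) (hj2 : j % 2 = 0)
    (hw : w = 2 ∨ w = 3) {c0 cT : ℕ} {LE LO : List ℤ} {lb : ℤ}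
    (c1 : ∀ a ∈ Finset.Icc 2 ((j + 1) / 2), (j + 1 - w) ^ 2 + c0 + 1 < stC w (j + 1) a)
    (c2 : ∀ a ∈ Finset.Icc 2 (j - 1), (j + 1 - w) ^ 2 + c0 + 1 < reC w (j + 1) a)
    (hc : c0 ≤ cT) (hcF : (j + 1 - w) ^ 2 + cT ≤ fcT w j + (j - w))
    (hcell : ∀ (N : Tops P → Finset P) (b : Tops P → ℕ) (θ : Tops P → P → ℕ),
      Wk r j w ((j + 1 - w) ^ 2 + c0) N b θ →
      CellsF P j w ((j + 1 - w) ^ 2 + c0) ((j + 1 - w) ^ 2 + cT) N b θ
        (XL (j + 1 - w) LE) (XL (j + 1 - w) LO) (zfA j N) (Fc j))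
    (hcc : NoCC P j ∨ Okv ((j + 1 - w) ^ 2 + cT) (XL (j + 1 - w) LE) (XL (j + 1 - w) LO)
      (ccN w j) (ccC w j))
    (hFo : ∀ z x x' : P, FJn j z x x' →
      (j + 1 - w) ^ 2 + cT < cst w (fun _ => j - w - 1) z)
    (hfv : Okv ((j + 1 - w) ^ 2 + cT) (XL (j + 1 - w) LE) (XL (j + 1 - w) LO)
      (foN w j) (foC w j))
    (c6 : 2 * ((j + 1 - w) ^ 2 + cT) < 3 * (j + 1 - w) ^ 2 + 3 * (j + 1 - w))
    (c7 : cT < 7 * (j + 1 - w) + 10)
    (hl0 : lb ≤ 0) (hlE : ∀ x ∈ LE, lb ≤ x) (hlO : ∀ x ∈ LO, lb ≤ x)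
    (hJ : ∃ z : P, Hul.Jn z) :
    ∃ (N : Tops P → Finset P) (θ : Tops P → P → ℕ) (v : ℕ),
      Wk r j w ((j + 1 - w) ^ 2 + c0) N (fun t => hi t w - lo t w + 1) θ ∧
      MnF w N (zfA j N) (Fc j) (hF j w N (fun t => hi t w - lo t w + 1) θ)
        (tcS j w N (fun t => hi t w - lo t w + 1) θ) v ∧
      WinB P j w cT (fun V => LO.elem V)
        (fun V => nz ((j + 1 - w : ℕ) : ℤ) V || LE.elem V) lb
        ((v : ℤ) - ((j + 1 - w : ℕ) : ℤ) ^ 2) := by
  have H := K.gt.H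
  have h16 := K.h16
  have hFo' : NoFo P j := noFo_big h12
  have hwj : w = 2 ∨ (w = 3 ∧ 11 ≤ j) := by omega
  have hsh : ∀ t : Tops P, lo t w = hi t w ∨ RectShape j (lo t) (hi t) ∨
      StairShape j (lo t) (hi t) ∨ StairShape j (fun k => k - hi t k) (fun k => k - lo t k) := by
    intro t
    rcases shape_cases (K.comp t) (by omega) (K.shape t) with h | h | ⟨a, h, h3⟩
    · exact Or.inl (h w (by omega))
    · exact Or.inr (by tauto)
    · left
      have h4 := h.lt (h3 (by omega)) hwj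
      rw [(h.low w (by omega)).1, (h.low w (by omega)).2]
  obtain ⟨N, θ, t1, t2, hs, hu⟩ := K.types (w := w) (by omega) hsh
  have W : Wk r j w ((j + 1 - w) ^ 2 + c0) N (fun t => hi t w - lo t w + 1) θ :=
    { gt := K.gt, hj := by omega, hw1 := by omega, hw := by omega, typ := t1, top := t2
      sum_b := hs
      hK := by omega
      rdeep := fun C _ hx _ h1 h2 h3 h4 => rdeep_of (by omega) (by omega) c2 C hx h1 h2 h3 h4
      sdeep := fun _ _ _ _ C _ hx _ h1 h3 h4 => sdeep_of (by omega) (by omega) c1 C hx h1 h3 h4 }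
  have L := W.lkFK (by omega) (by omega) hj2 c6 hu hcc hFo hfv (hcell _ _ _ W)
  have F := W.fsK h12 (by omega) hcF
  have hlow : ∀ z x x' : P, Cg z x x' → Sok j x → Sok j x' → j + 1 ≤ lev z →
      ∀ k, k < w → nab k z = 2 := by
    intro z x x' h hs hs' hl k hk
    rw [h.sum H (by omega), K.low_one' hFo' (by omega) hwj h hs hk,
      K.low_one' hFo' (by omega) hwj h.symm hs' hk]
  have hpen : OnePen P j (fun t => 2 ≤ hi t w - lo t w + 1) ∨ ∃ z : P, Hul.Jn z ∧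
      ful w z ≤ (j + 1 - w) ^ 2 + 5 * (j - w) := by
    rcases K.pen_or with h | ⟨hodd, -⟩
    · left
      intro e e' p p' hB
      refine h e e' p p' ?_
      rcases shape_cases (K.comp (topOf e)) (by omega) (K.shape (topOf e)) with h | h | ⟨a, h, h3⟩
      · have := h w (by omega)
        omega
      · exact h
      · have h4 := h.lt (h3 (by omega)) hwj
        have e1 := h.low w (by omega)
        omega
    · omega
  obtain ⟨v, M, h⟩ := W.toWe.winBS (by omega) F L h16 (cT := (cT : ℤ)) (lb := lb)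
    (by push_cast; ring) (by exact_mod_cast c7) hl0 hlE hlO
    (fun z x x' h hs hs' hl _ => hlow z x x' h hs hs' hl)
    (fun v _ z x x' h hs hs' hl => Or.inl (hlow z x x' h hs hs' hl)) hpen hJ
  exact ⟨N, θ, v, W, M, h⟩

end Pool.Agent.GaussPoset.Sm
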