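import Pool.Agent.W_448f4_h70.JQ
import Pool.Agent.W_448jx_h67.WeN

/-!
The windows 2 and 3 of S7 at `j = 10`: the fold cells (MP_448cb3_co)
-/

namespace Pool.Agent.GaussPoset.Sm

set_option linter.unusedSectionVars false

open Polynomial Finset

universe u

variable {P : Type u} [Fintype P] [PartialOrder P] [DecidableEq P] {r j w K Kc K0 : ℕ}
  {N : Tops P → Finset P} {b : Tops P → ℕ} {θ : Tops P → P → ℕ} {B : Tops P → P → Prop}

/-- the cell `(j / 2, j / 2 + 1)` seen from above -/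
lemma FoX.fc {x x' : P} (h7 : 6 ≤ j) (hj2 : j % 2 = 0) (h : FoX j w N x)
    (hup : ∀ y, x < y ↔ x' < y) : Fc j x' := by
  obtain ⟨Nc, co, h0, h1, h2, h3, h4⟩ := h
  have hl := h0.chart.lev x h2
  have hll : lev x = lev x' := lev_eq_of_up hup
  have e1 := stair_nab h0.chart h2 (k := j - 1) (by omega)
  have e2 := stair_nab h0.chart h2 (k := j - 2) (by omega)
  have g1 : nab (j - 1) x = nab (j - 1) x' := nab_congr_up hup (by omega)
  have g2 : nab (j - 2) x = nab (j - 2) x' := nab_congr_up hup (by omega)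
  exact ⟨by omega, by omega, by omega⟩

lemma FdX.fox (W : FdX r j w N b θ B) {x : P} (hx : x ∈ twA N) (hxF : Fc j x) :
    FoX j w N (twT N x) := by
  obtain ⟨Nc, co, h0, h1, h2, h3, h4, h5⟩ := W.stair hx hxF
  obtain ⟨c1, c2, c3, c4⟩ := W.cell hx hxF h0 h1 h2
  have hcp : topOf (twT N x) = topOf x := W.tws.cp x hx
  refine ⟨Nc, co, ?_, ?_, c1, ?_, ?_⟩
  · rw [hcp]; exact h0
  · rw [hcp]; exact h1
  · rw [c3]
  · rw [c3]

/-- the pendants -/
lemma zfA_of {z x : P} (hz : z ∈ rA N) (hx : x ∈ twA N) (hxF : Fc j x) (hzx : z ⋖ x)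
    (ho : ∀ y, z ⋖ y → y = x) : z ∈ zfA j N := by
  refine mem_zfA.mpr ⟨hz, x, hx, hxF, fun y => ⟨fun h => ?_, fun h => hzx.1.trans_le h⟩⟩
  obtain ⟨u, hu, huy⟩ := Hul.exists_cov h
  rw [ho u hu] at huy
  exact huy

/-- the part of the element below both ends of a stair -/
theorem We.bigCF (W : We r j w K N b θ) (h10 : j = 10) (hw2 : 2 ≤ w) {n0 : ℕ} {g : P → ℕ}
    {x z : P} (hz : z ∈ ((unnat N \ twA N) \ zfA j N)) (hzx : z ⋖ x) (hzC : CEl j w N θ z)
    (hlt : hA N θ z ≤ g z) (hgz : g z < lev z - w)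
    (hCc : n0 ≤ cst w (fun _ => lev z - w) z) (h3' : w = 2)
    (hex : ∀ t : Tops P, ∃ x ≤ (t : P), lev x = w) {m : ℕ}
    (hm : m + ∑ x ∈ ((unnat N \ twA N) \ zfA j N), g x ≤ n0) :
    (1 + X : ℤ[X]) ^ (b (topOf x)) ∣
      ZB (P := {y : P // y ∉ ((unnat N \ twA N) \ zfA j N) ∧ topOf y = topOf x}) w ∅ 0
        (fun y => by classical exact ((((unnat N \ twA N) \ zfA j N)).filter (fun z => z ⋖ (y : P))).sup g) m := by
  classical
  have H := W.gt.H
  have HN := W.natSys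
  have hj := W.hj
  have hw := W.hw
  have hz' := hzC
  obtain ⟨h1, h2, f, s, h3, h4, h5, h6, h7⟩ := hz'
  obtain ⟨Nc, co, C⟩ := W.fold_cell hw2 h1 h2 h3 h4 h5 h7 (W.not_E6 h1 h2 h3 h4 h5 h6)
  have e1 := W.hA_fold C h1 h2 h3 h4 h5 h6
  obtain ⟨s1, s2, s3⟩ := W.fold_end C h1 h2 h3 h4 h5 h6
  have hlf := C.lev
  have hls : lev s = j := by
    have := C.nat.chart.lev s s1
    omega
  have htx : topOf x = topOf f := by
    rcases cov_two H h3 h4 h5 hzx with rfl | rfl
    · rfl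
    · exact h6.symm
  have hbt : b (topOf x) = 2 := by rw [htx, C.hb]
  rw [hbt]
  set k := g z with hk
  have hk1 : j - w - 1 ≤ k := by omega
  have hk2 : k ≤ j - w := by omega
  have hfull := cst_full_le H h3 h4 h5 (w := w) (k := k) (by omega)
  have hn0 : n0 ≤ F4.Efs w k f s + k + 4 := hCc.trans hfull
  have hsz : k ≤ ∑ x ∈ ((unnat N \ twA N) \ zfA j N), g x :=
    Finset.single_le_sum (f := g) (fun _ _ => Nat.zero_le _) hz
  obtain ⟨B, W'⟩ := W.fdx (by omega) hex
  have hp := W'.part_up (topOf x)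
  have hfR : f ∉ ((unnat N \ twA N) \ zfA j N) := fun h =>
    W.low (by omega) (mem_sdiff.mp (mem_sdiff.mp h).1).1
  have hsR : s ∉ ((unnat N \ twA N) \ zfA j N) := fun h =>
    W.low (by omega) (mem_sdiff.mp (mem_sdiff.mp h).1).1
  have hBf : k ≤ ((((unnat N \ twA N) \ zfA j N)).filter (fun z => z ⋖ f)).sup g :=
    Finset.le_sup (f := g) (mem_filter.mpr ⟨hz, h3⟩)
  have hBs : k ≤ ((((unnat N \ twA N) \ zfA j N)).filter (fun z => z ⋖ s)).sup g :=
    Finset.le_sup (f := g) (mem_filter.mpr ⟨hz, h4⟩)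
  by_cases hbigz : ∃ z' ∈ ((unnat N \ twA N) \ zfA j N), k < g z'
  · obtain ⟨z', hz', hk'⟩ := hbigz
    have hne' : z' ≠ z := by
      rintro rfl
      omega
    have h8 : g z + g z' ≤ ∑ x ∈ ((unnat N \ twA N) \ zfA j N), g x := by
      rw [← Finset.sum_pair (f := g) hne'.symm]
      refine Finset.sum_le_sum_of_subset ?_
      intro y hy
      rw [mem_insert, mem_singleton] at hy
      rcases hy with rfl | rfl
      · exact hz
      · exact hz'
    rw [F4.part_zero hp (i := w) (k := k) (f := f) (s := s) ⟨hfR, htx.symm⟩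
      ⟨hsR, h6.symm.trans htx.symm⟩ hBf hBs (by omega)]
    exact dvd_zero _
  · push Not at hbigz
    have hBle : ∀ y : P, ((((unnat N \ twA N) \ zfA j N)).filter (fun z => z ⋖ y)).sup g ≤ k := by
      intro y
      refine Finset.sup_le fun z' hz' => ?_
      exact hbigz z' (mem_filter.mp hz').1
    refine F4.part_two' H.gradedBelow hp (i := w) (k := k) (M := j / 2 + 1) (c0 := 4) (f := f) (s := s)
      ⟨hfR, htx.symm⟩ ⟨hsR, h6.symm.trans htx.symm⟩ (by omega) (by omega) ?_ (by omega)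
      (by omega) ?_ (fun y => hBle y) (le_antisymm (hBle f) hBf) (le_antisymm (hBle s) hBs)
      (by omega)
    · rintro y ⟨-, hy2⟩ hy3
      have hyN : y ∈ Nc := by
        refine C.nat.strip (mem_lowPart.mpr ⟨?_, by omega⟩)
        rw [← htx, ← hy2]
        exact le_topOf y
      have hly := C.nat.chart.lev y hyN
      have hmy : (co y).1 ≤ (co y).2 := C.nat.chart.mem y hyN
      rcases Nat.lt_or_ge (j / 2) (co y).2 with h9 | h9
      · right
        rw [C.nat.chart.le_iff s s1 y hyN, Prod.le_def, s2, s3]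
        constructor
        · omega
        · omega
      · left
        rw [C.nat.chart.le_iff f C.mem y hyN, Prod.le_def, C.co1, C.co2]
        constructor
        · omega
        · exact h9
    · intro y hy1 hy2
      have hyN := C.nat.chart.up f C.mem y hy1
      have a1 := (C.nat.chart.le_iff f C.mem y hyN).mp hy1
      have a2 := (C.nat.chart.le_iff s s1 y hyN).mp hy2
      rw [Prod.le_def, C.co1, C.co2] at a1
      rw [Prod.le_def, s2, s3] at a2
      have hly := C.nat.chart.lev y hyN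
      have := C.ev
      omega

/-- **the window `2` at `j = 10`** -/
theorem We.fsF2 (W : We r 10 2 K0 N b θ) (hex : ∀ t : Tops P, ∃ x ≤ (t : P), lev x = 2)
    (hK : Kc ≤ 119) : FS P 10 2 Kc N b θ (zfA 10 N) (Fc 10) (hF 10 2 N b θ) := by
  obtain ⟨B, W'⟩ := W.fdx (by norm_num) hex
  refine W'.fs (fun z hz => ?_) (by rw [fcT_10_2]; exact hK)
    (fun n0 _ g x z hz hzx hzC h1 h2 h3 m hm =>
      W.bigCF rfl le_rfl hz hzx hzC h1 h2 h3 rfl hex hm)
  obtain ⟨h1, h2, f, s, h3, h4, h5, h6, h7⟩ := hz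
  obtain ⟨Nc, co, C⟩ := W.fold_cell le_rfl h1 h2 h3 h4 h5 h7 (W.not_E6 h1 h2 h3 h4 h5 h6)
  exact W.hA_fold C h1 h2 h3 h4 h5 h6

end Pool.Agent.GaussPoset.Sm
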