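import Pool.Agent.W_448f4_h70.JR
import Pool.Agent.W_448f4_h70.IG
import Pool.Agent.W_448pg_h74.WxB

/-!
# The windows `2`, `3` for `j = 12`, caps `61`, `53` (MP_448cb3_co, S7)
-/

namespace Pool.Agent.GaussPoset.Sm

set_option linter.unusedSectionVars false

open Finset Wd W4

universe u

variable {P : Type u} [Fintype P] [PartialOrder P] [DecidableEq P] {r j w : ℕ}
  {lo hi : Tops P → ℕ → ℕ} {e : Tops P → ℕ → ℕ → P}

/-- window `2` for `j = 12`, cap `61` -/
theorem Ctx.winFK2_12 (K : Ctx P r 12 lo hi e) (hE : NoE2 P 12) (hP : NoP2 P 12)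
    (hCC : NoCC P 12)
    (hNF : NF P 12) (hJ : ∃ z : P, Hul.Jn z) :
    ∃ V, WinB P 12 2 61 (fun V => ([] : List ℤ).elem V)
      (fun V => nz ((12 + 1 - 2 : ℕ) : ℤ) V || ([2] : List ℤ).elem V) 0 V := by
  obtain ⟨N, θ, v, -, -, h⟩ := K.winFK le_rfl (by norm_num) (Or.inl rfl) (c0 := 51) (cT := 61)
    (LE := [2]) (LO := []) (lb := 0)
    (by decide +kernel) (by decide +kernel) (by norm_num) (by decide +kernel)
    (fun N b θ W => W.toWe.cellsD le_rfl (by norm_num) (by norm_num) numD_12_2 hE hP) (Or.inl hCC)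
    (fun z x x' h => (hNF z x x' h.1 h.2.1 h.2.2).elim)
    (okv_e (by decide +kernel) (by decide +kernel)) (by norm_num) (by norm_num) le_rfl
    (by decide) (by decide) hJ
  exact ⟨_, h⟩

/-- window `3` for `j = 12`, cap `53` -/
theorem Ctx.winFK3_12 (K : Ctx P r 12 lo hi e) (hE : NoE2 P 12) (hP : NoP2 P 12)
    (hCC : NoCC P 12)
    (hNF : NF P 12) (hJ : ∃ z : P, Hul.Jn z) :
    ∃ V, WinB P 12 3 53 (fun V => ([] : List ℤ).elem V)
      (fun V => nz ((12 + 1 - 3 : ℕ) : ℤ) V || ([-2] : List ℤ).elem V) (-2) V := by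
  obtain ⟨N, θ, v, -, -, h⟩ := K.winFK le_rfl (by norm_num) (Or.inr rfl) (c0 := 42) (cT := 53)
    (LE := [-2]) (LO := []) (lb := -2)
    (by decide +kernel) (by decide +kernel) (by norm_num) (by decide +kernel)
    (fun N b θ W => W.toWe.cellsD (by norm_num) (by norm_num) (by norm_num) numD_12_3 hE hP)
    (Or.inl hCC)
    (fun z x x' h => (hNF z x x' h.1 h.2.1 h.2.2).elim)
    (okv_e (by decide +kernel) (by decide +kernel)) (by norm_num) (by norm_num) (by norm_num)
    (by decide) (by decide) hJ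
  exact ⟨_, h⟩

end Pool.Agent.GaussPoset.Sm
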